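import Pool.Agent.Henon88.SearchA

namespace Pool.Agent.Henon88

set_option maxRecDepth 100000 in
theorem runA_0_0 : runA1 (tab (ofCode (FA 0)) 512) zf0 0 0 = true := by decide +kernel

set_option maxRecDepth 100000 in
theorem runA_0_1 : runA1 (tab (ofCode (FA 0)) 512) zf0 0 1 = true := by decide +kernel

set_option maxRecDepth 100000 in
theorem runA_0_2 : runA1 (tab (ofCode (FA 0)) 512) zf0 0 2 = true := by decide +kernel

set_option maxRecDepth 100000 in
theorem runA_0_3 : runA1 (tab (ofCode (FA 0)) 512) zf0 0 3 = true := by decide +kernel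

set_option maxRecDepth 100000 in
theorem runA_0_4 : runA1 (tab (ofCode (FA 0)) 512) zf0 0 4 = true := by decide +kernel

set_option maxRecDepth 100000 in
theorem runA_0_5 : runA1 (tab (ofCode (FA 0)) 512) zf0 0 5 = true := by decide +kernel

set_option maxRecDepth 100000 in
theorem runA_0_6 : runA1 (tab (ofCode (FA 0)) 512) zf0 0 6 = true := by decide +kernel

set_option maxRecDepth 100000 in
theorem runA_0_7 : runA1 (tab (ofCode (FA 0)) 512) zf0 0 7 = true := by decide +kernel

theorem runA_0 : runA (tab (ofCode (FA 0)) 512) zf0 0 = true :=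
  runA_of runA_0_0 runA_0_1 runA_0_2 runA_0_3 runA_0_4 runA_0_5 runA_0_6 runA_0_7

end Pool.Agent.Henon88
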