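import Pool.Agent.Henon88.SearchA

namespace Pool.Agent.Henon88

set_option maxRecDepth 100000 in
theorem runA_2_0 : runA1 (tab (ofCode (FA 2)) 512) (zfw 2 4) 2 0 = true := by decide +kernel

set_option maxRecDepth 100000 in
theorem runA_2_1 : runA1 (tab (ofCode (FA 2)) 512) (zfw 2 4) 2 1 = true := by decide +kernel

set_option maxRecDepth 100000 in
theorem runA_2_2 : runA1 (tab (ofCode (FA 2)) 512) (zfw 2 4) 2 2 = true := by decide +kernel

set_option maxRecDepth 100000 in
theorem runA_2_3 : runA1 (tab (ofCode (FA 2)) 512) (zfw 2 4) 2 3 = true := by decide +kernel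

set_option maxRecDepth 100000 in
theorem runA_2_4 : runA1 (tab (ofCode (FA 2)) 512) (zfw 2 4) 2 4 = true := by decide +kernel

set_option maxRecDepth 100000 in
theorem runA_2_5 : runA1 (tab (ofCode (FA 2)) 512) (zfw 2 4) 2 5 = true := by decide +kernel

set_option maxRecDepth 100000 in
theorem runA_2_6 : runA1 (tab (ofCode (FA 2)) 512) (zfw 2 4) 2 6 = true := by decide +kernel

set_option maxRecDepth 100000 in
theorem runA_2_7 : runA1 (tab (ofCode (FA 2)) 512) (zfw 2 4) 2 7 = true := by decide +kernel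

theorem runA_2 : runA (tab (ofCode (FA 2)) 512) (zfw 2 4) 2 = true :=
  runA_of runA_2_0 runA_2_1 runA_2_2 runA_2_3 runA_2_4 runA_2_5 runA_2_6 runA_2_7

end Pool.Agent.Henon88
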