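import Pool.Agent.Henon88.SearchA

namespace Pool.Agent.Henon88

set_option maxRecDepth 100000 in
theorem runA_3b_0 : runA1 (tab (ofCode (FA 3)) 512) (zfw 6 9) 1 0 = true := by decide +kernel

set_option maxRecDepth 100000 in
theorem runA_3b_1 : runA1 (tab (ofCode (FA 3)) 512) (zfw 6 9) 1 1 = true := by decide +kernel

set_option maxRecDepth 100000 in
theorem runA_3b_2 : runA1 (tab (ofCode (FA 3)) 512) (zfw 6 9) 1 2 = true := by decide +kernel

set_option maxRecDepth 100000 in
theorem runA_3b_3 : runA1 (tab (ofCode (FA 3)) 512) (zfw 6 9) 1 3 = true := by decide +kernel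

set_option maxRecDepth 100000 in
theorem runA_3b_4 : runA1 (tab (ofCode (FA 3)) 512) (zfw 6 9) 1 4 = true := by decide +kernel

set_option maxRecDepth 100000 in
theorem runA_3b_5 : runA1 (tab (ofCode (FA 3)) 512) (zfw 6 9) 1 5 = true := by decide +kernel

set_option maxRecDepth 100000 in
theorem runA_3b_6 : runA1 (tab (ofCode (FA 3)) 512) (zfw 6 9) 1 6 = true := by decide +kernel

set_option maxRecDepth 100000 in
theorem runA_3b_7 : runA1 (tab (ofCode (FA 3)) 512) (zfw 6 9) 1 7 = true := by decide +kernel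

theorem runA_3b : runA (tab (ofCode (FA 3)) 512) (zfw 6 9) 1 = true :=
  runA_of runA_3b_0 runA_3b_1 runA_3b_2 runA_3b_3 runA_3b_4 runA_3b_5 runA_3b_6 runA_3b_7

end Pool.Agent.Henon88
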