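import Pool.Agent.Henon88.SemA
import Pool.Agent.Henon88.RunA0
import Pool.Agent.Henon88.RunA2
import Pool.Agent.Henon88.RunA3a
import Pool.Agent.Henon88.RunA3b
import Pool.Agent.Henon88.RunA4a
import Pool.Agent.Henon88.RunA4b

namespace Pool.Agent.Henon88

/-- four consecutive letters are repeated at a good distance -/
def Rep (s e1 e2 : ℤ → Bool) : Prop :=
  ∃ a P : ℕ, P ∈ ({1, 2, 3, 4, 6, 8} : Finset ℕ) ∧
    ∀ t : ℕ, t < 4 → s (a + P + t) = s (a + t) ∧ e1 (a + P + t) = e1 (a + t) ∧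
      e2 (a + P + t) = e2 (a + t)

theorem rep_strong {l : ℤ} {s e1 e2 : ℤ → Bool} (h : SemA 0 l 0 s e1 e2) : Rep s e1 e2 := by
  refine h.sound decA0 (isTab_tab decA0) (fun a b _ hb => ?_) ?_ runA_0
  · show b < 16
    omega
  · intro n m q1 q2 zb zb' h2 h2' _ _ e3 e4
    have := h.z n m q1 q2
    simp only [if_true] at this
    rw [← this] at e4
    show h2 = h2'
    have : (h2 : ℤ) = h2' := by rw [e3, e4]
    exact_mod_cast this

lemma zfw_aux {Q l m : ℕ} (hQ : Q ≠ 0) (hm : m = Q * Q) {a b v w : ℤ} {zb zb' h h' : ℕ}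
    (e : (a + l * v) % ((Q : ℤ) * Q) = (b + l * w) % ((Q : ℤ) * Q))
    (e1 : (zb : ℤ) = if (Q : ℤ) = 0 then 0 else a % ((Q : ℤ) * Q))
    (e2 : (zb' : ℤ) = if (Q : ℤ) = 0 then 0 else b % ((Q : ℤ) * Q))
    (e3 : (h : ℤ) = v + 3) (e4 : (h' : ℤ) = w + 3) : zfw l m zb h = zfw l m zb' h' := by
  have hQ' : (Q : ℤ) ≠ 0 := by exact_mod_cast hQ
  rw [if_neg hQ'] at e1 e2
  show (zb + l * h) % m = (zb' + l * h') % m
  have key : ((zb + l * h : ℕ) : ℤ) % m = ((zb' + l * h' : ℕ) : ℤ) % m := by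
    rw [hm]
    push_cast
    rw [e1, e2, e3, e4]
    have t1 : (a % ((Q : ℤ) * Q) + l * (v + 3)) % ((Q : ℤ) * Q)
        = ((a + l * v) % ((Q : ℤ) * Q) + l * 3) % ((Q : ℤ) * Q) := by
      rw [Int.emod_add_emod, Int.emod_add_emod]; congr 1; ring
    have t2 : (b % ((Q : ℤ) * Q) + l * (w + 3)) % ((Q : ℤ) * Q)
        = ((b + l * w) % ((Q : ℤ) * Q) + l * 3) % ((Q : ℤ) * Q) := by
      rw [Int.emod_add_emod, Int.emod_add_emod]; congr 1; ring
    rw [t1, t2, e]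
  exact_mod_cast key

theorem rep_weak {Q l m WM : ℕ} (hQ : Q ≠ 0) (hm : m = Q * Q) (hm16 : m ≤ 16)
    {s e1 e2 : ℤ → Bool} (h : SemA Q l WM s e1 e2) {T : ℕ} (hd : DecA Q) (hT : IsTab Q T)
    (hrun : runA T (zfw l m) WM = true) : Rep s e1 e2 := by
  have hm0 : 0 < m := by rw [hm]; positivity
  have hQ' : (Q : ℤ) ≠ 0 := by exact_mod_cast hQ
  refine h.sound hd hT (fun a b _ _ => (Nat.mod_lt _ hm0).trans_le hm16) ?_ hrun
  intro n k q1 q2 zb zb' h2 h2' e1' e2' e3' e4'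
  have e := h.z n k q1 q2
  rw [if_neg hQ'] at e
  exact zfw_aux hQ hm e e1' e2' e3' e4'

theorem rep_weak2 {s e1 e2 : ℤ → Bool} (h : SemA 2 2 2 s e1 e2) : Rep s e1 e2 :=
  rep_weak (Q := 2) (l := 2) (m := 4) (by norm_num) (by norm_num) (by norm_num) h decA2
    (isTab_tab decA2) runA_2

theorem rep_weak3 {s e1 e2 : ℤ → Bool} (h : SemA 3 3 1 s e1 e2 ∨ SemA 3 6 1 s e1 e2) :
    Rep s e1 e2 := by
  rcases h with h | h
  · exact rep_weak (Q := 3) (l := 3) (m := 9) (by norm_num) (by norm_num) (by norm_num) h decA3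
      (isTab_tab decA3) runA_3a
  · exact rep_weak (Q := 3) (l := 6) (m := 9) (by norm_num) (by norm_num) (by norm_num) h decA3
      (isTab_tab decA3) runA_3b

theorem rep_weak4 {s e1 e2 : ℤ → Bool} (h : SemA 4 4 1 s e1 e2 ∨ SemA 4 12 1 s e1 e2) :
    Rep s e1 e2 := by
  rcases h with h | h
  · exact rep_weak (Q := 4) (l := 4) (m := 16) (by norm_num) (by norm_num) (by norm_num) h decA4
      (isTab_tab decA4) runA_4a
  · exact rep_weak (Q := 4) (l := 12) (m := 16) (by norm_num) (by norm_num) (by norm_num) h decA4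
      (isTab_tab decA4) runA_4b

end Pool.Agent.Henon88
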