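import Pool.Agent.Henon88.SemA

/-!
The search for two sign places.
-/

namespace Pool.Agent.Henon88

def FT (a0 a1 _a2 s0 s1 _s2 b0 b1 _b2 : Bool) : ℕ :=
  (1 + 2 * bt (xor s0 s1) + 8 * (sg s0 * sg s1 * dd a1 b1 - dd a0 b0 + 2)
    + 64 * (sg s0 * dd a0 b0 + 1) + 256 * (dd a0 b0) ^ 2).toNat

lemma FT_lt : ∀ a0 a1 a2 s0 s1 s2 b0 b1 b2 : Bool,
    FT a0 a1 a2 s0 s1 s2 b0 b1 b2 < 4294967296 := by decide +kernel

lemma decT : ∀ a0 a1 s0 s1 b0 b1 : Bool,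
    let e := FT a0 a1 false s0 s1 false b0 b1 false
    (fl e 2 4 : ℤ) = bt (xor s0 s1) ∧
    (fl e 8 8 : ℤ) = sg s0 * sg s1 * dd a1 b1 - dd a0 b0 + 2 ∧
    (fl e 64 4 : ℤ) = sg s0 * dd a0 b0 + 1 ∧
    (fl e 256 2 : ℤ) = (dd a0 b0) ^ 2 := by decide +kernel

def beqT (u v : ℕ) : Bool := Nat.beq (fl u 8 8) (fl v 8 8)

def cT (L : ℕ → ℕ) (e : ℕ) : Bool := chk L (kA e) e beqT

def smT (em e ep : ℕ) : ℕ :=
  Nat.add (Nat.add 1 (Nat.mul 2 (kA e))) (Nat.mul 8 (hv em e ep 64 256))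

def runT (T : ℕ) : Bool := start 4 (rd T) kA cT smT kA cT 20

set_option maxRecDepth 100000 in
theorem runT_ok : runT (tab (ofCode FT) 512) = true := by decide +kernel

structure SemT (s e : ℤ → Bool) : Prop where
  s0 : s 0 = false
  e0 : e 0 = false
  w : ∀ n m, cl s e n = cl s e m → ww s e n = ww s e m
  h : ∀ n m, cl s e n = cl s e m → hh s n = hh s m

structure FldT (s e : ℤ → Bool) (n : ℤ) (E : ℕ) : Prop where
  k : (kA E : ℤ) = bt (cl s e n)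
  w : (fl E 8 8 : ℤ) = ww s e n + 2
  p0 : (fl E 64 4 : ℤ) = sg (s n) * D s n + 1
  r0 : (fl E 256 2 : ℤ) = (D s n) ^ 2

def IsTabT (T : ℕ) : Prop := ∀ c < 512, rd T c = ofCode FT c

lemma isTabT : IsTabT (tab (ofCode FT) 512) := by
  intro c hc
  exact rd_tab (fun c _ => FT_lt (tb c 0) (tb c 1) (tb c 2) (tb c 3) (tb c 4) (tb c 5) (tb c 6)
    (tb c 7) (tb c 8)) hc

/-- the letters -/
def ltt (s e : ℤ → Bool) (i : ℕ) : ℕ := lt (s i) (e i) false

lemma fldT {T : ℕ} (hT : IsTabT T) (s e : ℤ → Bool) (i : ℕ) :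
    FldT s e (i + 1) (En (rd T) (ltt s e) i) := by
  have hc : W3 (ltt s e) i < 512 := by
    unfold W3 ltt
    have := lt_lt (s i) (e i) false
    have := lt_lt (s (i + 1 : ℕ)) (e (i + 1 : ℕ)) false
    have := lt_lt (s (i + 2 : ℕ)) (e (i + 2 : ℕ)) false
    omega
  unfold En
  rw [hT _ hc]
  unfold W3 ltt
  rw [ofCode_code]
  have c1 : ((i + 1 : ℕ) : ℤ) = (i : ℤ) + 1 := by push_cast; ring
  have c2 : ((i + 2 : ℕ) : ℤ) = (i : ℤ) + 2 := by push_cast; ring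
  rw [c1, c2]
  obtain ⟨h1, h2, h3, h4⟩ := decT (s i) (e i) (s (i + 1)) (e (i + 1)) (s (i + 2)) (e (i + 2))
  simp only [dd_D] at h2 h3 h4
  exact ⟨h1, h2, h3, h4⟩

lemma smT_fields {s e : ℤ → Bool} {n : ℤ} {em E ep : ℕ} (hm : FldT s e (n - 1) em)
    (h : FldT s e n E) (hp : FldT s e (n + 1) ep) :
    (kA (smT em E ep) : ℤ) = bt (cl s e n) ∧ (fl (smT em E ep) 8 8 : ℤ) = hh s n + 3 := by
  have v0 := hv_eq (e := s) hm.p0 h.r0 hp.p0
  have b0 := hh_bd s n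
  have k4 : kA E < 4 := Nat.mod_lt _ (by norm_num)
  have c0 : hv em E ep 64 256 < 8 := by omega
  have d : ∀ k v : ℕ, k < 4 → v < 8 → (1 + 2 * k + 8 * v) / 2 % 4 = k ∧
      (1 + 2 * k + 8 * v) / 8 % 8 = v := by
    intro k v hk hv; omega
  obtain ⟨d1, d2⟩ := d _ _ k4 c0
  refine ⟨?_, ?_⟩
  · have : kA (smT em E ep) = kA E := d1
    rw [this]; exact h.k
  · have : fl (smT em E ep) 8 8 = hv em E ep 64 256 := d2
    rw [this]; exact v0

lemma cT_ok {s e : ℤ → Bool} {v : ℤ → ℤ} (hv : ∀ n m, cl s e n = cl s e m → v n = v m)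
    {F : ℕ → ℕ} {f : ℕ → ℤ} (hF : ∀ i : ℕ, (kA (F i) : ℤ) = bt (cl s e (f i)) ∧
      (fl (F i) 8 8 : ℤ) = v (f i)) (L : ℕ → ℕ) (i : ℕ) (hL : Inv F kA L) : cT L (F i) = true := by
  refine chk_true hL ?_
  intro j hj
  have k1 := (hF j).1
  have k2 := (hF i).1
  rw [hj, k2] at k1
  have q : cl s e (f i) = cl s e (f j) := by
    revert k1
    generalize cl s e (f i) = a
    generalize cl s e (f j) = b
    revert a b; decide
  have a1 := hv _ _ q
  have v1 := (hF j).2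
  have v2 := (hF i).2
  have : (fl (F j) 8 8 : ℤ) = fl (F i) 8 8 := by rw [v1, v2, a1]
  have e : fl (F j) 8 8 = fl (F i) 8 8 := by exact_mod_cast this
  show Nat.beq _ _ = true
  rw [e]; exact Nat.beq_refl _

lemma ltt_lt (s e : ℤ → Bool) (i : ℕ) : ltt s e i < 4 := by
  unfold ltt
  generalize s i = a
  generalize e i = b
  revert a b; decide

theorem SemT.sound {s e : ℤ → Bool} (h : SemT s e) {T : ℕ} (hT : IsTabT T)
    (hrun : start 4 (rd T) kA cT smT kA cT 20 = true) :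
    ∃ a P : ℕ, P ∈ ({1, 2, 3, 4, 6, 8} : Finset ℕ) ∧
      ∀ t : ℕ, t < 4 → s (a + P + t) = s (a + t) ∧ e (a + P + t) = e (a + t) := by
  have hE : ∀ i : ℕ, FldT s e (i + 1) (En (rd T) (ltt s e) i) := fldT hT s e
  have hS : ∀ i : ℕ, (kA (Sm (rd T) smT (ltt s e) i) : ℤ) = bt (cl s e (i + 2)) ∧
      (fl (Sm (rd T) smT (ltt s e) i) 8 8 : ℤ) = hh s (i + 2) + 3 := by
    intro i
    refine smT_fields ?_ ?_ ?_
    · have := hE i
      rwa [show (i : ℤ) + 2 - 1 = i + 1 by ring]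
    · have := hE (i + 1)
      rwa [show ((i + 1 : ℕ) : ℤ) + 1 = i + 2 by push_cast; ring] at this
    · have := hE (i + 2)
      rwa [show ((i + 2 : ℕ) : ℤ) + 1 = i + 2 + 1 by push_cast; ring] at this
  have h0 : ltt s e 0 = 0 := by
    unfold ltt
    rw [show ((0 : ℕ) : ℤ) = 0 from rfl, h.s0, h.e0]; rfl
  obtain ⟨a, j, hj, hW⟩ := start_sound hrun (σ := ltt s e) (ltt_lt s e) (by norm_num) h0
    (fun L i hL => cT_ok (v := fun n => ww s e n + 2) (fun n m q => by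
      show ww s e n + 2 = ww s e m + 2
      rw [h.w n m q]) (f := fun i => (i : ℤ) + 1) (fun i => ⟨(hE i).k, (hE i).w⟩) L i hL)
    (fun L i hL => cT_ok (v := fun n => hh s n + 3) (fun n m q => by
      show hh s n + 3 = hh s m + 3
      rw [h.h n m q]) (f := fun i => (i : ℤ) + 2) hS L i hL)
  refine ⟨a, j, good_spec hj, ?_⟩
  obtain ⟨w0, w1, w2, w3⟩ := W4_inj (σ := ltt s e) (fun i => (ltt_lt s e i).trans (by norm_num)) hW
  intro t ht
  have key : ltt s e (a + j + t) = ltt s e (a + t) := by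
    interval_cases t
    · exact w0
    · exact w1
    · exact w2
    · exact w3
  have := lt_inj key
  push_cast at this
  exact ⟨this.1, this.2.1⟩

end Pool.Agent.Henon88
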