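import Pool.Agent.Henon88.Real
import Pool.Agent.Henon88.FinA
import Pool.Agent.Henon88.SemT

/-!
From repetitions of letters to periods, and the relations coming from the recursion.
-/

namespace Pool.Agent.Henon88

variable {B : ℕ} {X : ℤ → ℤ} {S : ℤ} {c : ℚ} {x : ℤ → ℚ}

lemma X_eq (s : ℤ → Bool) (n : ℤ) : X n = sg (s n) * (aa B X s n + B * D s n) := by
  unfold aa
  linear_combination -(X n) * sg_sq (s n)

/-- a repetition gives a good period -/
lemma good_of_rep (h : IsOrb c x) (hx : ∀ n, x n = X n / B) {s e1 e2 : ℤ → Bool}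
    (ha : ∀ n m, cl s e1 n = cl s e1 m → cl s e2 n = cl s e2 m → aa B X s n = aa B X s m)
    (hr : Rep s e1 e2) : Good x := by
  obtain ⟨a, P, hP, hr⟩ := hr
  have key : ∀ t : ℕ, t < 2 → X (a + P + (t + 1 : ℕ)) = X (a + (t + 1 : ℕ)) := by
    intro t ht
    obtain ⟨s0, -, -⟩ := hr t (by omega)
    obtain ⟨s1, f1, g1⟩ := hr (t + 1) (by omega)
    obtain ⟨s2, -, -⟩ := hr (t + 2) (by omega)
    rw [X_eq (B := B) (X := X) s (a + P + (t + 1 : ℕ)), X_eq (B := B) (X := X) s (a + (t + 1 : ℕ))]
    have hD : D s (a + P + (t + 1 : ℕ)) = D s (a + (t + 1 : ℕ)) := by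
      unfold D
      have u1 : (a : ℤ) + P + (t + 1 : ℕ) - 1 = a + P + t := by push_cast; ring
      have u2 : (a : ℤ) + P + (t + 1 : ℕ) + 1 = a + P + (t + 2 : ℕ) := by push_cast; ring
      have u3 : (a : ℤ) + (t + 1 : ℕ) - 1 = a + t := by push_cast; ring
      have u4 : (a : ℤ) + (t + 1 : ℕ) + 1 = a + (t + 2 : ℕ) := by push_cast; ring
      rw [u1, u2, u3, u4, s0, s2]
    have hA := ha (a + P + (t + 1 : ℕ)) (a + (t + 1 : ℕ)) (by unfold cl; rw [s1, f1])
      (by unfold cl; rw [s1, g1])
    rw [hA, hD, s1]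
  have k0 := key 0 (by norm_num)
  have k1 := key 1 (by norm_num)
  refine good_of_two h.step hP (i := a + 1) ?_ ?_
  · rw [hx, hx]
    have : X ((a : ℤ) + 1 + P) = X (a + 1) := by
      have := k0
      push_cast at this
      rw [← this]; congr 1; ring
    rw [this]
  · rw [hx, hx]
    have : X ((a : ℤ) + 1 + P + 1) = X (a + 1 + 1) := by
      have := k1
      push_cast at this
      rw [show (a : ℤ) + 1 + P + 1 = a + P + (1 + 1) by ring,
        show (a : ℤ) + 1 + 1 = a + (1 + 1) by ring]
      exact this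
    rw [this]

lemma good_of_semT (h : IsOrb c x) (hx : ∀ n, x n = X n / B) {s e : ℤ → Bool}
    (ha : ∀ n m, cl s e n = cl s e m → aa B X s n = aa B X s m) (hs : SemT s e) : Good x := by
  obtain ⟨a, P, hP, hr⟩ := hs.sound isTabT (by exact runT_ok)
  exact good_of_rep (B := B) (X := X) h hx (s := s) (e1 := e) (e2 := s) (fun n m h1 _ => ha n m h1)
    ⟨a, P, hP, fun t ht => ⟨(hr t ht).1, (hr t ht).2, (hr t ht).1⟩⟩

/-- the bracket in the quadratic identity -/
def br (B : ℕ) (X : ℤ → ℤ) (s : ℤ → Bool) (n : ℤ) : ℤ :=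
  sg (s (n + 1)) * (aa B X s (n + 1) - aa B X s n) - sg (s (n - 1)) * (aa B X s (n - 1) - aa B X s n)

lemma quad_aa (h : IOrb B S X) (s : ℤ → Bool) (n : ℤ) :
    aa B X s n ^ 2 = S + B * br B X s n + B ^ 2 * hh s n :=
  quad h s (aa B X s) (fun _ => rfl) n

lemma sg_cl (s e : ℤ → Bool) (n : ℤ) : sg (s n) * sg (cl s e n) = sg (e n) := by
  unfold cl
  generalize s n = a
  generalize e n = b
  revert a b; decide

/-- two classes: the bracket -/
lemma br_two {s e : ℤ → Bool} {A : Bool → ℤ} (hA : ∀ n, aa B X s n = A (cl s e n)) (n : ℤ) :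
    br B X s n = (A false - A true) * (sg (s n) * sg (e n) * ww s e n) := by
  have h2 : ∀ n, 2 * aa B X s n = (A false + A true) + (A false - A true) * sg (cl s e n) := by
    intro n
    rw [hA]
    cases cl s e n <;> simp [sg] <;> ring
  have hk : sg (s n) * sg (e n) = sg (cl s e n) := by rw [← sg_xor]; rfl
  have h3 : 2 * br B X s n = 2 * ((A false - A true) * (sg (s n) * sg (e n) * ww s e n)) := by
    have a1 := h2 (n + 1)
    have a2 := h2 (n - 1)
    have a3 := h2 n
    have b1 := sg_cl s e (n + 1)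
    have b2 := sg_cl s e (n - 1)
    have d1 := two_D s n
    have d2 := two_D e n
    have hkk : (sg (s n) * sg (e n)) * (sg (s n) * sg (e n)) = 1 := by
      rw [← sg_xor]; exact sg_sq _
    unfold br ww
    rw [hk] at hkk ⊢
    generalize A false - A true = u at *
    generalize A false + A true = v at *
    linear_combination sg (s (n + 1)) * a1 - sg (s (n - 1)) * a2
      - (sg (s (n + 1)) - sg (s (n - 1))) * a3 + u * b1 - u * b2 - u * d2
      + u * sg (cl s e n) * d1 - 2 * u * D e n * hkk
  exact mul_left_cancel₀ (by norm_num) h3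

/-- extension of a function of the class to all classes -/
lemma exists_cls1 {s e : ℤ → Bool}
    (ha : ∀ n m, cl s e n = cl s e m → aa B X s n = aa B X s m) :
    ∃ A : Bool → ℤ, (∀ n, aa B X s n = A (cl s e n)) ∧ ∀ k, ∃ n, A k = aa B X s n := by
  classical
  refine ⟨fun k => if hk : ∃ n, cl s e n = k then aa B X s hk.choose else aa B X s 0, ?_, ?_⟩
  · intro n
    have hk : ∃ m, cl s e m = cl s e n := ⟨n, rfl⟩
    simp only [dif_pos hk]
    exact ha _ _ hk.choose_spec.symm
  · intro k
    by_cases hk : ∃ n, cl s e n = k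
    · exact ⟨hk.choose, by simp only [dif_pos hk]⟩
    · exact ⟨0, by simp only [dif_neg hk]⟩

lemma exists_cls2 {s e1 e2 : ℤ → Bool}
    (ha : ∀ n m, cl s e1 n = cl s e1 m → cl s e2 n = cl s e2 m → aa B X s n = aa B X s m) :
    ∃ A : Bool → Bool → ℤ, (∀ n, aa B X s n = A (cl s e1 n) (cl s e2 n)) ∧
      ∀ k l, ∃ n, A k l = aa B X s n := by
  classical
  refine ⟨fun k l => if hk : ∃ n, cl s e1 n = k ∧ cl s e2 n = l then aa B X s hk.choose
    else aa B X s 0, ?_, ?_⟩
  · intro n
    have hk : ∃ m, cl s e1 m = cl s e1 n ∧ cl s e2 m = cl s e2 n := ⟨n, rfl, rfl⟩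
    simp only [dif_pos hk]
    exact ha _ _ hk.choose_spec.1.symm hk.choose_spec.2.symm
  · intro k l
    by_cases hk : ∃ n, cl s e1 n = k ∧ cl s e2 n = l
    · exact ⟨hk.choose, by simp only [dif_pos hk]⟩
    · exact ⟨0, by simp only [dif_neg hk]⟩

/-- with exact `ww` the second order term of the base is constant on classes -/
lemma hh_of_ww (h : IOrb B S X) {s e : ℤ → Bool}
    (ha : ∀ n m, cl s e n = cl s e m → aa B X s n = aa B X s m)
    (hw : ∀ n m, cl s e n = cl s e m → ww s e n = ww s e m) (n m : ℤ) (hc : cl s e n = cl s e m) :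
    hh s n = hh s m := by
  obtain ⟨A, hA, -⟩ := exists_cls1 ha
  have q1 := quad_aa h s n
  have q2 := quad_aa h s m
  have b1 := br_two hA n
  have b2 := br_two hA m
  rw [hw n m hc, cl_sg hc] at b1
  rw [ha n m hc, q2, b1, b2] at q1
  have hB : (B : ℤ) ^ 2 ≠ 0 := by
    have := h.pos
    positivity
  have : (B : ℤ) ^ 2 * hh s n = B ^ 2 * hh s m := by linarith
  exact mul_left_cancel₀ hB this

/-- if the second order term of the base is constant on classes and the classes have different
values then `ww` is constant on classes -/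
lemma ww_of_hh (h : IOrb B S X) {s e : ℤ → Bool} (hs : s 0 = false) (he : e 0 = false)
    (ha : ∀ n m, cl s e n = cl s e m → aa B X s n = aa B X s m)
    (hd : ∀ n m, cl s e n ≠ cl s e m → aa B X s n ≠ aa B X s m)
    (hh' : ∀ n m, cl s e n = cl s e m → hh s n = hh s m) (n m : ℤ) (hc : cl s e n = cl s e m) :
    ww s e n = ww s e m := by
  obtain ⟨A, hA, -⟩ := exists_cls1 ha
  by_cases hall : ∀ k, cl s e k = false
  · have hes : e = s := by
      funext k
      have := hall k
      unfold cl at this
      revert this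
      generalize s k = a
      generalize e k = b
      revert a b; decide
    have key : ∀ k, ww s s k = 0 := by
      intro k
      unfold ww
      linear_combination (D s k) * sg_sq (s k)
    rw [hes, key, key]
  · rw [not_forall] at hall
    obtain ⟨k, hk⟩ := hall
    have h0 : cl s e 0 = false := by unfold cl; rw [hs, he]; rfl
    have hk' : cl s e k = true := by
      revert hk
      cases cl s e k <;> simp
    have hne := hd 0 k (by rw [h0, hk']; decide)
    rw [hA 0, hA k, h0, hk'] at hne
    have q1 := quad_aa h s n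
    have q2 := quad_aa h s m
    have b1 := br_two hA n
    have b2 := br_two hA m
    rw [cl_sg hc] at b1
    rw [ha n m hc, q2, b1, b2, hh' n m hc] at q1
    have hB : (B : ℤ) ≠ 0 := by
      have := h.pos
      positivity
    have hkk : (sg (s m) * sg (e m)) * (sg (s m) * sg (e m)) = 1 := by
      rw [← sg_xor]; exact sg_sq _
    have h3 : (B * (A false - A true)) * ww s e n = (B * (A false - A true)) * ww s e m := by
      linear_combination -(sg (s m) * sg (e m)) * q1
        + (B * (A false - A true)) * (ww s e m - ww s e n) * hkk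
    exact mul_left_cancel₀ (mul_ne_zero hB (sub_ne_zero.2 hne)) h3

/-- three signs: the bracket -/
lemma br_three {s e1 e2 : ℤ → Bool} {A : Bool → Bool → ℤ}
    (hA : ∀ n, aa B X s n = A (cl s e1 n) (cl s e2 n)) (n : ℤ) :
    2 * br B X s n =
      (A false false + A false true - A true false - A true true)
        * (sg (s n) * sg (e1 n) * ww s e1 n)
      + (A false false - A false true + A true false - A true true)
        * (sg (s n) * sg (e2 n) * ww s e2 n)
      + (A false false - A false true - A true false + A true true)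
        * (sg (s n) * sg (e3 s e1 e2 n) * ww s (e3 s e1 e2) n) := by
  set c1 := A false false + A false true - A true false - A true true with hc1
  set c2 := A false false - A false true + A true false - A true true with hc2
  set c3 := A false false - A false true - A true false + A true true with hc3
  set c0 := A false false + A false true + A true false + A true true with hc0
  have hcl : ∀ n, sg (cl s e1 n) * sg (cl s e2 n) = sg (s n) * sg (e3 s e1 e2 n) := by
    intro n
    unfold cl e3 x3
    generalize s n = a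
    generalize e1 n = b
    generalize e2 n = c
    revert a b c; decide
  have h4 : ∀ n, 4 * aa B X s n = c0 + c1 * (sg (s n) * sg (e1 n)) + c2 * (sg (s n) * sg (e2 n))
      + c3 * (sg (s n) * sg (e3 s e1 e2 n)) := by
    intro n
    have k1 : sg (s n) * sg (e1 n) = sg (cl s e1 n) := by rw [← sg_xor]; rfl
    have k2 : sg (s n) * sg (e2 n) = sg (cl s e2 n) := by rw [← sg_xor]; rfl
    rw [k1, k2, ← hcl, hA, hc0, hc1, hc2, hc3]
    cases cl s e1 n <;> cases cl s e2 n <;> simp [sg] <;> ring
  have a1 := h4 (n + 1)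
  have a2 := h4 (n - 1)
  have a3 := h4 n
  have d0 := two_D s n
  have d1 := two_D e1 n
  have d2 := two_D e2 n
  have d3 := two_D (e3 s e1 e2) n
  have s1 := sg_sq (s (n + 1))
  have s2 := sg_sq (s (n - 1))
  have f1 := sg_sq (s n)
  have g1 := sg_sq (e1 n)
  have g2 := sg_sq (e2 n)
  have g3 := sg_sq (e3 s e1 e2 n)
  have h5 : 4 * br B X s n = c1 * (2 * D e1 n - sg (s n) * sg (e1 n) * (2 * D s n))
      + c2 * (2 * D e2 n - sg (s n) * sg (e2 n) * (2 * D s n))
      + c3 * (2 * D (e3 s e1 e2) n - sg (s n) * sg (e3 s e1 e2 n) * (2 * D s n)) := by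
    unfold br
    rw [d0, d1, d2, d3]
    generalize sg (e1 (n + 1)) = x1 at *
    generalize sg (e1 (n - 1)) = x2 at *
    generalize sg (e2 (n + 1)) = x3 at *
    generalize sg (e2 (n - 1)) = x4 at *
    generalize sg (e3 s e1 e2 (n + 1)) = x5 at *
    generalize sg (e3 s e1 e2 (n - 1)) = x6 at *
    linear_combination sg (s (n + 1)) * a1 - sg (s (n - 1)) * a2
      - (sg (s (n + 1)) - sg (s (n - 1))) * a3
      + (c1 * x1 + c2 * x3 + c3 * x5) * s1 - (c1 * x2 + c2 * x4 + c3 * x6) * s2
  have hp : ∀ e : ℤ → Bool, 2 * D e n - sg (s n) * sg (e n) * (2 * D s n)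
      = 2 * (sg (s n) * sg (e n) * ww s e n) := by
    intro e
    unfold ww
    have v1 := sg_sq (s n)
    have v2 := sg_sq (e n)
    linear_combination -2 * D e n * (sg (e n) * sg (e n)) * v1 - 2 * D e n * v2
  rw [hp, hp, hp] at h5
  linarith

/-- the relation between the second order term of the base and the third `ww` -/
lemma rr_of (h : IOrb B S X) {s e1 e2 : ℤ → Bool}
    (ha : ∀ n m, cl s e1 n = cl s e1 m → cl s e2 n = cl s e2 m → aa B X s n = aa B X s m)
    (hwin : ∀ n m, 1000 * |aa B X s n - aa B X s m| ≤ 989 * B) {n m : ℤ}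
    (q1 : cl s e1 n = cl s e1 m) (q2 : cl s e2 n = cl s e2 m) (w1 : ww s e1 n = ww s e1 m)
    (w2 : ww s e2 n = ww s e2 m) : hh s n = hh s m ∨
      |hh s n - hh s m| < |ww s (e3 s e1 e2) n - ww s (e3 s e1 e2) m| := by
  obtain ⟨A, hA, hA'⟩ := exists_cls2 ha
  have b1 := br_three hA n
  have b2 := br_three hA m
  have k3 : sg (s n) * sg (e3 s e1 e2 n) = sg (s m) * sg (e3 s e1 e2 m) := by
    have e : ∀ n, sg (s n) * sg (e3 s e1 e2 n) = (sg (s n) * sg (e1 n)) * (sg (s n) * sg (e2 n)) := by
      intro n
      unfold e3 x3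
      generalize s n = a
      generalize e1 n = b
      generalize e2 n = c
      revert a b c; decide
    rw [e, e, cl_sg q1, cl_sg q2]
  rw [cl_sg q1, cl_sg q2, k3, w1, w2] at b1
  set c3 := A false false - A false true - A true false + A true true with hc3
  set κ := sg (s m) * sg (e3 s e1 e2 m) with hκ
  have hB : (0 : ℤ) < B := by exact_mod_cast h.pos
  have hbr : 2 * (br B X s n - br B X s m)
      = c3 * κ * (ww s (e3 s e1 e2) n - ww s (e3 s e1 e2) m) := by
    linear_combination b1 - b2
  have hq : B * (br B X s n - br B X s m) + B ^ 2 * (hh s n - hh s m) = 0 := by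
    have u1 := quad_aa h s n
    have u2 := quad_aa h s m
    rw [ha n m q1 q2, u2] at u1
    linarith
  have hq2 : 2 * B * (hh s n - hh s m) = -(c3 * κ * (ww s (e3 s e1 e2) n - ww s (e3 s e1 e2) m)) := by
    rw [← hbr]
    have : (B : ℤ) * (2 * B * (hh s n - hh s m)) = B * (-(2 * (br B X s n - br B X s m))) := by
      linear_combination 2 * hq
    exact mul_left_cancel₀ hB.ne' this
  have hc : 1000 * |c3| ≤ 1978 * B := by
    obtain ⟨n1, e1'⟩ := hA' false false
    obtain ⟨n2, e2'⟩ := hA' false true
    obtain ⟨n3, e3'⟩ := hA' true false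
    obtain ⟨n4, e4'⟩ := hA' true true
    have v1 := hwin n1 n2
    have v2 := hwin n4 n3
    rw [← e1', ← e2'] at v1
    rw [← e4', ← e3'] at v2
    have : c3 = (A false false - A false true) + (A true true - A true false) := by
      rw [hc3]; ring
    rw [this]
    have := abs_add_le (A false false - A false true) (A true true - A true false)
    linarith
  have hκ1 : |κ| = 1 := by
    rw [hκ, ← sg_xor]
    generalize xor (s m) (e3 s e1 e2 m) = a
    cases a <;> simp [sg]
  have habs : 2 * B * |hh s n - hh s m| = |c3| * |ww s (e3 s e1 e2) n - ww s (e3 s e1 e2) m| := by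
    have := congrArg abs hq2
    rw [abs_neg, abs_mul (2 * (B : ℤ)), abs_mul (c3 * κ), abs_mul c3, hκ1, mul_one,
      abs_of_pos (by positivity : (0 : ℤ) < 2 * B)] at this
    exact this
  by_cases h0 : hh s n = hh s m
  · exact Or.inl h0
  · right
    have hpos : 0 < |hh s n - hh s m| := abs_pos.2 (sub_ne_zero.2 h0)
    by_contra hcon
    rw [not_lt] at hcon
    have e1' : 1000 * (|c3| * |ww s (e3 s e1 e2) n - ww s (e3 s e1 e2) m|)
        ≤ 1978 * B * |ww s (e3 s e1 e2) n - ww s (e3 s e1 e2) m| := by
      have := mul_le_mul_of_nonneg_right hc (abs_nonneg (ww s (e3 s e1 e2) n - ww s (e3 s e1 e2) m))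
      linarith
    have e2' : 1978 * B * |ww s (e3 s e1 e2) n - ww s (e3 s e1 e2) m|
        ≤ 1978 * B * |hh s n - hh s m| := mul_le_mul_of_nonneg_left hcon (by positivity)
    have e3' : 0 < B * |hh s n - hh s m| := mul_pos hB hpos
    nlinarith

end Pool.Agent.Henon88
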