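import Mathlib

/-!
Periodic solutions of `x (n+1) - x (n-1) = x n ^ 2 + c` over the rationals (orbits of the
quadratic Henon family), basic facts.
-/

namespace Pool.Agent.Henon88

/-- the Henon map -/
def fm (c : ℚ) : ℚ × ℚ → ℚ × ℚ := fun q => (q.2, q.2 ^ 2 + c + q.1)

/-- a two-sided periodic solution of the recursion -/
structure IsOrb (c : ℚ) (x : ℤ → ℚ) : Prop where
  step : ∀ n, x (n + 1) - x (n - 1) = x n ^ 2 + c
  per : ∃ N : ℕ, 0 < N ∧ ∀ n, x (n + N) = x n

/-- the conclusion on periods -/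
def Good (x : ℤ → ℚ) : Prop :=
  ∃ P : ℕ, P ∈ ({1, 2, 3, 4, 6, 8} : Finset ℕ) ∧ ∀ n, x (n + P) = x n

/-- two solutions which agree at two consecutive places agree everywhere -/
lemma eq_of_two {c : ℚ} {x y : ℤ → ℚ} (hx : ∀ n, x (n + 1) - x (n - 1) = x n ^ 2 + c)
    (hy : ∀ n, y (n + 1) - y (n - 1) = y n ^ 2 + c) {i : ℤ} (h0 : x i = y i)
    (h1 : x (i + 1) = y (i + 1)) : ∀ n, x n = y n := by
  have key : ∀ n : ℤ, x (i + n) = y (i + n) ∧ x (i + n + 1) = y (i + n + 1) := by
    intro n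
    induction n using Int.induction_on with
    | zero => simpa using ⟨h0, h1⟩
    | succ k ih =>
      obtain ⟨ha, hb⟩ := ih
      have e1 := hx (i + k + 1)
      have e2 := hy (i + k + 1)
      rw [add_sub_cancel_right] at e1 e2
      rw [← add_assoc]
      refine ⟨hb, ?_⟩
      rw [ha, hb] at e1
      linarith
    | pred k ih =>
      obtain ⟨ha, hb⟩ := ih
      have e1 := hx (i + -k)
      have e2 := hy (i + -k)
      rw [← add_sub_assoc, sub_add_cancel]
      refine ⟨?_, ha⟩
      rw [ha, hb] at e1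
      linarith
  intro n
  have := (key (n - i)).1
  simpa using this

lemma good_of_two {c : ℚ} {x : ℤ → ℚ} (hx : ∀ n, x (n + 1) - x (n - 1) = x n ^ 2 + c) {P : ℕ}
    (hP : P ∈ ({1, 2, 3, 4, 6, 8} : Finset ℕ)) {i : ℤ} (h0 : x (i + P) = x i)
    (h1 : x (i + P + 1) = x (i + 1)) : Good x := by
  refine ⟨P, hP, ?_⟩
  apply eq_of_two (c := c) (x := fun n => x (n + P)) (y := x) _ hx (i := i) h0
  · show x (i + 1 + P) = x (i + 1)
    rw [← h1]; congr 1; ring
  · intro n
    have := hx (n + P)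
    show x (n + 1 + P) - x (n - 1 + P) = _
    rw [show n + 1 + (P : ℤ) = n + P + 1 by ring, show n - 1 + (P : ℤ) = n + P - 1 by ring]
    exact this

/-- the reversor -/
lemma IsOrb.rev {c : ℚ} {x : ℤ → ℚ} (h : IsOrb c x) : IsOrb c (fun n => -x (-n)) := by
  refine ⟨fun n => ?_, ?_⟩
  · have := h.step (-n)
    show -x (-(n + 1)) - -x (-(n - 1)) = (-x (-n)) ^ 2 + c
    rw [show -(n + 1) = -n - 1 by ring, show -(n - 1) = -n + 1 by ring]
    linarith
  · obtain ⟨N, hN, h1⟩ := h.per
    refine ⟨N, hN, fun n => ?_⟩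
    show -x (-(n + N)) = -x (-n)
    rw [← h1 (-(n + N))]
    congr 2; ring

lemma Good.rev {x : ℤ → ℚ} (h : Good (fun n => -x (-n))) : Good x := by
  obtain ⟨P, hP, h1⟩ := h
  refine ⟨P, hP, fun n => ?_⟩
  have h2 : -x (-(-(n + P) + P)) = -x (-(-(n + P))) := h1 (-(n + P))
  rw [neg_neg, show -(-(n + (P : ℤ)) + P) = n by ring] at h2
  linarith

lemma IsOrb.shift {c : ℚ} {x : ℤ → ℚ} (h : IsOrb c x) (m : ℤ) : IsOrb c (fun n => x (n + m)) := by
  refine ⟨fun n => ?_, ?_⟩
  · have := h.step (n + m)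
    show x (n + 1 + m) - x (n - 1 + m) = x (n + m) ^ 2 + c
    rw [show n + 1 + m = n + m + 1 by ring, show n - 1 + m = n + m - 1 by ring]
    exact this
  · obtain ⟨N, hN, h1⟩ := h.per
    refine ⟨N, hN, fun n => ?_⟩
    show x (n + N + m) = x (n + m)
    rw [← h1 (n + m)]
    congr 1; ring

lemma Good.shift {x : ℤ → ℚ} {m : ℤ} (h : Good (fun n => x (n + m))) : Good x := by
  obtain ⟨P, hP, h1⟩ := h
  refine ⟨P, hP, fun n => ?_⟩
  have := h1 (n - m)
  simp only at this
  rw [show n - m + (P : ℤ) + m = n + P by ring, sub_add_cancel] at this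
  exact this

lemma per_mul {x : ℤ → ℚ} {N : ℕ} (h : ∀ n, x (n + N) = x n) (k : ℕ) (n : ℤ) :
    x (n + k * N) = x n := by
  induction k with
  | zero => simp
  | succ k ih =>
    rw [← ih, ← h (n + k * N)]
    congr 1; push_cast; ring

/-- the maximum of `|x n|` is attained -/
lemma IsOrb.exists_max {c : ℚ} {x : ℤ → ℚ} (h : IsOrb c x) : ∃ m, ∀ n, |x n| ≤ |x m| := by
  obtain ⟨N, hN, h1⟩ := h.per
  have key : ∀ n : ℤ, ∃ k : ℕ, k < N ∧ x n = x k := by
    intro n
    have hN' : (0 : ℤ) < N := by exact_mod_cast hN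
    refine ⟨(n % N).toNat, ?_, ?_⟩
    · have := Int.emod_lt_of_pos n hN'
      have := Int.emod_nonneg n hN'.ne'
      omega
    · have h2 := Int.emod_nonneg n hN'.ne'
      rw [Int.toNat_of_nonneg h2]
      have h3 := Int.emod_add_mul_ediv n N
      rcases Int.eq_nat_or_neg (n / N) with ⟨k, hk | hk⟩
      · have h4 := per_mul h1 k (n % N)
        rw [← h4]
        congr 1
        rw [hk] at h3
        linarith
      · have h4 := per_mul h1 k n
        rw [← h4]
        congr 1
        rw [hk] at h3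
        linarith
  obtain ⟨m, hm, hmax⟩ := Finset.exists_max_image (Finset.range N) (fun k : ℕ => |x k|)
    ⟨0, Finset.mem_range.2 hN⟩
  refine ⟨m, fun n => ?_⟩
  obtain ⟨k, hk, e⟩ := key n
  rw [e]
  exact hmax k (Finset.mem_range.2 hk)

/-- if the increments `x (n+1) - x (n-1)` have constant sign then `x` has period `2` -/
lemma good_of_mono {x : ℤ → ℚ} {N : ℕ} (hN : 0 < N) (h1 : ∀ n, x (n + N) = x n)
    (h : ∀ n, x (n - 1) ≤ x (n + 1)) : Good x := by
  have mono : ∀ (k : ℕ) (n : ℤ), x n ≤ x (n + 2 * k) := by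
    intro k
    induction k with
    | zero => intro n; simp
    | succ k ih =>
      intro n
      refine (ih n).trans ?_
      have := h (n + 2 * k + 1)
      rw [add_sub_cancel_right] at this
      refine this.trans (le_of_eq ?_)
      congr 1; push_cast; ring
  refine ⟨2, by decide, fun n => le_antisymm ?_ ?_⟩
  · have h2 := mono (N - 1) (n + 2)
    have h3 := per_mul h1 2 n
    have e : n + 2 + 2 * ((N - 1 : ℕ) : ℤ) = n + (2 : ℕ) * N := by
      rw [Nat.cast_sub hN]; push_cast; ring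
    rw [e, h3] at h2
    exact h2
  · have := mono 1 n
    simpa using this

lemma good_of_anti {x : ℤ → ℚ} {N : ℕ} (hN : 0 < N) (h1 : ∀ n, x (n + N) = x n)
    (h : ∀ n, x (n + 1) ≤ x (n - 1)) : Good x := by
  have : Good (fun n => -x n) := by
    apply good_of_mono hN
    · intro n; simp [h1]
    · intro n; simpa using h n
  obtain ⟨P, hP, h2⟩ := this
  exact ⟨P, hP, fun n => by simpa using h2 n⟩

/-- the theorem about orbits gives the theorem about minimal periods -/
theorem period_of_good {c : ℚ} (H : ∀ x : ℤ → ℚ, IsOrb c x → Good x) (p : ℚ × ℚ)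
    (hp : 0 < Function.minimalPeriod (fun q : ℚ × ℚ => (q.2, q.2 ^ 2 + c + q.1)) p) :
    Function.minimalPeriod (fun q : ℚ × ℚ => (q.2, q.2 ^ 2 + c + q.1)) p
      ∈ ({1, 2, 3, 4, 6, 8} : Finset ℕ) := by
  let f : ℚ × ℚ → ℚ × ℚ := fun q => (q.2, q.2 ^ 2 + c + q.1)
  let e : Equiv.Perm (ℚ × ℚ) :=
    { toFun := f
      invFun := fun q => (q.2 - q.1 ^ 2 - c, q.1)
      left_inv := fun q => by ext <;> simp [f] <;> ring
      right_inv := fun q => by ext <;> simp [f] <;> ring }
  have he : ∀ q, e q = (q.2, q.2 ^ 2 + c + q.1) := fun q => rfl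
  have hit : ∀ n : ℕ, ∀ q, (e ^ n) q = f^[n] q := by
    intro n q
    have h0 : f = ⇑e := rfl
    rw [h0, Equiv.Perm.iterate_eq_pow]
  set x : ℤ → ℚ := fun n => ((e ^ n) p).1 with hx
  have h1 : ∀ n : ℤ, (e ^ (n + 1)) p = e ((e ^ n) p) := by
    intro n
    rw [add_comm, zpow_add, zpow_one]; rfl
  have h2 : ∀ n : ℤ, x (n + 1) = ((e ^ n) p).2 := by
    intro n
    simp only [hx]
    rw [h1, he]
  have h3 : ∀ n : ℤ, x (n + 1) - x (n - 1) = x n ^ 2 + c := by
    intro n
    have e1 := h2 n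
    have e2 : (e ^ n) p = e ((e ^ (n - 1)) p) := by
      have := h1 (n - 1)
      rwa [sub_add_cancel] at this
    rw [e1, e2, he]
    simp only
    have e3 := h2 (n - 1)
    rw [sub_add_cancel] at e3
    rw [e3]
    simp only [hx]
    ring
  set N := Function.minimalPeriod f p with hNdef
  have hN : 0 < N := hp
  have hfix : (e ^ (N : ℤ)) p = p := by
    rw [zpow_natCast, hit]
    exact Function.iterate_minimalPeriod
  have h4 : ∀ n : ℤ, x (n + N) = x n := by
    intro n
    simp only [hx]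
    rw [zpow_add]
    show ((e ^ n) ((e ^ (N : ℤ)) p)).1 = _
    rw [hfix]
  obtain ⟨P, hP, h5⟩ := H x ⟨h3, N, hN, h4⟩
  have h6 : f^[P] p = p := by
    rw [← hit]
    have a1 := h5 0
    have a2 := h5 1
    rw [zero_add] at a1
    rw [add_comm, h2 P] at a2
    have a3 := h2 0
    rw [zero_add] at a3
    rw [a3] at a2
    have b1 : ((e ^ (P : ℤ)) p).1 = p.1 := by
      have : x P = x 0 := a1
      simpa [hx] using this
    have b2 : ((e ^ (P : ℤ)) p).2 = p.2 := by simpa using a2
    rw [← zpow_natCast]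
    exact Prod.ext b1 b2
  have h7 : N ∣ P := Function.IsPeriodicPt.minimalPeriod_dvd h6
  have h8 : N ≤ P := Nat.le_of_dvd (by
    simp only [Finset.mem_insert, Finset.mem_singleton] at hP
    omega) h7
  show N ∈ _
  have h9 : N ≤ 8 := h8.trans (by
    simp only [Finset.mem_insert, Finset.mem_singleton] at hP
    omega)
  clear_value N
  clear h4 hfix
  simp only [Finset.mem_insert, Finset.mem_singleton] at hP
  rcases hP with rfl | rfl | rfl | rfl | rfl | rfl <;> interval_cases N <;> first | decide | omega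

end Pool.Agent.Henon88
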