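import Pool.Agent.Henon88.SearchA

/-!
The finite check for small denominators and `-12 < c < 0`.
All numbers are shifted by `a`, the maximum of `|X n|`.
-/

namespace Pool.Agent.Henon88

/-- iteration of the recursion, starting with the consecutive values `p`, `q` (shifted by `a`) -/
def orb (B a a2 C y R : ℕ) (fuel : ℕ) : ℕ → ℕ → ℕ → Bool :=
  Nat.rec (fun _ _ _ => false) (fun _ ih p q len =>
    Bool.rec
      ((fun u => Bool.rec true
        ((fun w => Bool.rec true
          (Bool.rec true (ih q (Nat.sub w C) (Nat.succ len)) (Nat.ble w (Nat.add C a2)))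
          (Nat.ble C w)) (Nat.add p (Nat.div u B)))
        (Nat.beq (Nat.mod u B) 0)) (Nat.add (Nat.mul (ad q a) (ad q a)) R))
      (good len)
      (Bool.rec false (Nat.beq q a2) (Nat.beq p y))) fuel

/-- test of one starting pair -/
def pairT (B a a2 C M y z : ℕ) : Bool :=
  (fun S => Bool.rec true
    (Bool.rec true
      (orb B a a2 C y (Nat.sub M S) 12 a2 z 1)
      (Nat.ble (Nat.mul (ad z a) (ad z a)) S))
    (Nat.ble (Nat.succ S) M)) (Nat.sub (Nat.mul a a) (Nat.mul B (Nat.sub z y)))

def allL (f : ℕ → Bool) (l : List ℕ) : Bool :=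
  List.rec true (fun r _ ih => Bool.rec false ih (f r)) l

/-- all starting pairs for given `B` and `a` -/
def pairs (B a a2 C M : ℕ) (Rs : List ℕ) (k : ℕ) : Bool :=
  allL (fun r1 => (fun y0 => all (fun i => (fun y =>
    Bool.rec true
      (allL (fun r2 => (fun z0 => all (fun j => (fun z =>
        Bool.rec true
          (Bool.rec true (Bool.rec true (pairT B a a2 C M y z)
            (Nat.ble (Nat.mul B (Nat.sub z y)) (Nat.mul a a))) (Nat.ble y z))
          (Nat.ble z a2)) (Nat.add z0 (Nat.mul j B))) k)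
        (Nat.mod (Nat.add (Nat.mul r2 a) a) B)) Rs)
      (Nat.ble y a2)) (Nat.add y0 (Nat.mul i B))) k)
    (Nat.mod (Nat.add (Nat.mul r1 a) a) B)) Rs

/-- the check for one `B` -/
def brute (B : ℕ) (Rs : List ℕ) : Bool :=
  all (fun a => Bool.rec true (pairs B a (Nat.mul 2 a) (Nat.mul 12 B) (Nat.mul 12 (Nat.mul B B)) Rs
    (Nat.succ (Nat.div (Nat.mul 2 a) B))) (Nat.beq (Nat.gcd a B) 1))
    (Nat.succ (Nat.div (Nat.mul 9 B) 2))

/-- modulus of the squares -/
def mB (B : ℕ) : ℕ := Nat.mul B (Nat.sub 2 (Nat.mod B 2))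

def memL (r : ℕ) (l : List ℕ) : Bool :=
  List.rec false (fun v _ ih => Bool.rec ih true (Nat.beq v r)) l

/-- the list contains all square roots of one -/
def resOK (B : ℕ) (Rs : List ℕ) : Bool :=
  all (fun r => Bool.rec true (memL r Rs)
    (Nat.beq (Nat.mod (Nat.mul r r) (mB B)) (Nat.mod 1 (mB B)))) B

def chkB (v : ℕ × List ℕ) : Bool := Bool.rec false (brute v.1 v.2) (resOK v.1 v.2)

end Pool.Agent.Henon88
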