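import Pool.Agent.Henon88.Brute

namespace Pool.Agent.Henon88

set_option maxRecDepth 100000 in
theorem bla_1 : chkB (1, [0]) = true := by decide +kernel

set_option maxRecDepth 100000 in
theorem bla_2 : chkB (2, [1]) = true := by decide +kernel

set_option maxRecDepth 100000 in
theorem bla_3 : chkB (3, [1, 2]) = true := by decide +kernel

set_option maxRecDepth 100000 in
theorem bla_4 : chkB (4, [1, 3]) = true := by decide +kernel

set_option maxRecDepth 100000 in
theorem bla_5 : chkB (5, [1, 4]) = true := by decide +kernel

set_option maxRecDepth 100000 in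
theorem bla_6 : chkB (6, [1, 5]) = true := by decide +kernel

set_option maxRecDepth 100000 in
theorem bla_7 : chkB (7, [1, 6]) = true := by decide +kernel

set_option maxRecDepth 100000 in
theorem bla_8 : chkB (8, [1, 7]) = true := by decide +kernel

set_option maxRecDepth 100000 in
theorem bla_9 : chkB (9, [1, 8]) = true := by decide +kernel

set_option maxRecDepth 100000 in
theorem bla_10 : chkB (10, [1, 9]) = true := by decide +kernel

set_option maxRecDepth 100000 in
theorem bla_12 : chkB (12, [1, 5, 7, 11]) = true := by decide +kernel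

set_option maxRecDepth 100000 in
theorem bla_14 : chkB (14, [1, 13]) = true := by decide +kernel

set_option maxRecDepth 100000 in
theorem bla_15 : chkB (15, [1, 4, 11, 14]) = true := by decide +kernel

set_option maxRecDepth 100000 in
theorem bla_16 : chkB (16, [1, 15]) = true := by decide +kernel

set_option maxRecDepth 100000 in
theorem bla_18 : chkB (18, [1, 17]) = true := by decide +kernel

set_option maxRecDepth 100000 in
theorem bla_20 : chkB (20, [1, 9, 11, 19]) = true := by decide +kernel

set_option maxRecDepth 100000 in
theorem bla_21 : chkB (21, [1, 8, 13, 20]) = true := by decide +kernel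

set_option maxRecDepth 100000 in
theorem bla_24 : chkB (24, [1, 7, 17, 23]) = true := by decide +kernel

set_option maxRecDepth 100000 in
theorem bla_28 : chkB (28, [1, 13, 15, 27]) = true := by decide +kernel

def bla : List (ℕ × List ℕ) := [(1, [0]), (2, [1]), (3, [1, 2]), (4, [1, 3]), (5, [1, 4]), (6, [1, 5]), (7, [1, 6]), (8, [1, 7]), (9, [1, 8]), (10, [1, 9]), (12, [1, 5, 7, 11]), (14, [1, 13]), (15, [1, 4, 11, 14]), (16, [1, 15]), (18, [1, 17]), (20, [1, 9, 11, 19]), (21, [1, 8, 13, 20]), (24, [1, 7, 17, 23]), (28, [1, 13, 15, 27])]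

theorem bla_ok : bla.all chkB = true :=
  all_cons bla_1 (all_cons bla_2 (all_cons bla_3 (all_cons bla_4 (all_cons bla_5 (all_cons bla_6 (all_cons bla_7 (all_cons bla_8 (all_cons bla_9 (all_cons bla_10 (all_cons bla_12 (all_cons bla_14 (all_cons bla_15 (all_cons bla_16 (all_cons bla_18 (all_cons bla_20 (all_cons bla_21 (all_cons bla_24 (all_cons bla_28 (all_nil)))))))))))))))))))

end Pool.Agent.Henon88
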