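import Pool.Agent.Henon88.Brute

namespace Pool.Agent.Henon88

set_option maxRecDepth 100000 in
theorem blb_35 : chkB (35, [1, 6, 29, 34]) = true := by decide +kernel

set_option maxRecDepth 100000 in
theorem blb_36 : chkB (36, [1, 17, 19, 35]) = true := by decide +kernel

set_option maxRecDepth 100000 in
theorem blb_40 : chkB (40, [1, 9, 31, 39]) = true := by decide +kernel

set_option maxRecDepth 100000 in
theorem blb_45 : chkB (45, [1, 19, 26, 44]) = true := by decide +kernel

set_option maxRecDepth 100000 in
theorem blb_48 : chkB (48, [1, 17, 31, 47]) = true := by decide +kernel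

def blb : List (ℕ × List ℕ) := [(35, [1, 6, 29, 34]), (36, [1, 17, 19, 35]), (40, [1, 9, 31, 39]), (45, [1, 19, 26, 44]), (48, [1, 17, 31, 47])]

theorem blb_ok : blb.all chkB = true :=
  all_cons blb_35 (all_cons blb_36 (all_cons blb_40 (all_cons blb_45 (all_cons blb_48 (all_nil)))))

end Pool.Agent.Henon88
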