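import Pool.Agent.Henon88.Brute

namespace Pool.Agent.Henon88

set_option maxRecDepth 100000 in
theorem blc_56 : chkB (56, [1, 15, 41, 55]) = true := by decide +kernel

set_option maxRecDepth 100000 in
theorem blc_63 : chkB (63, [1, 8, 55, 62]) = true := by decide +kernel

set_option maxRecDepth 100000 in
theorem blc_72 : chkB (72, [1, 17, 55, 71]) = true := by decide +kernel

def blc : List (ℕ × List ℕ) := [(56, [1, 15, 41, 55]), (63, [1, 8, 55, 62]), (72, [1, 17, 55, 71])]

theorem blc_ok : blc.all chkB = true :=
  all_cons blc_56 (all_cons blc_63 (all_cons blc_72 (all_nil)))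

end Pool.Agent.Henon88
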