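import Pool.Agent.Henon88.Brute

namespace Pool.Agent.Henon88

set_option maxRecDepth 100000 in
theorem bld_80 : chkB (80, [1, 31, 49, 79]) = true := by decide +kernel

set_option maxRecDepth 100000 in
theorem bld_112 : chkB (112, [1, 15, 97, 111]) = true := by decide +kernel

def bld : List (ℕ × List ℕ) := [(80, [1, 31, 49, 79]), (112, [1, 15, 97, 111])]

theorem bld_ok : bld.all chkB = true :=
  all_cons bld_80 (all_cons bld_112 (all_nil))

end Pool.Agent.Henon88
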