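import Pool.Agent.Henon88.Brute

namespace Pool.Agent.Henon88

set_option maxRecDepth 100000 in
theorem ble_144 : chkB (144, [1, 17, 127, 143]) = true := by decide +kernel

def ble : List (ℕ × List ℕ) := [(144, [1, 17, 127, 143])]

theorem ble_ok : ble.all chkB = true :=
  all_cons ble_144 (all_nil)

end Pool.Agent.Henon88
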