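import Pool.Agent.Henon88.SearchA

/-!
Meaning of the success of the search, for three sign sequences.
-/

namespace Pool.Agent.Henon88

/-- relative sign -/
def cl (s e : ℤ → Bool) (n : ℤ) : Bool := xor (s n) (e n)

def ww (s e : ℤ → Bool) (n : ℤ) : ℤ := sg (s n) * sg (e n) * D e n - D s n

def e3 (s e1 e2 : ℤ → Bool) (n : ℤ) : Bool := x3 (s n) (e1 n) (e2 n)

/-- the relations used by the search -/
structure SemA (Q l : ℤ) (WM : ℕ) (s e1 e2 : ℤ → Bool) : Prop where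
  s0 : s 0 = false
  e10 : e1 0 = false
  e20 : e2 0 = false
  w1 : ∀ n m, cl s e1 n = cl s e1 m → cl s e2 n = cl s e2 m → ww s e1 n = ww s e1 m
  w2 : ∀ n m, cl s e1 n = cl s e1 m → cl s e2 n = cl s e2 m →
    if Q = 0 then ww s e2 n = ww s e2 m else ww s e2 n % Q = ww s e2 m % Q
  h1 : ∀ n m, cl s e1 n = cl s e1 m → cl s e2 n = cl s e2 m → hh e1 n = hh e1 m
  z : ∀ n m, cl s e1 n = cl s e1 m → cl s e2 n = cl s e2 m →
    if Q = 0 then hh e2 n = hh e2 m else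
      (sg (s n) * sg (e2 n) * ww s e2 n + l * hh e2 n) % (Q * Q)
        = (sg (s m) * sg (e2 m) * ww s e2 m + l * hh e2 m) % (Q * Q)
  rr : ∀ n m, cl s e1 n = cl s e1 m → cl s e2 n = cl s e2 m → ww s e1 n = ww s e1 m →
    ww s e2 n = ww s e2 m → hh s n = hh s m ∨
      |hh s n - hh s m| < |ww s (e3 s e1 e2) n - ww s (e3 s e1 e2) m|
  pp : ∀ n m, cl s e1 n = cl s e1 m → cl s e2 n ≠ cl s e2 m →
    (WM : ℤ) ≤ |ww s e1 n - ww s e1 m|

lemma cls_inj {a b a' b' : Bool} (h : bt a + 2 * bt b = bt a' + 2 * bt b') : a = a' ∧ b = b' := by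
  revert a b a' b'; decide

lemma ww3_eq (s e1 e2 : ℤ → Bool) (n : ℤ) :
    sg (e1 n) * sg (e2 n) * D (e3 s e1 e2) n - D s n = ww s (e3 s e1 e2) n := by
  unfold ww
  have : sg (s n) * sg (e3 s e1 e2 n) = sg (e1 n) * sg (e2 n) := by
    unfold e3 x3
    generalize s n = a
    generalize e1 n = b
    generalize e2 n = c
    revert a b c; decide
  rw [this]

lemma dd_D (e : ℤ → Bool) (i : ℤ) : dd (e i) (e (i + 2)) = D e (i + 1) := by
  unfold dd D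
  rw [show i + 1 - 1 = i by ring, show i + 1 + 1 = i + 2 by ring]

/-- the fields of an entry -/
structure FldA (Q : ℤ) (s e1 e2 : ℤ → Bool) (n : ℤ) (e : ℕ) : Prop where
  k : (kA e : ℤ) = bt (cl s e1 n) + 2 * bt (cl s e2 n)
  p1 : (fl e 8 4 : ℤ) = sg (e1 n) * D e1 n + 1
  p2 : (fl e 32 4 : ℤ) = sg (e2 n) * D e2 n + 1
  p0 : (fl e 128 4 : ℤ) = sg (s n) * D s n + 1
  r1 : (fl e 512 2 : ℤ) = (D e1 n) ^ 2
  r2 : (fl e 1024 2 : ℤ) = (D e2 n) ^ 2
  r0 : (fl e 2048 2 : ℤ) = (D s n) ^ 2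
  zb : (fl e 4096 16 : ℤ) = (if Q = 0 then 0 else (sg (s n) * sg (e2 n) * ww s e2 n) % (Q * Q))
  w2 : (fl e 65536 8 : ℤ) = ww s e2 n + 2
  w3 : (fl e 524288 8 : ℤ) = ww s (e3 s e1 e2) n + 2
  w1 : (fl e 4194304 8 : ℤ) = ww s e1 n + 2
  inv : (fl e 4194304 64 : ℤ) = ww s e1 n + 2 + 8 * (if Q = 0 then ww s e2 n + 2 else ww s e2 n % Q)

/-- the letters -/
def lts (s e1 e2 : ℤ → Bool) (i : ℕ) : ℕ := lt (s i) (e1 i) (e2 i)

/-- `T` is the table of the entries -/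
def IsTab (Q : ℤ) (T : ℕ) : Prop := ∀ c < 512, rd T c = ofCode (FA Q) c

lemma isTab_tab {Q : ℤ} (hd : DecA Q) : IsTab Q (tab (ofCode (FA Q)) 512) := by
  intro c hc
  exact rd_tab (fun c _ =>
    (hd (tb c 0) (tb c 1) (tb c 2) (tb c 3) (tb c 4) (tb c 5) (tb c 6) (tb c 7) (tb c 8)).1) hc

lemma en_eq {Q : ℤ} {T : ℕ} (hT : IsTab Q T) (s e1 e2 : ℤ → Bool) (i : ℕ) :
    En (rd T) (lts s e1 e2) i
      = FA Q (s i) (e1 i) (e2 i) (s (i + 1)) (e1 (i + 1)) (e2 (i + 1))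
          (s (i + 2)) (e1 (i + 2)) (e2 (i + 2)) := by
  unfold En
  have hc : W3 (lts s e1 e2) i < 512 := by
    unfold W3 lts
    have := lt_lt (s i) (e1 i) (e2 i)
    have := lt_lt (s (i + 1 : ℕ)) (e1 (i + 1 : ℕ)) (e2 (i + 1 : ℕ))
    have := lt_lt (s (i + 2 : ℕ)) (e1 (i + 2 : ℕ)) (e2 (i + 2 : ℕ))
    omega
  rw [hT _ hc]
  unfold W3 lts
  rw [ofCode_code]
  have c1 : ((i + 1 : ℕ) : ℤ) = (i : ℤ) + 1 := by push_cast; ring
  have c2 : ((i + 2 : ℕ) : ℤ) = (i : ℤ) + 2 := by push_cast; ring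
  rw [c1, c2]

lemma fldA {Q : ℤ} (hd : DecA Q) {T : ℕ} (hT : IsTab Q T) (s e1 e2 : ℤ → Bool) (i : ℕ) :
    FldA Q s e1 e2 (i + 1) (En (rd T) (lts s e1 e2) i) := by
  rw [en_eq hT]
  obtain ⟨-, h1, h2, h3, h4, h5, h6, h7, h8, h9, h10, h11, h12⟩ :=
    hd (s i) (e1 i) (e2 i) (s (i + 1)) (e1 (i + 1)) (e2 (i + 1)) (s (i + 2)) (e1 (i + 2)) (e2 (i + 2))
  have d3 : dd (x3 (s i) (e1 i) (e2 i)) (x3 (s (i + 2)) (e1 (i + 2)) (e2 (i + 2)))
      = D (e3 s e1 e2) (i + 1) := dd_D (e3 s e1 e2) i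
  simp only [dd_D] at h2 h3 h4 h5 h6 h7 h8 h9 h10 h11 h12
  rw [d3, ww3_eq] at h10
  exact ⟨h1, h2, h3, h4, h5, h6, h7, h8, h9, h10, h11, h12⟩

lemma sm_dec {k h1 z h0 w2 w3 : ℕ} (hk : k < 4) (hh1 : h1 < 8) (hz : z < 16) (hh0 : h0 < 8)
    (hw2 : w2 < 8) (S : ℕ)
    (hS : S = (1 + 2 * k) + (8 * h1 + (64 * z + (1024 * h0 + (8192 * w2 + 65536 * w3))))) :
    S / 2 % 4 = k ∧ S / 8 % 128 = h1 + 8 * z ∧ S / 1024 % 8 = h0 ∧ S / 8192 % 8 = w2 ∧
      S / 65536 % 8 = w3 % 8 := by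
  subst hS
  refine ⟨?_, ?_, ?_, ?_, ?_⟩ <;> omega

lemma hv_eq {e : ℤ → Bool} {n : ℤ} {em e' ep s t : ℕ}
    (hm : (fl em s 4 : ℤ) = sg (e (n - 1)) * D e (n - 1) + 1)
    (h0 : (fl e' t 2 : ℤ) = (D e n) ^ 2)
    (hp : (fl ep s 4 : ℤ) = sg (e (n + 1)) * D e (n + 1) + 1) :
    (hv em e' ep s t : ℤ) = hh e n + 3 := by
  have h1 := hh_bd e n
  unfold hh at h1 ⊢
  show (((fl ep s 4 + 3) - (fl em s 4 + fl e' t 2) : ℕ) : ℤ) = _
  omega

/-- the fields of a summary -/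
structure SmFA (Q : ℤ) (zf : ℕ → ℕ → ℕ) (s e1 e2 : ℤ → Bool) (n : ℤ) (S : ℕ) : Prop where
  k : (kA S : ℤ) = bt (cl s e1 n) + 2 * bt (cl s e2 n)
  hz : ∃ h1 zb h2 : ℕ, (h1 : ℤ) = hh e1 n + 3 ∧ (h2 : ℤ) = hh e2 n + 3 ∧
    (zb : ℤ) = (if Q = 0 then 0 else (sg (s n) * sg (e2 n) * ww s e2 n) % (Q * Q)) ∧
    fl S 8 128 = h1 + 8 * zf zb h2
  h0 : (fl S 1024 8 : ℤ) = hh s n + 3
  w2 : (fl S 8192 8 : ℤ) = ww s e2 n + 2
  w3 : (fl S 65536 8 : ℤ) = ww s (e3 s e1 e2) n + 2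

lemma smA_fields {Q : ℤ} {zf : ℕ → ℕ → ℕ} (hzf : ∀ a b, a < 16 → b < 8 → zf a b < 16)
    {s e1 e2 : ℤ → Bool} {n : ℤ} {em e ep : ℕ} (hm : FldA Q s e1 e2 (n - 1) em)
    (h : FldA Q s e1 e2 n e) (hp : FldA Q s e1 e2 (n + 1) ep) :
    SmFA Q zf s e1 e2 n (smA zf em e ep) := by
  have v1 := hv_eq (e := e1) hm.p1 h.r1 hp.p1
  have v2 := hv_eq (e := e2) hm.p2 h.r2 hp.p2
  have v0 := hv_eq (e := s) hm.p0 h.r0 hp.p0
  have b1 := hh_bd e1 n
  have b2 := hh_bd e2 n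
  have b0 := hh_bd s n
  have k4 : kA e < 4 := Nat.mod_lt _ (by norm_num)
  have z16 : fl e 4096 16 < 16 := Nat.mod_lt _ (by norm_num)
  have w8 : fl e 65536 8 < 8 := Nat.mod_lt _ (by norm_num)
  have w8' : fl e 524288 8 < 8 := Nat.mod_lt _ (by norm_num)
  have c1 : hv em e ep 8 512 < 8 := by omega
  have c2 : hv em e ep 32 1024 < 8 := by omega
  have c0 : hv em e ep 128 2048 < 8 := by omega
  obtain ⟨d1, d2, d3, d4, d5⟩ := sm_dec (w3 := fl e 524288 8) k4 c1 (hzf _ _ z16 c2) c0 w8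
    (smA zf em e ep) rfl
  refine ⟨?_, ⟨hv em e ep 8 512, fl e 4096 16, hv em e ep 32 1024, v1, v2, h.zb, d2⟩, ?_, ?_, ?_⟩
  · have : kA (smA zf em e ep) = kA e := d1
    rw [this]; exact h.k
  · have : fl (smA zf em e ep) 1024 8 = hv em e ep 128 2048 := d3
    rw [this]; exact v0
  · have : fl (smA zf em e ep) 8192 8 = fl e 65536 8 := d4
    rw [this]; exact h.w2
  · have : fl (smA zf em e ep) 65536 8 = fl e 524288 8 := d5.trans (Nat.mod_eq_of_lt w8')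
    rw [this]; exact h.w3

lemma ad_cast (a b : ℕ) : ((ad a b : ℕ) : ℤ) = |(a : ℤ) - b| := by
  show (((a - b) + (b - a) : ℕ) : ℤ) = _
  rcases le_total a b with h | h
  · rw [abs_of_nonpos (by omega)]; omega
  · rw [abs_of_nonneg (by omega)]; omega

lemma brec_ite (b : Bool) (x y : Bool) : (Bool.rec x y b : Bool) = if b then y else x := by
  cases b <;> rfl

lemma SemA.c3_ok {Q l : ℤ} {WM : ℕ} {s e1 e2 : ℤ → Bool} (h : SemA Q l WM s e1 e2) {F : ℕ → ℕ}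
    (hF : ∀ i : ℕ, FldA Q s e1 e2 (i + 1) (F i)) (L : ℕ → ℕ) (i : ℕ) (hL : Inv F kA L) :
    c3A WM L (F i) = true := by
  have hc : chk L (kA (F i)) (F i) gA = true := by
    refine chk_true hL ?_
    intro j hj
    have k1 := (hF j).k
    have k2 := (hF i).k
    rw [hj, k2] at k1
    obtain ⟨q1, q2⟩ := cls_inj k1
    have v1 := (hF j).inv
    have v2 := (hF i).inv
    have a1 := h.w1 _ _ q1 q2
    have a2 := h.w2 _ _ q1 q2
    rw [← a1] at v1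
    have : (fl (F j) 4194304 64 : ℤ) = fl (F i) 4194304 64 := by
      rw [v1, v2]
      by_cases hQ : Q = 0
      · simp only [hQ, if_true] at a2 ⊢; rw [a2]
      · simp only [hQ, if_false] at a2 ⊢; rw [a2]
    have e : fl (F j) 4194304 64 = fl (F i) 4194304 64 := by exact_mod_cast this
    show Nat.beq _ _ = true
    rw [e]; exact Nat.beq_refl _
  unfold c3A
  rw [hc]
  show (Bool.rec (chk L (Nat.mod (Nat.add (kA (F i)) 2) 4) (F i) (pA WM)) true (Nat.beq WM 0)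
    : Bool) = true
  rcases hW : Nat.beq WM 0 with _ | _
  · show chk L _ (F i) (pA WM) = true
    refine chk_true hL ?_
    intro j hj
    have k1 := (hF j).k
    have k2 := (hF i).k
    have k3 : (kA (F j) : ℤ) = (kA (F i) + 2) % 4 := by
      rw [hj]; rfl
    rw [k1, k2] at k3
    have q : cl s e1 (j + 1) = cl s e1 (i + 1) ∧ cl s e2 (j + 1) ≠ cl s e2 (i + 1) := by
      revert k3
      generalize cl s e1 (j + 1) = a
      generalize cl s e1 (i + 1) = b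
      generalize cl s e2 (j + 1) = c
      generalize cl s e2 (i + 1) = d
      revert a b c d; decide
    have a1 := h.pp _ _ q.1 q.2
    have w1 := (hF j).w1
    have w2 := (hF i).w1
    show Nat.ble WM (ad _ _) = true
    rw [Nat.ble_eq]
    have : (WM : ℤ) ≤ ((ad (fl (F j) 4194304 8) (fl (F i) 4194304 8) : ℕ) : ℤ) := by
      rw [ad_cast, w1, w2]
      refine a1.trans (le_of_eq ?_)
      congr 1; ring
    exact_mod_cast this
  · rfl

lemma SemA.c5_ok {Q l : ℤ} {WM : ℕ} {s e1 e2 : ℤ → Bool} (h : SemA Q l WM s e1 e2) {F : ℕ → ℕ}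
    {zf : ℕ → ℕ → ℕ} (hF : ∀ i : ℕ, SmFA Q zf s e1 e2 (i + 2) (F i))
    (hz : ∀ n m, cl s e1 n = cl s e1 m → cl s e2 n = cl s e2 m → ∀ zb zb' h2 h2' : ℕ,
      (zb : ℤ) = (if Q = 0 then 0 else (sg (s n) * sg (e2 n) * ww s e2 n) % (Q * Q)) →
      (zb' : ℤ) = (if Q = 0 then 0 else (sg (s m) * sg (e2 m) * ww s e2 m) % (Q * Q)) →
      (h2 : ℤ) = hh e2 n + 3 → (h2' : ℤ) = hh e2 m + 3 → zf zb h2 = zf zb' h2')
    (L : ℕ → ℕ) (i : ℕ) (hL : Inv F kA L) :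
    c5A L (F i) = true := by
  unfold c5A
  refine chk_true hL ?_
  intro j hj
  have k1 := (hF j).k
  have k2 := (hF i).k
  rw [hj, k2] at k1
  obtain ⟨q1, q2⟩ := cls_inj k1
  obtain ⟨h1, zb, h2, a1, a2, a3, a4⟩ := (hF j).hz
  obtain ⟨h1', zb', h2', b1, b2, b3, b4⟩ := (hF i).hz
  have c1 := h.h1 _ _ q1 q2
  have c2 := hz _ _ q1 q2 zb' zb h2' h2 b3 a3 b2 a2
  have e1' : h1 = h1' := by
    have : (h1 : ℤ) = h1' := by rw [a1, b1, c1]
    exact_mod_cast this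
  unfold g5A
  rw [a4, b4, e1', c2]
  rw [show Nat.beq (h1' + 8 * zf zb h2) (h1' + 8 * zf zb h2) = true from Nat.beq_refl _]
  show (Bool.rec true _ _ : Bool) = true
  rcases hw : Nat.beq (fl (F j) 8192 8) (fl (F i) 8192 8) with _ | _
  · rfl
  · show (Bool.rec _ true _ : Bool) = true
    rcases hr : Nat.beq (fl (F j) 1024 8) (fl (F i) 1024 8) with _ | _
    · show Nat.ble _ _ = true
      rw [Nat.ble_eq]
      have hw' := Nat.eq_of_beq_eq_true hw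
      have w2e : ww s e2 (i + 2) = ww s e2 (j + 2) := by
        have a := (hF j).w2
        have b := (hF i).w2
        rw [hw'] at a
        linarith
      rcases h.rr _ _ q1 q2 (h.w1 _ _ q1 q2) w2e with r | r
      · exfalso
        have a := (hF j).h0
        have b := (hF i).h0
        rw [r] at b
        have : (fl (F j) 1024 8 : ℤ) = fl (F i) 1024 8 := by rw [a, b]
        have e : fl (F j) 1024 8 = fl (F i) 1024 8 := by exact_mod_cast this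
        rw [e, Nat.beq_refl] at hr
        exact absurd hr.symm Bool.false_ne_true
      · have : ((ad (fl (F j) 1024 8) (fl (F i) 1024 8) : ℕ) : ℤ) + 1
            ≤ ((ad (fl (F j) 65536 8) (fl (F i) 65536 8) : ℕ) : ℤ) := by
          rw [ad_cast, ad_cast, (hF j).h0, (hF i).h0, (hF j).w3, (hF i).w3]
          have t1 : |hh s (j + 2) + 3 - (hh s (i + 2) + 3)| = |hh s (i + 2) - hh s (j + 2)| := by
            rw [abs_sub_comm]; congr 1; ring
          have t2 : |ww s (e3 s e1 e2) (j + 2) + 2 - (ww s (e3 s e1 e2) (i + 2) + 2)|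
              = |ww s (e3 s e1 e2) (i + 2) - ww s (e3 s e1 e2) (j + 2)| := by
            rw [abs_sub_comm]; congr 1; ring
          rw [t1, t2]
          exact r
        exact_mod_cast this
    · rfl

/-- success of the search gives a repetition of four consecutive letters at a good distance -/
theorem SemA.sound {Q l : ℤ} {WM : ℕ} {s e1 e2 : ℤ → Bool} (h : SemA Q l WM s e1 e2) {T : ℕ}
    {zf : ℕ → ℕ → ℕ} (hd : DecA Q) (hT : IsTab Q T) (hzf : ∀ a b, a < 16 → b < 8 → zf a b < 16)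
    (hz : ∀ n m, cl s e1 n = cl s e1 m → cl s e2 n = cl s e2 m → ∀ zb zb' h2 h2' : ℕ,
      (zb : ℤ) = (if Q = 0 then 0 else (sg (s n) * sg (e2 n) * ww s e2 n) % (Q * Q)) →
      (zb' : ℤ) = (if Q = 0 then 0 else (sg (s m) * sg (e2 m) * ww s e2 m) % (Q * Q)) →
      (h2 : ℤ) = hh e2 n + 3 → (h2' : ℤ) = hh e2 m + 3 → zf zb h2 = zf zb' h2')
    (hrun : runA T zf WM = true) :
    ∃ a P : ℕ, P ∈ ({1, 2, 3, 4, 6, 8} : Finset ℕ) ∧
      ∀ t : ℕ, t < 4 → s (a + P + t) = s (a + t) ∧ e1 (a + P + t) = e1 (a + t) ∧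
        e2 (a + P + t) = e2 (a + t) := by
  have hE : ∀ i : ℕ, FldA Q s e1 e2 (i + 1) (En (rd T) (lts s e1 e2) i) := fldA hd hT s e1 e2
  have hS : ∀ i : ℕ, SmFA Q zf s e1 e2 (i + 2) (Sm (rd T) (smA zf) (lts s e1 e2) i) := by
    intro i
    refine smA_fields hzf ?_ ?_ ?_
    · have := hE i
      rwa [show (i : ℤ) + 2 - 1 = i + 1 by ring]
    · have := hE (i + 1)
      rwa [show ((i + 1 : ℕ) : ℤ) + 1 = i + 2 by push_cast; ring] at this
    · have := hE (i + 2)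
      rwa [show ((i + 2 : ℕ) : ℤ) + 1 = i + 2 + 1 by push_cast; ring] at this
  have h0 : lts s e1 e2 0 = 0 := by
    unfold lts
    rw [show ((0 : ℕ) : ℤ) = 0 from rfl, h.s0, h.e10, h.e20]; rfl
  obtain ⟨a, j, hj, hW⟩ := start_sound hrun (σ := lts s e1 e2) (fun i => lt_lt _ _ _) le_rfl h0
    (fun L i hL => h.c3_ok hE L i hL) (fun L i hL => h.c5_ok hS hz L i hL)
  refine ⟨a, j, good_spec hj, ?_⟩
  obtain ⟨w0, w1, w2, w3⟩ := W4_inj (σ := lts s e1 e2) (fun i => lt_lt _ _ _) hW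
  intro t ht
  have key : lts s e1 e2 (a + j + t) = lts s e1 e2 (a + t) := by
    interval_cases t
    · exact w0
    · exact w1
    · exact w2
    · exact w3
  have := lt_inj key
  push_cast at this
  exact this

end Pool.Agent.Henon88
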