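import Pool.Agent.Henon88.Brute
import Pool.Agent.Henon88.SemA

/-!
Soundness of the finite check.
-/

namespace Pool.Agent.Henon88

/-- an integral orbit with its maximum `a` at `0` -/
structure BO (B : ℕ) (S : ℤ) (X : ℤ → ℤ) (a : ℕ) : Prop where
  pos : 0 < B
  eq : ∀ n, (B : ℤ) * (X (n + 1) - X (n - 1)) = X n ^ 2 - S
  bd : ∀ n, |X n| ≤ a
  x0 : X 0 = a
  cop : Nat.gcd a B = 1
  s12 : S < 12 * (B : ℤ) ^ 2
  a9 : 2 * a < 9 * B
  le : S ≤ (a : ℤ) ^ 2
  res : ∀ n, (mB B : ℤ) ∣ X n ^ 2 - (a : ℤ) ^ 2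

/-- shifted values -/
def NN (X : ℤ → ℤ) (a : ℕ) (n : ℤ) : ℕ := (X n + a).toNat

variable {B a : ℕ} {S : ℤ} {X : ℤ → ℤ}

lemma BO.nn (h : BO B S X a) (n : ℤ) : (NN X a n : ℤ) = X n + a := by
  have := abs_le.1 (h.bd n)
  unfold NN
  rw [Int.toNat_of_nonneg (by linarith)]

lemma BO.nn_le (h : BO B S X a) (n : ℤ) : NN X a n ≤ 2 * a := by
  have h1 := abs_le.1 (h.bd n)
  have h2 := h.nn n
  omega

lemma BO.orb_sound (h : BO B S X a) {R : ℕ} (hR : (R : ℤ) = 12 * (B : ℤ) ^ 2 - S) (fuel : ℕ) :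
    ∀ n : ℕ, orb B a (2 * a) (12 * B) (NN X a (-1)) R fuel (NN X a n) (NN X a (n + 1)) (n + 1)
      = true → ∃ P : ℕ, P ∈ ({1, 2, 3, 4, 6, 8} : Finset ℕ) ∧ X ((P : ℤ) - 1) = X (-1) ∧
        X P = X 0 := by
  induction fuel with
  | zero => intro n hn; exact absurd hn Bool.false_ne_true
  | succ fuel ih =>
    intro n hn
    have e : orb B a (2 * a) (12 * B) (NN X a (-1)) R (fuel + 1) (NN X a n) (NN X a (n + 1)) (n + 1)
      = (Bool.rec
      ((fun u => Bool.rec true
        ((fun w => Bool.rec true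
          (Bool.rec true (orb B a (2 * a) (12 * B) (NN X a (-1)) R fuel (NN X a (n + 1))
            (Nat.sub w (12 * B)) (Nat.succ (n + 1))) (Nat.ble w (Nat.add (12 * B) (2 * a))))
          (Nat.ble (12 * B) w)) (Nat.add (NN X a n) (Nat.div u B)))
        (Nat.beq (Nat.mod u B) 0)) (Nat.add (Nat.mul (ad (NN X a (n + 1)) a)
          (ad (NN X a (n + 1)) a)) R))
      (good (n + 1))
      (Bool.rec false (Nat.beq (NN X a (n + 1)) (2 * a)) (Nat.beq (NN X a n) (NN X a (-1)))) : Bool)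
      := rfl
    rw [e] at hn
    rcases hc : (Bool.rec false (Nat.beq (NN X a (n + 1)) (2 * a))
      (Nat.beq (NN X a n) (NN X a (-1))) : Bool) with _ | _
    · rw [hc] at hn
      have hBz : (0 : ℤ) < B := by exact_mod_cast h.pos
      have hu : ((ad (NN X a (n + 1)) a * ad (NN X a (n + 1)) a + R : ℕ) : ℤ)
          = B * (X (n + 1 + 1) - X n + 12 * B) := by
        push_cast
        rw [ad_cast, h.nn, hR]
        have e1 := h.eq (n + 1)
        rw [add_sub_cancel_right] at e1
        rw [add_sub_cancel_right, ← sq, sq_abs]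
        linear_combination -e1
      have hu1 : (ad (NN X a (n + 1)) a * ad (NN X a (n + 1)) a + R) % B = 0 := by
        have : (B : ℤ) ∣ ((ad (NN X a (n + 1)) a * ad (NN X a (n + 1)) a + R : ℕ) : ℤ) :=
          ⟨_, hu⟩
        exact Nat.mod_eq_zero_of_dvd (by exact_mod_cast this)
      have hu2 : (((ad (NN X a (n + 1)) a * ad (NN X a (n + 1)) a + R) / B : ℕ) : ℤ)
          = X (n + 1 + 1) - X n + 12 * B := by
        rw [Int.natCast_div, hu, Int.mul_ediv_cancel_left _ hBz.ne']
      have hw : NN X a n + (ad (NN X a (n + 1)) a * ad (NN X a (n + 1)) a + R) / B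
          = NN X a (n + 1 + 1) + 12 * B := by
        have : ((NN X a n + (ad (NN X a (n + 1)) a * ad (NN X a (n + 1)) a + R) / B : ℕ) : ℤ)
            = ((NN X a (n + 1 + 1) + 12 * B : ℕ) : ℤ) := by
          rw [Nat.cast_add, hu2, Nat.cast_add, h.nn, h.nn]
          push_cast
          ring
        exact_mod_cast this
      have hle := h.nn_le (n + 1 + 1)
      have c1 : Nat.beq (Nat.mod (Nat.add (Nat.mul (ad (NN X a (n + 1)) a)
          (ad (NN X a (n + 1)) a)) R) B) 0 = true := by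
        show Nat.beq ((ad (NN X a (n + 1)) a * ad (NN X a (n + 1)) a + R) % B) 0 = true
        rw [hu1]; rfl
      have c2 : Nat.add (NN X a n) (Nat.div (Nat.add (Nat.mul (ad (NN X a (n + 1)) a)
          (ad (NN X a (n + 1)) a)) R) B) = NN X a (n + 1 + 1) + 12 * B := hw
      simp only [c1, c2] at hn
      have c3 : Nat.ble (12 * B) (NN X a (n + 1 + 1) + 12 * B) = true := by
        rw [Nat.ble_eq]; omega
      have c4 : Nat.ble (NN X a (n + 1 + 1) + 12 * B) (Nat.add (12 * B) (2 * a)) = true := by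
        rw [Nat.ble_eq]
        show _ ≤ 12 * B + 2 * a
        omega
      have c5 : Nat.sub (NN X a (n + 1 + 1) + 12 * B) (12 * B) = NN X a (n + 1 + 1) :=
        Nat.add_sub_cancel _ _
      rw [c3, c4, c5] at hn
      have := ih (n + 1)
      push_cast at this
      exact this hn
    · rw [hc] at hn
      rcases hb : Nat.beq (NN X a n) (NN X a (-1)) with _ | _
      · rw [hb] at hc; exact absurd hc Bool.false_ne_true
      · rw [hb] at hc
        have h1 := Nat.eq_of_beq_eq_true hb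
        have h2 : NN X a (n + 1) = 2 * a := Nat.eq_of_beq_eq_true hc
        refine ⟨n + 1, good_spec hn, ?_, ?_⟩
        · have a1 := h.nn n
          have a2 := h.nn (-1)
          rw [h1] at a1
          push_cast
          rw [add_sub_cancel_right]
          linarith
        · have a1 := h.nn (n + 1)
          rw [h2] at a1
          push_cast at a1 ⊢
          rw [h.x0]
          linarith

/-- the neighbour after the maximum -/
lemma BO.z_le (h : BO B S X a) : X 1 ^ 2 ≤ S := by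
  have e := h.eq 1
  have h2 := (abs_le.1 (h.bd 2)).2
  have e0 : (1 : ℤ) + 1 = 2 := rfl
  have e1 : (1 : ℤ) - 1 = 0 := rfl
  rw [e0, e1, h.x0] at e
  have hB : (0 : ℤ) < B := by exact_mod_cast h.pos
  nlinarith

lemma BO.diff (h : BO B S X a) : (B : ℤ) * (X 1 - X (-1)) = (a : ℤ) ^ 2 - S := by
  have := h.eq 0
  rw [h.x0] at this
  simpa using this

lemma BO.y_le_z (h : BO B S X a) : NN X a (-1) ≤ NN X a 1 := by
  have hd := h.diff
  have hl := h.le
  have hB : (0 : ℤ) < B := by exact_mod_cast h.pos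
  have : X (-1) ≤ X 1 := by
    by_contra hc
    rw [not_le] at hc
    have : (B : ℤ) * (X 1 - X (-1)) < 0 := mul_neg_of_pos_of_neg hB (by linarith)
    linarith
  have h1 := h.nn 1
  have h2 := h.nn (-1)
  omega

lemma BO.pairT_sound (h : BO B S X a)
    (hp : pairT B a (2 * a) (12 * B) (12 * (B * B)) (NN X a (-1)) (NN X a 1) = true) :
    ∃ P : ℕ, P ∈ ({1, 2, 3, 4, 6, 8} : Finset ℕ) ∧ X ((P : ℤ) - 1) = X (-1) ∧ X P = X 0 := by
  have hyz := h.y_le_z
  have hd := h.diff
  have hz := h.z_le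
  have n1 := h.nn 1
  have n2 := h.nn (-1)
  have hB : (0 : ℤ) < B := by exact_mod_cast h.pos
  have hm : ((B * (NN X a 1 - NN X a (-1)) : ℕ) : ℤ) = (a : ℤ) ^ 2 - S := by
    rw [Nat.cast_mul, Nat.cast_sub hyz, n1, n2, ← hd]; ring
  have hS0 : 0 ≤ S := (sq_nonneg _).trans hz
  have hle : B * (NN X a 1 - NN X a (-1)) ≤ a * a := by
    have : ((B * (NN X a 1 - NN X a (-1)) : ℕ) : ℤ) ≤ ((a * a : ℕ) : ℤ) := by
      rw [hm]; push_cast; nlinarith
    exact_mod_cast this
  have hS : ((a * a - B * (NN X a 1 - NN X a (-1)) : ℕ) : ℤ) = S := by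
    rw [Nat.cast_sub hle, hm]; push_cast; ring
  unfold pairT at hp
  change (Bool.rec true (Bool.rec true (orb B a (2 * a) (12 * B) (NN X a (-1))
    (12 * (B * B) - (a * a - B * (NN X a 1 - NN X a (-1)))) 12 (2 * a) (NN X a 1) 1)
    (Nat.ble (ad (NN X a 1) a * ad (NN X a 1) a) (a * a - B * (NN X a 1 - NN X a (-1)))))
    (Nat.ble (Nat.succ (a * a - B * (NN X a 1 - NN X a (-1)))) (12 * (B * B))) : Bool) = true at hp
  have hlt : a * a - B * (NN X a 1 - NN X a (-1)) < 12 * (B * B) := by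
    have : ((a * a - B * (NN X a 1 - NN X a (-1)) : ℕ) : ℤ) < ((12 * (B * B) : ℕ) : ℤ) := by
      rw [hS]; push_cast; have := h.s12; nlinarith
    exact_mod_cast this
  have c1 : Nat.ble (Nat.succ (a * a - B * (NN X a 1 - NN X a (-1)))) (12 * (B * B)) = true := by
    rw [Nat.ble_eq]; exact hlt
  have c2 : Nat.ble (ad (NN X a 1) a * ad (NN X a 1) a) (a * a - B * (NN X a 1 - NN X a (-1)))
      = true := by
    rw [Nat.ble_eq]
    have : ((ad (NN X a 1) a * ad (NN X a 1) a : ℕ) : ℤ)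
        ≤ ((a * a - B * (NN X a 1 - NN X a (-1)) : ℕ) : ℤ) := by
      rw [hS]
      push_cast
      rw [ad_cast, n1, add_sub_cancel_right, ← sq, sq_abs]
      exact hz
    exact_mod_cast this
  rw [c1, c2] at hp
  have n0 : NN X a 0 = 2 * a := by
    have := h.nn 0
    rw [h.x0] at this
    omega
  have hR : ((12 * (B * B) - (a * a - B * (NN X a 1 - NN X a (-1))) : ℕ) : ℤ)
      = 12 * (B : ℤ) ^ 2 - S := by
    rw [Nat.cast_sub hlt.le, hS]; push_cast; ring
  have := h.orb_sound hR 12 0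
  simp only [Nat.cast_zero, zero_add] at this
  rw [n0] at this
  exact this hp

lemma allL_spec {f : ℕ → Bool} {l : List ℕ} (h : allL f l = true) : ∀ r ∈ l, f r = true := by
  induction l with
  | nil => intro r hr; simp at hr
  | cons v l ih =>
    have h1 : (Bool.rec false (allL f l) (f v) : Bool) = true := h
    rcases hf : f v with _ | _
    · rw [hf] at h1; exact absurd h1 Bool.false_ne_true
    · rw [hf] at h1
      intro r hr
      rcases List.mem_cons.1 hr with rfl | h2
      · exact hf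
      · exact ih h1 r h2

lemma memL_spec {r : ℕ} {l : List ℕ} (h : memL r l = true) : r ∈ l := by
  induction l with
  | nil => exact absurd h Bool.false_ne_true
  | cons v l ih =>
    have h1 : (Bool.rec (memL r l) true (Nat.beq v r) : Bool) = true := h
    rcases hf : Nat.beq v r with _ | _
    · rw [hf] at h1
      exact List.mem_cons_of_mem _ (ih h1)
    · rw [Nat.eq_of_beq_eq_true hf]
      exact List.mem_cons_self

/-- residues of the neighbours -/
lemma BO.exists_res (h : BO B S X a) {Rs : List ℕ} (hR : resOK B Rs = true) (n : ℤ) :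
    ∃ r ∈ Rs, NN X a n % B = (r * a + a) % B := by
  have hB : (0 : ℤ) < B := by exact_mod_cast h.pos
  have hco : IsCoprime (a : ℤ) (B : ℤ) := Nat.isCoprime_iff_coprime.2 h.cop
  obtain ⟨b, b', hb⟩ := hco
  have r0 : 0 ≤ (X n * b) % (B : ℤ) := Int.emod_nonneg _ hB.ne'
  have r1 : (X n * b) % (B : ℤ) < B := Int.emod_lt_of_pos _ hB
  obtain ⟨r, hr⟩ := Int.eq_ofNat_of_zero_le r0
  have hrB : r < B := by omega
  have hdiv := Int.emod_add_mul_ediv (X n * b) B
  rw [hr] at hdiv
  set j := X n * b / (B : ℤ) with hj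
  -- `r * a = X n + B * j'`
  obtain ⟨j', hj'⟩ : ∃ j' : ℤ, (r : ℤ) * a = X n + B * j' :=
    ⟨-(X n * b') - j * a, by linear_combination (a : ℤ) * hdiv + X n * hb⟩
  refine ⟨r, ?_, ?_⟩
  · apply memL_spec
    have h1 := all_spec hR r hrB
    have h2 : Nat.beq (Nat.mod (Nat.mul r r) (mB B)) (Nat.mod 1 (mB B)) = true := by
      have key : (mB B : ℤ) ∣ (r : ℤ) * r - 1 := by
        have hg : mB B = B * (2 - B % 2) := rfl
        have hres := h.res n
        have hsq : (mB B : ℤ) ∣ ((r : ℤ) * a) ^ 2 - X n ^ 2 := by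
          rw [hj']
          have e : (X n + B * j') ^ 2 - X n ^ 2 = B * (2 * (X n * j') + B * (j' * j')) := by ring
          rw [e, hg]
          push_cast
          apply mul_dvd_mul_left
          rcases Nat.mod_two_eq_zero_or_one B with h0 | h0
          · rw [h0]
            have : (2 : ℤ) ∣ B := by exact_mod_cast Nat.dvd_of_mod_eq_zero h0
            exact dvd_add (dvd_mul_right _ _) (this.mul_right _)
          · rw [h0]; simp
        have hsum : (mB B : ℤ) ∣ (a : ℤ) ^ 2 * ((r : ℤ) * r - 1) := by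
          have e : (a : ℤ) ^ 2 * ((r : ℤ) * r - 1) = (((r : ℤ) * a) ^ 2 - X n ^ 2)
              + (X n ^ 2 - (a : ℤ) ^ 2) := by ring
          rw [e]
          exact dvd_add hsq hres
        have hcm : IsCoprime (mB B : ℤ) ((a : ℤ) ^ 2) := by
          apply IsCoprime.pow_right
          rw [Nat.isCoprime_iff_coprime, hg]
          apply Nat.Coprime.mul_left
          · exact Nat.Coprime.symm h.cop
          · rcases Nat.mod_two_eq_zero_or_one B with h0 | h0
            · rw [h0]
              have : Nat.Coprime a 2 := Nat.Coprime.coprime_dvd_right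
                (Nat.dvd_of_mod_eq_zero h0) h.cop
              exact this.symm
            · rw [h0]; exact Nat.coprime_one_left a
        exact hcm.dvd_of_dvd_mul_left hsum
      have h3 : ((r * r : ℕ) : ℤ) % (mB B : ℤ) = ((1 : ℕ) : ℤ) % (mB B : ℤ) := by
        push_cast
        rw [Int.emod_eq_emod_iff_emod_sub_eq_zero]
        exact Int.emod_eq_zero_of_dvd key
      have h4 : (r * r) % mB B = 1 % mB B := by exact_mod_cast h3
      show Nat.beq ((r * r) % mB B) (1 % mB B) = true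
      rw [h4]; exact Nat.beq_refl _
    change (Bool.rec true (memL r Rs)
      (Nat.beq (Nat.mod (Nat.mul r r) (mB B)) (Nat.mod 1 (mB B))) : Bool) = true at h1
    rw [h2] at h1
    exact h1
  · have h3 : ((NN X a n : ℕ) : ℤ) % B = ((r * a + a : ℕ) : ℤ) % B := by
      rw [h.nn]
      push_cast
      rw [hj', Int.emod_eq_emod_iff_emod_sub_eq_zero]
      apply Int.emod_eq_zero_of_dvd
      exact ⟨-j', by ring⟩
    exact_mod_cast h3

lemma BO.pairs_sound (h : BO B S X a) {Rs : List ℕ} (hR : resOK B Rs = true)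
    (hp : pairs B a (2 * a) (12 * B) (12 * (B * B)) Rs (2 * a / B + 1) = true) :
    ∃ P : ℕ, P ∈ ({1, 2, 3, 4, 6, 8} : Finset ℕ) ∧ X ((P : ℤ) - 1) = X (-1) ∧ X P = X 0 := by
  obtain ⟨r1, hr1, e1⟩ := h.exists_res hR (-1)
  obtain ⟨r2, hr2, e2⟩ := h.exists_res hR 1
  have ky : NN X a (-1) / B < 2 * a / B + 1 :=
    Nat.lt_succ_of_le (Nat.div_le_div_right (h.nn_le (-1)))
  have kz : NN X a 1 / B < 2 * a / B + 1 :=
    Nat.lt_succ_of_le (Nat.div_le_div_right (h.nn_le 1))
  have y1 : (r1 * a + a) % B + NN X a (-1) / B * B = NN X a (-1) := by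
    rw [← e1]; exact Nat.mod_add_div' _ _
  have z1 : (r2 * a + a) % B + NN X a 1 / B * B = NN X a 1 := by
    rw [← e2]; exact Nat.mod_add_div' _ _
  have h1 := allL_spec hp r1 hr1
  have h2 := all_spec h1 _ ky
  have y2 : Nat.add (Nat.mod (Nat.add (Nat.mul r1 a) a) B) (Nat.mul (NN X a (-1) / B) B)
      = NN X a (-1) := y1
  simp only [y2] at h2
  rw [show Nat.ble (NN X a (-1)) (2 * a) = true by rw [Nat.ble_eq]; exact h.nn_le _] at h2
  have h3 := allL_spec h2 r2 hr2
  have h4 := all_spec h3 _ kz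
  have z2 : Nat.add (Nat.mod (Nat.add (Nat.mul r2 a) a) B) (Nat.mul (NN X a 1 / B) B)
      = NN X a 1 := z1
  simp only [z2] at h4
  rw [show Nat.ble (NN X a 1) (2 * a) = true by rw [Nat.ble_eq]; exact h.nn_le _,
    show Nat.ble (NN X a (-1)) (NN X a 1) = true by rw [Nat.ble_eq]; exact h.y_le_z] at h4
  have hle : Nat.ble (Nat.mul B (Nat.sub (NN X a 1) (NN X a (-1)))) (Nat.mul a a) = true := by
    rw [Nat.ble_eq]
    show B * (NN X a 1 - NN X a (-1)) ≤ a * a
    have n1 := h.nn 1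
    have n2 := h.nn (-1)
    have hm : ((B * (NN X a 1 - NN X a (-1)) : ℕ) : ℤ) = (a : ℤ) ^ 2 - S := by
      rw [Nat.cast_mul, Nat.cast_sub h.y_le_z, n1, n2, ← h.diff]; ring
    have hS0 : 0 ≤ S := (sq_nonneg _).trans h.z_le
    have : ((B * (NN X a 1 - NN X a (-1)) : ℕ) : ℤ) ≤ ((a * a : ℕ) : ℤ) := by
      rw [hm]; push_cast; nlinarith
    exact_mod_cast this
  rw [hle] at h4
  exact h.pairT_sound h4

theorem BO.brute_sound (h : BO B S X a) {Rs : List ℕ} (hc : chkB (B, Rs) = true) :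
    ∃ P : ℕ, P ∈ ({1, 2, 3, 4, 6, 8} : Finset ℕ) ∧ X ((P : ℤ) - 1) = X (-1) ∧ X P = X 0 := by
  change (Bool.rec false (brute B Rs) (resOK B Rs) : Bool) = true at hc
  rcases hR : resOK B Rs with _ | _
  · rw [hR] at hc; exact absurd hc Bool.false_ne_true
  · rw [hR] at hc
    have ha : a < 9 * B / 2 + 1 := by
      have := h.a9
      omega
    have h1 := all_spec hc a ha
    have h2 : Nat.beq (Nat.gcd a B) 1 = true := by rw [h.cop]; rfl
    change (Bool.rec true (pairs B a (2 * a) (12 * B) (12 * (B * B)) Rs (2 * a / B + 1))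
      (Nat.beq (Nat.gcd a B) 1) : Bool) = true at h1
    rw [h2] at h1
    exact h.pairs_sound hR h1

end Pool.Agent.Henon88
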