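import Pool.Agent.Henon88.Assem

/-!
The case `c ≤ -12` with at least one strong place.
-/

namespace Pool.Agent.Henon88

variable {B : ℕ} {X : ℤ → ℤ} {S : ℤ} {c : ℚ} {x : ℤ → ℚ}

/-- base signs: a window of length `< 1` -/
structure Win (B : ℕ) (X : ℤ → ℤ) (s : ℤ → Bool) : Prop where
  s0 : s 0 = false
  win : ∀ n m, 1000 * |aa B X s n - aa B X s m| ≤ 989 * B
  low : ∀ n, 2877 * (B : ℤ) ≤ 1000 * aa B X s n

theorem real_place (h : IsOrb c x) (hI : IOrb B S X) (hx : ∀ n, x n = X n / B) (hc : c ≤ -12)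
    (h0 : 0 < x 0) : Win B X (fun n => decide (X n < 0)) := by
  have hBq : (0 : ℚ) < B := by exact_mod_cast hI.pos
  have hBr : (0 : ℝ) < B := by exact_mod_cast hI.pos
  have hcr : (c : ℝ) ≤ -12 := by exact_mod_cast hc
  set r : ℝ := Real.sqrt (1 - c) with hr
  have hr2 : r ^ 2 = 1 - c := Real.sq_sqrt (by linarith)
  have hRO : RO (fun n => (x n : ℝ)) r := by
    refine ⟨Real.sqrt_nonneg _, by rw [hr2]; linarith, fun n => ?_, ?_⟩
    · have := h.step n
      have h2 : ((x (n + 1) : ℝ)) - x (n - 1) = (x n : ℝ) ^ 2 + c := by exact_mod_cast this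
      rw [hr2]
      linarith
    · obtain ⟨m, hm⟩ := h.exists_max
      refine ⟨m, fun n => ?_⟩
      have := hm n
      exact_mod_cast this
  have hsgn : ∀ n, (x n : ℝ) < 0 ↔ X n < 0 := by
    intro n
    have e : (x n : ℝ) = (X n : ℝ) / B := by
      rw [hx n]; push_cast; rfl
    rw [e, div_neg_iff]
    constructor
    · rintro (⟨_, h2⟩ | ⟨h1, _⟩)
      · linarith
      · exact_mod_cast h1
    · intro h1
      right
      exact ⟨by exact_mod_cast h1, hBr⟩
  have hs : (fun k => decide ((x k : ℝ) < 0)) = fun n => decide (X n < 0) := by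
    funext k
    simp only [hsgn]
  have hw := hRO.window
  rw [hs] at hw
  set s : ℤ → Bool := fun n => decide (X n < 0) with hsdef
  have haa : ∀ n, ((aa B X s n : ℤ) : ℝ) = B * (|(x n : ℝ)| - D s n) := by
    intro n
    have e : (x n : ℝ) = (X n : ℝ) / B := by
      rw [hx n]; push_cast; rfl
    have e2 : ((sg (s n) * X n : ℤ) : ℝ) = B * |(x n : ℝ)| := by
      rw [e, abs_div, abs_of_pos hBr, mul_div_cancel₀ _ hBr.ne']
      rw [← Int.cast_abs]
      congr 1
      by_cases hn : X n < 0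
      · rw [abs_of_neg hn]
        simp only [hsdef, hn, decide_true, sg, if_true]
        ring
      · rw [abs_of_nonneg (not_lt.1 hn)]
        simp only [hsdef, hn, decide_false, sg, Bool.false_eq_true, if_false]
        ring
    unfold aa
    push_cast at e2 ⊢
    rw [e2]; ring
  refine ⟨?_, ?_, ?_⟩
  · have : ¬ X 0 < 0 := by
      intro hX
      have : (X 0 : ℚ) < 0 := by exact_mod_cast hX
      have : x 0 < 0 := by
        rw [hx 0]
        exact div_neg_of_neg_of_pos this hBq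
      linarith
    simp [hsdef, this]
  · intro n m
    have h1 := hw n
    have h2 := hw m
    have h3 : (1000 : ℝ) * |((aa B X s n : ℤ) : ℝ) - ((aa B X s m : ℤ) : ℝ)| ≤ 989 * B := by
      rw [haa, haa, ← mul_sub, abs_mul, abs_of_pos hBr]
      have : |(|(x n : ℝ)| - (D s n : ℝ)) - (|(x m : ℝ)| - (D s m : ℝ))| ≤ 0.989 := by
        rw [abs_le]
        constructor <;> linarith [h1.1, h1.2, h2.1, h2.2]
      nlinarith
    exact_mod_cast h3
  · intro n
    have h1 := (hw n).1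
    have h2 := hRO.r_ge
    have h3 : (2877 : ℝ) * B ≤ 1000 * ((aa B X s n : ℤ) : ℝ) := by
      rw [haa]
      nlinarith
    exact_mod_cast h3

lemma Win.eq_of_dvd {s : ℤ → Bool} (W : Win B X s) (hI : IOrb B S X) {n m : ℤ}
    (h : (B : ℤ) ∣ aa B X s n - aa B X s m) : aa B X s n = aa B X s m := by
  have hB : (0 : ℤ) < B := by exact_mod_cast hI.pos
  have := Int.eq_zero_of_abs_lt_dvd h (by
    have := W.win n m
    linarith)
  linarith

lemma IOrb.odd (hI : IOrb B S X) (h2 : 2 ∣ B) (n : ℤ) : X n % 2 = 1 := by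
  rcases Int.emod_two_eq_zero_or_one (X n) with h0 | h0
  · have hd : (2 : ℤ) ∣ X n := Int.dvd_of_emod_eq_zero h0
    have hB : (2 : ℤ) ∣ B := by exact_mod_cast h2
    have := (hI.cop n).isUnit_of_dvd' hd hB
    exact absurd this Int.prime_two.not_isUnit
  · exact h0

lemma IOrb.even_aa (hI : IOrb B S X) (h2 : 2 ∣ B) (s : ℤ → Bool) (n m : ℤ) :
    (2 : ℤ) ∣ aa B X s n - aa B X s m := by
  have h1 := hI.odd h2 n
  have h3 := hI.odd h2 m
  obtain ⟨b, hb⟩ := h2
  have key : ∀ k, X k % 2 = 1 → ∃ t, aa B X s k = 2 * t + 1 := by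
    intro k hk
    unfold aa
    have hk' : X k = 2 * (X k / 2) + 1 := by omega
    rcases hs : s k with _ | _
    · refine ⟨X k / 2 - b * D s k, ?_⟩
      rw [hb]
      push_cast
      simp only [sg, Bool.false_eq_true, if_false]
      linarith
    · refine ⟨-(X k / 2) - 1 - b * D s k, ?_⟩
      rw [hb]
      push_cast
      simp only [sg, if_true]
      linarith
  obtain ⟨t1, h5⟩ := key n h1
  obtain ⟨t2, h6⟩ := key m h3
  rw [h5, h6]
  exact ⟨t1 - t2, by ring⟩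

/-- a trivial component -/
lemma IOrb.triv (hI : IOrb B S X) {q : ℕ} (hq : q = 1 ∨ q = 2) (hqB : q ∣ B) (s : ℤ → Bool)
    (n m : ℤ) : (q : ℤ) ∣ aa B X s n - aa B X s m := by
  rcases hq with rfl | rfl
  · simp
  · exact hI.even_aa hqB s n m

lemma ww_self (s : ℤ → Bool) (k : ℤ) : ww s s k = 0 := by
  unfold ww
  linear_combination (D s k) * sg_sq (s k)

lemma cl_self (s : ℤ → Bool) (k : ℤ) : cl s s k = false := by
  unfold cl
  exact Bool.xor_self _

theorem caseTT (h : IsOrb c x) (hI : IOrb B S X) (hx : ∀ n, x n = X n / B) {s : ℤ → Bool}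
    (W : Win B X s) (hB : B = 1 ∨ B = 2) : Good x := by
  have ha : ∀ n m, cl s s n = cl s s m → aa B X s n = aa B X s m :=
    fun n m _ => W.eq_of_dvd hI (hI.triv hB dvd_rfl s n m)
  have hw : ∀ n m, cl s s n = cl s s m → ww s s n = ww s s m :=
    fun n m _ => by rw [ww_self, ww_self]
  exact good_of_semT h hx ha ⟨W.s0, W.s0, hw, fun n m hc => hh_of_ww hI ha hw n m hc⟩

theorem caseTS (h : IsOrb c x) (hI : IOrb B S X) (hx : ∀ n, x n = X n / B) {s : ℤ → Bool}
    (W : Win B X s) {q1 q2 Q2 : ℕ} (hB : B = q1 * q2) (hq1 : q1 = 1 ∨ q1 = 2)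
    (hco : Nat.Coprime q1 q2) {e : ℤ → Bool} {u : ℤ} (P : Pl B X q2 Q2 q1 e u) (hQ : 5 ≤ Q2) :
    Good x := by
  have ha : ∀ n m, cl s e n = cl s e m → aa B X s n = aa B X s m := by
    intro n m hc
    apply W.eq_of_dvd hI
    have hBz : (B : ℤ) = q1 * q2 := by rw [hB]; push_cast; ring
    rw [hBz]
    refine IsCoprime.mul_dvd (Nat.isCoprime_iff_coprime.2 hco) (hI.triv hq1 ⟨q2, hB⟩ s n m)
      (P.cong_q s hc)
  have hw : ∀ n m, cl s e n = cl s e m → ww s e n = ww s e m :=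
    fun n m hc => (P.strong hI.pos hQ s hc (ha n m hc)).1
  exact good_of_semT h hx ha ⟨W.s0, P.start, hw, fun n m hc => hh_of_ww hI ha hw n m hc⟩

lemma aa_of_two (hI : IOrb B S X) {s : ℤ → Bool} (W : Win B X s) {q1 q2 Q1 Q2 : ℕ}
    (hB : B = q1 * q2) (hco : Nat.Coprime q1 q2) {e1 e2 : ℤ → Bool} {u1 u2 : ℤ}
    (P1 : Pl B X q1 Q1 q2 e1 u1) (P2 : Pl B X q2 Q2 q1 e2 u2) :
    ∀ n m, cl s e1 n = cl s e1 m → cl s e2 n = cl s e2 m → aa B X s n = aa B X s m := by
  intro n m h1 h2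
  apply W.eq_of_dvd hI
  have hBz : (B : ℤ) = q1 * q2 := by rw [hB]; push_cast; ring
  rw [hBz]
  exact IsCoprime.mul_dvd (Nat.isCoprime_iff_coprime.2 hco) (P1.cong_q s h1) (P2.cong_q s h2)

theorem caseSS (h : IsOrb c x) (hI : IOrb B S X) (hx : ∀ n, x n = X n / B) {s : ℤ → Bool}
    (W : Win B X s) {q1 q2 Q1 Q2 : ℕ} (hB : B = q1 * q2) (hco : Nat.Coprime q1 q2)
    {e1 e2 : ℤ → Bool} {u1 u2 : ℤ}
    (P1 : Pl B X q1 Q1 q2 e1 u1) (P2 : Pl B X q2 Q2 q1 e2 u2) (hQ1 : 5 ≤ Q1) (hQ2 : 5 ≤ Q2) :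
    Good x := by
  have ha := aa_of_two hI W hB hco P1 P2
  refine good_of_rep h hx ha (rep_strong (l := 0) ⟨W.s0, P1.start, P2.start, ?_, ?_, ?_, ?_, ?_, ?_⟩)
  · exact fun n m h1 h2 => (P1.strong hI.pos hQ1 s h1 (ha n m h1 h2)).1
  · intro n m h1 h2
    rw [if_pos rfl]
    exact (P2.strong hI.pos hQ2 s h2 (ha n m h1 h2)).1
  · exact fun n m h1 h2 => (P1.strong hI.pos hQ1 s h1 (ha n m h1 h2)).2
  · intro n m h1 h2
    rw [if_pos rfl]
    exact (P2.strong hI.pos hQ2 s h2 (ha n m h1 h2)).2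
  · exact fun n m h1 h2 w1 w2 => rr_of hI ha W.win h1 h2 w1 w2
  · exact fun n m _ _ => abs_nonneg _

/-- the partner condition -/
lemma partner (hI : IOrb B S X) {s : ℤ → Bool} (W : Win B X s) {q1 q2 Q1 Q2 : ℕ}
    (hB : B = q1 * q2) {e1 e2 : ℤ → Bool} {u1 u2 : ℤ}
    (P1 : Pl B X q1 Q1 q2 e1 u1) (P2 : Pl B X q2 Q2 q1 e2 u2) (hQ1 : 5 ≤ Q1) {n m : ℤ}
    (h1 : cl s e1 n = cl s e1 m) (h2 : cl s e2 n ≠ cl s e2 m) :
    ∃ z : ℤ, aa B X s n - aa B X s m = q1 * z ∧ (Q1 : ℤ) ∣ z - q2 * (ww s e1 n - ww s e1 m) ∧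
      z ≠ 0 ∧ 1000 * |z| ≤ 989 * q2 := by
  obtain ⟨z, hz⟩ := P1.cong_q s h1
  have hq1 : (0 : ℤ) < q1 := by
    have := P1.q3
    positivity
  refine ⟨z, hz, ?_, ?_, ?_⟩
  · have h3 := P1.cong s h1
    have h4 : (aa B X s n - B * ww s e1 n) - (aa B X s m - B * ww s e1 m)
        = q1 * (z - q2 * (ww s e1 n - ww s e1 m)) := by
      have hBz : (B : ℤ) = q1 * q2 := by rw [hB]; push_cast; ring
      rw [hBz]
      linear_combination hz
    rw [h4] at h3
    push_cast at h3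
    exact Int.dvd_of_mul_dvd_mul_left hq1.ne' h3
  · intro h0
    apply P2.distinct s h2
    rw [hz, h0, mul_zero]
    exact dvd_zero _
  · have := W.win n m
    have hBz : (B : ℤ) = q1 * q2 := by rw [hB]; push_cast; ring
    rw [hz, hBz, abs_mul, abs_of_pos hq1] at this
    have h5 : (q1 : ℤ) * (1000 * |z|) ≤ q1 * (989 * q2) := by linarith
    exact le_of_mul_le_mul_left h5 hq1

lemma emod_eq_of_dvd {a b d : ℤ} (h : d ∣ a - b) : a % d = b % d := by
  rw [Int.emod_eq_emod_iff_emod_sub_eq_zero]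
  exact Int.emod_eq_zero_of_dvd h

lemma q_odd_of_coprime {q1 q2 : ℕ} (hco : Nat.Coprime q1 q2) (h2 : 2 ∣ q2) : q1 % 2 = 1 := by
  by_contra h
  have h1 : 2 ∣ q1 := by omega
  have := Nat.dvd_gcd h1 h2
  rw [hco] at this
  omega

lemma even_z (hI : IOrb B S X) {s : ℤ → Bool} {q1 q2 : ℕ} (hB : B = q1 * q2)
    (hco : Nat.Coprime q1 q2) (h2 : 2 ∣ q2) {n m z : ℤ}
    (hz : aa B X s n - aa B X s m = q1 * z) : (2 : ℤ) ∣ z := by
  have h1 := hI.even_aa (hB ▸ h2.mul_left q1) s n m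
  rw [hz] at h1
  rcases Int.prime_two.dvd_or_dvd h1 with h3 | h3
  · have := q_odd_of_coprime hco h2
    omega
  · exact h3

theorem caseSW (h : IsOrb c x) (hI : IOrb B S X) (hx : ∀ n, x n = X n / B) {s : ℤ → Bool}
    (W : Win B X s) {q1 q2 Q1 Q2 : ℕ} (hB : B = q1 * q2) (hco : Nat.Coprime q1 q2)
    {e1 e2 : ℤ → Bool} {u1 u2 : ℤ}
    (P1 : Pl B X q1 Q1 q2 e1 u1) (P2 : Pl B X q2 Q2 q1 e2 u2) (hQ1 : 5 ≤ Q1)
    (hQ2 : (q2 = 4 ∧ Q2 = 2) ∨ (q2 = 3 ∧ Q2 = 3) ∨ (q2 = 8 ∧ Q2 = 4)) :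
    Good x := by
  have ha := aa_of_two hI W hB hco P1 P2
  have h2le : 2 ≤ Q2 := by omega
  obtain ⟨ω, hω1, hω2, hω⟩ := P2.weak hI.pos h2le s
  have hsem : ∀ WM : ℕ, (∀ n m, cl s e1 n = cl s e1 m → cl s e2 n ≠ cl s e2 m →
      (WM : ℤ) ≤ |ww s e1 n - ww s e1 m|) → SemA Q2 ((Q2 * ω : ℕ) : ℤ) WM s e1 e2 := by
    intro WM hWM
    have hQ0 : ¬ ((Q2 : ℤ) = 0) := by
      have : Q2 ≠ 0 := by omega
      exact_mod_cast this
    refine ⟨W.s0, P1.start, P2.start, ?_, ?_, ?_, ?_, ?_, hWM⟩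
    · exact fun n m h1 h2 => (P1.strong hI.pos hQ1 s h1 (ha n m h1 h2)).1
    · intro n m h1 h2
      rw [if_neg hQ0]
      have := P2.w_dvd hI.pos s h2 (ha n m h1 h2)
      exact emod_eq_of_dvd this
    · exact fun n m h1 h2 => (P1.strong hI.pos hQ1 s h1 (ha n m h1 h2)).2
    · intro n m h1 h2
      rw [if_neg hQ0]
      exact emod_eq_of_dvd (hω n m h2 (ha n m h1 h2))
    · exact fun n m h1 h2 w1 w2 => rr_of hI ha W.win h1 h2 w1 w2
  refine good_of_rep h hx ha ?_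
  rcases hQ2 with ⟨hq, hQ⟩ | ⟨hq, hQ⟩ | ⟨hq, hQ⟩
  · -- q2 = 4
    subst hq hQ
    have hω' : ω = 1 := by
      interval_cases ω
      · simp at hω2
      · rfl
    have h0 := hsem 2 (fun n m h1 h2 => by
      obtain ⟨z, hz, hd, hz0, hzb⟩ := partner hI W hB P1 P2 hQ1 h1 h2
      have hev := even_z hI hB hco (by norm_num) hz
      have hodd : Q1 % 2 = 1 := by
        have := q_odd_of_coprime hco (by norm_num)
        rcases P1.par with ⟨a, _⟩ | ⟨a, b⟩
        · exact a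
        · omega
      by_contra hcon
      rw [not_le, abs_lt] at hcon
      obtain ⟨c1, c2⟩ := hcon
      have hzb' : -3 ≤ z ∧ z ≤ 3 := by
        have := abs_le.1 (show |z| ≤ 3 by push_cast at hzb; omega)
        exact this
      push_cast at hd c1 c2
      generalize ww s e1 n - ww s e1 m = d at hd c1 c2
      have hne : z - 4 * d ≠ 0 := by omega
      have hle : (Q1 : ℤ) ≤ 7 := by
        have := Int.le_of_dvd (abs_pos.2 hne) ((dvd_abs _ _).2 hd)
        have h7 : |z - 4 * d| ≤ 7 := by rw [abs_le]; omega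
        omega
      have hQ5 : Q1 = 5 ∨ Q1 = 7 := by omega
      rcases hQ5 with h5 | h5
      · rw [h5] at hd; push_cast at hd; omega
      · rw [h5] at hd; push_cast at hd; omega)
    rw [hω'] at h0
    exact rep_weak2 h0
  · -- q2 = 3
    subst hq hQ
    have hω' : ω = 1 ∨ ω = 2 := by
      interval_cases ω
      · simp at hω2
      · left; rfl
      · right; rfl
    have h0 := hsem 1 (fun n m h1 h2 => by
      obtain ⟨z, hz, hd, hz0, hzb⟩ := partner hI W hB P1 P2 hQ1 h1 h2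
      by_contra hcon
      rw [not_le, Nat.cast_one, Int.abs_lt_one_iff] at hcon
      rw [hcon, mul_zero, sub_zero] at hd
      apply hz0
      apply Int.eq_zero_of_abs_lt_dvd hd
      push_cast at hzb
      omega)
    rcases hω' with hω' | hω'
    · rw [hω'] at h0; exact rep_weak3 (Or.inl h0)
    · rw [hω'] at h0; exact rep_weak3 (Or.inr h0)
  · -- q2 = 8
    subst hq hQ
    have hω' : ω = 1 ∨ ω = 3 := by
      interval_cases ω
      · simp at hω2
      · left; rfl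
      · exact absurd hω2 (by decide)
      · right; rfl
    have h0 := hsem 1 (fun n m h1 h2 => by
      obtain ⟨z, hz, hd, hz0, hzb⟩ := partner hI W hB P1 P2 hQ1 h1 h2
      have hev := even_z hI hB hco (by norm_num) hz
      have hodd : Q1 % 2 = 1 := by
        have := q_odd_of_coprime hco (by norm_num)
        rcases P1.par with ⟨a, _⟩ | ⟨a, b⟩
        · exact a
        · omega
      by_contra hcon
      rw [not_le, Nat.cast_one, Int.abs_lt_one_iff] at hcon
      rw [hcon, mul_zero, sub_zero] at hd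
      have hzb' : -7 ≤ z ∧ z ≤ 7 := by
        have := abs_le.1 (show |z| ≤ 7 by push_cast at hzb; omega)
        exact this
      have hle : (Q1 : ℤ) ≤ 7 := by
        have := Int.le_of_dvd (abs_pos.2 hz0) ((dvd_abs _ _).2 hd)
        have h7 : |z| ≤ 7 := by rw [abs_le]; omega
        omega
      have hQ5 : Q1 = 5 ∨ Q1 = 7 := by omega
      rcases hQ5 with h5 | h5
      · rw [h5] at hd; push_cast at hd; omega
      · rw [h5] at hd; push_cast at hd; omega)
    rcases hω' with hω' | hω'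
    · rw [hω'] at h0; exact rep_weak4 (Or.inl h0)
    · rw [hω'] at h0; exact rep_weak4 (Or.inr h0)

end Pool.Agent.Henon88
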