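import Pool.Agent.Henon88.BaseB

namespace Pool.Agent.Henon88

set_option maxRecDepth 100000 in
theorem runB13_0 : runBl 9 1 3 true 1 3 1 = true := by decide +kernel

set_option maxRecDepth 100000 in
theorem runB13_1 : runBl 9 1 3 true 2 3 2 = true := by decide +kernel

set_option maxRecDepth 100000 in
theorem runB13_2 : runBl 9 1 3 true 4 3 4 = true := by decide +kernel

set_option maxRecDepth 100000 in
theorem runB13_3 : runBl 9 1 3 true 5 3 5 = true := by decide +kernel

def vsB13 : List (ℕ × ℕ × ℕ) := [(1, 3, 1), (2, 3, 2), (4, 3, 4), (5, 3, 5)]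

theorem runB13 : vsB13.all (fun v => runBl 9 1 3 true v.1 v.2.1 v.2.2) = true :=
  all_cons runB13_0 (all_cons runB13_1 (all_cons runB13_2 (all_cons runB13_3 (all_nil))))

set_option maxRecDepth 100000 in
theorem runB12_0 : runBl 4 1 2 true 1 2 1 = true := by decide +kernel

set_option maxRecDepth 100000 in
theorem runB12_1 : runBl 4 1 2 true 3 2 3 = true := by decide +kernel

def vsB12 : List (ℕ × ℕ × ℕ) := [(1, 2, 1), (3, 2, 3)]

theorem runB12 : vsB12.all (fun v => runBl 4 1 2 true v.1 v.2.1 v.2.2) = true :=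
  all_cons runB12_0 (all_cons runB12_1 (all_nil))

set_option maxRecDepth 100000 in
theorem runB14_0 : runBl 16 1 4 true 1 4 1 = true := by decide +kernel

set_option maxRecDepth 100000 in
theorem runB14_1 : runBl 16 1 4 true 3 4 3 = true := by decide +kernel

set_option maxRecDepth 100000 in
theorem runB14_2 : runBl 16 1 4 true 5 4 5 = true := by decide +kernel

set_option maxRecDepth 100000 in
theorem runB14_3 : runBl 16 1 4 true 7 4 7 = true := by decide +kernel

def vsB14 : List (ℕ × ℕ × ℕ) := [(1, 4, 1), (3, 4, 3), (5, 4, 5), (7, 4, 7)]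

theorem runB14 : vsB14.all (fun v => runBl 16 1 4 true v.1 v.2.1 v.2.2) = true :=
  all_cons runB14_0 (all_cons runB14_1 (all_cons runB14_2 (all_cons runB14_3 (all_nil))))

end Pool.Agent.Henon88
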