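import Pool.Agent.Henon88.BaseB

namespace Pool.Agent.Henon88

set_option maxRecDepth 100000 in
theorem runB2b_0 : runBl 9 4 6 false 8 3 5 = true := by decide +kernel

set_option maxRecDepth 100000 in
theorem runB2b_1 : runBl 9 4 6 false 8 3 11 = true := by decide +kernel

set_option maxRecDepth 100000 in
theorem runB2b_2 : runBl 9 4 6 false 8 9 5 = true := by decide +kernel

set_option maxRecDepth 100000 in
theorem runB2b_3 : runBl 9 4 6 false 8 9 11 = true := by decide +kernel

set_option maxRecDepth 100000 in
theorem runB2b_4 : runBl 9 4 6 false 10 3 1 = true := by decide +kernel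

set_option maxRecDepth 100000 in
theorem runB2b_5 : runBl 9 4 6 false 10 3 7 = true := by decide +kernel

set_option maxRecDepth 100000 in
theorem runB2b_6 : runBl 9 4 6 false 10 9 1 = true := by decide +kernel

set_option maxRecDepth 100000 in
theorem runB2b_7 : runBl 9 4 6 false 10 9 7 = true := by decide +kernel

def vsB2b : List (ℕ × ℕ × ℕ) := [(8, 3, 5), (8, 3, 11), (8, 9, 5), (8, 9, 11), (10, 3, 1), (10, 3, 7), (10, 9, 1), (10, 9, 7)]

theorem runB2b : vsB2b.all (fun v => runBl 9 4 6 false v.1 v.2.1 v.2.2) = true :=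
  all_cons runB2b_0 (all_cons runB2b_1 (all_cons runB2b_2 (all_cons runB2b_3 (all_cons runB2b_4 (all_cons runB2b_5 (all_cons runB2b_6 (all_cons runB2b_7 (all_nil))))))))

end Pool.Agent.Henon88
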