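import Pool.Agent.Henon88.BaseB

namespace Pool.Agent.Henon88

set_option maxRecDepth 100000 in
theorem runB4a_0 : runBl 9 16 12 false 4 3 7 = true := by decide +kernel

set_option maxRecDepth 100000 in
theorem runB4a_1 : runBl 9 16 12 false 4 3 19 = true := by decide +kernel

set_option maxRecDepth 100000 in
theorem runB4a_2 : runBl 9 16 12 false 4 9 1 = true := by decide +kernel

set_option maxRecDepth 100000 in
theorem runB4a_3 : runBl 9 16 12 false 4 9 13 = true := by decide +kernel

set_option maxRecDepth 100000 in
theorem runB4a_4 : runBl 9 16 12 false 4 15 7 = true := by decide +kernel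

set_option maxRecDepth 100000 in
theorem runB4a_5 : runBl 9 16 12 false 4 15 19 = true := by decide +kernel

set_option maxRecDepth 100000 in
theorem runB4a_6 : runBl 9 16 12 false 4 21 1 = true := by decide +kernel

set_option maxRecDepth 100000 in
theorem runB4a_7 : runBl 9 16 12 false 4 21 13 = true := by decide +kernel

def vsB4a : List (ℕ × ℕ × ℕ) := [(4, 3, 7), (4, 3, 19), (4, 9, 1), (4, 9, 13), (4, 15, 7), (4, 15, 19), (4, 21, 1), (4, 21, 13)]

theorem runB4a : vsB4a.all (fun v => runBl 9 16 12 false v.1 v.2.1 v.2.2) = true :=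
  all_cons runB4a_0 (all_cons runB4a_1 (all_cons runB4a_2 (all_cons runB4a_3 (all_cons runB4a_4 (all_cons runB4a_5 (all_cons runB4a_6 (all_cons runB4a_7 (all_nil))))))))

end Pool.Agent.Henon88
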