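import Pool.Agent.Henon88.BaseB

namespace Pool.Agent.Henon88

set_option maxRecDepth 100000 in
theorem runB4b_0 : runBl 9 16 12 false 8 3 11 = true := by decide +kernel

set_option maxRecDepth 100000 in
theorem runB4b_1 : runBl 9 16 12 false 8 3 23 = true := by decide +kernel

set_option maxRecDepth 100000 in
theorem runB4b_2 : runBl 9 16 12 false 8 9 5 = true := by decide +kernel

set_option maxRecDepth 100000 in
theorem runB4b_3 : runBl 9 16 12 false 8 9 17 = true := by decide +kernel

set_option maxRecDepth 100000 in
theorem runB4b_4 : runBl 9 16 12 false 8 15 11 = true := by decide +kernel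

set_option maxRecDepth 100000 in
theorem runB4b_5 : runBl 9 16 12 false 8 15 23 = true := by decide +kernel

set_option maxRecDepth 100000 in
theorem runB4b_6 : runBl 9 16 12 false 8 21 5 = true := by decide +kernel

set_option maxRecDepth 100000 in
theorem runB4b_7 : runBl 9 16 12 false 8 21 17 = true := by decide +kernel

def vsB4b : List (ℕ × ℕ × ℕ) := [(8, 3, 11), (8, 3, 23), (8, 9, 5), (8, 9, 17), (8, 15, 11), (8, 15, 23), (8, 21, 5), (8, 21, 17)]

theorem runB4b : vsB4b.all (fun v => runBl 9 16 12 false v.1 v.2.1 v.2.2) = true :=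
  all_cons runB4b_0 (all_cons runB4b_1 (all_cons runB4b_2 (all_cons runB4b_3 (all_cons runB4b_4 (all_cons runB4b_5 (all_cons runB4b_6 (all_cons runB4b_7 (all_nil))))))))

end Pool.Agent.Henon88
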