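import Pool.Agent.Henon88.SemB
import Pool.Agent.Henon88.FinA
import Pool.Agent.Henon88.RunB1
import Pool.Agent.Henon88.RunB2a
import Pool.Agent.Henon88.RunB2b
import Pool.Agent.Henon88.RunB4a
import Pool.Agent.Henon88.RunB4b
import Pool.Agent.Henon88.RunB4c
import Pool.Agent.Henon88.RunB4d

namespace Pool.Agent.Henon88

theorem SemB.soundl {Q1 Q2 den τ1 τ2 τ3 : ℕ} {t1 t2 t3 : ℤ} {tie : Bool} {s e1 e2 : ℤ → Bool}
    (h : SemB Q1 Q2 den t1 t2 t3 tie s e1 e2) (P : ParB Q1 Q2 den τ1 τ2 τ3 t1 t2 t3)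
    (hrun : runBl Q1 Q2 den tie τ1 τ2 τ3 = true) : Rep s e1 e2 := by
  unfold runBl runB at hrun
  exact h.sound P isTabB_baseL (rd_tabB P) hrun

/-- the parameters attached to integers -/
def pr (den : ℤ) (t1 t2 t3 : ℤ) : ℕ × ℕ × ℕ := ((t1 + den).toNat, (t2 + den).toNat, (t3 + den).toNat)

lemma rep_of_mem {Q1 Q2 den : ℕ} {t1 t2 t3 : ℤ} {tie : Bool} {s e1 e2 : ℤ → Bool}
    (hQ1 : 0 < Q1 ∧ Q1 ≤ 16) (hQ2 : 0 < Q2 ∧ Q2 ≤ 16) (hd : den ≤ 12)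
    (h : SemB Q1 Q2 den t1 t2 t3 tie s e1 e2)
    (b1 : -(den : ℤ) ≤ t1 ∧ t1 ≤ den) (b2 : -(den : ℤ) ≤ t2 ∧ t2 ≤ den)
    (b3 : -(den : ℤ) ≤ t3 ∧ t3 ≤ den) {l : List (ℕ × ℕ × ℕ)}
    (hl : l.all (fun v => runBl Q1 Q2 den tie v.1 v.2.1 v.2.2) = true)
    (hmem : pr den t1 t2 t3 ∈ l) : Rep s e1 e2 := by
  have hrun := List.all_eq_true.1 hl _ hmem
  refine h.soundl (τ1 := (t1 + den).toNat) (τ2 := (t2 + den).toNat) (τ3 := (t3 + den).toNat)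
    ⟨hQ1, hQ2, hd, ?_, ?_, ?_, ?_, ?_, ?_⟩ hrun <;> omega

lemma all_append {α : Type} {f : α → Bool} {l l' : List α} (h : l.all f = true)
    (h' : l'.all f = true) : (l ++ l').all f = true := by
  rw [List.all_append, h, h']; rfl

def vsB2 : List (ℕ × ℕ × ℕ) := vsB2a ++ vsB2b

theorem runB2 : vsB2.all (fun v => runBl 9 4 6 false v.1 v.2.1 v.2.2) = true :=
  all_append runB2a runB2b

def vsB4 : List (ℕ × ℕ × ℕ) := (vsB4a ++ vsB4b) ++ (vsB4c ++ vsB4d)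

theorem runB4 : vsB4.all (fun v => runBl 9 16 12 false v.1 v.2.1 v.2.2) = true :=
  all_append (all_append runB4a runB4b) (all_append runB4c runB4d)

end Pool.Agent.Henon88
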