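import Pool.Agent.Henon88.CaseA
import Pool.Agent.Henon88.FinB

/-!
The case `c ≤ -12` with weak places only.
-/

namespace Pool.Agent.Henon88

variable {B : ℕ} {X : ℤ → ℤ} {S : ℤ} {c : ℚ} {x : ℤ → ℚ}

/-- the relations of the second search -/
lemma semB_of (hI : IOrb B S X) {s e1 e2 : ℤ → Bool} (W : Win B X s) (he1 : e1 0 = false)
    (he2 : e2 0 = false) {g den Q1 Q2 : ℕ} (hB : B = g * den) (hg : 0 < g) {t1 t2 t3 : ℤ}
    {tie : Bool}
    (hT : ∀ n, aa B X s n - aa B X s 0 = g * TV t1 t2 t3 s e1 e2 n)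
    (h1 : ∀ n m, cl s e1 n = cl s e1 m → (Q1 : ℤ) ∣ (TV t1 t2 t3 s e1 e2 n - den * ww s e1 n)
      - (TV t1 t2 t3 s e1 e2 m - den * ww s e1 m))
    (h2 : ∀ n m, cl s e2 n = cl s e2 m → (Q2 : ℤ) ∣ (TV t1 t2 t3 s e1 e2 n - den * ww s e2 n)
      - (TV t1 t2 t3 s e1 e2 m - den * ww s e2 m))
    (ht : tie = true → ∀ n, cl s e2 n = false) :
    SemB Q1 Q2 den t1 t2 t3 tie s e1 e2 := by
  refine ⟨W.s0, he1, he2, h1, h2, ?_, ht⟩
  intro n m hle
  have hBz : (B : ℤ) = g * den := by rw [hB]; push_cast; ring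
  have hBp : (0 : ℤ) < B := by exact_mod_cast hI.pos
  have hgp : (0 : ℤ) < g := by exact_mod_cast hg
  have hbr : ∀ n, br B X s n = g * (sg (s (n + 1)) * TV t1 t2 t3 s e1 e2 (n + 1)
      - sg (s (n - 1)) * TV t1 t2 t3 s e1 e2 (n - 1) - 2 * D s n * TV t1 t2 t3 s e1 e2 n) := by
    intro n
    have a1 := hT (n + 1)
    have a2 := hT (n - 1)
    have a3 := hT n
    have d := two_D s n
    unfold br
    linear_combination sg (s (n + 1)) * (a1 - a3) - sg (s (n - 1)) * (a2 - a3)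
      + (g : ℤ) * TV t1 t2 t3 s e1 e2 n * d
  have q1 := quad_aa hI s n
  have q2 := quad_aa hI s m
  rw [hbr n] at q1
  rw [hbr m] at q2
  have a1 := hT n
  have a2 := hT m
  -- the product formula
  have key : (TV t1 t2 t3 s e1 e2 n - TV t1 t2 t3 s e1 e2 m) * (aa B X s n + aa B X s m)
      = B * (EV den t1 t2 t3 s e1 e2 n - EV den t1 t2 t3 s e1 e2 m) := by
    have h0 : (g : ℤ) * ((TV t1 t2 t3 s e1 e2 n - TV t1 t2 t3 s e1 e2 m)
        * (aa B X s n + aa B X s m))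
        = g * (B * (EV den t1 t2 t3 s e1 e2 n - EV den t1 t2 t3 s e1 e2 m)) := by
      have h3 : (g : ℤ) * (TV t1 t2 t3 s e1 e2 n - TV t1 t2 t3 s e1 e2 m)
          = aa B X s n - aa B X s m := by linarith
      have h4 : (g : ℤ) * ((TV t1 t2 t3 s e1 e2 n - TV t1 t2 t3 s e1 e2 m)
          * (aa B X s n + aa B X s m)) = aa B X s n ^ 2 - aa B X s m ^ 2 := by
        rw [← mul_assoc, h3]; ring
      rw [h4, q1, q2]
      unfold EV
      rw [show (B : ℤ) ^ 2 = B * (g * den) by rw [← hBz]; ring]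
      ring
    exact mul_left_cancel₀ hgp.ne' h0
  have l1 := W.low n
  have l2 := W.low m
  set Δ := TV t1 t2 t3 s e1 e2 n - TV t1 t2 t3 s e1 e2 m with hΔ
  have hΔ0 : 0 ≤ Δ := by linarith
  have h5 : Δ * (5754 * B) ≤ Δ * (1000 * (aa B X s n + aa B X s m)) :=
    mul_le_mul_of_nonneg_left (by linarith) hΔ0
  have h6 : Δ * (1000 * (aa B X s n + aa B X s m))
      = 1000 * (B * (EV den t1 t2 t3 s e1 e2 n - EV den t1 t2 t3 s e1 e2 m)) := by
    rw [← key]; ring
  rw [h6] at h5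
  have h7 : (B : ℤ) * (5754 * Δ)
      ≤ B * (1000 * (EV den t1 t2 t3 s e1 e2 n - EV den t1 t2 t3 s e1 e2 m)) := by linarith
  have h8 := le_of_mul_le_mul_left h7 hBp
  linarith

/-- the congruence at a genuine place -/
lemma cong_TV {q Q r : ℕ} {e : ℤ → Bool} {u : ℤ} (P : Pl B X q Q r e u) {s e1 e2 : ℤ → Bool}
    {g den : ℕ} (hB : B = g * den) (hg : (g = 1 ∧ Q % 2 = 1) ∨ g = 2) {t1 t2 t3 : ℤ}
    (hT : ∀ n, aa B X s n - aa B X s 0 = g * TV t1 t2 t3 s e1 e2 n) (n m : ℤ)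
    (hc : cl s e n = cl s e m) : ((Q * Q : ℕ) : ℤ) ∣ (TV t1 t2 t3 s e1 e2 n - den * ww s e n)
      - (TV t1 t2 t3 s e1 e2 m - den * ww s e m) := by
  have hBz : (B : ℤ) = g * den := by rw [hB]; push_cast; ring
  have h1 := P.cong s hc
  have h2 : (aa B X s n - B * ww s e n) - (aa B X s m - B * ww s e m)
      = g * ((TV t1 t2 t3 s e1 e2 n - den * ww s e n)
        - (TV t1 t2 t3 s e1 e2 m - den * ww s e m)) := by
    rw [hBz]
    linear_combination hT n - hT m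
  rw [h2] at h1
  rcases P.par with ⟨hodd, hq⟩ | ⟨heven, hq⟩
  · rw [hq] at h1
    rcases hg with ⟨hg1, -⟩ | hg2
    · rw [hg1] at h1
      simpa using h1
    · rw [hg2] at h1
      have hc2 : IsCoprime ((Q * Q : ℕ) : ℤ) (((2 : ℕ)) : ℤ) := by
        rw [Nat.isCoprime_iff_coprime, Nat.coprime_two_right, Nat.odd_iff, Nat.mul_mod, hodd]
      exact hc2.dvd_of_dvd_mul_left h1
  · rcases hg with ⟨_, h3⟩ | hg2
    · omega
    · rw [hq, hg2, mul_assoc] at h1
      push_cast at h1 ⊢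
      exact Int.dvd_of_mul_dvd_mul_left (by norm_num) h1

/-- bound for the differences -/
lemma TV_lt {s : ℤ → Bool} (W : Win B X s) {g den : ℕ} (hB : B = g * den) (hg : 0 < g) {n : ℤ}
    {t : ℤ} (ht : aa B X s n - aa B X s 0 = g * t) : 1000 * |t| ≤ 989 * den := by
  have h1 := W.win n 0
  have hgp : (0 : ℤ) < g := by exact_mod_cast hg
  have hBz : (B : ℤ) = g * den := by rw [hB]; push_cast; ring
  rw [ht, abs_mul, abs_of_pos hgp, hBz] at h1
  have h5 : (g : ℤ) * (1000 * |t|) ≤ g * (989 * den) := by linarith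
  exact le_of_mul_le_mul_left h5 hgp

lemma res_true {q Q r : ℕ} {e : ℤ → Bool} {u : ℤ} (P : Pl B X q Q r e u) {s : ℤ → Bool}
    (hs : s 0 = false) (n : ℤ) :
    (q : ℤ) ∣ aa B X s n - aa B X s 0 + 2 * bt (cl s e n) * u := by
  have h1 := P.res_aa s n
  have h2 := P.res_aa s 0
  rw [hs, P.start] at h2
  have h3 : sg (s n) * sg (e n) = 1 - 2 * bt (cl s e n) := by
    rw [← sg_xor]
    show sg (cl s e n) = _
    cases cl s e n <;> rfl
  rw [h3] at h1
  have h4 : aa B X s n - aa B X s 0 + 2 * bt (cl s e n) * u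
      = (aa B X s n - (1 - 2 * bt (cl s e n)) * u) - (aa B X s 0 - sg false * sg false * u) := by
    have : sg false = 1 := rfl
    rw [this]; ring
  rw [h4]
  exact dvd_sub h1 h2

/-- one weak place and nothing else -/
theorem caseTW (h : IsOrb c x) (hI : IOrb B S X) (hx : ∀ n, x n = X n / B) {s : ℤ → Bool}
    (W : Win B X s) {q1 q2 Q2 : ℕ} (hB : B = q1 * q2) (hq1 : q1 = 1 ∨ q1 = 2)
    (hco : Nat.Coprime q1 q2) {e : ℤ → Bool} {u : ℤ} (P : Pl B X q2 Q2 q1 e u)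
    (hQ2 : (q2 = 4 ∧ Q2 = 2) ∨ (q2 = 3 ∧ Q2 = 3) ∨ (q2 = 8 ∧ Q2 = 4)) : Good x := by
  have ha : ∀ n m, cl s e n = cl s e m → aa B X s n = aa B X s m := by
    intro n m hc
    apply W.eq_of_dvd hI
    have hBz : (B : ℤ) = q1 * q2 := by rw [hB]; push_cast; ring
    rw [hBz]
    refine IsCoprime.mul_dvd (Nat.isCoprime_iff_coprime.2 hco) (hI.triv hq1 ⟨q2, hB⟩ s n m)
      (P.cong_q s hc)
  -- the numbers `g` and `den`
  obtain ⟨g, hg, hBg, hgd⟩ : ∃ g : ℕ, ((g = 1 ∧ Q2 % 2 = 1) ∨ g = 2) ∧ B = g * Q2 ∧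
      ∀ n m, (g : ℤ) ∣ aa B X s n - aa B X s m := by
    rcases hq1 with hq1 | hq1
    · rcases hQ2 with ⟨a, b⟩ | ⟨a, b⟩ | ⟨a, b⟩
      · exact ⟨2, Or.inr rfl, by rw [hB, hq1, a, b], fun n m =>
          hI.even_aa (by rw [hB, hq1, a]; norm_num) s n m⟩
      · exact ⟨1, Or.inl ⟨rfl, by rw [b]⟩, by rw [hB, hq1, a, b], fun n m => by simp⟩
      · exact ⟨2, Or.inr rfl, by rw [hB, hq1, a, b], fun n m =>
          hI.even_aa (by rw [hB, hq1, a]; norm_num) s n m⟩
    · rcases hQ2 with ⟨a, b⟩ | ⟨a, b⟩ | ⟨a, b⟩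
      · rw [hq1, a] at hco; exact absurd hco (by decide)
      · exact ⟨2, Or.inr rfl, by rw [hB, hq1, a, b], fun n m =>
          hI.even_aa (by rw [hB, hq1]; exact dvd_mul_right _ _) s n m⟩
      · rw [hq1, a] at hco; exact absurd hco (by decide)
  have hg0 : 0 < g := by omega
  -- the class difference
  obtain ⟨t, ht, ht0, htb⟩ : ∃ t : ℤ, (∀ n, cl s e n = true → aa B X s n - aa B X s 0 = g * t) ∧
      ((q2 = 3 → ¬ (3 : ℤ) ∣ t) ∧ (q2 = 4 → t % 2 = 1) ∧ (q2 = 8 → t % 2 = 1)) ∧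
      1000 * |t| ≤ 989 * Q2 := by
    by_cases hv : ∃ n, cl s e n = true
    · obtain ⟨n, hn⟩ := hv
      obtain ⟨t, ht⟩ := hgd n 0
      refine ⟨t, fun m hm => by rw [ha m n (hm.trans hn.symm)]; exact ht, ?_, TV_lt W hBg hg0 ht⟩
      have hr := res_true P W.s0 n
      have hcu := P.cu
      rw [hn, ht, show bt true = 1 from rfl] at hr
      refine ⟨?_, ?_, ?_⟩
      · intro h3 hd
        rw [h3] at hr hcu
        have h4 : (3 : ℤ) ∣ 2 * u := by
          have : 2 * u = (g * t + 2 * 1 * u) - g * t := by ring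
          rw [this]
          exact dvd_sub hr (hd.mul_left _)
        have h5 := hcu.dvd_of_dvd_mul_right h4
        omega
      · intro h4
        have hu : u % 2 = 1 := by
          rw [h4] at hcu
          have : IsCoprime (2 : ℤ) u := by
            have : ((4 : ℕ) : ℤ) = 2 * 2 := by norm_num
            rw [this] at hcu
            exact hcu.of_mul_left_left
          rcases Int.emod_two_eq_zero_or_one u with h0 | h0
          · have hd : (2 : ℤ) ∣ u := Int.dvd_of_emod_eq_zero h0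
            exact absurd (this.isUnit_of_dvd' dvd_rfl hd) Int.prime_two.not_isUnit
          · exact h0
        have hg2 : g = 2 := by
          rcases hg with ⟨_, h7⟩ | h7
          · omega
          · exact h7
        rw [h4, hg2] at hr
        push_cast at hr
        omega
      · intro h4
        have hu : u % 2 = 1 := by
          rw [h4] at hcu
          have : IsCoprime (2 : ℤ) u := by
            have : ((8 : ℕ) : ℤ) = 2 * 4 := by norm_num
            rw [this] at hcu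
            exact hcu.of_mul_left_left
          rcases Int.emod_two_eq_zero_or_one u with h0 | h0
          · have hd : (2 : ℤ) ∣ u := Int.dvd_of_emod_eq_zero h0
            exact absurd (this.isUnit_of_dvd' dvd_rfl hd) Int.prime_two.not_isUnit
          · exact h0
        have hg2 : g = 2 := by
          rcases hg with ⟨_, h7⟩ | h7
          · omega
          · exact h7
        rw [h4, hg2] at hr
        push_cast at hr
        omega
    · rw [not_exists] at hv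
      refine ⟨1, fun n hn => absurd hn (hv n), ⟨fun _ => by omega, fun _ => by norm_num,
        fun _ => by norm_num⟩, ?_⟩
      have : (2 : ℤ) ≤ Q2 := by
        have : 2 ≤ Q2 := by omega
        exact_mod_cast this
      rw [abs_one]
      linarith
  have hT : ∀ n, aa B X s n - aa B X s 0 = g * TV t 0 t s e s n := by
    intro n
    unfold TV tt
    rw [cl_self]
    rcases hcn : cl s e n with _ | _
    · have h00 : cl s e 0 = false := by unfold cl; rw [W.s0, P.start]; rfl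
      rw [ha n 0 (hcn.trans h00.symm)]
      simp [bt]
    · rw [ht n hcn]
      simp [bt]
  have hsem : SemB (Q2 * Q2) 1 Q2 t 0 t true s e s :=
    semB_of hI W P.start W.s0 hBg hg0 hT (fun n m hc => cong_TV P hBg hg hT n m hc)
      (fun n m _ => by simp) (fun _ n => cl_self s n)
  have hrep : Rep s e s := by
    rcases hQ2 with ⟨a, b⟩ | ⟨a, b⟩ | ⟨a, b⟩
    · subst a b
      have hb : -1 ≤ t ∧ t ≤ 1 := by
        have := abs_le.1 (show |t| ≤ 1 by push_cast at htb; omega)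
        exact this
      have h1 := ht0.2.1 rfl
      have ht' : t = -1 ∨ t = 1 := by omega
      have c1 : -((2 : ℕ) : ℤ) ≤ t ∧ t ≤ ((2 : ℕ) : ℤ) := by push_cast; omega
      have c0 : -((2 : ℕ) : ℤ) ≤ 0 ∧ (0 : ℤ) ≤ ((2 : ℕ) : ℤ) := by norm_num
      refine rep_of_mem (by norm_num) (by norm_num) (by norm_num) hsem c1 c0 c1 runB12 ?_
      rcases ht' with rfl | rfl <;> decide
    · subst a b
      have hb : -2 ≤ t ∧ t ≤ 2 := by
        have := abs_le.1 (show |t| ≤ 2 by push_cast at htb; omega)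
        exact this
      have h1 := ht0.1 rfl
      have ht' : t = -2 ∨ t = -1 ∨ t = 1 ∨ t = 2 := by omega
      have c1 : -((3 : ℕ) : ℤ) ≤ t ∧ t ≤ ((3 : ℕ) : ℤ) := by push_cast; omega
      have c0 : -((3 : ℕ) : ℤ) ≤ 0 ∧ (0 : ℤ) ≤ ((3 : ℕ) : ℤ) := by norm_num
      refine rep_of_mem (by norm_num) (by norm_num) (by norm_num) hsem c1 c0 c1 runB13 ?_
      rcases ht' with rfl | rfl | rfl | rfl <;> decide
    · subst a b
      have hb : -3 ≤ t ∧ t ≤ 3 := by
        have := abs_le.1 (show |t| ≤ 3 by push_cast at htb; omega)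
        exact this
      have h1 := ht0.2.2 rfl
      have ht' : t = -3 ∨ t = -1 ∨ t = 1 ∨ t = 3 := by omega
      have c1 : -((4 : ℕ) : ℤ) ≤ t ∧ t ≤ ((4 : ℕ) : ℤ) := by push_cast; omega
      have c0 : -((4 : ℕ) : ℤ) ≤ 0 ∧ (0 : ℤ) ≤ ((4 : ℕ) : ℤ) := by norm_num
      refine rep_of_mem (by norm_num) (by norm_num) (by norm_num) hsem c1 c0 c1 runB14 ?_
      rcases ht' with rfl | rfl | rfl | rfl <;> decide
  exact good_of_rep h hx (fun n m h1 _ => ha n m h1) hrep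

lemma odd_of_cop {q : ℕ} {u : ℤ} (hcu : IsCoprime (q : ℤ) u) (h2 : 2 ∣ q) : u % 2 = 1 := by
  rcases Int.emod_two_eq_zero_or_one u with h0 | h0
  · have hd : (2 : ℤ) ∣ u := Int.dvd_of_emod_eq_zero h0
    have hq : (2 : ℤ) ∣ q := by exact_mod_cast h2
    exact absurd (hcu.isUnit_of_dvd' hq hd) Int.prime_two.not_isUnit
  · exact h0

/-- the value of a class, two weak places -/
lemma exists_t (hI : IOrb B S X) {s : ℤ → Bool}
    (W : Win B X s) {q2 Q2 : ℕ} (hB : B = 3 * q2) (hco : Nat.Coprime 3 q2)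
    {e1 e2 : ℤ → Bool} {u1 u2 : ℤ} (P1 : Pl B X 3 3 q2 e1 u1) (P2 : Pl B X q2 Q2 3 e2 u2)
    (hQ2 : (q2 = 4 ∧ Q2 = 2) ∨ (q2 = 8 ∧ Q2 = 4)) (k1 k2 : Bool) :
    ∃ t : ℤ, -(3 * Q2 : ℤ) < t ∧ t < 3 * Q2 ∧ (3 : ℤ) ∣ t + bt k1 * u1 ∧
      (Q2 : ℤ) ∣ t + bt k2 * u2 ∧
      ∀ n, cl s e1 n = k1 → cl s e2 n = k2 → aa B X s n - aa B X s 0 = 2 * t := by
  have ha := aa_of_two hI W hB hco P1 P2
  have hq2 : q2 = 2 * Q2 := by omega
  by_cases hv : ∃ n, cl s e1 n = k1 ∧ cl s e2 n = k2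
  · obtain ⟨n, hn1, hn2⟩ := hv
    obtain ⟨t, ht⟩ := hI.even_aa (by rw [hB, hq2]; exact ⟨3 * Q2, by ring⟩) s n 0
    have hb := TV_lt W (g := 2) (den := 3 * Q2) (by rw [hB, hq2]; ring) (by norm_num) (n := n)
      (t := t) (by exact_mod_cast ht)
    have hQ0 : (0 : ℤ) < Q2 := by
      have : 0 < Q2 := by omega
      exact_mod_cast this
    have hb' : |t| < 3 * Q2 := by push_cast at hb; linarith
    have hb2 := abs_lt.1 hb'
    refine ⟨t, hb2.1, hb2.2, ?_, ?_, ?_⟩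
    · have := res_true P1 W.s0 n
      rw [ht, hn1] at this
      have e : 2 * t + 2 * bt k1 * u1 = 2 * (t + bt k1 * u1) := by ring
      rw [e] at this
      have h32 : IsCoprime ((3 : ℕ) : ℤ) 2 := by
        have : Nat.Coprime 3 2 := by norm_num
        exact_mod_cast Nat.isCoprime_iff_coprime.2 this
      exact h32.dvd_of_dvd_mul_left this
    · have := res_true P2 W.s0 n
      rw [ht, hn2, hq2] at this
      have e : 2 * t + 2 * bt k2 * u2 = 2 * (t + bt k2 * u2) := by ring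
      rw [e] at this
      push_cast at this
      exact Int.dvd_of_mul_dvd_mul_left (by norm_num) this
    · intro m h1 h2
      rw [ha m n (h1.trans hn1.symm) (h2.trans hn2.symm)]
      exact ht
  · rw [not_exists] at hv
    generalize bt k1 * u1 = v1
    generalize bt k2 * u2 = v2
    rcases hQ2 with ⟨_, h2⟩ | ⟨_, h2⟩
    · subst h2
      refine ⟨(-4 * v1 - 3 * v2) % 6, ?_, ?_, ?_, ?_, fun n h1 h2 => absurd ⟨h1, h2⟩ (hv n)⟩
      all_goals push_cast; omega
    · subst h2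
      refine ⟨(-4 * v1 - 9 * v2) % 12, ?_, ?_, ?_, ?_, fun n h1 h2 => absurd ⟨h1, h2⟩ (hv n)⟩
      all_goals push_cast; omega

theorem caseWW (h : IsOrb c x) (hI : IOrb B S X) (hx : ∀ n, x n = X n / B) {s : ℤ → Bool}
    (W : Win B X s) {q2 Q2 : ℕ} (hB : B = 3 * q2) (hco : Nat.Coprime 3 q2)
    {e1 e2 : ℤ → Bool} {u1 u2 : ℤ} (P1 : Pl B X 3 3 q2 e1 u1) (P2 : Pl B X q2 Q2 3 e2 u2)
    (hQ2 : (q2 = 4 ∧ Q2 = 2) ∨ (q2 = 8 ∧ Q2 = 4)) : Good x := by
  have ha := aa_of_two hI W hB hco P1 P2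
  have hq2 : q2 = 2 * Q2 := by omega
  obtain ⟨t1, a1, a2, a3, a4, a5⟩ := exists_t hI W hB hco P1 P2 hQ2 true false
  obtain ⟨t2, b1, b2, b3, b4, b5⟩ := exists_t hI W hB hco P1 P2 hQ2 false true
  obtain ⟨t3, c1, c2, c3, c4, c5⟩ := exists_t hI W hB hco P1 P2 hQ2 true true
  have hT : ∀ n, aa B X s n - aa B X s 0 = (2 : ℕ) * TV t1 t2 t3 s e1 e2 n := by
    intro n
    unfold TV tt
    rcases h1 : cl s e1 n with _ | _ <;> rcases h2 : cl s e2 n with _ | _
    · have h01 : cl s e1 0 = false := by unfold cl; rw [W.s0, P1.start]; rfl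
      have h02 : cl s e2 0 = false := by unfold cl; rw [W.s0, P2.start]; rfl
      rw [ha n 0 (h1.trans h01.symm) (h2.trans h02.symm)]
      simp [bt]
    · rw [b5 n h1 h2]; simp [bt]
    · rw [a5 n h1 h2]; simp [bt]
    · rw [c5 n h1 h2]; simp [bt]
  have hBg : B = 2 * (3 * Q2) := by rw [hB, hq2]; ring
  have hsem : SemB (3 * 3) (Q2 * Q2) (3 * Q2) t1 t2 t3 false s e1 e2 :=
    semB_of hI W P1.start P2.start hBg (by norm_num) hT
      (fun n m hc => cong_TV P1 hBg (Or.inr rfl) hT n m hc)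
      (fun n m hc => cong_TV P2 hBg (Or.inr rfl) hT n m hc) (fun h => absurd h (by decide))
  have hu1 : ¬ (3 : ℤ) ∣ u1 := by
    intro hd
    have := P1.cu.isUnit_of_dvd' (x := (3 : ℤ)) (by norm_num) hd
    rw [Int.isUnit_iff] at this
    omega
  have hu2 : u2 % 2 = 1 := odd_of_cop P2.cu ⟨Q2, hq2⟩
  have e1' : bt true = 1 := rfl
  have e0' : bt false = 0 := rfl
  rw [e1', one_mul] at a3 b4 c3 c4
  rw [e0', zero_mul, add_zero] at a4 b3
  refine good_of_rep h hx ha ?_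
  rcases hQ2 with ⟨-, h2⟩ | ⟨-, h2⟩
  · subst h2
    push_cast at a1 a2 a4 b1 b2 b4 c1 c2 c4
    have d1 : -((3 * 2 : ℕ) : ℤ) ≤ t1 ∧ t1 ≤ ((3 * 2 : ℕ) : ℤ) := by push_cast; omega
    have d2 : -((3 * 2 : ℕ) : ℤ) ≤ t2 ∧ t2 ≤ ((3 * 2 : ℕ) : ℤ) := by push_cast; omega
    have d3 : -((3 * 2 : ℕ) : ℤ) ≤ t3 ∧ t3 ≤ ((3 * 2 : ℕ) : ℤ) := by push_cast; omega
    refine rep_of_mem (by norm_num) (by norm_num) (by norm_num) hsem d1 d2 d3 runB2 ?_
    have f2 : t2 = -3 ∨ t2 = 3 := by omega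
    have hu : u1 % 3 = 1 ∨ u1 % 3 = 2 := by omega
    rcases hu with hu | hu
    · have f1 : t1 = -4 ∨ t1 = 2 := by omega
      have f3 : t3 = -1 ∨ t3 = 5 := by omega
      rcases f1 with rfl | rfl <;> rcases f2 with rfl | rfl <;> rcases f3 with rfl | rfl <;> decide
    · have f1 : t1 = -2 ∨ t1 = 4 := by omega
      have f3 : t3 = -5 ∨ t3 = 1 := by omega
      rcases f1 with rfl | rfl <;> rcases f2 with rfl | rfl <;> rcases f3 with rfl | rfl <;> decide
  · subst h2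
    push_cast at a1 a2 a4 b1 b2 b4 c1 c2 c4
    have d1 : -((3 * 4 : ℕ) : ℤ) ≤ t1 ∧ t1 ≤ ((3 * 4 : ℕ) : ℤ) := by push_cast; omega
    have d2 : -((3 * 4 : ℕ) : ℤ) ≤ t2 ∧ t2 ≤ ((3 * 4 : ℕ) : ℤ) := by push_cast; omega
    have d3 : -((3 * 4 : ℕ) : ℤ) ≤ t3 ∧ t3 ≤ ((3 * 4 : ℕ) : ℤ) := by push_cast; omega
    refine rep_of_mem (by norm_num) (by norm_num) (by norm_num) hsem d1 d2 d3 runB4 ?_
    have hu : u1 % 3 = 1 ∨ u1 % 3 = 2 := by omega
    have hv : u2 % 4 = 1 ∨ u2 % 4 = 3 := by omega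
    rcases hu with hu | hu <;> rcases hv with hv | hv
    · have f1 : t1 = -4 ∨ t1 = 8 := by omega
      have f2 : t2 = -9 ∨ t2 = 3 := by omega
      have f3 : t3 = -1 ∨ t3 = 11 := by omega
      rcases f1 with rfl | rfl <;> rcases f2 with rfl | rfl <;> rcases f3 with rfl | rfl <;> decide
    · have f1 : t1 = -4 ∨ t1 = 8 := by omega
      have f2 : t2 = -3 ∨ t2 = 9 := by omega
      have f3 : t3 = -7 ∨ t3 = 5 := by omega
      rcases f1 with rfl | rfl <;> rcases f2 with rfl | rfl <;> rcases f3 with rfl | rfl <;> decide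
    · have f1 : t1 = -8 ∨ t1 = 4 := by omega
      have f2 : t2 = -9 ∨ t2 = 3 := by omega
      have f3 : t3 = -5 ∨ t3 = 7 := by omega
      rcases f1 with rfl | rfl <;> rcases f2 with rfl | rfl <;> rcases f3 with rfl | rfl <;> decide
    · have f1 : t1 = -8 ∨ t1 = 4 := by omega
      have f2 : t2 = -3 ∨ t2 = 9 := by omega
      have f3 : t3 = -11 ∨ t3 = 1 := by omega
      rcases f1 with rfl | rfl <;> rcases f2 with rfl | rfl <;> rcases f3 with rfl | rfl <;> decide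

end Pool.Agent.Henon88
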