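import Pool.Agent.Henon88.Mertens

/-!
The numbers `b` with a prime factor `p` such that `p ^ 2 ≥ 12 b` have lower density at least `log 2`.
-/

namespace Pool.Agent.Henon88

open Finset

/-- the sum of the integer parts of `N / p` over the primes `p ≤ v` -/
noncomputable def FN (N v : ℕ) : ℝ := ∑ p ∈ Nat.primesLE v, ((N / p : ℕ) : ℝ)

lemma primesLE_mono {u v : ℕ} (h : u ≤ v) : Nat.primesLE u ⊆ Nat.primesLE v := by
  intro p hp
  rw [Nat.mem_primesLE] at hp ⊢
  exact ⟨hp.1.trans h, hp.2⟩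

lemma sum_diff (f : ℕ → ℝ) {u v : ℕ} (h : u ≤ v) :
    ∑ p ∈ Nat.primesLE v \ Nat.primesLE u, f p
      = ∑ p ∈ Nat.primesLE v, f p - ∑ p ∈ Nat.primesLE u, f p := by
  rw [← Finset.sum_sdiff (primesLE_mono h)]
  ring

lemma block {C : ℝ} (hC : ∀ n : ℕ, 0 < n → Real.log n - C ≤ SP n ∧ SP n ≤ Real.log n + C)
    {N u v : ℕ} (hu : 0 < u) (huv : u ≤ v) (hvN : v ≤ N) :
    N * (Real.log v - Real.log u - (2 * C + Real.log 4)) ≤ Real.log v * (FN N v - FN N u) := by
  have hN : (0 : ℝ) ≤ N := Nat.cast_nonneg N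
  have h1 : (N : ℝ) * (Real.log v - Real.log u - 2 * C) ≤ N * (SP v - SP u) := by
    refine mul_le_mul_of_nonneg_left ?_ hN
    have := (hC v (hu.trans_le huv)).1
    have := (hC u hu).2
    linarith
  have h2 : (N : ℝ) * (SP v - SP u) - Real.log 4 * N ≤ Real.log v * (FN N v - FN N u) := by
    unfold SP FN
    rw [← sum_diff _ huv, ← sum_diff _ huv]
    have h3 : ∑ p ∈ Nat.primesLE v \ Nat.primesLE u, Real.log p ≤ Real.log 4 * N := by
      refine (Finset.sum_le_sum_of_subset_of_nonneg Finset.sdiff_subset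
        fun p _ _ => logp_nonneg p).trans ((theta_bd v).trans ?_)
      refine mul_le_mul_of_nonneg_left ?_ (Real.log_nonneg (by norm_num))
      exact_mod_cast hvN
    refine (sub_le_sub_left h3 _).trans ?_
    rw [Finset.mul_sum, Finset.mul_sum, ← Finset.sum_sub_distrib]
    refine Finset.sum_le_sum fun p hp => ?_
    rw [Finset.mem_sdiff, Nat.mem_primesLE] at hp
    have h4 := floor_gt N hp.1.2.pos
    have h5 := mul_le_mul_of_nonneg_right h4 (logp_nonneg p)
    have h6 : Real.log p ≤ Real.log v := by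
      refine Real.log_le_log (by exact_mod_cast hp.1.2.pos) ?_
      exact_mod_cast hp.1.1
    have h7 := mul_le_mul_of_nonneg_left h6 (Nat.cast_nonneg (α := ℝ) (N / p))
    calc (N : ℝ) * (Real.log p / p) - Real.log p = (N / p - 1) * Real.log p := by ring
      _ ≤ ((N / p : ℕ) : ℝ) * Real.log p := h5
      _ ≤ ((N / p : ℕ) : ℝ) * Real.log v := h7
      _ = _ := by ring
  linarith

/-- the numbers up to `N` with a prime factor exceeding `a` -/
noncomputable def big (N a : ℕ) : Finset ℕ := by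
  classical exact (Finset.Ioc 0 N).filter fun b => ∃ p, p.Prime ∧ a < p ∧ p ∣ b

lemma count {N a : ℕ} (ha : a ≤ N) (hN : N < (a + 1) ^ 2) :
    FN N N - FN N a ≤ ((big N a).card : ℝ) := by
  classical
  unfold FN
  rw [← sum_diff _ ha]
  have h1 : ((Nat.primesLE N \ Nat.primesLE a).biUnion
      fun p => (Finset.Ioc 0 N).filter fun b => p ∣ b) ⊆ big N a := by
    intro b hb
    rw [Finset.mem_biUnion] at hb
    obtain ⟨p, hp, hb⟩ := hb
    rw [Finset.mem_filter] at hb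
    rw [Finset.mem_sdiff, Nat.mem_primesLE, Nat.mem_primesLE] at hp
    unfold big
    rw [Finset.mem_filter]
    refine ⟨hb.1, p, hp.1.2, ?_, hb.2⟩
    by_contra hcon
    exact hp.2 ⟨not_lt.1 hcon, hp.1.2⟩
  have h2 := Finset.card_le_card h1
  rw [Finset.card_biUnion] at h2
  · have h3 : (∑ p ∈ Nat.primesLE N \ Nat.primesLE a, (N / p) : ℕ) ≤ (big N a).card := by
      refine le_trans (Finset.sum_le_sum fun p _ => ?_) h2
      rw [Nat.Ioc_filter_dvd_card_eq_div]
    exact_mod_cast h3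
  · intro p hp p' hp' hne
    rw [Finset.mem_coe, Finset.mem_sdiff, Nat.mem_primesLE, Nat.mem_primesLE] at hp hp'
    rw [Function.onFun, Finset.disjoint_left]
    intro b hb hb'
    rw [Finset.mem_filter, Finset.mem_Ioc] at hb hb'
    have hco : Nat.Coprime p p' := (Nat.coprime_primes hp.1.2 hp'.1.2).2 hne
    have hdvd : p * p' ∣ b := hco.mul_dvd_of_dvd_of_dvd hb.2 hb'.2
    have h4 := Nat.le_of_dvd hb.1.1 hdvd
    have h5 : a + 1 ≤ p := by
      by_contra hcon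
      exact hp.2 ⟨by omega, hp.1.2⟩
    have h6 : a + 1 ≤ p' := by
      by_contra hcon
      exact hp'.2 ⟨by omega, hp'.1.2⟩
    have h7 := Nat.mul_le_mul h5 h6
    have h8 : (a + 1) ^ 2 = (a + 1) * (a + 1) := sq _
    have h9 := hb.1.2
    omega

/-- the division points -/
noncomputable def yy (k N i : ℕ) : ℕ := ⌊(N : ℝ) ^ (((k + i : ℕ) : ℝ) / (2 * k))⌋₊

lemma yy_top {k N : ℕ} (hk : 0 < k) : yy k N k = N := by
  unfold yy
  have : ((k + k : ℕ) : ℝ) / (2 * k) = 1 := by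
    have : (k : ℝ) ≠ 0 := by exact_mod_cast hk.ne'
    push_cast
    field_simp
    ring
  rw [this, Real.rpow_one, Nat.floor_natCast]

lemma yy_mono {k N i j : ℕ} (hN : 0 < N) (h : i ≤ j) : yy k N i ≤ yy k N j := by
  unfold yy
  have hN' : (1 : ℝ) ≤ N := by exact_mod_cast hN
  refine Nat.floor_le_floor (Real.rpow_le_rpow_of_exponent_le hN' ?_)
  refine div_le_div_of_nonneg_right ?_ (by positivity)
  exact_mod_cast Nat.add_le_add_left h k

lemma yy_pos {k N i : ℕ} (hN : 0 < N) : 0 < yy k N i := by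
  unfold yy
  have hN' : (1 : ℝ) ≤ N := by exact_mod_cast hN
  rw [Nat.floor_pos]
  exact Real.one_le_rpow hN' (by positivity)

lemma log_yy_le {k N i : ℕ} (hN : 0 < N) :
    Real.log (yy k N i) ≤ ((k + i : ℕ) : ℝ) / (2 * k) * Real.log N := by
  have hN' : (0 : ℝ) < N := by exact_mod_cast hN
  rw [← Real.log_rpow hN']
  refine Real.log_le_log (by exact_mod_cast yy_pos hN) ?_
  exact Nat.floor_le (Real.rpow_nonneg hN'.le _)

lemma le_log_yy {k N i : ℕ} (hN : 0 < N) :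
    ((k + i : ℕ) : ℝ) / (2 * k) * Real.log N - Real.log 2 ≤ Real.log (yy k N i) := by
  have hN' : (0 : ℝ) < N := by exact_mod_cast hN
  have hp : 0 < (N : ℝ) ^ (((k + i : ℕ) : ℝ) / (2 * k)) := Real.rpow_pos_of_pos hN' _
  rw [← Real.log_rpow hN', ← Real.log_div hp.ne' (by norm_num)]
  refine Real.log_le_log (by positivity) ?_
  have h1 : (N : ℝ) ^ (((k + i : ℕ) : ℝ) / (2 * k)) < yy k N i + 1 := Nat.lt_floor_add_one _
  have h2 : (1 : ℝ) ≤ yy k N i := by exact_mod_cast yy_pos hN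
  rw [div_le_iff₀ (by norm_num)]
  linarith

lemma one_block {C : ℝ} (hC0 : 0 ≤ C)
    (hC : ∀ n : ℕ, 0 < n → Real.log n - C ≤ SP n ∧ SP n ≤ Real.log n + C)
    {k N i : ℕ} (hk : 0 < k) (hN : 2 ≤ N) (hi : i + 1 ≤ k) :
    N * (1 / ((k + i + 1 : ℕ) : ℝ) - 2 * (2 * C + Real.log 4 + Real.log 2) / Real.log N)
      ≤ FN N (yy k N (i + 1)) - FN N (yy k N i) := by
  have hN0 : 0 < N := by omega
  have hN' : (0 : ℝ) < N := by exact_mod_cast hN0
  have hL : 0 < Real.log N := Real.log_pos (by exact_mod_cast hN)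
  have hk' : (0 : ℝ) < k := by exact_mod_cast hk
  have hle : yy k N (i + 1) ≤ N := by
    have := yy_mono (k := k) hN0 hi
    rwa [yy_top hk] at this
  have hmono := yy_mono (k := k) hN0 (Nat.le_succ i)
  have h1 := block hC (yy_pos (k := k) (i := i) hN0) hmono hle
  have hF : 0 ≤ FN N (yy k N (i + 1)) - FN N (yy k N i) := by
    unfold FN
    rw [← sum_diff _ hmono]
    exact Finset.sum_nonneg fun p _ => Nat.cast_nonneg _
  have h2 := log_yy_le (k := k) (i := i + 1) hN0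
  have h3 := le_log_yy (k := k) (i := i + 1) hN0
  have h4 := log_yy_le (k := k) (i := i) hN0
  set L := Real.log N with hLdef
  set Δ := FN N (yy k N (i + 1)) - FN N (yy k N i) with hΔ
  set E := 2 * C + Real.log 4 + Real.log 2 with hE
  have hE0 : 0 ≤ E := by
    have h4 : 0 ≤ Real.log 4 := Real.log_nonneg (by norm_num)
    have h2 : 0 ≤ Real.log 2 := Real.log_nonneg (by norm_num)
    positivity
  have h5 : (N : ℝ) * (L / (2 * k) - E) ≤ ((k + (i + 1) : ℕ) : ℝ) / (2 * k) * L * Δ := by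
    refine le_trans ?_ (h1.trans (mul_le_mul_of_nonneg_right h2 hF))
    refine mul_le_mul_of_nonneg_left ?_ hN'.le
    have e : ((k + (i + 1) : ℕ) : ℝ) / (2 * k) * L - ((k + i : ℕ) : ℝ) / (2 * k) * L
        = L / (2 * k) := by
      push_cast
      field_simp
      ring
    rw [hE]
    linarith
  have hs : (0 : ℝ) < ((k + i + 1 : ℕ) : ℝ) := by positivity
  have h6 : (N : ℝ) * (L - 2 * k * E) ≤ ((k + i + 1 : ℕ) : ℝ) * L * Δ := by
    have h7 := mul_le_mul_of_nonneg_left h5 (show (0 : ℝ) ≤ 2 * k by positivity)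
    have e1 : 2 * (k : ℝ) * (N * (L / (2 * k) - E)) = N * (L - 2 * k * E) := by
      field_simp
    have e2 : 2 * (k : ℝ) * (((k + (i + 1) : ℕ) : ℝ) / (2 * k) * L * Δ)
        = ((k + i + 1 : ℕ) : ℝ) * L * Δ := by
      rw [← add_assoc]
      field_simp
    rw [e1, e2] at h7
    exact h7
  have h8 : (N : ℝ) * (1 / ((k + i + 1 : ℕ) : ℝ) - 2 * E / L) * (((k + i + 1 : ℕ) : ℝ) * L)
      ≤ Δ * (((k + i + 1 : ℕ) : ℝ) * L) := by
    have e1 : (N : ℝ) * (1 / ((k + i + 1 : ℕ) : ℝ) - 2 * E / L) * (((k + i + 1 : ℕ) : ℝ) * L)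
        = N * (L - 2 * ((k + i + 1 : ℕ) : ℝ) * E) := by
      field_simp
    rw [e1]
    have h9 : (N : ℝ) * (L - 2 * ((k + i + 1 : ℕ) : ℝ) * E) ≤ N * (L - 2 * k * E) := by
      refine mul_le_mul_of_nonneg_left ?_ hN'.le
      have h10 : (k : ℝ) ≤ ((k + i + 1 : ℕ) : ℝ) := by
        have : k ≤ k + i + 1 := by omega
        exact_mod_cast this
      have h11 := mul_le_mul_of_nonneg_right h10 hE0
      linarith
    linarith
  exact le_of_mul_le_mul_right h8 (by positivity)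

lemma harm {k : ℕ} : ∀ n : ℕ, Real.log ((k + n + 2 : ℕ) : ℝ) - Real.log ((k + 2 : ℕ) : ℝ)
    ≤ ∑ j ∈ Finset.range n, 1 / ((k + (j + 1) + 1 : ℕ) : ℝ) := by
  intro n
  induction n with
  | zero => simp
  | succ n ih =>
    rw [Finset.sum_range_succ]
    have h0 : (0 : ℝ) < ((k + n + 2 : ℕ) : ℝ) := by positivity
    have h1 : Real.log ((k + (n + 1) + 2 : ℕ) : ℝ) - Real.log ((k + n + 2 : ℕ) : ℝ)
        ≤ 1 / ((k + (n + 1) + 1 : ℕ) : ℝ) := by
      rw [← Real.log_div (by positivity) (by positivity)]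
      refine (Real.log_le_sub_one_of_pos (by positivity)).trans (le_of_eq ?_)
      push_cast
      field_simp
      ring
    linarith

lemma sum_blocks {C : ℝ} (hC0 : 0 ≤ C)
    (hC : ∀ n : ℕ, 0 < n → Real.log n - C ≤ SP n ∧ SP n ≤ Real.log n + C)
    {k N : ℕ} (hk : 0 < k) (hN : 2 ≤ N) :
    N * (Real.log ((2 * k + 1 : ℕ) : ℝ) - Real.log ((k + 2 : ℕ) : ℝ)
      - k * (2 * (2 * C + Real.log 4 + Real.log 2) / Real.log N))
      ≤ FN N N - FN N (yy k N 1) := by
  obtain ⟨n, rfl⟩ : ∃ n, k = n + 1 := ⟨k - 1, by omega⟩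
  have hN0 : 0 < N := by omega
  have hN' : (0 : ℝ) < N := by exact_mod_cast hN0
  have hL : 0 < Real.log N := Real.log_pos (by exact_mod_cast hN)
  set E := 2 * (2 * C + Real.log 4 + Real.log 2) / Real.log N with hE
  have hE0 : 0 ≤ E := by
    have h4 : 0 ≤ Real.log 4 := Real.log_nonneg (by norm_num)
    have h2 : 0 ≤ Real.log 2 := Real.log_nonneg (by norm_num)
    positivity
  have h1 : ∑ j ∈ Finset.range n, (N : ℝ) * (1 / ((n + 1 + (j + 1) + 1 : ℕ) : ℝ) - E)
      ≤ ∑ j ∈ Finset.range n, (FN N (yy (n + 1) N (j + 1 + 1)) - FN N (yy (n + 1) N (j + 1))) := by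
    refine Finset.sum_le_sum fun j hj => ?_
    rw [Finset.mem_range] at hj
    exact one_block hC0 hC hk hN (by omega)
  rw [Finset.sum_range_sub (fun j => FN N (yy (n + 1) N (j + 1))), ← Finset.mul_sum,
    Finset.sum_sub_distrib, Finset.sum_const, Finset.card_range, nsmul_eq_mul, zero_add,
    yy_top hk] at h1
  refine le_trans (mul_le_mul_of_nonneg_left ?_ hN'.le) h1
  have h2 := harm (k := n + 1) n
  have e : ((n + 1 + n + 2 : ℕ) : ℝ) = ((2 * (n + 1) + 1 : ℕ) : ℝ) := by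
    congr 1; ring
  rw [e] at h2
  have h3 : (n : ℝ) * E ≤ ((n + 1 : ℕ) : ℝ) * E := by
    refine mul_le_mul_of_nonneg_right ?_ hE0
    exact_mod_cast Nat.le_succ n
  linarith

/-- `b` has a large prime power component, up to a further prime power component -/
def Wide (b : ℕ) : Prop :=
  ∃ q₀ q₁ m : ℕ, b = q₀ * q₁ * m ∧ Nat.Coprime q₀ (q₁ * m) ∧ Nat.Coprime q₁ m ∧
    IsPrimePow q₀ ∧ (q₁ = 1 ∨ (IsPrimePow q₁ ∧ q₁ ≠ 2 ∧ q₁ ≠ 3 ∧ q₁ ≠ 4 ∧ q₁ ≠ 8)) ∧
    12 * Nat.gcd 2 q₀ * m ≤ q₀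

lemma wide_of_prime {N b p : ℕ} (hb : 0 < b) (hbN : b ≤ N) (hp : p.Prime) (hd : p ∣ b)
    (h12 : 12 * N ≤ p ^ 2) : Wide b := by
  obtain ⟨m, rfl⟩ := hd
  have hm : 0 < m := Nat.pos_of_mul_pos_left hb
  have h1 : 12 * m ≤ p := by
    have h2 : p * (12 * m) ≤ p * p := by
      calc p * (12 * m) = 12 * (p * m) := by ring
        _ ≤ 12 * N := Nat.mul_le_mul_left 12 hbN
        _ ≤ p ^ 2 := h12
        _ = p * p := sq p
    exact Nat.le_of_mul_le_mul_left h2 hp.pos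
  have hco : Nat.Coprime p m := by
    rw [hp.coprime_iff_not_dvd]
    intro hdvd
    have := Nat.le_of_dvd hm hdvd
    omega
  have hg : Nat.gcd 2 p = 1 := by
    rw [← Nat.coprime_iff_gcd_eq_one]
    exact (Nat.coprime_primes Nat.prime_two hp).2 (by omega)
  exact ⟨p, 1, m, by ring, by simpa using hco, Nat.coprime_one_left m, hp.isPrimePow,
    Or.inl rfl, by rw [hg, mul_one]; exact h1⟩

/-- many numbers have a large prime factor -/
theorem big_lower (ε : ℝ) (hε : 0 < ε) : ∃ k N₀ : ℕ, ∀ N : ℕ, N₀ ≤ N →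
    12 * N ≤ (yy k N 1 + 1) ^ 2 ∧ (Real.log 2 - ε) * N ≤ ((big N (yy k N 1)).card : ℝ) := by
  classical
  obtain ⟨C, hC0, hC⟩ := mertens
  obtain ⟨k, hk⟩ : ∃ k : ℕ, 6 / ε + 1 ≤ k := exists_nat_ge _
  have hk1 : (1 : ℝ) ≤ k := by
    have : 0 < 6 / ε := by positivity
    linarith
  have hk0 : 0 < k := by
    have : (0 : ℝ) < k := by linarith
    exact_mod_cast this
  set E := 2 * (2 * C + Real.log 4 + Real.log 2) with hE
  have hE0 : 0 ≤ E := by
    have h4 : 0 ≤ Real.log 4 := Real.log_nonneg (by norm_num)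
    have h2 : 0 ≤ Real.log 2 := Real.log_nonneg (by norm_num)
    positivity
  obtain ⟨N₁, hN₁⟩ : ∃ N₁ : ℕ, Real.exp (2 * k * E / ε) ≤ N₁ := exists_nat_ge _
  refine ⟨k, max (12 ^ k) (max 2 N₁), fun N hN => ?_⟩
  have hN12 : 12 ^ k ≤ N := (le_max_left _ _).trans hN
  have hN2 : 2 ≤ N := ((le_max_left _ _).trans (le_max_right _ _)).trans hN
  have hNN : N₁ ≤ N := ((le_max_right _ _).trans (le_max_right _ _)).trans hN
  have hN0 : 0 < N := by omega
  have hN' : (0 : ℝ) < N := by exact_mod_cast hN0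
  have hL : 0 < Real.log N := Real.log_pos (by exact_mod_cast hN2)
  -- the threshold
  have hy : 12 * N ≤ (yy k N 1 + 1) ^ 2 := by
    have h1 : (N : ℝ) ^ (((k + 1 : ℕ) : ℝ) / (2 * k)) < yy k N 1 + 1 := Nat.lt_floor_add_one _
    have h2 : ((N : ℝ) ^ (((k + 1 : ℕ) : ℝ) / (2 * k))) ^ 2 = N * (N : ℝ) ^ (1 / (k : ℝ)) := by
      rw [← Real.rpow_natCast, ← Real.rpow_mul hN'.le]
      have e : ((k + 1 : ℕ) : ℝ) / (2 * k) * ((2 : ℕ) : ℝ) = 1 + 1 / (k : ℝ) := by
        have : (k : ℝ) ≠ 0 := by linarith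
        push_cast
        field_simp
      rw [e, Real.rpow_add hN', Real.rpow_one]
    have h3 : (12 : ℝ) ≤ (N : ℝ) ^ (1 / (k : ℝ)) := by
      have h4 : ((12 : ℝ) ^ k) ^ (1 / (k : ℝ)) = 12 := by
        rw [one_div]
        exact Real.pow_rpow_inv_natCast (by norm_num) hk0.ne'
      rw [← h4]
      refine Real.rpow_le_rpow (by positivity) ?_ (by positivity)
      exact_mod_cast hN12
    have h4 : (12 : ℝ) * N ≤ ((N : ℝ) ^ (((k + 1 : ℕ) : ℝ) / (2 * k))) ^ 2 := by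
      rw [h2]
      nlinarith
    have h5 : ((N : ℝ) ^ (((k + 1 : ℕ) : ℝ) / (2 * k))) ^ 2 ≤ ((yy k N 1 : ℝ) + 1) ^ 2 :=
      pow_le_pow_left₀ (Real.rpow_nonneg hN'.le _) h1.le 2
    have h6 : (12 : ℝ) * N ≤ ((yy k N 1 : ℝ) + 1) ^ 2 := h4.trans h5
    exact_mod_cast h6
  refine ⟨hy, ?_⟩
  have hyN : yy k N 1 ≤ N := by
    have := yy_mono (k := k) hN0 (show 1 ≤ k from hk0)
    rwa [yy_top hk0] at this
  have h1 := (sum_blocks hC0 hC hk0 hN2).trans (count hyN (by omega))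
  refine le_trans ?_ h1
  rw [mul_comm]
  refine mul_le_mul_of_nonneg_left ?_ hN'.le
  have h3 : k * (E / Real.log N) ≤ ε / 2 := by
    have h4 : 2 * k * E / ε ≤ Real.log N := by
      have h5 : Real.exp (2 * k * E / ε) ≤ N := hN₁.trans (by exact_mod_cast hNN)
      have := Real.log_le_log (Real.exp_pos _) h5
      rwa [Real.log_exp] at this
    rw [div_le_iff₀ hε] at h4
    rw [← mul_div_assoc, div_le_iff₀ hL]
    linarith
  have h4 : Real.log 2 - ε / 2 ≤ Real.log ((2 * k + 1 : ℕ) : ℝ) - Real.log ((k + 2 : ℕ) : ℝ) := by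
    have h5 : Real.log 2 + Real.log ((k + 2 : ℕ) : ℝ) - Real.log ((2 * k + 1 : ℕ) : ℝ)
        ≤ ε / 2 := by
      rw [← Real.log_mul (by norm_num) (by positivity), ← Real.log_div (by positivity)
        (by positivity)]
      refine (Real.log_le_sub_one_of_pos (by positivity)).trans ?_
      have h6 : (2 : ℝ) * ((k + 2 : ℕ) : ℝ) / ((2 * k + 1 : ℕ) : ℝ) - 1 = 3 / (2 * k + 1) := by
        push_cast
        field_simp
        ring
      rw [h6, div_le_div_iff₀ (by linarith) (by norm_num)]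
      have h7 : 6 ≤ ε * (k - 1) := by
        have h8 : 6 / ε ≤ k - 1 := by linarith
        rw [div_le_iff₀ hε] at h8
        linarith
      nlinarith
    linarith
  linarith

end Pool.Agent.Henon88
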