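import Pool.Agent.Henon88.Density

/-!
Numbers with two suitable prime factors.
-/

namespace Pool.Agent.Henon88

open Finset

lemma wide_of_two {N b p q : ℕ} (hb : 0 < b) (hbN : b ≤ N) (hp : p.Prime) (hq : q.Prime)
    (hqp : q < p) (hq5 : 5 ≤ q) (hd : p * q ∣ b) (h12 : 12 * N ≤ p ^ 2 * q) : Wide b := by
  obtain ⟨t, rfl⟩ := hd
  have ht : 0 < t := Nat.pos_of_mul_pos_left hb
  have h1 : 12 * t ≤ p := by
    have h2 : p * q * (12 * t) ≤ p * q * p := by
      calc p * q * (12 * t) = 12 * (p * q * t) := by ring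
        _ ≤ 12 * N := Nat.mul_le_mul_left 12 hbN
        _ ≤ p ^ 2 * q := h12
        _ = p * q * p := by ring
    exact Nat.le_of_mul_le_mul_left h2 (Nat.mul_pos hp.pos hq.pos)
  have hpt : Nat.Coprime p t := by
    rw [hp.coprime_iff_not_dvd]
    intro hdvd
    have := Nat.le_of_dvd ht hdvd
    omega
  have hpq : Nat.Coprime p q := (Nat.coprime_primes hp hq).2 hqp.ne'
  have hg : Nat.gcd 2 p = 1 := by
    rw [← Nat.coprime_iff_gcd_eq_one]
    exact (Nat.coprime_primes Nat.prime_two hp).2 (by omega)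
  set v := (q * t).factorization q with hv
  set m := q * t / q ^ v with hm
  have hqt : q * t ≠ 0 := (Nat.mul_pos hq.pos ht).ne'
  have hfac : q ^ v * m = q * t := Nat.ordProj_mul_ordCompl_eq_self (q * t) q
  have hco : Nat.Coprime (q ^ v) m := Nat.Coprime.pow_left v (Nat.coprime_ordCompl hq hqt)
  have hv1 : 1 ≤ v := (hq.dvd_iff_one_le_factorization hqt).1 (dvd_mul_right q t)
  have hmt : m ≤ t := by
    have h3 : q ≤ q ^ v := Nat.le_self_pow (by omega) q
    have h4 : q * m ≤ q * t := by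
      rw [← hfac]
      exact Nat.mul_le_mul_right m h3
    exact Nat.le_of_mul_le_mul_left h4 hq.pos
  refine ⟨p, q ^ v, m, ?_, ?_, hco, hp.isPrimePow, Or.inr ⟨hq.isPrimePow.pow (by omega), ?_⟩, ?_⟩
  · rw [mul_assoc, mul_assoc p (q ^ v) m, hfac]
  · rw [hfac]
    exact Nat.Coprime.mul_right hpq hpt
  · have h3 : q ≤ q ^ v := Nat.le_self_pow (by omega) q
    refine ⟨by omega, by omega, by omega, fun h8 => ?_⟩
    have h9 : q ∣ 2 ^ 3 := by
      have : q ∣ q ^ v := dvd_pow_self q (by omega)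
      rw [h8] at this
      exact this
    have := (Nat.prime_dvd_prime_iff_eq hq Nat.prime_two).1 (hq.dvd_of_dvd_pow h9)
    omega
  · rw [hg, mul_one]
    omega

/-- the division points -/
noncomputable def zz (n N i : ℕ) : ℕ := ⌊(N : ℝ) ^ ((i : ℝ) / n)⌋₊

lemma zz_mono {n N i j : ℕ} (hN : 0 < N) (h : i ≤ j) : zz n N i ≤ zz n N j := by
  unfold zz
  have hN' : (1 : ℝ) ≤ N := by exact_mod_cast hN
  refine Nat.floor_le_floor (Real.rpow_le_rpow_of_exponent_le hN' ?_)
  refine div_le_div_of_nonneg_right ?_ (by positivity)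
  exact_mod_cast h

lemma zz_pos {n N i : ℕ} (hN : 0 < N) : 0 < zz n N i := by
  unfold zz
  have hN' : (1 : ℝ) ≤ N := by exact_mod_cast hN
  rw [Nat.floor_pos]
  exact Real.one_le_rpow hN' (by positivity)

lemma log_zz_le {n N i : ℕ} (hN : 0 < N) :
    Real.log (zz n N i) ≤ (i : ℝ) / n * Real.log N := by
  have hN' : (0 : ℝ) < N := by exact_mod_cast hN
  rw [← Real.log_rpow hN']
  refine Real.log_le_log (by exact_mod_cast zz_pos hN) ?_
  exact Nat.floor_le (Real.rpow_nonneg hN'.le _)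

lemma le_log_zz {n N i : ℕ} (hN : 0 < N) :
    (i : ℝ) / n * Real.log N - Real.log 2 ≤ Real.log (zz n N i) := by
  have hN' : (0 : ℝ) < N := by exact_mod_cast hN
  have hp : 0 < (N : ℝ) ^ ((i : ℝ) / n) := Real.rpow_pos_of_pos hN' _
  rw [← Real.log_rpow hN', ← Real.log_div hp.ne' (by norm_num)]
  refine Real.log_le_log (by positivity) ?_
  have h1 : (N : ℝ) ^ ((i : ℝ) / n) < zz n N i + 1 := Nat.lt_floor_add_one _
  have h2 : (1 : ℝ) ≤ zz n N i := by exact_mod_cast zz_pos hN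
  rw [div_le_iff₀ (by norm_num)]
  linarith

lemma lt_of_zz {n N i p : ℕ} (h : zz n N i < p) : (N : ℝ) ^ ((i : ℝ) / n) < p :=
  Nat.lt_of_floor_lt h

/-- the primes of a block -/
noncomputable def PR (n N i : ℕ) : Finset ℕ :=
  Nat.primesLE (zz n N (i + 1)) \ Nat.primesLE (zz n N i)

lemma mem_PR {n N i p : ℕ} : p ∈ PR n N i ↔ p.Prime ∧ zz n N i < p ∧ p ≤ zz n N (i + 1) := by
  unfold PR
  rw [Finset.mem_sdiff, Nat.mem_primesLE, Nat.mem_primesLE]
  constructor
  · rintro ⟨⟨h1, h2⟩, h3⟩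
    refine ⟨h2, ?_, h1⟩
    by_contra hcon
    exact h3 ⟨not_lt.1 hcon, h2⟩
  · rintro ⟨h1, h2, h3⟩
    exact ⟨⟨h3, h1⟩, fun h4 => absurd h4.1 (not_le.2 h2)⟩

/-- the sum of the reciprocals of the primes of a block -/
noncomputable def RR (n N i : ℕ) : ℝ := ∑ p ∈ PR n N i, 1 / (p : ℝ)

lemma RR_nonneg (n N i : ℕ) : 0 ≤ RR n N i := Finset.sum_nonneg fun _ _ => by positivity

lemma SP_diff {n N i : ℕ} (hN : 0 < N) : ∑ p ∈ PR n N i, Real.log p / p
    = SP (zz n N (i + 1)) - SP (zz n N i) := by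
  unfold PR SP
  exact sum_diff _ (zz_mono hN (Nat.le_succ i))

lemma RR_lower {C : ℝ} (hC0 : 0 ≤ C)
    (hC : ∀ n : ℕ, 0 < n → Real.log n - C ≤ SP n ∧ SP n ≤ Real.log n + C)
    {n N i : ℕ} (hn : 0 < n) (hN : 2 ≤ N) :
    1 / ((i + 1 : ℕ) : ℝ) - n * (2 * C + Real.log 2) / Real.log N ≤ RR n N i := by
  have hN0 : 0 < N := by omega
  have hL : 0 < Real.log N := Real.log_pos (by exact_mod_cast hN)
  have hn' : (0 : ℝ) < n := by exact_mod_cast hn
  have h1 := (hC _ (zz_pos (n := n) (i := i + 1) hN0)).1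
  have h2 := (hC _ (zz_pos (n := n) (i := i) hN0)).2
  have h3 := le_log_zz (n := n) (i := i + 1) hN0
  have h4 := log_zz_le (n := n) (i := i) hN0
  have h5 : ∑ p ∈ PR n N i, Real.log p / p ≤ ((i + 1 : ℕ) : ℝ) / n * Real.log N * RR n N i := by
    unfold RR
    rw [Finset.mul_sum]
    refine Finset.sum_le_sum fun p hp => ?_
    rw [mem_PR] at hp
    have hp0 : (0 : ℝ) < p := by exact_mod_cast hp.1.pos
    rw [mul_one_div]
    refine div_le_div_of_nonneg_right ?_ hp0.le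
    refine le_trans (Real.log_le_log hp0 ?_) (log_zz_le (n := n) (i := i + 1) hN0)
    exact_mod_cast hp.2.2
  rw [SP_diff hN0] at h5
  set L := Real.log N with hLdef
  set E := 2 * C + Real.log 2 with hE
  have hE0 : 0 ≤ E := by
    have h2 : 0 ≤ Real.log 2 := Real.log_nonneg (by norm_num)
    positivity
  have h6 : L / n - E ≤ ((i + 1 : ℕ) : ℝ) / n * L * RR n N i := by
    refine le_trans ?_ h5
    have e : ((i + 1 : ℕ) : ℝ) / n * L - (i : ℝ) / n * L = L / n := by
      push_cast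
      field_simp
      ring
    rw [hE]
    linarith
  have hs : (0 : ℝ) < ((i + 1 : ℕ) : ℝ) := by positivity
  have hs1 : (1 : ℝ) ≤ ((i + 1 : ℕ) : ℝ) := by exact_mod_cast Nat.le_add_left 1 i
  have h7 : (1 / ((i + 1 : ℕ) : ℝ) - n * E / L) * (((i + 1 : ℕ) : ℝ) / n * L)
      ≤ RR n N i * (((i + 1 : ℕ) : ℝ) / n * L) := by
    have e1 : (1 / ((i + 1 : ℕ) : ℝ) - n * E / L) * (((i + 1 : ℕ) : ℝ) / n * L)
        = L / n - ((i + 1 : ℕ) : ℝ) * E := by
      field_simp
    rw [e1, mul_comm (RR n N i)]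
    refine le_trans ?_ h6
    have := mul_le_mul_of_nonneg_right hs1 hE0
    linarith
  exact le_of_mul_le_mul_right h7 (by positivity)

lemma RR_upper {C : ℝ} (hC0 : 0 ≤ C)
    (hC : ∀ n : ℕ, 0 < n → Real.log n - C ≤ SP n ∧ SP n ≤ Real.log n + C)
    {n N i : ℕ} (hn : 0 < n) (hN : 2 ≤ N) (hi : 0 < i) :
    RR n N i ≤ 1 / (i : ℝ) + n * (2 * C + Real.log 2) / Real.log N := by
  have hN0 : 0 < N := by omega
  have hN' : (0 : ℝ) < N := by exact_mod_cast hN0
  have hL : 0 < Real.log N := Real.log_pos (by exact_mod_cast hN)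
  have hn' : (0 : ℝ) < n := by exact_mod_cast hn
  have hi' : (0 : ℝ) < i := by exact_mod_cast hi
  have hi1 : (1 : ℝ) ≤ i := by exact_mod_cast hi
  have h1 := (hC _ (zz_pos (n := n) (i := i + 1) hN0)).2
  have h2 := (hC _ (zz_pos (n := n) (i := i) hN0)).1
  have h3 := log_zz_le (n := n) (i := i + 1) hN0
  have h4 := le_log_zz (n := n) (i := i) hN0
  have h5 : (i : ℝ) / n * Real.log N * RR n N i ≤ ∑ p ∈ PR n N i, Real.log p / p := by
    unfold RR
    rw [Finset.mul_sum]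
    refine Finset.sum_le_sum fun p hp => ?_
    rw [mem_PR] at hp
    have hp0 : (0 : ℝ) < p := by exact_mod_cast hp.1.pos
    rw [mul_one_div]
    refine div_le_div_of_nonneg_right ?_ hp0.le
    rw [← Real.log_rpow hN']
    exact Real.log_le_log (Real.rpow_pos_of_pos hN' _) (lt_of_zz hp.2.1).le
  rw [SP_diff hN0] at h5
  set L := Real.log N with hLdef
  set E := 2 * C + Real.log 2 with hE
  have hE0 : 0 ≤ E := by
    have h2 : 0 ≤ Real.log 2 := Real.log_nonneg (by norm_num)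
    positivity
  have h6 : (i : ℝ) / n * L * RR n N i ≤ L / n + E := by
    refine h5.trans ?_
    have e : ((i + 1 : ℕ) : ℝ) / n * L - (i : ℝ) / n * L = L / n := by
      push_cast
      field_simp
      ring
    rw [hE]
    linarith
  have h7 : RR n N i * ((i : ℝ) / n * L) ≤ (1 / (i : ℝ) + n * E / L) * ((i : ℝ) / n * L) := by
    have e1 : (1 / (i : ℝ) + n * E / L) * ((i : ℝ) / n * L) = L / n + i * E := by
      field_simp
    rw [e1, mul_comm (RR n N i)]
    refine h6.trans ?_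
    have := mul_le_mul_of_nonneg_right hi1 hE0
    linarith
  exact le_of_mul_le_mul_right h7 (by positivity)

lemma RR_sum {n N j : ℕ} (hN : 0 < N) : ∀ k, j ≤ k →
    ∑ p ∈ Nat.primesLE (zz n N k) \ Nat.primesLE (zz n N j), 1 / (p : ℝ)
      = ∑ l ∈ Finset.Ico j k, RR n N l := by
  intro k hk
  induction k, hk using Nat.le_induction with
  | base => simp
  | succ k hk ih =>
    rw [Finset.sum_Ico_succ_top hk, ← ih, sum_diff _ (zz_mono hN (hk.trans (Nat.le_succ k))),
      sum_diff _ (zz_mono hN hk)]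
    unfold RR PR
    rw [sum_diff _ (zz_mono hN (Nat.le_succ k))]
    ring

lemma tail_sum {n N j k : ℕ} (hN : 0 < N) :
    ∑ p ∈ Nat.primesLE (zz n N k) \ Nat.primesLE (zz n N j), 1 / (p : ℝ)
      ≤ ∑ l ∈ Finset.Ico j k, RR n N l := by
  rcases le_or_gt j k with h | h
  · exact (RR_sum hN k h).le
  · have : Nat.primesLE (zz n N k) \ Nat.primesLE (zz n N j) = ∅ := by
      rw [Finset.sdiff_eq_empty_iff_subset]
      exact primesLE_mono (zz_mono hN h.le)
    rw [this, Finset.sum_empty]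
    exact Finset.sum_nonneg fun l _ => RR_nonneg n N l

/-- multiples of `p * q` with no prime factor exceeding `q` in the cofactor -/
noncomputable def GG (N p q : ℕ) : Finset ℕ := by
  classical exact (Finset.Ioc 0 N).filter fun b => p * q ∣ b ∧
    ∀ r, r.Prime → q < r → ¬ p * q * r ∣ b

lemma mem_GG {N p q b : ℕ} : b ∈ GG N p q ↔ (0 < b ∧ b ≤ N) ∧ p * q ∣ b ∧
    ∀ r, r.Prime → q < r → ¬ p * q * r ∣ b := by
  classical
  unfold GG
  rw [Finset.mem_filter, Finset.mem_Ioc]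

lemma GG_card {n N i j p q : ℕ} (hN : 0 < N) (hn : 0 < n) (hij : i + j ≤ n)
    (hp : p ∈ PR n N i) (hq : q ∈ PR n N j) :
    (N : ℝ) / (p * q) * (1 - ∑ l ∈ Finset.Ico j (n - i - j), RR n N l) - 1
      ≤ ((GG N p q).card : ℝ) := by
  classical
  rw [mem_PR] at hp hq
  have hN' : (0 : ℝ) < N := by exact_mod_cast hN
  have hp0 : (0 : ℝ) < p := by exact_mod_cast hp.1.pos
  have hq0 : (0 : ℝ) < q := by exact_mod_cast hq.1.pos
  have hn' : (0 : ℝ) < n := by exact_mod_cast hn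
  set T := Nat.primesLE (zz n N (n - i - j)) \ Nat.primesLE (zz n N j) with hT
  have h1 : ((Finset.Ioc 0 N).filter fun b => p * q ∣ b) ⊆ GG N p q ∪
      T.biUnion fun r => (Finset.Ioc 0 N).filter fun b => p * q * r ∣ b := by
    intro b hb
    rw [Finset.mem_filter, Finset.mem_Ioc] at hb
    rw [Finset.mem_union, mem_GG, Finset.mem_biUnion]
    by_cases hcon : ∀ r, r.Prime → q < r → ¬ p * q * r ∣ b
    · exact Or.inl ⟨hb.1, hb.2, hcon⟩
    · right
      push Not at hcon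
      obtain ⟨r, hr, hqr, hd⟩ := hcon
      refine ⟨r, ?_, ?_⟩
      · rw [hT, Finset.mem_sdiff, Nat.mem_primesLE, Nat.mem_primesLE]
        refine ⟨⟨?_, hr⟩, fun h => absurd h.1 (not_le.2 (hq.2.1.trans hqr))⟩
        unfold zz
        apply Nat.le_floor
        have h2 : p * q * r ≤ N := (Nat.le_of_dvd hb.1.1 hd).trans hb.1.2
        have h3 : (p : ℝ) * q * r ≤ N := by exact_mod_cast h2
        have h4 := lt_of_zz hp.2.1
        have h5 := lt_of_zz hq.2.1
        have h6 : (N : ℝ) ^ ((i : ℝ) / n) * (N : ℝ) ^ ((j : ℝ) / n) ≤ p * q :=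
          mul_le_mul h4.le h5.le (Real.rpow_nonneg hN'.le _) hp0.le
        have h7 : (N : ℝ) ^ ((i : ℝ) / n) * (N : ℝ) ^ ((j : ℝ) / n)
            * (N : ℝ) ^ (((n - i - j : ℕ) : ℝ) / n) = N := by
          rw [← Real.rpow_add hN', ← Real.rpow_add hN']
          have e : (i : ℝ) / n + (j : ℝ) / n + ((n - i - j : ℕ) : ℝ) / n = 1 := by
            rw [Nat.sub_sub, Nat.cast_sub hij]
            push_cast
            field_simp
            ring
          rw [e, Real.rpow_one]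
        have h8 : (0 : ℝ) < (N : ℝ) ^ ((i : ℝ) / n) * (N : ℝ) ^ ((j : ℝ) / n) :=
          mul_pos (Real.rpow_pos_of_pos hN' _) (Real.rpow_pos_of_pos hN' _)
        have h9 : (N : ℝ) ^ ((i : ℝ) / n) * (N : ℝ) ^ ((j : ℝ) / n) * r
            ≤ (N : ℝ) ^ ((i : ℝ) / n) * (N : ℝ) ^ ((j : ℝ) / n)
              * (N : ℝ) ^ (((n - i - j : ℕ) : ℝ) / n) := by
          rw [h7]
          exact (mul_le_mul_of_nonneg_right h6 (Nat.cast_nonneg r)).trans h3
        exact le_of_mul_le_mul_left h9 h8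
      · rw [Finset.mem_filter, Finset.mem_Ioc]
        exact ⟨hb.1, hd⟩
  have h2 := Finset.card_le_card h1
  rw [Nat.Ioc_filter_dvd_card_eq_div] at h2
  have h3 : (N / (p * q) : ℕ) ≤ (GG N p q).card + ∑ r ∈ T, N / (p * q * r) := by
    refine h2.trans ((Finset.card_union_le _ _).trans (Nat.add_le_add_left ?_ _))
    refine Finset.card_biUnion_le.trans (Finset.sum_le_sum fun r _ => ?_)
    rw [Nat.Ioc_filter_dvd_card_eq_div]
  have h4 : ((N / (p * q) : ℕ) : ℝ) ≤ ((GG N p q).card : ℝ)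
      + ∑ r ∈ T, ((N / (p * q * r) : ℕ) : ℝ) := by exact_mod_cast h3
  have h5 : ∑ r ∈ T, ((N / (p * q * r) : ℕ) : ℝ)
      ≤ (N : ℝ) / (p * q) * ∑ l ∈ Finset.Ico j (n - i - j), RR n N l := by
    have h6 : ∑ r ∈ T, ((N / (p * q * r) : ℕ) : ℝ) ≤ (N : ℝ) / (p * q) * ∑ r ∈ T, 1 / (r : ℝ) := by
      rw [Finset.mul_sum]
      refine Finset.sum_le_sum fun r _ => ?_
      refine Nat.cast_div_le.trans (le_of_eq ?_)
      push_cast
      rw [div_mul_div_comm, mul_one]
    refine h6.trans (mul_le_mul_of_nonneg_left (tail_sum hN) (by positivity))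
  have h6 := floor_gt N (Nat.mul_pos hp.1.pos hq.1.pos)
  push_cast at h6
  have h7 : (N : ℝ) / (p * q) * (1 - ∑ l ∈ Finset.Ico j (n - i - j), RR n N l)
      = (N : ℝ) / (p * q) - (N : ℝ) / (p * q) * ∑ l ∈ Finset.Ico j (n - i - j), RR n N l := by
    ring
  linarith

/-- disjointness -/
lemma GG_disj {N p q p' q' : ℕ} (hp : p.Prime) (hq : q.Prime) (hp' : p'.Prime) (hq' : q'.Prime)
    (hqp : q < p) (hqp' : q' < p') {b : ℕ} (h : b ∈ GG N p q) (h' : b ∈ GG N p' q') :
    p = p' ∧ q = q' := by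
  rw [mem_GG] at h h'
  have key : ∀ {p q r : ℕ}, p.Prime → q.Prime → r.Prime → q < p → r ≠ p → r ≠ q → p * q ∣ b →
      r ∣ b → p * q * r ∣ b := by
    intro p q r hp hq hr hqp h1 h2 h3 h4
    have c1 : Nat.Coprime p r := (Nat.coprime_primes hp hr).2 h1.symm
    have c2 : Nat.Coprime q r := (Nat.coprime_primes hq hr).2 h2.symm
    exact (Nat.Coprime.mul_left c1 c2).mul_dvd_of_dvd_of_dvd h3 h4
  have hpp : p = p' := by
    rcases lt_trichotomy p p' with h1 | h1 | h1
    · exfalso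
      exact h.2.2 p' hp' (hqp.trans h1) (key hp hq hp' hqp h1.ne' (by omega) h.2.1
        ((dvd_mul_right p' q').trans h'.2.1))
    · exact h1
    · exfalso
      exact h'.2.2 p hp (hqp'.trans h1) (key hp' hq' hp hqp' h1.ne' (by omega) h'.2.1
        ((dvd_mul_right p q).trans h.2.1))
  refine ⟨hpp, ?_⟩
  subst hpp
  rcases lt_trichotomy q q' with h1 | h1 | h1
  · exfalso
    exact h.2.2 q' hq' h1 (key hp hq hq' hqp hqp'.ne h1.ne' h.2.1
      ((dvd_mul_left q' p).trans h'.2.1))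
  · exact h1
  · exfalso
    exact h'.2.2 q hq h1 (key hp hq' hq hqp' hqp.ne h1.ne' h'.2.1
      ((dvd_mul_left q p).trans h.2.1))

/-- the largest prime factor of an element -/
lemma GG_prime_le {N p q b r : ℕ} (hp : p.Prime) (hq : q.Prime) (hqp : q < p)
    (h : b ∈ GG N p q) (hr : r.Prime) (hd : r ∣ b) : r ≤ p := by
  by_contra hcon
  rw [mem_GG] at h
  have c1 : Nat.Coprime p r := (Nat.coprime_primes hp hr).2 (by omega)
  have c2 : Nat.Coprime q r := (Nat.coprime_primes hq hr).2 (by omega)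
  exact h.2.2 r hr (by omega) ((Nat.Coprime.mul_left c1 c2).mul_dvd_of_dvd_of_dvd h.2.1 hd)

end Pool.Agent.Henon88
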