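import Mathlib

/-!
A numerical sum.
-/

namespace Pool.Agent.Henon88

open Finset

/-- lower approximation of a reciprocal -/
def nA (i : ℕ) : ℕ := 10 ^ 9 / (i + 1) - 1000

/-- upper approximation of a sum of reciprocals -/
def nU (i j : ℕ) : ℕ := ∑ l ∈ Finset.Ico j (240 - i - j), (10 ^ 9 / l + 1 + 1000)

/-- the contribution of a cell -/
def nV (i j : ℕ) : ℕ := nA i * nA j * (10 ^ 9 - nU i j) / (10 ^ 9) ^ 2

/-- the contribution of a row -/
def nR (i : ℕ) : ℕ := ∑ j ∈ Finset.range 120, if j < i ∧ 241 ≤ 2 * i + j then nV i j else 0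

lemma num1 : 67570000 ≤ ∑ i ∈ Finset.Ico 0 100, nR i := by decide +kernel

lemma num2 : 52700000 ≤ ∑ i ∈ Finset.Ico 100 108, nR i := by decide +kernel

lemma num3 : 43350000 ≤ ∑ i ∈ Finset.Ico 108 114, nR i := by decide +kernel

lemma num4 : 46190000 ≤ ∑ i ∈ Finset.Ico 114 120, nR i := by decide +kernel

lemma sum_four (f : ℕ → ℕ) {a b c d : ℕ} (h1 : a ≤ ∑ i ∈ Finset.Ico 0 100, f i)
    (h2 : b ≤ ∑ i ∈ Finset.Ico 100 108, f i) (h3 : c ≤ ∑ i ∈ Finset.Ico 108 114, f i)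
    (h4 : d ≤ ∑ i ∈ Finset.Ico 114 120, f i) :
    a + b + c + d ≤ ∑ i ∈ Finset.range 120, f i := by
  rw [Finset.range_eq_Ico, ← Finset.sum_Ico_consecutive f (show 0 ≤ 114 by norm_num)
    (show 114 ≤ 120 by norm_num), ← Finset.sum_Ico_consecutive f (show 0 ≤ 108 by norm_num)
    (show 108 ≤ 114 by norm_num), ← Finset.sum_Ico_consecutive f (show 0 ≤ 100 by norm_num)
    (show 100 ≤ 108 by norm_num)]
  omega

lemma num_sum : 209800000 ≤ ∑ i ∈ Finset.range 120, ∑ j ∈ Finset.range 120,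
    if j < i ∧ 241 ≤ 2 * i + j then nV i j else 0 :=
  (show 209800000 ≤ 67570000 + 52700000 + 43350000 + 46190000 by norm_num).trans
    (sum_four nR num1 num2 num3 num4)

end Pool.Agent.Henon88
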