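import Pool.Agent.Henon88.Density2
import Pool.Agent.Henon88.Numer

/-!
At least nine tenths of all numbers are wide.
-/

namespace Pool.Agent.Henon88

open Finset

/-- the cells -/
def gcells (h n : ℕ) : Finset (ℕ × ℕ) :=
  ((Finset.range h) ×ˢ (Finset.range h)).filter fun c => c.2 < c.1 ∧ n ≤ 2 * c.1 + c.2

lemma mem_gcells {h n : ℕ} {c : ℕ × ℕ} (hc : c ∈ gcells h n) :
    c.1 < h ∧ c.2 < c.1 ∧ n ≤ 2 * c.1 + c.2 := by
  unfold gcells at hc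
  rw [Finset.mem_filter, Finset.mem_product, Finset.mem_range] at hc
  exact ⟨hc.1.1, hc.2.1, hc.2.2⟩

lemma sum_gcells (h n : ℕ) (f : ℕ → ℕ → ℕ) : ∑ c ∈ gcells h n, f c.1 c.2
    = ∑ i ∈ Finset.range h, ∑ j ∈ Finset.range h,
      if j < i ∧ n ≤ 2 * i + j then f i j else 0 := by
  unfold gcells
  rw [Finset.sum_filter, Finset.sum_product]

lemma gcells_card (h n : ℕ) : (gcells h n).card ≤ h * h := by
  unfold gcells
  refine (Finset.card_filter_le _ _).trans ?_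
  rw [Finset.card_product, Finset.card_range]

/-- the cells used -/
@[irreducible] def cells : Finset (ℕ × ℕ) := gcells 120 241

lemma cells_eq : cells = gcells 120 241 := by unfold cells; rfl

lemma mem_of_eq {s : Finset (ℕ × ℕ)} {h n : ℕ} (e : s = gcells h n) {c : ℕ × ℕ} (hc : c ∈ s) :
    c.1 < h ∧ c.2 < c.1 ∧ n ≤ 2 * c.1 + c.2 := by
  rw [e] at hc
  exact mem_gcells hc

lemma mem_cells {c : ℕ × ℕ} (hc : c ∈ cells) : c.1 < 120 ∧ c.2 < c.1 ∧ 241 ≤ 2 * c.1 + c.2 :=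
  mem_of_eq cells_eq hc

/-- the index set -/
noncomputable def idx (N : ℕ) : Finset (Σ _ : ℕ × ℕ, ℕ × ℕ) :=
  cells.sigma fun c => PR 240 N c.1 ×ˢ PR 240 N c.2

lemma mem_idx {N : ℕ} {s : Σ _ : ℕ × ℕ, ℕ × ℕ} (h : s ∈ idx N) :
    s.1 ∈ cells ∧ s.2.1 ∈ PR 240 N s.1.1 ∧ s.2.2 ∈ PR 240 N s.1.2 := by
  unfold idx at h
  rw [Finset.mem_sigma, Finset.mem_product] at h
  exact ⟨h.1, h.2.1, h.2.2⟩

lemma idx_lt {N : ℕ} (hN : 0 < N) {s : Σ _ : ℕ × ℕ, ℕ × ℕ} (h : s ∈ idx N) : s.2.2 < s.2.1 := by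
  obtain ⟨h1, h2, h3⟩ := mem_idx h
  rw [mem_PR] at h2 h3
  have h4 := (mem_cells h1).2.1
  have h5 := zz_mono (n := 240) hN (show s.1.2 + 1 ≤ s.1.1 from h4)
  omega

lemma PR_index {n N i i' p : ℕ} (hN : 0 < N) (h : p ∈ PR n N i) (h' : p ∈ PR n N i') : i = i' := by
  rw [mem_PR] at h h'
  rcases lt_trichotomy i i' with h1 | h1 | h1
  · have := zz_mono (n := n) hN (show i + 1 ≤ i' from h1)
    omega
  · exact h1
  · have := zz_mono (n := n) hN (show i' + 1 ≤ i from h1)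
    omega

/-- the set of numbers with two suitable prime factors -/
noncomputable def big2 (N : ℕ) : Finset ℕ := by
  classical exact (idx N).biUnion fun s => GG N s.2.1 s.2.2

lemma card_big2 {N : ℕ} (hN : 0 < N) : (big2 N).card
    = ∑ c ∈ cells, ∑ s ∈ PR 240 N c.1 ×ˢ PR 240 N c.2, (GG N s.1 s.2).card := by
  classical
  unfold big2
  rw [Finset.card_biUnion]
  · unfold idx
    rw [Finset.sum_sigma]
  · intro s hs t ht hne
    rw [Finset.mem_coe] at hs ht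
    rw [Function.onFun, Finset.disjoint_left]
    intro b hb hb'
    apply hne
    have h1 := idx_lt hN hs
    have h2 := idx_lt hN ht
    obtain ⟨_, a2, a3⟩ := mem_idx hs
    obtain ⟨_, b2, b3⟩ := mem_idx ht
    obtain ⟨e1, e2⟩ := GG_disj (mem_PR.1 a2).1 (mem_PR.1 a3).1 (mem_PR.1 b2).1 (mem_PR.1 b3).1
      h1 h2 hb hb'
    rw [← e1] at b2
    rw [← e2] at b3
    have f1 := PR_index hN a2 b2
    have f2 := PR_index hN a3 b3
    obtain ⟨⟨s1, s2⟩, ⟨s3, s4⟩⟩ := s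
    obtain ⟨⟨t1, t2⟩, ⟨t3, t4⟩⟩ := t
    simp only at e1 e2 f1 f2
    subst e1 e2 f1 f2
    rfl

lemma PR_card {n N i : ℕ} :
    ((PR n N i).card : ℝ) ≤ (N : ℝ) ^ (((i + 1 : ℕ) : ℝ) / n) := by
  have h1 : PR n N i ⊆ Finset.Ioc 0 (zz n N (i + 1)) := by
    intro p hp
    rw [mem_PR] at hp
    rw [Finset.mem_Ioc]
    exact ⟨hp.1.pos, hp.2.2⟩
  have h2 := Finset.card_le_card h1
  rw [Nat.card_Ioc, Nat.sub_zero] at h2
  have h3 : ((PR n N i).card : ℝ) ≤ (zz n N (i + 1) : ℝ) := by exact_mod_cast h2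
  exact h3.trans (Nat.floor_le (Real.rpow_nonneg (Nat.cast_nonneg N) _))

/-- contribution of a cell -/
lemma cell_bd {N K : ℕ} (hN : 0 < N) (hK : 0 < K) (hKN : (K : ℝ) ≤ (N : ℝ) ^ ((1 : ℝ) / 240))
    {c : ℕ × ℕ} (hc : c ∈ cells) :
    N * (RR 240 N c.1 * RR 240 N c.2 * (1 - ∑ l ∈ Finset.Ico c.2 (240 - c.1 - c.2), RR 240 N l))
      - N / K ≤ ∑ s ∈ PR 240 N c.1 ×ˢ PR 240 N c.2, ((GG N s.1 s.2).card : ℝ) := by
  have hN' : (0 : ℝ) < N := by exact_mod_cast hN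
  have hK' : (0 : ℝ) < K := by exact_mod_cast hK
  obtain ⟨h1, h2, h3⟩ := mem_cells hc
  set U := ∑ l ∈ Finset.Ico c.2 (240 - c.1 - c.2), RR 240 N l with hU
  have h4 : ∑ s ∈ PR 240 N c.1 ×ˢ PR 240 N c.2, ((N : ℝ) / (s.1 * s.2) * (1 - U) - 1)
      ≤ ∑ s ∈ PR 240 N c.1 ×ˢ PR 240 N c.2, ((GG N s.1 s.2).card : ℝ) := by
    refine Finset.sum_le_sum fun s hs => ?_
    rw [Finset.mem_product] at hs
    exact GG_card hN (by norm_num) (by omega) hs.1 hs.2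
  refine le_trans ?_ h4
  rw [Finset.sum_sub_distrib, Finset.sum_const, nsmul_eq_mul, mul_one, Finset.card_product]
  have h5 : ∑ s ∈ PR 240 N c.1 ×ˢ PR 240 N c.2, (N : ℝ) / (s.1 * s.2) * (1 - U)
      = N * (RR 240 N c.1 * RR 240 N c.2 * (1 - U)) := by
    unfold RR
    rw [Finset.sum_mul_sum, ← Finset.sum_product', Finset.sum_mul, Finset.mul_sum]
    refine Finset.sum_congr rfl fun s _ => ?_
    rw [div_mul_div_comm, mul_one]
    ring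
  rw [h5]
  refine sub_le_sub_left ?_ _
  push_cast
  have h6 : ((PR 240 N c.1).card : ℝ) * ((PR 240 N c.2).card : ℝ)
      ≤ (N : ℝ) ^ (((c.1 + 1 : ℕ) : ℝ) / (240 : ℕ)) * (N : ℝ) ^ (((c.2 + 1 : ℕ) : ℝ) / (240 : ℕ)) :=
    mul_le_mul PR_card PR_card (Nat.cast_nonneg _) (Real.rpow_nonneg hN'.le _)
  refine h6.trans ?_
  rw [← Real.rpow_add hN', le_div_iff₀ hK']
  have h7 : (N : ℝ) ^ (((c.1 + 1 : ℕ) : ℝ) / (240 : ℕ) + ((c.2 + 1 : ℕ) : ℝ) / (240 : ℕ))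
      ≤ (N : ℝ) ^ ((239 : ℝ) / 240) := by
    refine Real.rpow_le_rpow_of_exponent_le (by exact_mod_cast hN) ?_
    have h8 : ((c.1 + 1 + (c.2 + 1) : ℕ) : ℝ) ≤ 239 := by
      have : c.1 + 1 + (c.2 + 1) ≤ 239 := by omega
      exact_mod_cast this
    push_cast at h8 ⊢
    linarith
  calc _ ≤ (N : ℝ) ^ ((239 : ℝ) / 240) * (N : ℝ) ^ ((1 : ℝ) / 240) :=
        mul_le_mul h7 hKN hK'.le (Real.rpow_nonneg hN'.le _)
    _ = N := by
        rw [← Real.rpow_add hN']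
        norm_num

/-- contribution of a cell, numerically -/
lemma cell_num {N K : ℕ} (hN : 0 < N) (hK : 0 < K) (hKN : (K : ℝ) ≤ (N : ℝ) ^ ((1 : ℝ) / 240))
    (hlow : ∀ i, 1 / ((i + 1 : ℕ) : ℝ) - 1 / 10 ^ 6 ≤ RR 240 N i)
    (hup : ∀ i, 0 < i → RR 240 N i ≤ 1 / (i : ℝ) + 1 / 10 ^ 6)
    {c : ℕ × ℕ} (hc : c ∈ cells) :
    N * ((nV c.1 c.2 : ℝ) / 10 ^ 9) - N / K
      ≤ ∑ s ∈ PR 240 N c.1 ×ˢ PR 240 N c.2, ((GG N s.1 s.2).card : ℝ) := by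
  have hN' : (0 : ℝ) < N := by exact_mod_cast hN
  have hK' : (0 : ℝ) < K := by exact_mod_cast hK
  obtain ⟨h1, h2, h3⟩ := mem_cells hc
  rcases le_or_gt (10 ^ 9) (nU c.1 c.2) with hU | hU
  · have h0 : nV c.1 c.2 = 0 := by
      unfold nV
      rw [Nat.sub_eq_zero_of_le hU, mul_zero, Nat.zero_div]
    rw [h0, Nat.cast_zero, zero_div, mul_zero, zero_sub]
    have h4 : (0 : ℝ) ≤ N / K := by positivity
    have h5 : (0 : ℝ) ≤ ∑ s ∈ PR 240 N c.1 ×ˢ PR 240 N c.2, ((GG N s.1 s.2).card : ℝ) :=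
      Finset.sum_nonneg fun _ _ => Nat.cast_nonneg _
    linarith
  · refine le_trans (sub_le_sub_right (mul_le_mul_of_nonneg_left ?_ hN'.le) _)
      (cell_bd hN hK hKN hc)
    have hA : ∀ i, i < 120 → (nA i : ℝ) / 10 ^ 9 ≤ RR 240 N i := by
      intro i hi
      refine le_trans ?_ (hlow i)
      unfold nA
      have h4 : 1000 ≤ 10 ^ 9 / (i + 1) := by
        rw [Nat.le_div_iff_mul_le (by omega)]
        have : 1000 * (i + 1) ≤ 1000 * 120 := Nat.mul_le_mul_left _ (by omega)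
        omega
      rw [Nat.cast_sub h4]
      have h5 := Nat.cast_div_le (α := ℝ) (m := 10 ^ 9) (n := i + 1)
      push_cast at h5 ⊢
      rw [div_le_iff₀ (by norm_num)]
      calc ((10 ^ 9 / (i + 1) : ℕ) : ℝ) - 1000 ≤ 10 ^ 9 / (i + 1) - 1000 := by linarith
        _ = _ := by ring
    have hA0 : ∀ i, (0 : ℝ) ≤ (nA i : ℝ) / 10 ^ 9 := fun i =>
      div_nonneg (Nat.cast_nonneg _) (by norm_num)
    have hUU : ∑ l ∈ Finset.Ico c.2 (240 - c.1 - c.2), RR 240 N l ≤ (nU c.1 c.2 : ℝ) / 10 ^ 9 := by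
      unfold nU
      push_cast
      rw [Finset.sum_div]
      refine Finset.sum_le_sum fun l hl => ?_
      rw [Finset.mem_Ico] at hl
      have hl0 : 0 < l := by omega
      refine (hup l hl0).trans ?_
      have h5 := floor_gt (10 ^ 9) hl0
      push_cast at h5
      rw [le_div_iff₀ (by norm_num)]
      calc (1 / (l : ℝ) + 1 / 10 ^ 6) * 10 ^ 9 = 10 ^ 9 / l + 1000 := by ring
        _ ≤ _ := by linarith
    have hf : ((10 ^ 9 - nU c.1 c.2 : ℕ) : ℝ) / 10 ^ 9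
        ≤ 1 - ∑ l ∈ Finset.Ico c.2 (240 - c.1 - c.2), RR 240 N l := by
      rw [Nat.cast_sub hU.le, Nat.cast_pow, Nat.cast_ofNat, sub_div, div_self (by norm_num)]
      linarith
    have hf0 : (0 : ℝ) ≤ ((10 ^ 9 - nU c.1 c.2 : ℕ) : ℝ) / 10 ^ 9 :=
      div_nonneg (Nat.cast_nonneg _) (by norm_num)
    have hV : (nV c.1 c.2 : ℝ) / 10 ^ 9
        ≤ (nA c.1 : ℝ) / 10 ^ 9 * ((nA c.2 : ℝ) / 10 ^ 9)
          * (((10 ^ 9 - nU c.1 c.2 : ℕ) : ℝ) / 10 ^ 9) := by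
      unfold nV
      have h5 := Nat.cast_div_le (α := ℝ)
        (m := nA c.1 * nA c.2 * (10 ^ 9 - nU c.1 c.2)) (n := (10 ^ 9) ^ 2)
      have h6 : ((10 ^ 9 : ℕ) : ℝ) = 10 ^ 9 := by norm_num
      rw [Nat.cast_mul, Nat.cast_mul, Nat.cast_pow, h6] at h5
      calc _ ≤ (nA c.1 : ℝ) * (nA c.2 : ℝ) * ((10 ^ 9 - nU c.1 c.2 : ℕ) : ℝ) / (10 ^ 9) ^ 2
            / 10 ^ 9 := div_le_div_of_nonneg_right h5 (by norm_num)
        _ = _ := by ring
    refine hV.trans ?_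
    refine mul_le_mul ?_ hf hf0 (mul_nonneg (RR_nonneg _ _ _) (RR_nonneg _ _ _))
    exact mul_le_mul (hA _ h1) (hA _ (by omega)) (hA0 _) (RR_nonneg _ _ _)

end Pool.Agent.Henon88
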