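import Pool.Agent.Henon88.Density3

/-!
At least nine tenths of all numbers are wide: conclusion.
-/

namespace Pool.Agent.Henon88

open Finset

lemma big2_sum {N : ℕ} (hN : 0 < N) (hKN : ((14400000 : ℕ) : ℝ) ≤ (N : ℝ) ^ ((1 : ℝ) / 240))
    (hlow : ∀ i, 1 / ((i + 1 : ℕ) : ℝ) - 1 / 10 ^ 6 ≤ RR 240 N i)
    (hup : ∀ i, 0 < i → RR 240 N i ≤ 1 / (i : ℝ) + 1 / 10 ^ 6) :
    (0.2088 : ℝ) * N ≤ ((big2 N).card : ℝ) := by
  have hN' : (0 : ℝ) < N := by exact_mod_cast hN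
  rw [card_big2 hN]
  push_cast
  have h1 : ∑ c ∈ cells, (N * ((nV c.1 c.2 : ℝ) / 10 ^ 9) - N / (14400000 : ℕ))
      ≤ ∑ c ∈ cells, ∑ s ∈ PR 240 N c.1 ×ˢ PR 240 N c.2, ((GG N s.1 s.2).card : ℝ) :=
    Finset.sum_le_sum fun c hc => cell_num hN (by norm_num) hKN hlow hup hc
  refine le_trans ?_ h1
  rw [Finset.sum_sub_distrib, Finset.sum_const, nsmul_eq_mul, ← Finset.mul_sum, ← Finset.sum_div,
    ← Nat.cast_sum]
  have h2 : (209800000 : ℕ) ≤ ∑ c ∈ cells, nV c.1 c.2 := by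
    rw [cells_eq, sum_gcells]
    exact num_sum
  have h3 : (209800000 : ℝ) ≤ ((∑ c ∈ cells, nV c.1 c.2 : ℕ) : ℝ) := by exact_mod_cast h2
  have h4 : cells.card ≤ 14400 := by
    rw [cells_eq]
    exact gcells_card 120 241
  have h5 : (cells.card : ℝ) ≤ 14400 := by exact_mod_cast h4
  have h6 : (0.2098 : ℝ) ≤ ((∑ c ∈ cells, nV c.1 c.2 : ℕ) : ℝ) / 10 ^ 9 := by
    rw [le_div_iff₀ (by norm_num)]
    linarith
  have h7 := mul_le_mul_of_nonneg_left h6 hN'.le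
  have h8 : (cells.card : ℝ) * (N / (14400000 : ℕ)) ≤ 14400 * (N / (14400000 : ℕ)) :=
    mul_le_mul_of_nonneg_right h5 (by positivity)
  push_cast at h7 h8 ⊢
  linarith

lemma rpow_half {N p : ℕ} {e : ℝ} (hN : 0 < N) (he : e ≤ 1 / 2) (hp : (p : ℝ) ≤ (N : ℝ) ^ e) :
    p ^ 2 ≤ N := by
  have hN' : (0 : ℝ) < N := by exact_mod_cast hN
  have h1 : (p : ℝ) ≤ (N : ℝ) ^ (1 / 2 : ℝ) :=
    hp.trans (Real.rpow_le_rpow_of_exponent_le (by exact_mod_cast hN) he)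
  have h2 : (p : ℝ) ^ 2 ≤ ((N : ℝ) ^ (1 / 2 : ℝ)) ^ 2 := pow_le_pow_left₀ (Nat.cast_nonneg p) h1 2
  have h3 : ((N : ℝ) ^ (1 / 2 : ℝ)) ^ 2 = N := by
    rw [← Real.rpow_natCast, ← Real.rpow_mul hN'.le]
    norm_num
  rw [h3] at h2
  exact_mod_cast h2

lemma mem_big2 {N b : ℕ} (hN : 0 < N) (h : b ∈ big2 N) : ∃ p q i j : ℕ, p ∈ PR 240 N i ∧
    q ∈ PR 240 N j ∧ b ∈ GG N p q ∧ q < p ∧ i < 120 ∧ 241 ≤ 2 * i + j := by
  classical
  unfold big2 at h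
  rw [Finset.mem_biUnion] at h
  obtain ⟨s, hs, hb⟩ := h
  have h1 := idx_lt hN hs
  obtain ⟨hc, hp, hq⟩ := mem_idx hs
  have h2 := mem_cells hc
  exact ⟨s.2.1, s.2.2, s.1.1, s.1.2, hp, hq, hb, h1, h2.1, h2.2.2⟩

lemma wide_of_big2 {N b : ℕ} (hN : 0 < N)
    (hKN : ((14400000 : ℕ) : ℝ) ≤ (N : ℝ) ^ ((1 : ℝ) / 240)) (h : b ∈ big2 N) :
    (0 < b ∧ b ≤ N) ∧ Wide b ∧ ∀ r, r.Prime → r ∣ b → r ^ 2 ≤ N := by
  have hN' : (0 : ℝ) < N := by exact_mod_cast hN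
  have hN1 : (1 : ℝ) ≤ N := by exact_mod_cast hN
  obtain ⟨p, q, i, j, hp, hq, hb, hqp, hi, hij⟩ := mem_big2 hN h
  rw [mem_PR] at hp hq
  have hb' := mem_GG.1 hb
  have hp1 := lt_of_zz hp.2.1
  have hq1 := lt_of_zz hq.2.1
  refine ⟨hb'.1, ?_, ?_⟩
  · refine wide_of_two hb'.1.1 hb'.1.2 hp.1 hq.1 hqp ?_ hb'.2.1 ?_
    · have h1 : (N : ℝ) ^ ((1 : ℝ) / 240) ≤ (N : ℝ) ^ ((j : ℝ) / (240 : ℕ)) := by
        refine Real.rpow_le_rpow_of_exponent_le hN1 ?_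
        have : 1 ≤ j := by omega
        have h2 : (1 : ℝ) ≤ j := by exact_mod_cast this
        push_cast
        linarith
      have h3 : ((14400000 : ℕ) : ℝ) < q := lt_of_le_of_lt (hKN.trans h1) hq1
      have h4 : 14400000 < q := by exact_mod_cast h3
      omega
    · have h1 : (N : ℝ) * (N : ℝ) ^ ((1 : ℝ) / 240)
          ≤ ((N : ℝ) ^ ((i : ℝ) / (240 : ℕ))) ^ 2 * (N : ℝ) ^ ((j : ℝ) / (240 : ℕ)) := by
        rw [← Real.rpow_natCast ((N : ℝ) ^ ((i : ℝ) / (240 : ℕ))), ← Real.rpow_mul hN'.le,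
          ← Real.rpow_add hN']
        nth_rewrite 1 [← Real.rpow_one (N : ℝ)]
        rw [← Real.rpow_add hN']
        refine Real.rpow_le_rpow_of_exponent_le hN1 ?_
        have h2 : ((241 : ℕ) : ℝ) ≤ ((2 * i + j : ℕ) : ℝ) := by exact_mod_cast hij
        push_cast at h2 ⊢
        linarith
      have h2 : ((N : ℝ) ^ ((i : ℝ) / (240 : ℕ))) ^ 2 * (N : ℝ) ^ ((j : ℝ) / (240 : ℕ))
          ≤ (p : ℝ) ^ 2 * q :=
        mul_le_mul (pow_le_pow_left₀ (Real.rpow_nonneg hN'.le _) hp1.le 2) hq1.le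
          (Real.rpow_nonneg hN'.le _) (by positivity)
      have h3 : (12 : ℝ) * N ≤ N * (N : ℝ) ^ ((1 : ℝ) / 240) := by
        have h4 : (12 : ℝ) ≤ (N : ℝ) ^ ((1 : ℝ) / 240) := by
          refine le_trans ?_ hKN
          norm_num
        nlinarith
      have h4 : (12 : ℝ) * N ≤ (p : ℝ) ^ 2 * q := h3.trans (h1.trans h2)
      exact_mod_cast h4
  · intro r hr hd
    have h1 := GG_prime_le hp.1 hq.1 hqp hb hr hd
    refine (Nat.pow_le_pow_left h1 2).trans (rpow_half (e := ((i + 1 : ℕ) : ℝ) / (240 : ℕ)) hN ?_ ?_)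
    · have h2 : ((i + 1 : ℕ) : ℝ) ≤ 120 := by exact_mod_cast hi
      push_cast at h2 ⊢
      linarith
    · have h2 : (p : ℝ) ≤ (zz 240 N (i + 1) : ℝ) := by exact_mod_cast hp.2.2
      exact h2.trans (Nat.floor_le (Real.rpow_nonneg hN'.le _))

theorem wide_density : ∃ N₀ : ℕ, ∀ N : ℕ, N₀ ≤ N →
    (9 / 10 : ℝ) * N ≤ (Set.ncard {b : ℕ | 1 ≤ b ∧ b ≤ N ∧ Wide b} : ℝ) := by
  classical
  obtain ⟨C, hC0, hC⟩ := mertens
  obtain ⟨k, N₁, hbig⟩ := big_lower (1 / 1000) (by norm_num)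
  set E := 2 * C + Real.log 2 with hE
  have hE0 : 0 ≤ E := by
    have h2 : 0 ≤ Real.log 2 := Real.log_nonneg (by norm_num)
    positivity
  obtain ⟨N₂, hN₂⟩ : ∃ N₂ : ℕ, Real.exp (240 * E * 10 ^ 6) ≤ N₂ := exists_nat_ge _
  obtain ⟨N₃, hN₃⟩ : ∃ N₃ : ℕ, ((14400000 : ℕ) : ℝ) ^ (240 : ℝ) ≤ N₃ := exists_nat_ge _
  refine ⟨max (max N₁ N₂) (max N₃ 2), fun N hN => ?_⟩
  have hNN1 : N₁ ≤ N := ((le_max_left _ _).trans (le_max_left _ _)).trans hN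
  have hNN2 : N₂ ≤ N := ((le_max_right _ _).trans (le_max_left _ _)).trans hN
  have hNN3 : N₃ ≤ N := ((le_max_left _ _).trans (le_max_right _ _)).trans hN
  have hN2 : 2 ≤ N := ((le_max_right _ _).trans (le_max_right _ _)).trans hN
  have hN0 : 0 < N := by omega
  have hN' : (0 : ℝ) < N := by exact_mod_cast hN0
  have hL : 0 < Real.log N := Real.log_pos (by exact_mod_cast hN2)
  have hKN : ((14400000 : ℕ) : ℝ) ≤ (N : ℝ) ^ ((1 : ℝ) / 240) := by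
    have h1 : ((14400000 : ℕ) : ℝ) ^ (240 : ℝ) ≤ N := hN₃.trans (by exact_mod_cast hNN3)
    have h2 := Real.rpow_le_rpow (Real.rpow_nonneg (Nat.cast_nonneg _) _) h1
      (show (0 : ℝ) ≤ 1 / 240 by norm_num)
    rw [← Real.rpow_mul (Nat.cast_nonneg _)] at h2
    norm_num at h2 ⊢
    exact h2
  have hEL : ((240 : ℕ) : ℝ) * E / Real.log N ≤ 1 / 10 ^ 6 := by
    have h1 : 240 * E * 10 ^ 6 ≤ Real.log N := by
      have h5 : Real.exp (240 * E * 10 ^ 6) ≤ N := hN₂.trans (by exact_mod_cast hNN2)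
      have := Real.log_le_log (Real.exp_pos _) h5
      rwa [Real.log_exp] at this
    rw [div_le_iff₀ hL]
    push_cast
    linarith
  have h2 := big2_sum hN0 hKN
    (fun i => by
      have := RR_lower hC0 hC (n := 240) (i := i) (by norm_num) hN2
      linarith)
    (fun i hi => by
      have := RR_upper hC0 hC (n := 240) (by norm_num) hN2 hi
      linarith)
  obtain ⟨hy, h1⟩ := hbig N hNN1
  have hdis : Disjoint (big N (yy k N 1)) (big2 N) := by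
    rw [Finset.disjoint_left]
    intro b hb hb2
    obtain ⟨-, -, h3⟩ := wide_of_big2 hN0 hKN hb2
    unfold big at hb
    rw [Finset.mem_filter] at hb
    obtain ⟨-, p, hp, hap, hd⟩ := hb
    have h4 := h3 p hp hd
    have h5 : (yy k N 1 + 1) ^ 2 ≤ p ^ 2 := Nat.pow_le_pow_left hap 2
    omega
  have hsub : (↑(big N (yy k N 1) ∪ big2 N) : Set ℕ) ⊆ {b : ℕ | 1 ≤ b ∧ b ≤ N ∧ Wide b} := by
    intro b hb
    rw [Finset.mem_coe, Finset.mem_union] at hb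
    rcases hb with hb | hb
    · unfold big at hb
      rw [Finset.mem_filter, Finset.mem_Ioc] at hb
      obtain ⟨⟨hb0, hbN⟩, p, hp, hap, hd⟩ := hb
      refine ⟨hb0, hbN, wide_of_prime hb0 hbN hp hd ?_⟩
      exact hy.trans (Nat.pow_le_pow_left hap 2)
    · obtain ⟨h3, h4, -⟩ := wide_of_big2 hN0 hKN hb
      exact ⟨h3.1, h3.2, h4⟩
  have hfin : {b : ℕ | 1 ≤ b ∧ b ≤ N ∧ Wide b}.Finite :=
    (Set.finite_Iic N).subset fun b hb => hb.2.1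
  have h4 := Set.ncard_le_ncard hsub hfin
  rw [Set.ncard_coe_finset, Finset.card_union_of_disjoint hdis] at h4
  have h5 : ((big N (yy k N 1)).card : ℝ) + ((big2 N).card : ℝ)
      ≤ (Set.ncard {b : ℕ | 1 ≤ b ∧ b ≤ N ∧ Wide b} : ℝ) := by exact_mod_cast h4
  have h6 := Real.log_two_gt_d9
  have h7 : (0.6931 : ℝ) * N ≤ Real.log 2 * N := mul_le_mul_of_nonneg_right (by linarith) hN'.le
  have h8 : (Real.log 2 - 1 / 1000) * N = Real.log 2 * N - N / 1000 := by ring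
  rw [h8] at h1
  linarith

end Pool.Agent.Henon88
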