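import Mathlib

/-!
A search over words, written for evaluation by the kernel, and its soundness.
Letters are natural numbers `< nb ≤ 8`; a word is a sequence of letters.
To three consecutive letters an entry is attached (function `ent` of the code in base 8), to three
consecutive entries a summary (function `sm`). Entries and summaries are compared with the first
entries and summaries of each class; a branch is closed as soon as four consecutive letters have
already occurred, at a distance in `{1, 2, 3, 4, 6, 8}`.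
-/

namespace Pool.Agent.Henon88

def all (f : ℕ → Bool) (n : ℕ) : Bool :=
  Nat.rec true (fun b ih => Bool.rec false ih (f b)) n

lemma all_spec {f : ℕ → Bool} {n : ℕ} (h : all f n = true) : ∀ b < n, f b = true := by
  induction n with
  | zero => intro b hb; omega
  | succ n ih =>
    intro b hb
    have h1 : (Bool.rec false (all f n) (f n) : Bool) = true := h
    rcases hf : f n with _ | _
    · rw [hf] at h1; exact absurd h1 Bool.false_ne_true
    · rw [hf] at h1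
      rcases Nat.lt_succ_iff_lt_or_eq.1 hb with h2 | h2
      · exact ih h1 b h2
      · rw [h2]; exact hf

lemma all_of {f : ℕ → Bool} {n : ℕ} (h : ∀ b < n, f b = true) : all f n = true := by
  induction n with
  | zero => rfl
  | succ n ih =>
    show (Bool.rec false (all f n) (f n) : Bool) = true
    rw [h n (Nat.lt_succ_self n)]
    exact ih fun b hb => h b (Nat.lt_succ_of_lt hb)

lemma all_cons {α : Type} {f : α → Bool} {a : α} {l : List α} (h : f a = true)
    (h' : l.all f = true) : (a :: l).all f = true := by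
  rw [List.all_cons, h, h']; rfl

lemma all_nil {α : Type} {f : α → Bool} : ([] : List α).all f = true := rfl

/-- extraction of a field -/
def fl (e s m : ℕ) : ℕ := Nat.mod (Nat.div e s) m

lemma fl_eq (e s m : ℕ) : fl e s m = e / s % m := rfl

/-- position of `w` in the list (starting with `1`), or `0` -/
def find (w : ℕ) (ws : List ℕ) : ℕ → ℕ :=
  List.rec (fun _ => 0)
    (fun v _ ih j => Bool.rec (ih (Nat.succ j)) (Nat.succ j) (Nat.beq v w)) ws

def good (j : ℕ) : Bool :=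
  Nat.beq j 1 || (Nat.beq j 2 || (Nat.beq j 3 || (Nat.beq j 4 || (Nat.beq j 6 || Nat.beq j 8))))

lemma good_spec {j : ℕ} (h : good j = true) : j ∈ ({1, 2, 3, 4, 6, 8} : Finset ℕ) := by
  simp only [good, Bool.or_eq_true] at h
  simp only [Finset.mem_insert, Finset.mem_singleton]
  rcases h with h | h | h | h | h | h <;> have := Nat.eq_of_beq_eq_true h <;> omega

def upd (L : ℕ → ℕ) (k v : ℕ) (K : (ℕ → ℕ) → Bool) : Bool :=
  Bool.rec (K L) (K (fun j => Bool.rec (L j) v (Nat.beq j k))) (Nat.beq (L k) 0)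

/-- check against the stored value of index `k` -/
def chk (L : ℕ → ℕ) (k v : ℕ) (g : ℕ → ℕ → Bool) : Bool :=
  (fun u => Bool.rec (g u v) true (Nat.beq u 0)) (L k)

def St := ℕ → ℕ → ℕ → (ℕ → ℕ) → (ℕ → ℕ) → List ℕ → Bool

section

variable (nb : ℕ) (ent : ℕ → ℕ) (k3 : ℕ → ℕ) (c3 : (ℕ → ℕ) → ℕ → Bool) (sm : ℕ → ℕ → ℕ → ℕ)
  (k5 : ℕ → ℕ) (c5 : (ℕ → ℕ) → ℕ → Bool)

def dfs (fuel : ℕ) : St :=
  Nat.rec (fun _ _ _ _ _ _ => false)
    (fun _ ih w e2 e1 L3 L5 ws => all (fun b => (fun w' => (fun e =>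
      Bool.rec true
       ((fun d => Bool.rec true
          ((fun j => Bool.rec (good j)
             (upd L3 (k3 e) e (fun L3' => upd L5 (k5 d) d (fun L5' =>
               ih (Nat.div w' 8) e1 e L3' L5' (List.cons w' ws)))) (Nat.beq j 0)) (find w' ws 0))
          (c5 L5 d)) (sm e2 e1 e))
       (c3 L3 e)) (ent (Nat.div w' 8))) (Nat.add w (Nat.mul 512 b))) nb) fuel

/-- the search starting with the letters `0`, `b1` -/
def start1 (fuel b1 : ℕ) : Bool :=
  all (fun b2 => (fun e1 => all (fun b3 => (fun e2 => upd (fun _ => 0) (k3 e1) e1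
      (fun L =>
      Bool.rec true
        (upd L (k3 e2) e2 (fun L' =>
          dfs nb ent k3 c3 sm k5 c5 fuel (Nat.add b1 (Nat.add (Nat.mul 8 b2) (Nat.mul 64 b3)))
          e1 e2 L' (fun _ => 0)
          (List.cons (Nat.add (Nat.mul 8 b1) (Nat.add (Nat.mul 64 b2) (Nat.mul 512 b3)))
          List.nil)))
        (c3 L e2))) (ent (Nat.add b1 (Nat.add (Nat.mul 8 b2) (Nat.mul 64 b3))))) nb)
    (ent (Nat.add (Nat.mul 8 b1) (Nat.mul 64 b2)))) nb

/-- the search starting with the letter `0` -/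
def start (fuel : ℕ) : Bool := all (fun b1 => start1 nb ent k3 c3 sm k5 c5 fuel b1) nb

end

/-! ### soundness -/

section

/-- code of three letters -/
def W3 (σ : ℕ → ℕ) (i : ℕ) : ℕ := σ i + 8 * σ (i + 1) + 64 * σ (i + 2)

/-- code of four letters -/
def W4 (σ : ℕ → ℕ) (i : ℕ) : ℕ := σ i + 8 * σ (i + 1) + 64 * σ (i + 2) + 512 * σ (i + 3)

/-- the codes of four letters seen so far -/
def wsOf (σ : ℕ → ℕ) : ℕ → List ℕ
  | 0 => [W4 σ 0]
  | i + 1 => W4 σ (i + 1) :: wsOf σ i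

lemma find_nil (w j : ℕ) : find w [] j = 0 := rfl

lemma find_cons (w v : ℕ) (ws : List ℕ) (j : ℕ) :
    find w (v :: ws) j = Bool.rec (find w ws (j + 1)) (j + 1) (Nat.beq v w) := rfl

lemma find_wsOf (σ : ℕ → ℕ) (w : ℕ) : ∀ i j0, find w (wsOf σ i) j0 = 0 ∨
    ∃ k ≤ i, find w (wsOf σ i) j0 = j0 + k + 1 ∧ W4 σ (i - k) = w := by
  intro i
  induction i with
  | zero =>
    intro j0
    rw [wsOf, find_cons]
    rcases h : Nat.beq (W4 σ 0) w with _ | _
    · left; rfl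
    · right
      exact ⟨0, le_rfl, rfl, Nat.eq_of_beq_eq_true h⟩
  | succ i ih =>
    intro j0
    rw [wsOf, find_cons]
    rcases h : Nat.beq (W4 σ (i + 1)) w with _ | _
    · rcases ih (j0 + 1) with h1 | ⟨k, hk, h1, h2⟩
      · left; exact h1
      · right
        refine ⟨k + 1, by omega, ?_, ?_⟩
        · show find w (wsOf σ i) (j0 + 1) = _
          rw [h1]; ring
        · rw [← h2]; congr 1; omega
    · right
      exact ⟨0, by omega, rfl, Nat.eq_of_beq_eq_true h⟩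

/-- what the stored values are -/
def Inv (F : ℕ → ℕ) (κ : ℕ → ℕ) (L : ℕ → ℕ) : Prop :=
  ∀ k, L k = 0 ∨ ∃ i, κ (F i) = k ∧ L k = F i

lemma Inv.zero (F κ : ℕ → ℕ) : Inv F κ (fun _ => 0) := fun _ => Or.inl rfl

lemma upd_spec {F κ : ℕ → ℕ} {L : ℕ → ℕ} {i : ℕ} {K : (ℕ → ℕ) → Bool} {R : Prop}
    (hL : Inv F κ L) (h : upd L (κ (F i)) (F i) K = true)
    (hK : ∀ L', Inv F κ L' → K L' = true → R) : R := by
  unfold upd at h
  rcases h1 : Nat.beq (L (κ (F i))) 0 with _ | _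
  · rw [h1] at h
    exact hK L hL h
  · rw [h1] at h
    refine hK _ ?_ h
    intro k
    show (Bool.rec (L k) (F i) (Nat.beq k (κ (F i))) : ℕ) = 0 ∨
      ∃ i', κ (F i') = k ∧ (Bool.rec (L k) (F i) (Nat.beq k (κ (F i))) : ℕ) = F i'
    rcases h2 : Nat.beq k (κ (F i)) with _ | _
    · exact hL k
    · right
      exact ⟨i, (Nat.eq_of_beq_eq_true h2).symm, rfl⟩

variable {nb : ℕ} {ent : ℕ → ℕ} {k3 : ℕ → ℕ} {c3 : (ℕ → ℕ) → ℕ → Bool} {sm : ℕ → ℕ → ℕ → ℕ}
  {k5 : ℕ → ℕ} {c5 : (ℕ → ℕ) → ℕ → Bool}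

/-- the entries along a sequence -/
def En (ent : ℕ → ℕ) (σ : ℕ → ℕ) (i : ℕ) : ℕ := ent (W3 σ i)

/-- the summaries along a sequence -/
def Sm (ent : ℕ → ℕ) (sm : ℕ → ℕ → ℕ → ℕ) (σ : ℕ → ℕ) (i : ℕ) : ℕ :=
  sm (En ent σ i) (En ent σ (i + 1)) (En ent σ (i + 2))

lemma dfs_sound {σ : ℕ → ℕ} (hσ : ∀ i, σ i < nb) (hnb : nb ≤ 8)
    (h3 : ∀ L i, Inv (En ent σ) k3 L → c3 L (En ent σ i) = true)
    (h5 : ∀ L i, Inv (Sm ent sm σ) k5 L → c5 L (Sm ent sm σ i) = true) (fuel : ℕ) :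
    ∀ i L3 L5, Inv (En ent σ) k3 L3 → Inv (Sm ent sm σ) k5 L5 →
    dfs nb ent k3 c3 sm k5 c5 fuel (W3 σ (i + 1)) (En ent σ i) (En ent σ (i + 1)) L3 L5
      (wsOf σ i) = true → ∃ a j, good j = true ∧ W4 σ (a + j) = W4 σ a := by
  induction fuel with
  | zero => intro i L3 L5 _ _ h; exact absurd h Bool.false_ne_true
  | succ fuel ih =>
    intro i L3 L5 hL3 hL5 h
    have h1 := all_spec h (σ (i + 4)) (hσ _)
    have hw : Nat.add (W3 σ (i + 1)) (Nat.mul 512 (σ (i + 4))) = W4 σ (i + 1) := by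
      show σ (i + 1) + 8 * σ (i + 1 + 1) + 64 * σ (i + 1 + 2) + 512 * σ (i + 4) = _
      unfold W4
      ring_nf
    have hw8 : Nat.div (W4 σ (i + 1)) 8 = W3 σ (i + 2) := by
      show W4 σ (i + 1) / 8 = _
      unfold W4 W3
      have := hσ (i + 1)
      have e1 : i + 1 + 1 = i + 2 := rfl
      have e2 : i + 1 + 2 = i + 2 + 1 := rfl
      have e3 : i + 1 + 3 = i + 2 + 2 := rfl
      rw [e1, e2, e3]
      omega
    simp only [hw, hw8] at h1
    change Bool.rec true (Bool.rec true (Bool.rec _ _ (Nat.beq (find (W4 σ (i + 1)) (wsOf σ i) 0) 0))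
      (c5 L5 (Sm ent sm σ i))) (c3 L3 (En ent σ (i + 2))) = true at h1
    rw [h3 L3 (i + 2) hL3, h5 L5 i hL5] at h1
    rcases hf : Nat.beq (find (W4 σ (i + 1)) (wsOf σ i) 0) 0 with _ | _
    · rw [hf] at h1
      rcases find_wsOf σ (W4 σ (i + 1)) i 0 with h2 | ⟨k, hk, h2, h4⟩
      · rw [h2] at hf; exact absurd hf.symm Bool.false_ne_true
      · refine ⟨i - k, k + 1, ?_, ?_⟩
        · have : good (find (W4 σ (i + 1)) (wsOf σ i) 0) = true := h1
          rwa [h2, zero_add] at this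
        · rw [h4]; congr 1; omega
    · rw [hf] at h1
      change upd L3 (k3 (En ent σ (i + 2))) (En ent σ (i + 2)) _ = true at h1
      refine upd_spec hL3 h1 ?_
      intro L3' hL3' h5'
      change upd L5 (k5 (Sm ent sm σ i)) (Sm ent sm σ i) _ = true at h5'
      refine upd_spec hL5 h5' ?_
      intro L5' hL5' h6
      exact ih (i + 1) L3' L5' hL3' hL5' h6

theorem start_sound {fuel : ℕ} (hrun : start nb ent k3 c3 sm k5 c5 fuel = true) {σ : ℕ → ℕ}
    (hσ : ∀ i, σ i < nb) (hnb : nb ≤ 8) (h0 : σ 0 = 0)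
    (h3 : ∀ L i, Inv (En ent σ) k3 L → c3 L (En ent σ i) = true)
    (h5 : ∀ L i, Inv (Sm ent sm σ) k5 L → c5 L (Sm ent sm σ i) = true) :
    ∃ a j, good j = true ∧ W4 σ (a + j) = W4 σ a := by
  have h1 := all_spec hrun (σ 1) (hσ _)
  have h2 := all_spec h1 (σ 2) (hσ _)
  have h4 := all_spec h2 (σ 3) (hσ _)
  have e1 : Nat.add (Nat.mul 8 (σ 1)) (Nat.mul 64 (σ 2)) = W3 σ 0 := by
    show 8 * σ 1 + 64 * σ 2 = _
    unfold W3
    rw [h0]; ring
  have e2 : Nat.add (σ 1) (Nat.add (Nat.mul 8 (σ 2)) (Nat.mul 64 (σ 3))) = W3 σ 1 := by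
    show σ 1 + (8 * σ 2 + 64 * σ 3) = _
    unfold W3
    ring
  have e3 : Nat.add (Nat.mul 8 (σ 1)) (Nat.add (Nat.mul 64 (σ 2)) (Nat.mul 512 (σ 3)))
      = W4 σ 0 := by
    show 8 * σ 1 + (64 * σ 2 + 512 * σ 3) = _
    unfold W4
    rw [h0]; ring
  simp only [e1, e2, e3] at h4
  change upd (fun _ => 0) (k3 (En ent σ 0)) (En ent σ 0) _ = true at h4
  refine upd_spec (Inv.zero _ _) h4 ?_
  intro L hL h6
  change Bool.rec true _ (c3 L (En ent σ 1)) = true at h6
  rw [h3 L 1 hL] at h6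
  change upd L (k3 (En ent σ 1)) (En ent σ 1) _ = true at h6
  refine upd_spec hL h6 ?_
  intro L' hL' h7
  exact dfs_sound hσ hnb h3 h5 fuel 0 L' _ hL' (Inv.zero _ _) h7

lemma W4_inj {σ : ℕ → ℕ} (hσ : ∀ i, σ i < 8) {a b : ℕ} (h : W4 σ a = W4 σ b) :
    σ a = σ b ∧ σ (a + 1) = σ (b + 1) ∧ σ (a + 2) = σ (b + 2) ∧ σ (a + 3) = σ (b + 3) := by
  unfold W4 at h
  have := hσ a; have := hσ (a + 1); have := hσ (a + 2); have := hσ (a + 3)
  have := hσ b; have := hσ (b + 1); have := hσ (b + 2); have := hσ (b + 3)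
  omega

/-- the check against one stored value -/
lemma chk_true {F κ : ℕ → ℕ} {L : ℕ → ℕ} (hL : Inv F κ L) {k v : ℕ} {g : ℕ → ℕ → Bool}
    (h : ∀ i, κ (F i) = k → g (F i) v = true) : chk L k v g = true := by
  show (Bool.rec (g (L k) v) true (Nat.beq (L k) 0) : Bool) = true
  rcases hL k with h1 | ⟨i, h1, h2⟩
  · rw [h1]; rfl
  · rcases h3 : Nat.beq (L k) 0 with _ | _
    · show g (L k) v = true
      rw [h2]; exact h i h1
    · rfl

end

end Pool.Agent.Henon88
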