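import Pool.Agent.Henon88.Basic

/-!
Denominators of a periodic orbit, and the local structure at a prime power exactly dividing the
denominator.
-/

namespace Pool.Agent.Henon88

/-- integral form of a periodic orbit: `x n = X n / B`, `c = - S / B ^ 2` -/
structure IOrb (B : ℕ) (S : ℤ) (X : ℤ → ℤ) : Prop where
  pos : 0 < B
  eq : ∀ n, (B : ℤ) * (X (n + 1) - X (n - 1)) = X n ^ 2 - S
  cop : ∀ n, IsCoprime (X n) (B : ℤ)

lemma IsOrb.rep {c : ℚ} {x : ℤ → ℚ} (h : IsOrb c x) :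
    ∃ N : ℕ, ∀ n, ∃ k < N, x n = x (k : ℕ) := by
  obtain ⟨N, hN, h1⟩ := h.per
  refine ⟨N, fun n => ?_⟩
  have hN' : (0 : ℤ) < N := by exact_mod_cast hN
  refine ⟨(n % N).toNat, ?_, ?_⟩
  · have := Int.emod_lt_of_pos n hN'
    have := Int.emod_nonneg n hN'.ne'
    omega
  · have h2 := Int.emod_nonneg n hN'.ne'
    rw [Int.toNat_of_nonneg h2]
    have h3 := Int.emod_add_mul_ediv n N
    rcases Int.eq_nat_or_neg (n / N) with ⟨k, hk | hk⟩
    · have h4 := per_mul h1 k (n % N)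
      rw [← h4]
      congr 1
      rw [hk] at h3
      linarith
    · have h4 := per_mul h1 k n
      rw [← h4]
      congr 1
      rw [hk] at h3
      linarith

theorem IsOrb.exists_int {c : ℚ} {x : ℤ → ℚ} (h : IsOrb c x) :
    ∃ (B : ℕ) (S : ℤ) (X : ℤ → ℤ), IOrb B S X ∧ (∀ n, x n = X n / B) ∧
      c = -(S : ℚ) / B ^ 2 ∧ c.den = B ^ 2 := by
  classical
  obtain ⟨N, hN⟩ := h.rep
  have hex : ∃ b : ℕ, 0 < b ∧ ∀ n, ∃ z : ℤ, (b : ℚ) * x n = z := by
    refine ⟨∏ k ∈ Finset.range N, (x (k : ℕ)).den, Finset.prod_pos fun k _ => (x (k : ℕ)).den_pos,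
      fun n => ?_⟩
    obtain ⟨k, hk, e⟩ := hN n
    have hd : (x (k : ℕ)).den ∣ ∏ k ∈ Finset.range N, (x (k : ℕ)).den :=
      Finset.dvd_prod_of_mem _ (Finset.mem_range.2 hk)
    obtain ⟨d, hd⟩ := hd
    refine ⟨d * (x (k : ℕ)).num, ?_⟩
    rw [hd, e]
    push_cast
    have := Rat.mul_den_eq_num (x (k : ℕ))
    rw [← this]; ring
  set B := Nat.find hex with hB
  obtain ⟨hBpos, hBx⟩ := Nat.find_spec hex
  have hmin : ∀ b : ℕ, b < B → ¬ (0 < b ∧ ∀ n, ∃ z : ℤ, (b : ℚ) * x n = z) :=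
    fun b hb => Nat.find_min hex hb
  rw [← hB] at hBpos hBx
  clear_value B
  choose X hX using hBx
  have hBq : (B : ℚ) ≠ 0 := by exact_mod_cast hBpos.ne'
  have hx : ∀ n, x n = X n / B := fun n => by rw [← hX n]; field_simp
  have hS : ∀ n, ((X n ^ 2 - B * (X (n + 1) - X (n - 1)) : ℤ) : ℚ) = -c * B ^ 2 := by
    intro n
    have := h.step n
    rw [hx, hx, hx] at this
    field_simp at this
    push_cast
    linear_combination -(this : _)
  set S : ℤ := X 0 ^ 2 - B * (X (0 + 1) - X (0 - 1)) with hSdef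
  have hSc : (S : ℚ) = -c * B ^ 2 := hS 0
  have heq : ∀ n, (B : ℤ) * (X (n + 1) - X (n - 1)) = X n ^ 2 - S := by
    intro n
    have h1 := (hS n).trans hSc.symm
    have h2 : X n ^ 2 - B * (X (n + 1) - X (n - 1)) = S := by exact_mod_cast h1
    linarith
  clear_value S
  have hcop : ∀ n, IsCoprime (X n) (B : ℤ) := by
    intro n
    rw [Int.isCoprime_iff_gcd_eq_one]
    by_contra hne
    obtain ⟨p, hp, hpd⟩ := Nat.exists_prime_and_dvd hne
    have h1 : (p : ℤ) ∣ X n := (Int.natCast_dvd_natCast.2 hpd).trans (Int.gcd_dvd_left ..)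
    have h2 : (p : ℤ) ∣ B := (Int.natCast_dvd_natCast.2 hpd).trans (Int.gcd_dvd_right ..)
    have hp' : Prime (p : ℤ) := Nat.prime_iff_prime_int.1 hp
    have h3 : (p : ℤ) ∣ S := by
      have e := heq n
      have : S = X n * X n - B * (X (n + 1) - X (n - 1)) := by rw [e]; ring
      rw [this]
      exact dvd_sub (h1.mul_right _) (h2.mul_right _)
    have h4 : ∀ m, (p : ℤ) ∣ X m := by
      intro m
      have e := heq m
      have h5 : (p : ℤ) ∣ X m ^ 2 := by
        have : X m ^ 2 = S + B * (X (m + 1) - X (m - 1)) := by rw [e]; ring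
        rw [this]
        exact dvd_add h3 (h2.mul_right _)
      exact hp'.dvd_of_dvd_pow h5
    have h2' : p ∣ B := by exact_mod_cast h2
    obtain ⟨b, hb⟩ := h2'
    have hb0 : 0 < b := by
      rcases Nat.eq_zero_or_pos b with h0 | h0
      · rw [h0] at hb; omega
      · exact h0
    have hbB : b < B := by
      rw [hb]
      have := hp.two_le
      nlinarith
    apply hmin b hbB
    refine ⟨hb0, fun m => ?_⟩
    obtain ⟨z, hz⟩ := h4 m
    refine ⟨z, ?_⟩
    have e := hX m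
    rw [hb, hz] at e
    push_cast at e
    have hpq : (p : ℚ) ≠ 0 := by exact_mod_cast hp.ne_zero
    have : (p : ℚ) * (b * x m) = p * z := by rw [← e]; ring
    exact mul_left_cancel₀ hpq this
  have hc : c = -(S : ℚ) / B ^ 2 := by
    rw [hSc]; field_simp
  refine ⟨B, S, X, ⟨hBpos, heq, hcop⟩, hx, hc, ?_⟩
  have hSB : Nat.Coprime (-S).natAbs ((B : ℤ) ^ 2).natAbs := by
    have h1 : IsCoprime S (B : ℤ) := by
      have h2 := (hcop 0).pow_left (m := 2)
      have e := heq 0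
      have : S = X 0 ^ 2 + B * (-(X (0 + 1) - X (0 - 1))) := by
        have : X 0 ^ 2 = S + B * (X (0 + 1) - X (0 - 1)) := by rw [e]; ring
        rw [this]; ring
      rw [this]
      exact h2.add_mul_left_left _
    have h3 : IsCoprime (-S) ((B : ℤ) ^ 2) := (h1.neg_left).pow_right
    exact Int.isCoprime_iff_gcd_eq_one.1 h3
  have h5 := Rat.den_div_eq_of_coprime (a := -S) (b := (B : ℤ) ^ 2) (by positivity) hSB
  have h6 : ((-S : ℤ) : ℚ) / (((B : ℤ) ^ 2 : ℤ) : ℚ) = c := by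
    rw [hc]; push_cast; ring
  rw [h6] at h5
  exact_mod_cast h5

/-- the sign attached to a Boolean: `true` is minus -/
def sg (b : Bool) : ℤ := if b then -1 else 1

def bt (b : Bool) : ℤ := if b then 1 else 0

lemma sg_sq (b : Bool) : sg b * sg b = 1 := by cases b <;> rfl

lemma sg_xor (a b : Bool) : sg (xor a b) = sg a * sg b := by cases a <;> cases b <;> rfl

/-- half of the difference of the neighbouring signs -/
def D (e : ℤ → Bool) (n : ℤ) : ℤ := bt (e (n - 1)) - bt (e (n + 1))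

lemma two_D (e : ℤ → Bool) (n : ℤ) : 2 * D e n = sg (e (n + 1)) - sg (e (n - 1)) := by
  unfold D sg bt
  cases e (n + 1) <;> cases e (n - 1) <;> rfl

/-- the second order term -/
def hh (e : ℤ → Bool) (n : ℤ) : ℤ :=
  sg (e (n + 1)) * D e (n + 1) - sg (e (n - 1)) * D e (n - 1) - D e n ^ 2

lemma hh_bd (e : ℤ → Bool) (n : ℤ) : -2 ≤ hh e n ∧ hh e n ≤ 2 := by
  unfold hh D
  rw [show n + 1 - 1 = n by ring, show n - 1 + 1 = n by ring]
  generalize e n = a
  generalize e (n + 1) = b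
  generalize e (n - 1) = c
  generalize e (n + 1 + 1) = d
  generalize e (n - 1 - 1) = f
  revert a b c d f
  decide

/-- local structure at a prime power `q` exactly dividing `B = q * r` -/
structure Pl (B : ℕ) (X : ℤ → ℤ) (q Q r : ℕ) (e : ℤ → Bool) (u : ℤ) : Prop where
  hB : B = q * r
  hr : Nat.Coprime Q r
  res : ∀ n, (q : ℤ) ∣ X n - sg (e n) * u
  loc : ∀ n m, ((q * Q : ℕ) : ℤ) ∣
    (sg (e n) * X n - B * D e n) - (sg (e m) * X m - B * D e m)
  sec : ∀ n m d, (sg (e n) * X n - B * D e n) - (sg (e m) * X m - B * D e m) = B * d →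
    ((q * Q : ℕ) : ℤ) ∣ 2 * (sg (e m) * X m - B * D e m) * d - B * (hh e n - hh e m)
  start : e 0 = false
  cu : IsCoprime (q : ℤ) u
  q3 : 3 ≤ q
  par : (Q % 2 = 1 ∧ q = Q) ∨ (Q % 2 = 0 ∧ q = 2 * Q)

lemma Pl.ntriv {B : ℕ} {X : ℤ → ℤ} {q Q r : ℕ} {e : ℤ → Bool} {u : ℤ} (P : Pl B X q Q r e u) :
    ¬ (q : ℤ) ∣ 2 * u := by
  intro h
  have h1 := P.cu.dvd_of_dvd_mul_right h
  have h2 := Int.le_of_dvd (by norm_num) h1
  have := P.q3
  omega

/-- the quadratic identity for `y n = sg (e n) * X n - B * D e n` -/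
lemma quad {B : ℕ} {S : ℤ} {X : ℤ → ℤ} (h : IOrb B S X) (e : ℤ → Bool) (y : ℤ → ℤ)
    (hy : ∀ n, y n = sg (e n) * X n - B * D e n) (n : ℤ) :
    y n ^ 2 = S + B * (sg (e (n + 1)) * (y (n + 1) - y n) - sg (e (n - 1)) * (y (n - 1) - y n))
      + B ^ 2 * hh e n := by
  have e1 := h.eq n
  have x1 : X (n + 1) = sg (e (n + 1)) * (y (n + 1) + B * D e (n + 1)) := by
    rw [hy (n + 1)]
    linear_combination -(X (n + 1)) * sg_sq (e (n + 1))
  have x2 : X (n - 1) = sg (e (n - 1)) * (y (n - 1) + B * D e (n - 1)) := by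
    rw [hy (n - 1)]
    linear_combination -(X (n - 1)) * sg_sq (e (n - 1))
  have x0 : X n ^ 2 = (y n + B * D e n) ^ 2 := by
    rw [hy n]
    linear_combination -(X n ^ 2) * sg_sq (e n)
  have t := two_D e n
  unfold hh
  rw [x0, x1, x2] at e1
  linear_combination -e1 - B * y n * t

lemma loc_aux {B : ℕ} {S : ℤ} {X : ℤ → ℤ} (h : IOrb B S X) {q Q r : ℕ} (hB : B = q * r)
    (hr : Nat.Coprime Q r) (e : ℤ → Bool) {u : ℤ} (hres : ∀ n, (q : ℤ) ∣ X n - sg (e n) * u)
    (he0 : e 0 = false) (hcu : IsCoprime (q : ℤ) u) (hq3 : 3 ≤ q)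
    (hpar : (Q % 2 = 1 ∧ q = Q) ∨ (Q % 2 = 0 ∧ q = 2 * Q))
    (hQ : ∀ a b : ℤ, (q : ℤ) ∣ a - u → (q : ℤ) ∣ b - u → (q : ℤ) ^ 2 ∣ (a - b) * (a + b) →
      ((q * Q : ℕ) : ℤ) ∣ a - b) : Pl B X q Q r e u := by
  set y : ℤ → ℤ := fun n => sg (e n) * X n - B * D e n with hy
  have hqB : (q : ℤ) ∣ B := by rw [hB]; push_cast; exact dvd_mul_right _ _
  have hyu : ∀ n, (q : ℤ) ∣ y n - u := by
    intro n
    have e1 : y n - u = sg (e n) * (X n - sg (e n) * u) - B * D e n := by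
      simp only [hy]
      linear_combination u * sg_sq (e n)
    rw [e1]
    exact dvd_sub ((hres n).mul_left _) (hqB.mul_right _)
  have hyy : ∀ n m, (q : ℤ) ∣ y n - y m := by
    intro n m
    have := dvd_sub (hyu n) (hyu m)
    rwa [sub_sub_sub_cancel_right] at this
  have hquad := quad h e y (fun n => rfl)
  have hbr : ∀ (k : ℤ), (∀ n m, k ∣ y n - y m) → ∀ n,
      k ∣ sg (e (n + 1)) * (y (n + 1) - y n) - sg (e (n - 1)) * (y (n - 1) - y n) :=
    fun k hk n => dvd_sub ((hk _ _).mul_left _) ((hk _ _).mul_left _)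
  have hloc : ∀ n m, ((q * Q : ℕ) : ℤ) ∣ y n - y m := by
    intro n m
    apply hQ _ _ (hyu n) (hyu m)
    have e1 : (y n - y m) * (y n + y m) = B * ((sg (e (n + 1)) * (y (n + 1) - y n)
        - sg (e (n - 1)) * (y (n - 1) - y n)) - (sg (e (m + 1)) * (y (m + 1) - y m)
        - sg (e (m - 1)) * (y (m - 1) - y m))) + B * B * (hh e n - hh e m) := by
      have a1 := hquad n
      have a2 := hquad m
      linear_combination a1 - a2
    rw [e1, sq]
    apply dvd_add
    · exact mul_dvd_mul hqB (dvd_sub (hbr _ hyy n) (hbr _ hyy m))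
    · exact (mul_dvd_mul hqB hqB).mul_right _
  refine ⟨hB, hr, hres, hloc, ?_, he0, hcu, hq3, hpar⟩
  intro n m d hd
  change y n - y m = B * d at hd
  change _ ∣ 2 * y m * d - _
  have hB0 : (B : ℤ) ≠ 0 := by exact_mod_cast h.pos.ne'
  have e1 : B * (2 * y m * d - B * (hh e n - hh e m)) = B * (((sg (e (n + 1)) * (y (n + 1) - y n)
        - sg (e (n - 1)) * (y (n - 1) - y n)) - (sg (e (m + 1)) * (y (m + 1) - y m)
        - sg (e (m - 1)) * (y (m - 1) - y m))) - (y n - y m) * d) := by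
    have a1 := hquad n
    have a2 := hquad m
    have a3 : y n = y m + B * d := by linarith
    have a4 : (y m + B * d) ^ 2 = y n ^ 2 := by rw [a3]
    linear_combination a1 - a2 + a4 + (B * d) * hd
  have e2 := mul_left_cancel₀ hB0 e1
  rw [e2]
  exact dvd_sub (dvd_sub (hbr _ hloc n) (hbr _ hloc m)) ((hloc n m).mul_right _)

lemma prime_pow_dvd_or {p k : ℕ} (hp : p.Prime) {a b : ℤ} (h : ((p ^ k : ℕ) : ℤ) ∣ a * b)
    (hab : ¬ ((p : ℤ) ∣ a ∧ (p : ℤ) ∣ b)) : ((p ^ k : ℕ) : ℤ) ∣ a ∨ ((p ^ k : ℕ) : ℤ) ∣ b := by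
  have hp' : Prime (p : ℤ) := Nat.prime_iff_prime_int.1 hp
  by_cases ha : (p : ℤ) ∣ a
  · have hb : ¬ (p : ℤ) ∣ b := fun hb => hab ⟨ha, hb⟩
    left
    have hc : IsCoprime ((p ^ k : ℕ) : ℤ) b := by
      push_cast
      exact ((hp'.coprime_iff_not_dvd).2 hb).pow_left
    exact hc.dvd_of_dvd_mul_right h
  · right
    have hc : IsCoprime ((p ^ k : ℕ) : ℤ) a := by
      push_cast
      exact ((hp'.coprime_iff_not_dvd).2 ha).pow_left
    exact hc.dvd_of_dvd_mul_left h

/-- odd prime powers -/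
theorem exists_pl_odd {B : ℕ} {S : ℤ} {X : ℤ → ℤ} (h : IOrb B S X) {p k r : ℕ} (hp : p.Prime)
    (hp2 : p ≠ 2) (hk : k ≠ 0) (hB : B = p ^ k * r) (hr : Nat.Coprime (p ^ k) r) :
    ∃ e u, Pl B X (p ^ k) (p ^ k) r e u := by
  classical
  have hp' : Prime (p : ℤ) := Nat.prime_iff_prime_int.1 hp
  have hpq : (p : ℤ) ∣ ((p ^ k : ℕ) : ℤ) := by push_cast; exact dvd_pow_self _ hk
  have hqB : ((p ^ k : ℕ) : ℤ) ∣ B := by rw [hB]; push_cast; exact dvd_mul_right _ _
  have hpB : (p : ℤ) ∣ B := hpq.trans hqB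
  have hpX : ∀ n, ¬ (p : ℤ) ∣ X n := by
    intro n hd
    have := (h.cop n).isUnit_of_dvd' hd hpB
    exact hp'.not_isUnit this
  have hp2' : ¬ (p : ℤ) ∣ 2 := by
    intro hd
    have : p ∣ 2 := by exact_mod_cast hd
    exact hp2 ((Nat.prime_dvd_prime_iff_eq hp Nat.prime_two).1 this)
  refine ⟨fun n => decide (¬ ((p ^ k : ℕ) : ℤ) ∣ X n - X 0), X 0, ?_⟩
  have hpodd : p % 2 = 1 := (hp.eq_two_or_odd).resolve_left hp2
  have hp3 : 3 ≤ p := by
    have := hp.two_le
    omega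
  refine loc_aux h hB hr _ ?_ (by simp) ?_ (hp3.trans (Nat.le_self_pow hk p))
    (Or.inl ⟨by rw [Nat.pow_mod, hpodd]; simp, rfl⟩) ?_
  · intro n
    by_cases hd : ((p ^ k : ℕ) : ℤ) ∣ X n - X 0
    · simp only [hd, not_true_eq_false, decide_false, sg, Bool.false_eq_true, if_false, one_mul]
    · have h1 : ((p ^ k : ℕ) : ℤ) ∣ (X n - X 0) * (X n + X 0) := by
        have : (X n - X 0) * (X n + X 0) = B * ((X (n + 1) - X (n - 1)) - (X (0 + 1) - X (0 - 1))) := by
          have a1 := h.eq n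
          have a2 := h.eq 0
          linear_combination a2 - a1
        rw [this]
        exact hqB.mul_right _
      have h2 : ¬ ((p : ℤ) ∣ X n - X 0 ∧ (p : ℤ) ∣ X n + X 0) := by
        rintro ⟨d1, d2⟩
        have d3 := dvd_sub d2 d1
        have e1 : X n + X 0 - (X n - X 0) = 2 * X 0 := by ring
        rw [e1] at d3
        rcases hp'.dvd_or_dvd d3 with d4 | d4
        · exact hp2' d4
        · exact hpX 0 d4
      rcases prime_pow_dvd_or hp h1 h2 with h3 | h3
      · exact absurd h3 hd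
      · simp only [hd, not_false_eq_true, decide_true, sg, if_true]
        simpa using h3
  · push_cast
    exact ((hp'.coprime_iff_not_dvd).2 (hpX 0)).pow_left
  · intro a b ha hb hab
    have h1 : ¬ (p : ℤ) ∣ a + b := by
      intro hd
      have d1 := hpq.trans ha
      have d2 := hpq.trans hb
      have d3 := dvd_sub (dvd_sub hd d1) d2
      have e1 : a + b - (a - X 0) - (b - X 0) = 2 * X 0 := by ring
      rw [e1] at d3
      rcases hp'.dvd_or_dvd d3 with d4 | d4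
      · exact hp2' d4
      · exact hpX 0 d4
    have hc : IsCoprime (((p ^ k : ℕ) : ℤ) ^ 2) (a + b) := by
      push_cast
      exact (((hp'.coprime_iff_not_dvd).2 h1).pow_left).pow_left
    have := hc.dvd_of_dvd_mul_right hab
    rw [sq] at this
    exact_mod_cast this

/-- powers of two, at least `4` -/
theorem exists_pl_two {B : ℕ} {S : ℤ} {X : ℤ → ℤ} (h : IOrb B S X) {k r : ℕ} 
    (hB : B = 2 ^ (k + 2) * r) (hr : Nat.Coprime (2 ^ (k + 1)) r) :
    ∃ e u, Pl B X (2 ^ (k + 2)) (2 ^ (k + 1)) r e u := by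
  classical
  have hp' : Prime (2 : ℤ) := Int.prime_two
  have hqB : ((2 ^ (k + 2) : ℕ) : ℤ) ∣ B := by rw [hB]; push_cast; exact dvd_mul_right _ _
  have h2q : (2 : ℤ) ∣ ((2 ^ (k + 2) : ℕ) : ℤ) := by push_cast; exact dvd_pow_self _ (by omega)
  have hpB : (2 : ℤ) ∣ B := h2q.trans hqB
  have hpX : ∀ n, X n % 2 = 1 := by
    intro n
    rcases Int.emod_two_eq_zero_or_one (X n) with h0 | h0
    · have hd : (2 : ℤ) ∣ X n := Int.dvd_of_emod_eq_zero h0
      have := (h.cop n).isUnit_of_dvd' hd hpB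
      exact absurd this hp'.not_isUnit
    · exact h0
  refine ⟨fun n => decide (¬ ((2 ^ (k + 2) : ℕ) : ℤ) ∣ X n - X 0), X 0, ?_⟩
  have hk1 : 1 ≤ 2 ^ k := Nat.one_le_two_pow
  refine loc_aux h hB hr _ ?_ (by simp) ?_ (by rw [pow_add]; omega)
    (Or.inr ⟨by rw [pow_succ]; omega, by rw [pow_succ]; ring⟩) ?_
  · intro n
    by_cases hd : ((2 ^ (k + 2) : ℕ) : ℤ) ∣ X n - X 0
    · simp only [hd, not_true_eq_false, decide_false, sg, Bool.false_eq_true, if_false, one_mul]
    · obtain ⟨a, ha⟩ : ∃ a, X n - X 0 = 2 * a := by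
        have := hpX n; have := hpX 0
        exact ⟨(X n - X 0) / 2, by omega⟩
      obtain ⟨b, hb⟩ : ∃ b, X n + X 0 = 2 * b := by
        have := hpX n; have := hpX 0
        exact ⟨(X n + X 0) / 2, by omega⟩
      obtain ⟨t, ht⟩ : ∃ t, (X (n + 1) - X (n - 1)) - (X (0 + 1) - X (0 - 1)) = 2 * t := by
        have := hpX (n + 1); have := hpX (n - 1); have := hpX (0 + 1); have := hpX (0 - 1)
        exact ⟨((X (n + 1) - X (n - 1)) - (X (0 + 1) - X (0 - 1))) / 2, by omega⟩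
      have h1 : ((2 ^ (k + 1) : ℕ) : ℤ) ∣ a * b := by
        have e1 : (2 * a) * (2 * b) = B * (2 * t) := by
          have a1 := h.eq n
          have a2 := h.eq 0
          rw [← ha, ← hb, ← ht]
          linear_combination a2 - a1
        rw [hB] at e1
        refine ⟨r * t, ?_⟩
        have e2 : (4 : ℤ) * (a * b) = 4 * (((2 ^ (k + 1) : ℕ) : ℤ) * (r * t)) := by
          push_cast at e1 ⊢
          rw [pow_succ] at e1
          linear_combination e1
        exact mul_left_cancel₀ (by norm_num) e2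
      have h2 : ¬ (((2 : ℕ) : ℤ) ∣ a ∧ ((2 : ℕ) : ℤ) ∣ b) := by
        rintro ⟨d1, d2⟩
        have := hpX n
        omega
      rcases prime_pow_dvd_or Nat.prime_two h1 h2 with h3 | h3
      · exfalso
        apply hd
        rw [ha, pow_succ, mul_comm (2 ^ (k + 1))]
        push_cast
        push_cast at h3
        exact mul_dvd_mul_left _ h3
      · simp only [hd, not_false_eq_true, decide_true, sg, if_true]
        rw [show X n - -1 * X 0 = 2 * b by linarith, pow_succ, mul_comm (2 ^ (k + 1))]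
        push_cast
        push_cast at h3
        exact mul_dvd_mul_left _ h3
  · push_cast
    refine IsCoprime.pow_left ((hp'.coprime_iff_not_dvd).2 ?_)
    have := hpX 0
    omega
  · intro a b ha hb hab
    have h4 : (4 : ℤ) ∣ ((2 ^ (k + 2) : ℕ) : ℤ) := by
      push_cast
      rw [pow_add]
      exact ⟨2 ^ k, by ring⟩
    obtain ⟨v, hv⟩ : ∃ v, a + b = 2 * v := by
      have d1 := h4.trans ha
      have d2 := h4.trans hb
      exact ⟨(a + b) / 2, by omega⟩
    have hv2 : ¬ ((2 : ℤ)) ∣ v := by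
      have d1 := h4.trans ha
      have d2 := h4.trans hb
      have := hpX 0
      omega
    have hc : IsCoprime ((((2 ^ (k + 2) * 2 ^ (k + 1) : ℕ)) : ℤ)) v := by
      push_cast
      rw [← pow_add]
      exact ((hp'.coprime_iff_not_dvd).2 hv2).pow_left
    apply hc.dvd_of_dvd_mul_right
    obtain ⟨w, hw⟩ := hab
    refine ⟨w, ?_⟩
    rw [hv] at hw
    have e2 : (2 : ℤ) * ((a - b) * v) = 2 * (((2 ^ (k + 2) * 2 ^ (k + 1) : ℕ) : ℤ) * w) := by
      push_cast at hw ⊢
      rw [show k + 2 = (k + 1) + 1 by ring, pow_succ] at hw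
      rw [show k + 2 = (k + 1) + 1 by ring, pow_succ]
      linear_combination hw
    exact mul_left_cancel₀ (by norm_num) e2

end Pool.Agent.Henon88
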