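import Pool.Agent.Henon88.Dfs
import Pool.Agent.Henon88.Place

/-!
The entries attached to three consecutive letters, for three sign places.
-/

namespace Pool.Agent.Henon88

/-- a table of numbers below `2 ^ 32` -/
def tab (f : ℕ → ℕ) (n : ℕ) : ℕ :=
  Nat.rec 0 (fun c ih => Nat.add ih (Nat.mul (f c) (Nat.pow 2 (Nat.mul 32 c)))) n

def rd (T c : ℕ) : ℕ := Nat.mod (Nat.shiftRight T (Nat.mul 32 c)) 4294967296

lemma tab_lt {f : ℕ → ℕ} {n : ℕ} (hf : ∀ c < n, f c < 4294967296) :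
    tab f n < 2 ^ (32 * n) := by
  induction n with
  | zero => exact Nat.one_pos
  | succ n ih =>
    have h1 := ih fun c hc => hf c (by omega)
    have h2 := hf n (by omega)
    show tab f n + f n * 2 ^ (32 * n) < 2 ^ (32 * (n + 1))
    rw [mul_add, pow_add]
    norm_num
    nlinarith

lemma rd_tab {f : ℕ → ℕ} {n : ℕ} (hf : ∀ c < n, f c < 4294967296) {c : ℕ} (hc : c < n) :
    rd (tab f n) c = f c := by
  show (tab f n >>> (32 * c)) % 4294967296 = f c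
  rw [Nat.shiftRight_eq_div_pow]
  induction n with
  | zero => omega
  | succ n ih =>
    have e1 : tab f (n + 1) = tab f n + f n * 2 ^ (32 * n) := rfl
    rw [e1]
    rcases Nat.lt_succ_iff_lt_or_eq.1 hc with h | h
    · rw [← ih (fun c hc => hf c (by omega)) h]
      have h2 : f n * 2 ^ (32 * n) = 2 ^ (32 * c) * (4294967296 * (f n * 2 ^ (32 * (n - c - 1)))) := by
        have : 32 * n = 32 * c + (32 + 32 * (n - c - 1)) := by omega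
        rw [this, pow_add, pow_add]
        norm_num
        ring
      rw [h2, Nat.add_mul_div_left _ _ (by positivity), Nat.add_mul_mod_self_left]
    · subst h
      have h1 := tab_lt (f := f) (n := c) fun k hk => hf k (by omega)
      rw [Nat.add_mul_div_right _ _ (by positivity), Nat.div_eq_of_lt h1, zero_add]
      exact Nat.mod_eq_of_lt (hf c (by omega))

def tb (c k : ℕ) : Bool := Nat.beq (fl c (Nat.pow 2 k) 2) 1

def lt (a b c : Bool) : ℕ := a.toNat + 2 * b.toNat + 4 * c.toNat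

lemma lt_lt (a b c : Bool) : lt a b c < 8 := by revert a b c; decide

lemma lt_inj {a b c a' b' c' : Bool} (h : lt a b c = lt a' b' c') : a = a' ∧ b = b' ∧ c = c' := by
  revert a b c a' b' c'; decide

def dd (a b : Bool) : ℤ := bt a - bt b

def x3 (a b c : Bool) : Bool := xor (xor a b) c

/-- a function of nine Booleans as a function of the code -/
def ofCode (F : Bool → Bool → Bool → Bool → Bool → Bool → Bool → Bool → Bool → ℕ) (c : ℕ) : ℕ :=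
  F (tb c 0) (tb c 1) (tb c 2) (tb c 3) (tb c 4) (tb c 5) (tb c 6) (tb c 7) (tb c 8)

lemma tb_code : ∀ a0 a1 a2 s0 s1 s2 b0 b1 b2 : Bool,
    tb (lt a0 a1 a2 + 8 * lt s0 s1 s2 + 64 * lt b0 b1 b2) 0 = a0 ∧
    tb (lt a0 a1 a2 + 8 * lt s0 s1 s2 + 64 * lt b0 b1 b2) 1 = a1 ∧
    tb (lt a0 a1 a2 + 8 * lt s0 s1 s2 + 64 * lt b0 b1 b2) 2 = a2 ∧
    tb (lt a0 a1 a2 + 8 * lt s0 s1 s2 + 64 * lt b0 b1 b2) 3 = s0 ∧
    tb (lt a0 a1 a2 + 8 * lt s0 s1 s2 + 64 * lt b0 b1 b2) 4 = s1 ∧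
    tb (lt a0 a1 a2 + 8 * lt s0 s1 s2 + 64 * lt b0 b1 b2) 5 = s2 ∧
    tb (lt a0 a1 a2 + 8 * lt s0 s1 s2 + 64 * lt b0 b1 b2) 6 = b0 ∧
    tb (lt a0 a1 a2 + 8 * lt s0 s1 s2 + 64 * lt b0 b1 b2) 7 = b1 ∧
    tb (lt a0 a1 a2 + 8 * lt s0 s1 s2 + 64 * lt b0 b1 b2) 8 = b2 := by
  decide +kernel

lemma ofCode_code (F : Bool → Bool → Bool → Bool → Bool → Bool → Bool → Bool → Bool → ℕ)
    (a0 a1 a2 s0 s1 s2 b0 b1 b2 : Bool) :
    ofCode F (lt a0 a1 a2 + 8 * lt s0 s1 s2 + 64 * lt b0 b1 b2) = F a0 a1 a2 s0 s1 s2 b0 b1 b2 := by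
  unfold ofCode
  obtain ⟨h0, h1, h2, h3, h4, h5, h6, h7, h8⟩ := tb_code a0 a1 a2 s0 s1 s2 b0 b1 b2
  rw [h0, h1, h2, h3, h4, h5, h6, h7, h8]

/-- the entry, for `Q = 0` (third place strong) or `Q = 2, 3, 4` (third place weak) -/
def FA (Q : ℤ) (a0 a1 a2 s0 s1 s2 b0 b1 b2 : Bool) : ℕ :=
  let w1 := sg s0 * sg s1 * dd a1 b1 - dd a0 b0
  let w2 := sg s0 * sg s2 * dd a2 b2 - dd a0 b0
  let w3 := sg s1 * sg s2 * dd (x3 a0 a1 a2) (x3 b0 b1 b2) - dd a0 b0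
  (1 + 2 * bt (xor s0 s1) + 4 * bt (xor s0 s2) + 8 * (sg s1 * dd a1 b1 + 1)
    + 32 * (sg s2 * dd a2 b2 + 1) + 128 * (sg s0 * dd a0 b0 + 1)
    + 512 * (dd a1 b1) ^ 2 + 1024 * (dd a2 b2) ^ 2 + 2048 * (dd a0 b0) ^ 2
    + 4096 * (if Q = 0 then 0 else (sg s0 * sg s2 * w2) % (Q * Q)) + 65536 * (w2 + 2)
    + 524288 * (w3 + 2)
    + 4194304 * (w1 + 2 + 8 * (if Q = 0 then w2 + 2 else w2 % Q))).toNat

/-- the decoding of the entries -/
def DecA (Q : ℤ) : Prop := ∀ a0 a1 a2 s0 s1 s2 b0 b1 b2 : Bool,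
  let w1 := sg s0 * sg s1 * dd a1 b1 - dd a0 b0
  let w2 := sg s0 * sg s2 * dd a2 b2 - dd a0 b0
  let w3 := sg s1 * sg s2 * dd (x3 a0 a1 a2) (x3 b0 b1 b2) - dd a0 b0
  let e := FA Q a0 a1 a2 s0 s1 s2 b0 b1 b2
  e < 4294967296 ∧
  (fl e 2 4 : ℤ) = bt (xor s0 s1) + 2 * bt (xor s0 s2) ∧
  (fl e 8 4 : ℤ) = sg s1 * dd a1 b1 + 1 ∧
  (fl e 32 4 : ℤ) = sg s2 * dd a2 b2 + 1 ∧
  (fl e 128 4 : ℤ) = sg s0 * dd a0 b0 + 1 ∧
  (fl e 512 2 : ℤ) = (dd a1 b1) ^ 2 ∧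
  (fl e 1024 2 : ℤ) = (dd a2 b2) ^ 2 ∧
  (fl e 2048 2 : ℤ) = (dd a0 b0) ^ 2 ∧
  (fl e 4096 16 : ℤ) = (if Q = 0 then 0 else (sg s0 * sg s2 * w2) % (Q * Q)) ∧
  (fl e 65536 8 : ℤ) = w2 + 2 ∧
  (fl e 524288 8 : ℤ) = w3 + 2 ∧
  (fl e 4194304 8 : ℤ) = w1 + 2 ∧
  (fl e 4194304 64 : ℤ) = w1 + 2 + 8 * (if Q = 0 then w2 + 2 else w2 % Q)

instance (Q : ℤ) : Decidable (DecA Q) := by unfold DecA; infer_instance

set_option maxRecDepth 100000 in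
lemma decA0 : DecA 0 := by decide +kernel

set_option maxRecDepth 100000 in
lemma decA2 : DecA 2 := by decide +kernel

set_option maxRecDepth 100000 in
lemma decA3 : DecA 3 := by decide +kernel

set_option maxRecDepth 100000 in
lemma decA4 : DecA 4 := by decide +kernel

end Pool.Agent.Henon88
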