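import Pool.Agent.Henon88.Gen2

/-!
The extension in terms of the denominator of `c`.
-/

namespace Pool.Agent.Henon88

variable {B : ℕ} {X : ℤ → ℤ} {S : ℤ} {c : ℚ} {x : ℤ → ℚ}

/-- normalisation: it is enough to treat orbits with maximum at `0`, and `c < 0` -/
theorem good_of_norm (H : c < 0 → ∀ y : ℤ → ℚ, IsOrb c y → 0 < y 0 → (∀ n, |y n| ≤ y 0) → Good y)
    (h : IsOrb c x) : Good x := by
  obtain ⟨N, hN, hper⟩ := h.per
  by_cases hc : 0 ≤ c
  · refine good_of_mono hN hper fun n => ?_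
    have := h.step n
    have := sq_nonneg (x n)
    linarith
  · obtain ⟨m, hm⟩ := h.exists_max
    have hm0 : x m ≠ 0 := by
      intro h0
      apply hc
      have hz : ∀ n, x n = 0 := by
        intro n
        have := hm n
        rw [h0, abs_zero] at this
        exact abs_nonpos_iff.1 this
      have := h.step 0
      rw [hz, hz, hz] at this
      linarith
    have h' := h.shift m
    apply Good.shift (m := m)
    rcases lt_or_gt_of_ne hm0 with hneg | hpos
    · apply Good.rev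
      apply H (not_le.1 hc) _ h'.rev
      · show 0 < -x (-0 + m)
        rw [neg_zero, zero_add]
        linarith
      · intro n
        show |-x (-n + m)| ≤ -x (-0 + m)
        rw [neg_zero, zero_add, abs_neg, ← abs_of_neg hneg]
        exact hm _
    · apply H (not_le.1 hc) _ h'
      · show 0 < x (0 + m)
        rw [zero_add]; exact hpos
      · intro n
        show |x (n + m)| ≤ x (0 + m)
        rw [zero_add, ← abs_of_pos hpos]
        exact hm _

lemma Pl.gcd_eq {q Q r : ℕ} {e : ℤ → Bool} {u : ℤ} (P : Pl B X q Q r e u) :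
    q = Nat.gcd 2 q * Q := by
  rcases P.par with ⟨a, b⟩ | ⟨a, b⟩
  · have : Nat.gcd 2 q = 1 := by
      rw [b, Nat.gcd_rec, a]
      rfl
    rw [this, one_mul]
    exact b
  · have h2 : q % 2 = 0 := by omega
    have : Nat.gcd 2 q = 2 := by
      rw [Nat.gcd_rec, h2]
      rfl
    rw [this]
    exact b

/-- the place at a large prime power component -/
lemma big_place (hI : IOrb B S X) {q r K : ℕ} (hq : IsPrimePow q) (hB : B = q * r)
    (hco : Nat.Coprime q r) (hK : 2 ≤ K) (hle : K * Nat.gcd 2 q ≤ q) :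
    ∃ Q e u, Pl B X q Q r e u ∧ q = Nat.gcd 2 q * Q := by
  obtain ⟨p, k, hp, hk, rfl⟩ := (isPrimePow_nat_iff q).1 hq
  rcases comp_of hI hp hB hco with t | ⟨Q, e, u, P, -⟩
  · exfalso
    rcases t with t | t <;> rw [t] at hle <;> norm_num at hle <;> omega
  · exact ⟨Q, e, u, P, P.gcd_eq⟩

lemma comp_of' (hI : IOrb B S X) {q r : ℕ} (hq : q = 1 ∨ IsPrimePow q) (hB : B = q * r)
    (hco : Nat.Coprime q r) : Comp B X q r := by
  rcases hq with h1 | hq
  · left; left; exact h1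
  · obtain ⟨p, k, hp, hk, rfl⟩ := (isPrimePow_nat_iff q).1 hq
    exact comp_of hI hp hB hco

lemma eq_of_sq {a b : ℕ} (h : a ^ 2 = b ^ 2) : a = b := Nat.pow_left_injective (n := 2) (by norm_num) h

/-- `c ≤ -12`, one large component, one arbitrary component -/
theorem orb_II (h : IsOrb c x) {q₁ q₂ m : ℕ} (hden : c.den = (q₁ * q₂ * m) ^ 2)
    (hco : Nat.Coprime q₁ (q₂ * m)) (hco2 : Nat.Coprime q₂ m) (h1 : IsPrimePow q₁)
    (h2 : q₂ = 1 ∨ IsPrimePow q₂) (h5 : 5 * Nat.gcd 2 q₁ * m ≤ q₁) (hc : c ≤ -12) : Good x := by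
  refine good_of_norm (fun _ y hy h0 _ => ?_) h
  obtain ⟨B, S, X, hI, hx, -, hd⟩ := hy.exists_int
  have hB : B = q₁ * q₂ * m := eq_of_sq (by rw [← hd, hden])
  have hB1 : B = q₁ * (q₂ * m) := by rw [hB, mul_assoc]
  have hB2 : B = q₂ * (q₁ * m) := by rw [hB]; ring
  have hm : 0 < m := by
    rcases Nat.eq_zero_or_pos m with h0 | h0
    · exfalso
      have := hI.pos
      rw [hB, h0, mul_zero] at this
      omega
    · exact h0
  have hg : 0 < Nat.gcd 2 q₁ := Nat.gcd_pos_of_pos_left _ (by norm_num)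
  obtain ⟨Q, e, u, P, hQ⟩ := big_place hI h1 hB1 hco (K := 5) (by norm_num)
    ((Nat.le_mul_of_pos_right _ hm).trans h5)
  have hc2 : Nat.Coprime q₂ (q₁ * m) :=
    Nat.Coprime.mul_right (Nat.Coprime.coprime_mul_right_right hco).symm hco2
  have C2 := comp_of' hI h2 hB2 hc2
  refine caseII hy hI hx hc h0 hm ?_ (Nat.Coprime.coprime_mul_right_right hco) P C2
  have h6 : Nat.gcd 2 q₁ * (5 * m) ≤ Nat.gcd 2 q₁ * Q := by
    rw [← hQ]
    calc _ = 5 * Nat.gcd 2 q₁ * m := by ring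
      _ ≤ _ := h5
  exact Nat.le_of_mul_le_mul_left h6 hg

/-- large `|c|` -/
theorem orb_III (h : IsOrb c x) {q₁ q₂ m : ℕ} (hden : c.den = (q₁ * q₂ * m) ^ 2)
    (hco : Nat.Coprime q₁ (q₂ * m)) (hco2 : Nat.Coprime q₂ m) (a1 : Adm q₁) (a2 : Adm q₂)
    (hc : c ≤ -(81 * (m : ℚ) ^ 2)) : Good x := by
  refine good_of_norm (fun _ y hy h0 _ => ?_) h
  obtain ⟨B, S, X, hI, hx, -, hd⟩ := hy.exists_int
  have hB : B = q₁ * q₂ * m := eq_of_sq (by rw [← hd, hden])
  have hm : 0 < m := by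
    rcases Nat.eq_zero_or_pos m with h0 | h0
    · exfalso
      have := hI.pos
      rw [hB, h0, mul_zero] at this
      omega
    · exact h0
  exact caseIII hy hI hx h0 hm hB (Nat.Coprime.coprime_mul_right_right hco)
    (Nat.Coprime.mul_left (Nat.Coprime.coprime_mul_left_right hco) hco2) a1 a2 hc

/-- a large component and two admissible ones -/
theorem orb_IV (h : IsOrb c x) {q₀ q₁ q₂ m : ℕ} (hden : c.den = (q₀ * q₁ * q₂ * m) ^ 2)
    (hco : Nat.Coprime q₀ (q₁ * q₂ * m)) (hco1 : Nat.Coprime q₁ (q₂ * m))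
    (hco2 : Nat.Coprime q₂ m) (h0 : IsPrimePow q₀) (a1 : Adm q₁) (a2 : Adm q₂)
    (hq : (2 * Real.sqrt (1 - c) + 4) * Nat.gcd 2 q₀ * m < q₀) : Good x := by
  refine good_of_norm (fun hc y hy _ _ => ?_) h
  obtain ⟨B, S, X, hI, hx, -, hd⟩ := hy.exists_int
  have hB : B = q₀ * (q₁ * q₂ * m) := eq_of_sq (by rw [← hd, hden]; ring)
  have hm : 0 < m := by
    rcases Nat.eq_zero_or_pos m with h0 | h0
    · exfalso
      have := hI.pos
      rw [hB, h0, mul_zero, mul_zero] at this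
      omega
    · exact h0
  have hg : 0 < Nat.gcd 2 q₀ := Nat.gcd_pos_of_pos_left _ (by norm_num)
  have hm1 : (1 : ℝ) ≤ m := by exact_mod_cast hm
  have hg1 : (1 : ℝ) ≤ Nat.gcd 2 q₀ := by exact_mod_cast hg
  have hs : 0 ≤ Real.sqrt (1 - c) := Real.sqrt_nonneg _
  have hle : 2 * Nat.gcd 2 q₀ ≤ q₀ := by
    have h1 : (2 : ℝ) * Nat.gcd 2 q₀ ≤ q₀ := by
      have h2 : (2 : ℝ) * Nat.gcd 2 q₀ ≤ (2 * Real.sqrt (1 - c) + 4) * Nat.gcd 2 q₀ * m := by
        have h3 : (2 : ℝ) * Nat.gcd 2 q₀ ≤ (2 * Real.sqrt (1 - c) + 4) * Nat.gcd 2 q₀ :=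
          mul_le_mul_of_nonneg_right (by linarith) (by linarith)
        refine h3.trans (le_mul_of_one_le_right (by positivity) hm1)
      linarith
    exact_mod_cast h1
  obtain ⟨Q, e, u, P, hQ⟩ := big_place hI h0 hB hco (K := 2) le_rfl hle
  refine caseIV hy hI hx hc hm hB ?_ ?_ ?_ ?_ a1 a2 P ?_
  · exact Nat.Coprime.coprime_mul_right_right (Nat.Coprime.coprime_mul_right_right hco)
  · exact Nat.Coprime.coprime_mul_left_right (Nat.Coprime.coprime_mul_right_right hco)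
  · exact Nat.Coprime.coprime_mul_right_right hco1
  · exact Nat.Coprime.mul_left (Nat.Coprime.coprime_mul_left_right hco1) hco2
  · have h1 : (q₀ : ℝ) = (Nat.gcd 2 q₀ : ℝ) * Q := by exact_mod_cast hQ
    have hgp : (0 : ℝ) < Nat.gcd 2 q₀ := by linarith
    rw [h1] at hq
    refine lt_of_mul_lt_mul_left ?_ hgp.le
    calc (Nat.gcd 2 q₀ : ℝ) * ((2 * Real.sqrt (1 - c) + 4) * m)
        = (2 * Real.sqrt (1 - c) + 4) * Nat.gcd 2 q₀ * m := by ring
      _ < _ := hq

/-- all `c`, one large component and one admissible one -/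
theorem orb_U (h : IsOrb c x) {q₀ q₁ m : ℕ} (hden : c.den = (q₀ * q₁ * m) ^ 2)
    (hco : Nat.Coprime q₀ (q₁ * m)) (hco1 : Nat.Coprime q₁ m)
    (h0 : IsPrimePow q₀) (a1 : Adm q₁) (hq : 12 * Nat.gcd 2 q₀ * m ≤ q₀) : Good x := by
  have hm : 0 < m := by
    rcases Nat.eq_zero_or_pos m with h0 | h0
    · exfalso
      have := c.den_pos
      rw [hden, h0, mul_zero] at this
      norm_num at this
    · exact h0
  have hg : 0 < Nat.gcd 2 q₀ := Nat.gcd_pos_of_pos_left _ (by norm_num)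
  by_cases hc : c ≤ -12
  · refine orb_II h hden hco hco1 h0 ?_ ?_ hc
    · rcases a1 with a1 | a1
      · left; exact a1
      · right; exact a1.1
    · calc 5 * Nat.gcd 2 q₀ * m ≤ 12 * Nat.gcd 2 q₀ * m := by gcongr; norm_num
        _ ≤ _ := hq
  · refine orb_IV (q₂ := 1) (m := m) h (by rw [hden]; ring) (by simpa using hco) (by simpa using hco1)
      (Nat.coprime_one_left m) h0 a1 (Or.inl rfl) ?_
    have hc' : (-12 : ℝ) < c := by exact_mod_cast not_le.1 hc
    have h1 : Real.sqrt (1 - c) < 3.61 := by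
      rw [Real.sqrt_lt' (by norm_num)]
      norm_num
      linarith
    have h2 : (12 : ℝ) * Nat.gcd 2 q₀ * m ≤ q₀ := by exact_mod_cast hq
    have h3 : (0 : ℝ) < Nat.gcd 2 q₀ * m := by
      have : 0 < Nat.gcd 2 q₀ * m := Nat.mul_pos hg hm
      exact_mod_cast this
    nlinarith

end Pool.Agent.Henon88
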