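import Pool.Agent.Henon88.Main

/-!
Extension: denominators with a large prime power component, and large `|c|`.
-/

namespace Pool.Agent.Henon88

variable {B : ℕ} {X : ℤ → ℤ} {S : ℤ} {c : ℚ} {x : ℤ → ℚ}

lemma good_0 (h : IsOrb c x) (hI : IOrb B S X) (hx : ∀ n, x n = X n / B) {s : ℤ → Bool}
    (s0 : s 0 = false) (ha : ∀ n m, aa B X s n = aa B X s m) : Good x := by
  have ha' : ∀ n m, cl s s n = cl s s m → aa B X s n = aa B X s m := fun n m _ => ha n m
  have hw : ∀ n m, cl s s n = cl s s m → ww s s n = ww s s m :=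
    fun n m _ => by rw [ww_self, ww_self]
  exact good_of_semT h hx ha' ⟨s0, s0, hw, fun n m hc => hh_of_ww hI ha' hw n m hc⟩

lemma good_T (h : IsOrb c x) (hI : IOrb B S X) (hx : ∀ n, x n = X n / B) {s e : ℤ → Bool}
    (s0 : s 0 = false) {q Q r : ℕ} {u : ℤ} (P : Pl B X q Q r e u) (hQ : 5 ≤ Q)
    (ha : ∀ n m, cl s e n = cl s e m → aa B X s n = aa B X s m) : Good x := by
  have hw : ∀ n m, cl s e n = cl s e m → ww s e n = ww s e m :=
    fun n m hc => (P.strong hI.pos hQ s hc (ha n m hc)).1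
  exact good_of_semT h hx ha ⟨s0, P.start, hw, fun n m hc => hh_of_ww hI ha hw n m hc⟩

lemma good_A (h : IsOrb c x) (hI : IOrb B S X) (hx : ∀ n, x n = X n / B) {s e1 e2 : ℤ → Bool}
    (s0 : s 0 = false) {q1 q2 Q1 Q2 r1 r2 : ℕ} {u1 u2 : ℤ}
    (P1 : Pl B X q1 Q1 r1 e1 u1) (P2 : Pl B X q2 Q2 r2 e2 u2) (hQ1 : 5 ≤ Q1) (hQ2 : 5 ≤ Q2)
    (ha : ∀ n m, cl s e1 n = cl s e1 m → cl s e2 n = cl s e2 m → aa B X s n = aa B X s m)
    (hrr : ∀ n m, cl s e1 n = cl s e1 m → cl s e2 n = cl s e2 m → ww s e1 n = ww s e1 m →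
      ww s e2 n = ww s e2 m → hh s n = hh s m ∨
      |hh s n - hh s m| < |ww s (e3 s e1 e2) n - ww s (e3 s e1 e2) m|) : Good x := by
  refine good_of_rep h hx ha (rep_strong (l := 0) ⟨s0, P1.start, P2.start, ?_, ?_, ?_, ?_, hrr, ?_⟩)
  · exact fun n m h1 h2 => (P1.strong hI.pos hQ1 s h1 (ha n m h1 h2)).1
  · intro n m h1 h2
    rw [if_pos rfl]
    exact (P2.strong hI.pos hQ2 s h2 (ha n m h1 h2)).1
  · exact fun n m h1 h2 => (P1.strong hI.pos hQ1 s h1 (ha n m h1 h2)).2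
  · intro n m h1 h2
    rw [if_pos rfl]
    exact (P2.strong hI.pos hQ2 s h2 (ha n m h1 h2)).2
  · exact fun n m _ _ => abs_nonneg _

/-- exactness, real base, from one large component -/
lemma ex5 (hI : IOrb B S X) {s : ℤ → Bool} (W : Win B X s) {q1 Q1 v m : ℕ}
    {e1 : ℤ → Bool} {u1 : ℤ} (P1 : Pl B X q1 Q1 (v * m) e1 u1) (h5 : 5 * m ≤ Q1)
    (hco : Nat.Coprime Q1 v) {n k : ℤ} (hc : cl s e1 n = cl s e1 k)
    (hd : ((q1 * v : ℕ) : ℤ) ∣ aa B X s n - aa B X s k) : aa B X s n = aa B X s k := by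
  obtain ⟨z, hz⟩ := hd
  have hBz : (B : ℤ) = q1 * (v * m) := by rw [P1.hB]; push_cast; ring
  have hB0 : (0 : ℤ) < B := by exact_mod_cast hI.pos
  have hqv : (0 : ℤ) < ((q1 * v : ℕ) : ℤ) := by
    have : 0 < q1 * v := by
      rcases Nat.eq_zero_or_pos (q1 * v) with h0 | h0
      · exfalso
        have := hI.pos
        rw [P1.hB, ← mul_assoc, h0, zero_mul] at this
        omega
      · exact h0
    exact_mod_cast this
  have hq : (q1 : ℤ) ≠ 0 := by
    have := P1.q3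
    positivity
  have h1 := W.win n k
  rw [hz, abs_mul, abs_of_pos hqv, hBz] at h1
  have h2 : 1000 * |z| ≤ 989 * m := by
    have : ((q1 * v : ℕ) : ℤ) * (1000 * |z|) ≤ ((q1 * v : ℕ) : ℤ) * (989 * m) := by
      push_cast at h1 ⊢
      linarith
    exact le_of_mul_le_mul_left this hqv
  have h3 := P1.cong s hc
  have h4 : (aa B X s n - B * ww s e1 n) - (aa B X s k - B * ww s e1 k)
      = q1 * (v * (z - m * (ww s e1 n - ww s e1 k))) := by
    rw [hBz]
    push_cast at hz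
    linear_combination hz
  rw [h4] at h3
  push_cast at h3
  have h5' := Int.dvd_of_mul_dvd_mul_left hq h3
  have hcv : IsCoprime (Q1 : ℤ) (v : ℤ) := Nat.isCoprime_iff_coprime.2 hco
  have h6 := hcv.dvd_of_dvd_mul_left h5'
  have b1 := ww_bd' s e1 n
  have b2 := ww_bd' s e1 k
  have hm0 : (0 : ℤ) < m := by
    have : 0 < m := by
      rcases Nat.eq_zero_or_pos m with h0 | h0
      · exfalso
        have := hI.pos
        rw [P1.hB, h0, mul_zero, mul_zero] at this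
        omega
      · exact h0
    exact_mod_cast this
  set δ := ww s e1 n - ww s e1 k with hδ
  have hδ4 : |δ| ≤ 4 := by rw [abs_le]; omega
  have h7 : z - m * δ = 0 := by
    apply Int.eq_zero_of_abs_lt_dvd h6
    have h8 := abs_sub z (m * δ)
    rw [abs_mul, abs_of_pos hm0] at h8
    have h9 : (m : ℤ) * |δ| ≤ m * 4 := mul_le_mul_of_nonneg_left hδ4 hm0.le
    have h10 : (5 : ℤ) * m ≤ Q1 := by exact_mod_cast h5
    linarith
  have h8 : z = m * δ := by linarith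
  have h9 : δ = 0 := by
    rw [h8, abs_mul, abs_of_pos hm0] at h2
    have : (m : ℤ) * (1000 * |δ|) ≤ m * 989 := by linarith
    have h10 := le_of_mul_le_mul_left this hm0
    have h11 : |δ| < 1 := by linarith
    exact Int.abs_lt_one_iff.1 h11
  rw [h8, h9, mul_zero, mul_zero] at hz
  linarith

/-- the partner condition, general form -/
lemma partner' {s : ℤ → Bool} (W : Win B X s) {q1 q2 Q1 Q2 r1 r2 : ℕ}
    {e1 e2 : ℤ → Bool} {u1 u2 : ℤ}
    (P1 : Pl B X q1 Q1 r1 e1 u1) (P2 : Pl B X q2 Q2 r2 e2 u2) {n m : ℤ}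
    (h1 : cl s e1 n = cl s e1 m) (h2 : cl s e2 n ≠ cl s e2 m) :
    ∃ z : ℤ, aa B X s n - aa B X s m = q1 * z ∧ (Q1 : ℤ) ∣ z - r1 * (ww s e1 n - ww s e1 m) ∧
      z ≠ 0 ∧ 1000 * |z| ≤ 989 * r1 := by
  have hBz : (B : ℤ) = q1 * r1 := by rw [P1.hB]; push_cast; ring
  obtain ⟨z, hz⟩ := P1.cong_q s h1
  have hq1 : (0 : ℤ) < q1 := by
    have := P1.q3
    positivity
  refine ⟨z, hz, ?_, ?_, ?_⟩
  · have h3 := P1.cong s h1
    have h4 : (aa B X s n - B * ww s e1 n) - (aa B X s m - B * ww s e1 m)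
        = q1 * (z - r1 * (ww s e1 n - ww s e1 m)) := by
      rw [hBz]
      linear_combination hz
    rw [h4] at h3
    push_cast at h3
    exact Int.dvd_of_mul_dvd_mul_left hq1.ne' h3
  · intro h0
    apply P2.distinct s h2
    rw [hz, h0, mul_zero]
    exact dvd_zero _
  · have := W.win n m
    rw [hz, hBz, abs_mul, abs_of_pos hq1] at this
    have h5 : (q1 : ℤ) * (1000 * |z|) ≤ q1 * (989 * r1) := by linarith
    exact le_of_mul_le_mul_left h5 hq1

lemma even_z' (hI : IOrb B S X) {s : ℤ → Bool} {q1 : ℕ} (hB2 : 2 ∣ B) (hodd : q1 % 2 = 1)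
    {n m z : ℤ} (hz : aa B X s n - aa B X s m = q1 * z) : (2 : ℤ) ∣ z := by
  have h1 := hI.even_aa hB2 s n m
  rw [hz] at h1
  rcases Int.prime_two.dvd_or_dvd h1 with h3 | h3
  · omega
  · exact h3

/-- weak second place, general cofactor -/
theorem caseSW' (h : IsOrb c x) (hI : IOrb B S X) (hx : ∀ n, x n = X n / B) {s : ℤ → Bool}
    (W : Win B X s) {q1 q2 Q1 Q2 m : ℕ} (hm : 0 < m) (h5 : 5 * m ≤ Q1)
    (hco : Nat.Coprime q1 q2) {e1 e2 : ℤ → Bool} {u1 u2 : ℤ}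
    (P1 : Pl B X q1 Q1 (q2 * m) e1 u1) (P2 : Pl B X q2 Q2 (q1 * m) e2 u2)
    (ha : ∀ n m, cl s e1 n = cl s e1 m → cl s e2 n = cl s e2 m → aa B X s n = aa B X s m)
    (hQ2 : (q2 = 4 ∧ Q2 = 2) ∨ (q2 = 3 ∧ Q2 = 3) ∨ (q2 = 8 ∧ Q2 = 4)) :
    Good x := by
  have hQ1 : 5 ≤ Q1 := by omega
  have h2le : 2 ≤ Q2 := by omega
  obtain ⟨ω, hω1, hω2, hω⟩ := P2.weak hI.pos h2le s
  have hsem : ∀ WM : ℕ, (∀ n m, cl s e1 n = cl s e1 m → cl s e2 n ≠ cl s e2 m →
      (WM : ℤ) ≤ |ww s e1 n - ww s e1 m|) → SemA Q2 ((Q2 * ω : ℕ) : ℤ) WM s e1 e2 := by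
    intro WM hWM
    have hQ0 : ¬ ((Q2 : ℤ) = 0) := by
      have : Q2 ≠ 0 := by omega
      exact_mod_cast this
    refine ⟨W.s0, P1.start, P2.start, ?_, ?_, ?_, ?_, ?_, hWM⟩
    · exact fun n m h1 h2 => (P1.strong hI.pos hQ1 s h1 (ha n m h1 h2)).1
    · intro n m h1 h2
      rw [if_neg hQ0]
      exact emod_eq_of_dvd (P2.w_dvd hI.pos s h2 (ha n m h1 h2))
    · exact fun n m h1 h2 => (P1.strong hI.pos hQ1 s h1 (ha n m h1 h2)).2
    · intro n m h1 h2
      rw [if_neg hQ0]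
      exact emod_eq_of_dvd (hω n m h2 (ha n m h1 h2))
    · exact fun n m h1 h2 w1 w2 => rr_of hI ha W.win h1 h2 w1 w2
  refine good_of_rep h hx ha ?_
  have hmz : (1 : ℤ) ≤ m := by exact_mod_cast hm
  have h5z : 5 * (m : ℤ) ≤ Q1 := by exact_mod_cast h5
  have hodd : 2 ∣ q2 → (Q1 % 2 = 1 ∧ q1 % 2 = 1) ∧ 2 ∣ B := by
    intro h2
    have h3 := q_odd_of_coprime hco h2
    refine ⟨⟨?_, h3⟩, ?_⟩
    · rcases P1.par with ⟨a, _⟩ | ⟨a, b⟩
      · exact a
      · omega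
    · rw [P2.hB]; exact h2.mul_right _
  rcases hQ2 with ⟨hq, hQ⟩ | ⟨hq, hQ⟩ | ⟨hq, hQ⟩
  · -- q2 = 4
    subst hq hQ
    have hω' : ω = 1 := by
      interval_cases ω
      · simp at hω2
      · rfl
    have h0 := hsem 2 (fun n k h1 h2 => by
      obtain ⟨z, hz, hd, hz0, hzb⟩ := partner' W P1 P2 h1 h2
      obtain ⟨⟨ho, ho'⟩, hB2⟩ := hodd (by norm_num)
      obtain ⟨z', hz'⟩ := even_z' hI hB2 ho' hz
      by_contra hcon
      rw [not_le, abs_lt] at hcon
      obtain ⟨c1, c2⟩ := hcon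
      push_cast at hd c1 c2 hzb
      generalize ww s e1 n - ww s e1 k = d at hd c1 c2
      have hd1 : d = -1 ∨ d = 0 ∨ d = 1 := by omega
      have hzb2 : |z| < 4 * m := by linarith
      have hzb' := abs_lt.1 hzb2
      -- the half
      have hd2 : (Q1 : ℤ) ∣ z' - 2 * m * d := by
        have hc2 : IsCoprime (Q1 : ℤ) 2 := by
          have : Nat.Coprime Q1 2 := by rw [Nat.coprime_two_right, Nat.odd_iff]; exact ho
          exact_mod_cast Nat.isCoprime_iff_coprime.2 this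
        apply hc2.dvd_of_dvd_mul_left
        have e : 2 * (z' - 2 * m * d) = z - 4 * m * d := by rw [hz']; ring
        rw [e]; exact hd
      have hz0' : z' - 2 * m * d = 0 := by
        apply Int.eq_zero_of_abs_lt_dvd hd2
        rw [abs_lt]
        rcases hd1 with rfl | rfl | rfl <;> constructor <;> linarith [hzb'.1, hzb'.2]
      rcases hd1 with rfl | rfl | rfl
      · linarith [hzb'.1, hzb'.2]
      · apply hz0; linarith
      · linarith [hzb'.1, hzb'.2])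
    rw [hω'] at h0
    exact rep_weak2 h0
  · -- q2 = 3
    subst hq hQ
    have hω' : ω = 1 ∨ ω = 2 := by
      interval_cases ω
      · simp at hω2
      · left; rfl
      · right; rfl
    have h0 := hsem 1 (fun n k h1 h2 => by
      obtain ⟨z, hz, hd, hz0, hzb⟩ := partner' W P1 P2 h1 h2
      by_contra hcon
      rw [not_le, Nat.cast_one, Int.abs_lt_one_iff] at hcon
      rw [hcon, mul_zero, sub_zero] at hd
      apply hz0
      apply Int.eq_zero_of_abs_lt_dvd hd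
      push_cast at hzb
      linarith)
    rcases hω' with hω' | hω'
    · rw [hω'] at h0; exact rep_weak3 (Or.inl h0)
    · rw [hω'] at h0; exact rep_weak3 (Or.inr h0)
  · -- q2 = 8
    subst hq hQ
    have hω' : ω = 1 ∨ ω = 3 := by
      interval_cases ω
      · simp at hω2
      · left; rfl
      · exact absurd hω2 (by decide)
      · right; rfl
    have h0 := hsem 1 (fun n k h1 h2 => by
      obtain ⟨z, hz, hd, hz0, hzb⟩ := partner' W P1 P2 h1 h2
      obtain ⟨⟨ho, ho'⟩, hB2⟩ := hodd (by norm_num)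
      obtain ⟨z', hz'⟩ := even_z' hI hB2 ho' hz
      by_contra hcon
      rw [not_le, Nat.cast_one, Int.abs_lt_one_iff] at hcon
      rw [hcon, mul_zero, sub_zero] at hd
      push_cast at hzb
      have hzb' := abs_le.1 (show |z| ≤ 8 * m by linarith)
      have hd2 : (Q1 : ℤ) ∣ z' := by
        have hc2 : IsCoprime (Q1 : ℤ) 2 := by
          have : Nat.Coprime Q1 2 := by rw [Nat.coprime_two_right, Nat.odd_iff]; exact ho
          exact_mod_cast Nat.isCoprime_iff_coprime.2 this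
        apply hc2.dvd_of_dvd_mul_left
        rw [← hz']; exact hd
      apply hz0
      have : z' = 0 := by
        apply Int.eq_zero_of_abs_lt_dvd hd2
        rw [abs_lt]
        constructor <;> linarith [hzb'.1, hzb'.2]
      rw [hz', this]; norm_num)
    rcases hω' with hω' | hω'
    · rw [hω'] at h0; exact rep_weak4 (Or.inl h0)
    · rw [hω'] at h0; exact rep_weak4 (Or.inr h0)

/-- `c ≤ -12` with a large component -/
theorem caseII (h : IsOrb c x) (hI : IOrb B S X) (hx : ∀ n, x n = X n / B) (hc : c ≤ -12)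
    (h0 : 0 < x 0) {q1 q2 Q1 m : ℕ} (hm : 0 < m) (h5 : 5 * m ≤ Q1)
    (hco : Nat.Coprime q1 q2) {e1 : ℤ → Bool} {u1 : ℤ}
    (P1 : Pl B X q1 Q1 (q2 * m) e1 u1) (C2 : Comp B X q2 (q1 * m)) : Good x := by
  have W := real_place h hI hx hc h0
  have hcoQ : Nat.Coprime Q1 q2 := Nat.Coprime.coprime_dvd_right (dvd_mul_right q2 m) P1.hr
  have hQ1 : 5 ≤ Q1 := by omega
  rcases C2 with t2 | ⟨Q2, e2, u2, P2, -⟩
  · refine good_T h hI hx W.s0 P1 hQ1 fun n k hcl => ex5 hI W P1 h5 hcoQ hcl ?_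
    push_cast
    refine IsCoprime.mul_dvd (Nat.isCoprime_iff_coprime.2 hco) (P1.cong_q _ hcl) ?_
    exact hI.triv t2 ⟨q1 * m, by rw [P1.hB]; ring⟩ _ n k
  · have ha : ∀ n k, cl (fun n => decide (X n < 0)) e1 n = cl (fun n => decide (X n < 0)) e1 k →
        cl (fun n => decide (X n < 0)) e2 n = cl (fun n => decide (X n < 0)) e2 k →
        aa B X (fun n => decide (X n < 0)) n = aa B X (fun n => decide (X n < 0)) k := by
      intro n k h1 h2
      refine ex5 hI W P1 h5 hcoQ h1 ?_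
      push_cast
      exact IsCoprime.mul_dvd (Nat.isCoprime_iff_coprime.2 hco) (P1.cong_q _ h1) (P2.cong_q _ h2)
    rcases P2.cases with s2 | w2
    · exact good_A h hI hx W.s0 P1 P2 hQ1 s2 ha
        (fun n k h1 h2 w1 w2 => rr_of hI ha W.win h1 h2 w1 w2)
    · exact caseSW' h hI hx W hm h5 hco P1 P2 ha w2

end Pool.Agent.Henon88
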