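import Pool.Agent.Henon88.Gen

/-!
Large `|c|`, and a large prime power component as base.
-/

namespace Pool.Agent.Henon88

/-- the window for large `r` -/
lemma RO.window2 {y : ℤ → ℝ} {r : ℝ} (h : RO y r) (n : ℤ) :
    |(|y n| - D (fun k => decide (y k < 0)) n - r)| * r ≤ 4.32 := by
  have hr := h.r_ge
  have hw := h.window n
  have h1 := h.eq n
  have g0 := h.ge n
  have l0 := h.le_add_one n
  have gp := h.ge (n + 1)
  have lp := h.le_add_one (n + 1)
  have gm := h.ge (n - 1)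
  have lm := h.le_add_one (n - 1)
  have hsq := sq_abs (y n)
  set a := |y n| - D (fun k => decide (y k < 0)) n with ha
  -- the product formula
  have key : |(a - r) * (a + r)| ≤ 7.76 := by
    unfold D at ha
    rcases lt_or_gt_of_ne (h.ne (n + 1)) with p | p <;>
      rcases lt_or_gt_of_ne (h.ne (n - 1)) with q | q
    · rw [abs_of_neg p] at gp lp
      rw [abs_of_neg q] at gm lm
      simp only [p, q, decide_true, bt, if_true, sub_self, Int.cast_zero, sub_zero] at ha
      have e : (a - r) * (a + r) = y (n + 1) - y (n - 1) - 1 := by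
        rw [h1, ha]; linear_combination hsq
      rw [e, abs_le]
      constructor <;> linarith
    · rw [abs_of_neg p] at gp lp
      rw [abs_of_pos q] at gm lm
      have q' : ¬ y (n - 1) < 0 := not_lt.2 q.le
      simp only [p, q', decide_true, decide_false, bt, if_true, Bool.false_eq_true, if_false] at ha
      norm_num at ha
      have e : (a - r) * (a + r) = (y (n + 1) - y (n - 1) + 2 * r) + 2 * (|y n| - r) := by
        rw [h1, ha]; linear_combination hsq
      rw [e, abs_le]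
      constructor <;> linarith
    · rw [abs_of_pos p] at gp lp
      rw [abs_of_neg q] at gm lm
      have p' : ¬ y (n + 1) < 0 := not_lt.2 p.le
      simp only [p', q, decide_true, decide_false, bt, if_true, Bool.false_eq_true, if_false] at ha
      norm_num at ha
      have e : (a - r) * (a + r) = (y (n + 1) - y (n - 1) - 2 * r) - 2 * (|y n| - r) := by
        rw [h1, ha]; linear_combination hsq
      rw [e, abs_le]
      constructor <;> linarith
    · rw [abs_of_pos p] at gp lp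
      rw [abs_of_pos q] at gm lm
      have p' : ¬ y (n + 1) < 0 := not_lt.2 p.le
      have q' : ¬ y (n - 1) < 0 := not_lt.2 q.le
      simp only [p', q', decide_false, bt, Bool.false_eq_true, if_false, sub_self, Int.cast_zero,
        sub_zero] at ha
      have e : (a - r) * (a + r) = y (n + 1) - y (n - 1) - 1 := by
        rw [h1, ha]; linear_combination hsq
      rw [e, abs_le]
      constructor <;> linarith
  have hpos : 1.798 * r ≤ a + r := by linarith [hw.1]
  rw [abs_mul, abs_of_pos (by linarith : 0 < a + r)] at key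
  have h0 := abs_nonneg (a - r)
  have h2 : |a - r| * (1.798 * r) ≤ |a - r| * (a + r) := mul_le_mul_of_nonneg_left hpos h0
  nlinarith

variable {B : ℕ} {X : ℤ → ℤ} {S : ℤ} {c : ℚ} {x : ℤ → ℚ}

lemma base_real (h : IsOrb c x) (hI : IOrb B S X) (hx : ∀ n, x n = X n / B) (hc : c ≤ -12) :
    RO (fun n => (x n : ℝ)) (Real.sqrt (1 - c)) ∧
    (fun k => decide ((x k : ℝ) < 0)) = (fun n => decide (X n < 0)) ∧
    ∀ n, ((aa B X (fun n => decide (X n < 0)) n : ℤ) : ℝ)
      = B * (|(x n : ℝ)| - D (fun n => decide (X n < 0)) n) := by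
  have hBr : (0 : ℝ) < B := by exact_mod_cast hI.pos
  have hcr : (c : ℝ) ≤ -12 := by exact_mod_cast hc
  set r : ℝ := Real.sqrt (1 - c) with hr
  have hr2 : r ^ 2 = 1 - c := Real.sq_sqrt (by linarith)
  have hRO : RO (fun n => (x n : ℝ)) r := by
    refine ⟨Real.sqrt_nonneg _, by rw [hr2]; linarith, fun n => ?_, ?_⟩
    · have := h.step n
      have h2 : ((x (n + 1) : ℝ)) - x (n - 1) = (x n : ℝ) ^ 2 + c := by exact_mod_cast this
      rw [hr2]
      linarith
    · obtain ⟨m, hm⟩ := h.exists_max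
      refine ⟨m, fun n => ?_⟩
      have := hm n
      exact_mod_cast this
  have hsgn : ∀ n, (x n : ℝ) < 0 ↔ X n < 0 := by
    intro n
    have e : (x n : ℝ) = (X n : ℝ) / B := by
      rw [hx n]; push_cast; rfl
    rw [e, div_neg_iff]
    constructor
    · rintro (⟨_, h2⟩ | ⟨h1, _⟩)
      · linarith
      · exact_mod_cast h1
    · intro h1
      right
      exact ⟨by exact_mod_cast h1, hBr⟩
  have hs : (fun k => decide ((x k : ℝ) < 0)) = fun n => decide (X n < 0) := by
    funext k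
    simp only [hsgn]
  refine ⟨hRO, hs, ?_⟩
  set s : ℤ → Bool := fun n => decide (X n < 0) with hsdef
  intro n
  have e : (x n : ℝ) = (X n : ℝ) / B := by
    rw [hx n]; push_cast; rfl
  have e2 : ((sg (s n) * X n : ℤ) : ℝ) = B * |(x n : ℝ)| := by
    rw [e, abs_div, abs_of_pos hBr, mul_div_cancel₀ _ hBr.ne']
    rw [← Int.cast_abs]
    congr 1
    by_cases hn : X n < 0
    · rw [abs_of_neg hn]
      simp only [hsdef, hn, decide_true, sg, if_true]
      ring
    · rw [abs_of_nonneg (not_lt.1 hn)]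
      simp only [hsdef, hn, decide_false, sg, Bool.false_eq_true, if_false]
      ring
  unfold aa
  push_cast at e2 ⊢
  rw [e2]; ring

/-- exactness for large `|c|` -/
lemma ex_large (h : IsOrb c x) (hI : IOrb B S X) (hx : ∀ n, x n = X n / B) {v m : ℕ}
    (hm : 0 < m) (hB : B = v * m) (hc : c ≤ -(81 * (m : ℚ) ^ 2)) {n k : ℤ}
    (hd : (v : ℤ) ∣ aa B X (fun n => decide (X n < 0)) n - aa B X (fun n => decide (X n < 0)) k) :
    aa B X (fun n => decide (X n < 0)) n = aa B X (fun n => decide (X n < 0)) k := by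
  have hm1 : (1 : ℚ) ≤ m := by exact_mod_cast hm
  have hc12 : c ≤ -12 := by nlinarith
  obtain ⟨hRO, hs, haa⟩ := base_real h hI hx hc12
  set r : ℝ := Real.sqrt (1 - c) with hr
  have hcr : (c : ℝ) ≤ -(81 * (m : ℝ) ^ 2) := by exact_mod_cast hc
  have hr2 : r ^ 2 = 1 - c := Real.sq_sqrt (by
    have : (0 : ℝ) ≤ (m : ℝ) ^ 2 := sq_nonneg _
    linarith)
  have hrm : 9 * (m : ℝ) < r := by
    have h0 := hRO.r0
    have hm0 : (0 : ℝ) ≤ m := Nat.cast_nonneg _
    by_contra hcon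
    rw [not_lt] at hcon
    have : r ^ 2 ≤ (9 * (m : ℝ)) ^ 2 := pow_le_pow_left₀ h0 hcon 2
    nlinarith
  have w1 := hRO.window2 n
  have w2 := hRO.window2 k
  rw [hs] at w1 w2
  set s : ℤ → Bool := fun n => decide (X n < 0) with hsdef
  have hBr : (0 : ℝ) < B := by exact_mod_cast hI.pos
  have hv : (0 : ℝ) < v := by
    have : 0 < v := by
      rcases Nat.eq_zero_or_pos v with h0 | h0
      · exfalso
        have := hI.pos
        rw [hB, h0, zero_mul] at this
        omega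
      · exact h0
    exact_mod_cast this
  obtain ⟨z, hz⟩ := hd
  have hzr : ((aa B X s n : ℤ) : ℝ) - ((aa B X s k : ℤ) : ℝ) = v * (z : ℝ) := by
    exact_mod_cast hz
  have hBv : (B : ℝ) = v * m := by rw [hB]; push_cast; ring
  rw [haa, haa, ← mul_sub, hBv, mul_assoc] at hzr
  have hz2 := mul_left_cancel₀ hv.ne' hzr
  have h3 : |(z : ℝ)| * r ≤ 8.64 * m := by
    rw [← hz2, abs_mul, abs_of_nonneg (Nat.cast_nonneg m)]
    have h4 : |(|(x n : ℝ)| - (D s n : ℝ)) - (|(x k : ℝ)| - (D s k : ℝ))|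
        ≤ |(|(x n : ℝ)| - (D s n : ℝ) - r)| + |(|(x k : ℝ)| - (D s k : ℝ) - r)| := by
      have := abs_sub (|(x n : ℝ)| - (D s n : ℝ) - r) (|(x k : ℝ)| - (D s k : ℝ) - r)
      rwa [sub_sub_sub_cancel_right] at this
    have hr0 : 0 ≤ r := hRO.r0
    have h5 := mul_le_mul_of_nonneg_right h4 hr0
    have hm0 : (0 : ℝ) ≤ m := Nat.cast_nonneg _
    have h6 : |(|(x n : ℝ)| - (D s n : ℝ)) - (|(x k : ℝ)| - (D s k : ℝ))| * r ≤ 8.64 := by linarith
    have h7 := mul_le_mul_of_nonneg_left h6 hm0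
    linarith
  have h4 : |(z : ℝ)| < 1 := by
    by_contra hcon
    rw [not_lt] at hcon
    have hr0 : 0 ≤ r := hRO.r0
    have h5 := mul_le_mul_of_nonneg_right hcon hr0
    have hmp : (0 : ℝ) < m := by exact_mod_cast hm
    linarith
  have h5 : |z| < 1 := by exact_mod_cast h4
  have h6 := Int.abs_lt_one_iff.1 h5
  rw [h6, mul_zero] at hz
  linarith

/-- admissible prime powers -/
def Adm (q : ℕ) : Prop := q = 1 ∨ (IsPrimePow q ∧ q ≠ 2 ∧ q ≠ 3 ∧ q ≠ 4 ∧ q ≠ 8)

/-- an admissible component is trivial or strong -/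
lemma adm_cases (hI : IOrb B S X) {q r : ℕ} (ha : Adm q) (hB : B = q * r)
    (hco : Nat.Coprime q r) : q = 1 ∨ ∃ Q e u, Pl B X q Q r e u ∧ 5 ≤ Q := by
  rcases ha with h1 | ⟨hpp, h2, h3, h4, h8⟩
  · left; exact h1
  · obtain ⟨p, k, hp, hk, rfl⟩ := (isPrimePow_nat_iff q).1 hpp
    rcases comp_of hI hp hB hco with t | ⟨Q, e, u, P, -⟩
    · rcases t with t | t
      · left; exact t
      · exact absurd t h2
    · right
      refine ⟨Q, e, u, P, ?_⟩
      rcases P.cases with s | w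
      · exact s
      · omega

/-- `c` very negative compared with the cofactor of two components -/
theorem caseIII (h : IsOrb c x) (hI : IOrb B S X) (hx : ∀ n, x n = X n / B) (h0 : 0 < x 0)
    {q1 q2 m : ℕ} (hm : 0 < m) (hB : B = q1 * q2 * m) (h12 : Nat.Coprime q1 q2)
    (h12m : Nat.Coprime (q1 * q2) m) (a1 : Adm q1) (a2 : Adm q2)
    (hc : c ≤ -(81 * (m : ℚ) ^ 2)) : Good x := by
  have hm1 : (1 : ℚ) ≤ m := by exact_mod_cast hm
  have hc12 : c ≤ -12 := by nlinarith
  have W := real_place h hI hx hc12 h0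
  have c1 : Nat.Coprime q1 (q2 * m) :=
    Nat.Coprime.mul_right h12 (Nat.Coprime.coprime_mul_right h12m)
  have c2 : Nat.Coprime q2 (q1 * m) :=
    Nat.Coprime.mul_right h12.symm (Nat.Coprime.coprime_mul_left h12m)
  rcases adm_cases hI a1 (show B = q1 * (q2 * m) by rw [hB]; ring) c1 with t1 | ⟨Q1, e1, u1, P1, s1⟩
  · rcases adm_cases hI a2 (show B = q2 * (q1 * m) by rw [hB]; ring) c2 with
      t2 | ⟨Q2, e2, u2, P2, s2⟩
    · refine good_0 h hI hx W.s0 fun n k => ex_large h hI hx (v := 1) hm ?_ hc (by simp)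
      rw [hB, t1, t2]
    · refine good_T h hI hx W.s0 P2 s2 fun n k hcl =>
        ex_large h hI hx (v := q2) hm ?_ hc (P2.cong_q _ hcl)
      rw [hB, t1, one_mul]
  · rcases adm_cases hI a2 (show B = q2 * (q1 * m) by rw [hB]; ring) c2 with
      t2 | ⟨Q2, e2, u2, P2, s2⟩
    · refine good_T h hI hx W.s0 P1 s1 fun n k hcl =>
        ex_large h hI hx (v := q1) hm ?_ hc (P1.cong_q _ hcl)
      rw [hB, t2, mul_one]
    · have ha : ∀ n k, cl (fun n => decide (X n < 0)) e1 n = cl (fun n => decide (X n < 0)) e1 k →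
          cl (fun n => decide (X n < 0)) e2 n = cl (fun n => decide (X n < 0)) e2 k →
          aa B X (fun n => decide (X n < 0)) n = aa B X (fun n => decide (X n < 0)) k := by
        intro n k h1 h2
        refine ex_large h hI hx (v := q1 * q2) hm hB hc ?_
        push_cast
        exact IsCoprime.mul_dvd (Nat.isCoprime_iff_coprime.2 h12) (P1.cong_q _ h1) (P2.cong_q _ h2)
      exact good_A h hI hx W.s0 P1 P2 s1 s2 ha
        (fun n k h1 h2 w1 w2 => rr_of hI ha W.win h1 h2 w1 w2)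

/-! ### a large component as base -/

/-- bound of the orbit -/
lemma bd_sqrt (h : IsOrb c x) (hc : c < 0) (n : ℤ) : |(x n : ℝ)| ≤ 1 + Real.sqrt (1 - c) := by
  obtain ⟨m, hm⟩ := h.exists_max
  have hcr : (c : ℝ) < 0 := by exact_mod_cast hc
  set r : ℝ := Real.sqrt (1 - c) with hr
  have hr2 : r ^ 2 = 1 - c := Real.sq_sqrt (by linarith)
  have hr0 : 0 ≤ r := Real.sqrt_nonneg _
  have hle : ∀ k, |(x k : ℝ)| ≤ |(x m : ℝ)| := fun k => by
    have := hm k
    exact_mod_cast this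
  refine (hle n).trans ?_
  have h1 : ((x (m + 1) : ℝ)) - x (m - 1) = (x m : ℝ) ^ 2 + c := by exact_mod_cast h.step m
  have h2 := le_abs_self (x (m + 1) : ℝ)
  have h3 := neg_abs_le (x (m - 1) : ℝ)
  have h4 := hle (m + 1)
  have h5 := hle (m - 1)
  have h6 := sq_abs (x m : ℝ)
  by_contra hcon
  rw [not_le] at hcon
  nlinarith

/-- exactness with a large place as base -/
lemma ex_base (h : IsOrb c x) (hI : IOrb B S X) (hx : ∀ n, x n = X n / B) (hc : c < 0)
    {q0 v m Q0 : ℕ} {e0 : ℤ → Bool} {u0 : ℤ} (P0 : Pl B X q0 Q0 (v * m) e0 u0)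
    (hQ : (2 * Real.sqrt (1 - c) + 4) * m < Q0) {n k : ℤ}
    (hd : (v : ℤ) ∣ aa B X e0 n - aa B X e0 k) (hco : Nat.Coprime q0 v) :
    aa B X e0 n = aa B X e0 k := by
  have hB : (0 : ℤ) < B := by exact_mod_cast hI.pos
  have hBr : (0 : ℝ) < B := by exact_mod_cast hI.pos
  have hBz : (B : ℤ) = q0 * (v * m) := by rw [P0.hB]; push_cast; ring
  have hcc : cl e0 e0 n = cl e0 e0 k := by rw [cl_self, cl_self]
  have h1 : (((q0 * v : ℕ)) : ℤ) ∣ aa B X e0 n - aa B X e0 k := by
    push_cast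
    exact IsCoprime.mul_dvd (Nat.isCoprime_iff_coprime.2 hco) (P0.cong_q e0 hcc) hd
  obtain ⟨z, hz⟩ := h1
  have h2 := P0.cong e0 hcc
  rw [ww_self, ww_self, mul_zero, sub_zero, sub_zero, hz] at h2
  push_cast at h2
  rw [mul_assoc] at h2
  have hq : (q0 : ℤ) ≠ 0 := by
    have := P0.q3
    positivity
  have h3 := Int.dvd_of_mul_dvd_mul_left hq h2
  have hc3 : IsCoprime (Q0 : ℤ) (v : ℤ) := Nat.isCoprime_iff_coprime.2
    (Nat.Coprime.coprime_dvd_right (dvd_mul_right v m) P0.hr)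
  have h4 := hc3.dvd_of_dvd_mul_left h3
  have hqv : (0 : ℝ) < ((q0 * v : ℕ) : ℝ) := by
    have : 0 < q0 * v := by
      rcases Nat.eq_zero_or_pos (q0 * v) with h0 | h0
      · exfalso
        have := hI.pos
        rw [P0.hB, ← mul_assoc, h0, zero_mul] at this
        omega
      · exact h0
    exact_mod_cast this
  set M : ℝ := 1 + Real.sqrt (1 - c) with hM
  have h5 : |z| < Q0 := by
    have hX : ∀ j, |(X j : ℝ)| ≤ B * M := by
      intro j
      have a1 := bd_sqrt h hc j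
      have e : (x j : ℝ) = (X j : ℝ) / B := by
        rw [hx j]; push_cast; rfl
      rw [e, abs_div, abs_of_pos hBr, div_le_iff₀ hBr] at a1
      linarith
    have a1 := hX n
    have a2 := hX k
    have d1 : |(D e0 n : ℝ)| ≤ 1 := by exact_mod_cast D_bd e0 n
    have d2 : |(D e0 k : ℝ)| ≤ 1 := by exact_mod_cast D_bd e0 k
    have hs : ∀ b, |((sg b : ℤ) : ℝ)| = 1 := by intro b; cases b <;> simp [sg]
    have hzr : ((aa B X e0 n : ℤ) : ℝ) - ((aa B X e0 k : ℤ) : ℝ) = ((q0 * v : ℕ) : ℝ) * (z : ℝ) := by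
      exact_mod_cast hz
    have h6 : |((aa B X e0 n : ℤ) : ℝ) - ((aa B X e0 k : ℤ) : ℝ)| ≤ |(X n : ℝ)| + |(X k : ℝ)|
        + B * (|(D e0 n : ℝ)| + |(D e0 k : ℝ)|) := by
      have e : ((aa B X e0 n : ℤ) : ℝ) - ((aa B X e0 k : ℤ) : ℝ)
          = (((sg (e0 n) : ℤ) : ℝ) * X n - ((sg (e0 k) : ℤ) : ℝ) * X k)
          - (B * D e0 n - B * D e0 k) := by unfold aa; push_cast; ring
      rw [e]
      have b1 := abs_sub (((sg (e0 n) : ℤ) : ℝ) * X n - ((sg (e0 k) : ℤ) : ℝ) * X k)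
        ((B : ℝ) * D e0 n - B * D e0 k)
      have b2 := abs_sub (((sg (e0 n) : ℤ) : ℝ) * X n) (((sg (e0 k) : ℤ) : ℝ) * X k)
      have b3 := abs_sub ((B : ℝ) * D e0 n) (B * D e0 k)
      rw [abs_mul, abs_mul, hs, hs, one_mul, one_mul] at b2
      rw [abs_mul, abs_mul, abs_of_pos hBr] at b3
      linarith
    rw [hzr, abs_mul, abs_of_pos hqv] at h6
    have h7 : (B : ℝ) * (|(D e0 n : ℝ)| + |(D e0 k : ℝ)|) ≤ B * 2 :=
      mul_le_mul_of_nonneg_left (by linarith) hBr.le
    have hBm : (B : ℝ) = ((q0 * v : ℕ) : ℝ) * m := by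
      have : ((B : ℤ) : ℝ) = ((q0 * (v * m) : ℤ) : ℝ) := by rw [hBz]
      push_cast at this ⊢
      rw [this]; ring
    have h8 : ((q0 * v : ℕ) : ℝ) * |(z : ℝ)| ≤ ((q0 * v : ℕ) : ℝ) * (m * (2 * M + 2)) := by
      have : |(X n : ℝ)| + |(X k : ℝ)| + B * 2 ≤ B * (2 * M + 2) := by linarith
      calc ((q0 * v : ℕ) : ℝ) * |(z : ℝ)| ≤ B * (2 * M + 2) := by linarith
        _ = _ := by rw [hBm]; ring
    have h9 := le_of_mul_le_mul_left h8 hqv
    have h10 : |(z : ℝ)| < Q0 := by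
      have : (m : ℝ) * (2 * M + 2) = (2 * Real.sqrt (1 - c) + 4) * m := by rw [hM]; ring
      linarith
    exact_mod_cast h10
  have h6 := Int.eq_zero_of_abs_lt_dvd h4 h5
  rw [h6, mul_zero] at hz
  linarith

/-- a large component and two admissible ones -/
theorem caseIV (h : IsOrb c x) (hI : IOrb B S X) (hx : ∀ n, x n = X n / B) (hc : c < 0)
    {q0 q1 q2 m Q0 : ℕ} (hm : 0 < m) (hB : B = q0 * (q1 * q2 * m))
    (h01 : Nat.Coprime q0 q1) (h02 : Nat.Coprime q0 q2) (h12 : Nat.Coprime q1 q2)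
    (h12m : Nat.Coprime (q1 * q2) m) (a1 : Adm q1) (a2 : Adm q2)
    {e0 : ℤ → Bool} {u0 : ℤ} (P0 : Pl B X q0 Q0 (q1 * q2 * m) e0 u0)
    (hQ : (2 * Real.sqrt (1 - c) + 4) * m < Q0) : Good x := by
  have hcr : (c : ℝ) < 0 := by exact_mod_cast hc
  have hQ5 : 5 ≤ Q0 := by
    have h1 : 1 ≤ Real.sqrt (1 - c) := by
      rw [Real.one_le_sqrt]; linarith
    have h2 : (1 : ℝ) ≤ m := by exact_mod_cast hm
    have h3 : (5 : ℝ) < Q0 := by nlinarith
    have : (5 : ℕ) < Q0 := by exact_mod_cast h3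
    omega
  have hh0 : ∀ n k, aa B X e0 n = aa B X e0 k → hh e0 n = hh e0 k := fun n k ha =>
    (P0.strong hI.pos hQ5 e0 (by rw [cl_self, cl_self]) ha).2
  have c1 : Nat.Coprime q1 (q0 * (q2 * m)) :=
    Nat.Coprime.mul_right h01.symm (Nat.Coprime.mul_right h12 (Nat.Coprime.coprime_mul_right h12m))
  have c2 : Nat.Coprime q2 (q0 * (q1 * m)) :=
    Nat.Coprime.mul_right h02.symm
      (Nat.Coprime.mul_right h12.symm (Nat.Coprime.coprime_mul_left h12m))
  have hB1 : B = q1 * (q0 * (q2 * m)) := by rw [hB]; ring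
  have hB2 : B = q2 * (q0 * (q1 * m)) := by rw [hB]; ring
  have hcov : Nat.Coprime q0 (q1 * q2) := Nat.Coprime.mul_right h01 h02
  rcases adm_cases hI a1 hB1 c1 with t1 | ⟨Q1, e1, u1, P1, s1⟩
  · rcases adm_cases hI a2 hB2 c2 with t2 | ⟨Q2, e2, u2, P2, s2⟩
    · refine good_0 h hI hx P0.start fun n k => ex_base h hI hx hc P0 hQ ?_ hcov
      rw [t1, t2]; simp
    · refine good_T h hI hx P0.start P2 s2 fun n k hcl => ex_base h hI hx hc P0 hQ ?_ hcov
      rw [t1, one_mul]
      exact P2.cong_q _ hcl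
  · rcases adm_cases hI a2 hB2 c2 with t2 | ⟨Q2, e2, u2, P2, s2⟩
    · refine good_T h hI hx P0.start P1 s1 fun n k hcl => ex_base h hI hx hc P0 hQ ?_ hcov
      rw [t2, mul_one]
      exact P1.cong_q _ hcl
    · have ha : ∀ n k, cl e0 e1 n = cl e0 e1 k → cl e0 e2 n = cl e0 e2 k →
          aa B X e0 n = aa B X e0 k := by
        intro n k h1 h2
        refine ex_base h hI hx hc P0 hQ ?_ hcov
        push_cast
        exact IsCoprime.mul_dvd (Nat.isCoprime_iff_coprime.2 h12) (P1.cong_q _ h1) (P2.cong_q _ h2)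
      exact good_A h hI hx P0.start P1 P2 s1 s2 ha
        (fun n k h1 h2 _ _ => Or.inl (hh0 n k (ha n k h1 h2)))

end Pool.Agent.Henon88
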