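import Pool.Agent.Henon88.SemA

/-!
Consequences of the local structure, relative to a base sign sequence `s`.
-/

namespace Pool.Agent.Henon88

/-- normalised numerators -/
def aa (B : ℕ) (X : ℤ → ℤ) (s : ℤ → Bool) (n : ℤ) : ℤ := sg (s n) * X n - B * D s n

lemma ww_bd' (s e : ℤ → Bool) (n : ℤ) : -2 ≤ ww s e n ∧ ww s e n ≤ 2 := by
  unfold ww D
  generalize s n = a
  generalize e n = b
  generalize s (n - 1) = c
  generalize s (n + 1) = d
  generalize e (n - 1) = f
  generalize e (n + 1) = g
  revert a b c d f g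
  decide

variable {B : ℕ} {X : ℤ → ℤ} {S : ℤ} {q Q r : ℕ} {e : ℤ → Bool} {u : ℤ}

lemma cl_sg {s e : ℤ → Bool} {n m : ℤ} (h : cl s e n = cl s e m) :
    sg (s n) * sg (e n) = sg (s m) * sg (e m) := by
  rw [← sg_xor, ← sg_xor]
  unfold cl at h
  rw [h]

lemma aa_sub_ww (s : ℤ → Bool) (n : ℤ) :
    aa B X s n - B * ww s e n = sg (s n) * sg (e n) * (sg (e n) * X n - B * D e n) := by
  unfold aa ww
  linear_combination -(sg (s n) * X n) * sg_sq (e n)

/-- the basic congruence between indices with the same relative sign -/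
lemma Pl.cong (P : Pl B X q Q r e u) (s : ℤ → Bool) {n m : ℤ} (h : cl s e n = cl s e m) :
    ((q * Q : ℕ) : ℤ) ∣ (aa B X s n - B * ww s e n) - (aa B X s m - B * ww s e m) := by
  rw [aa_sub_ww, aa_sub_ww, cl_sg h, ← mul_sub]
  exact (P.loc n m).mul_left _

lemma Pl.q_dvd_B (P : Pl B X q Q r e u) : (q : ℤ) ∣ B := by
  rw [P.hB]; push_cast; exact dvd_mul_right _ _

lemma Pl.cong_q (P : Pl B X q Q r e u) (s : ℤ → Bool) {n m : ℤ} (h : cl s e n = cl s e m) :
    (q : ℤ) ∣ aa B X s n - aa B X s m := by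
  have h1 := P.cong s h
  have h2 : (q : ℤ) ∣ (aa B X s n - B * ww s e n) - (aa B X s m - B * ww s e m) := by
    refine dvd_trans ?_ h1
    push_cast; exact dvd_mul_right _ _
  have h3 : aa B X s n - aa B X s m = ((aa B X s n - B * ww s e n) - (aa B X s m - B * ww s e m))
      + B * (ww s e n - ww s e m) := by ring
  rw [h3]
  exact dvd_add h2 (P.q_dvd_B.mul_right _)

/-- residue of the normalised numerators -/
lemma Pl.res_aa (P : Pl B X q Q r e u) (s : ℤ → Bool) (n : ℤ) :
    (q : ℤ) ∣ aa B X s n - sg (s n) * sg (e n) * u := by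
  have h1 := P.res n
  have h2 : aa B X s n - sg (s n) * sg (e n) * u
      = sg (s n) * (X n - sg (e n) * u) - B * D s n := by unfold aa; ring
  rw [h2]
  exact dvd_sub (h1.mul_left _) (P.q_dvd_B.mul_right _)

lemma Pl.distinct (P : Pl B X q Q r e u) (s : ℤ → Bool) {n m : ℤ} (h : cl s e n ≠ cl s e m) :
    ¬ (q : ℤ) ∣ aa B X s n - aa B X s m := by
  intro hd
  have h1 := P.res_aa s n
  have h2 := P.res_aa s m
  have h3 : sg (s n) * sg (e n) = -(sg (s m) * sg (e m)) := by
    rw [← sg_xor, ← sg_xor]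
    unfold cl at h
    revert h
    generalize xor (s n) (e n) = a
    generalize xor (s m) (e m) = b
    revert a b; decide
  have h4 : (q : ℤ) ∣ 2 * (sg (s n) * sg (e n) * u) := by
    have h5 : 2 * (sg (s n) * sg (e n) * u) = (aa B X s n - aa B X s m)
        - (aa B X s n - sg (s n) * sg (e n) * u) + (aa B X s m - sg (s m) * sg (e m) * u) := by
      rw [h3]; ring
    rw [h5]
    exact dvd_add (dvd_sub hd h1) h2
  apply P.ntriv
  have h5 : 2 * u = (sg (s n) * sg (e n)) * (2 * (sg (s n) * sg (e n) * u)) := by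
    have : (sg (s n) * sg (e n)) * (sg (s n) * sg (e n)) = 1 := by
      rw [← sg_xor]; exact sg_sq _
    linear_combination -(2 * u) * this
  rw [h5]
  exact h4.mul_left _

/-- equal numerators: the relation between the `ww` -/
lemma Pl.w_dvd (P : Pl B X q Q r e u) (hB : 0 < B) (s : ℤ → Bool) {n m : ℤ}
    (h : cl s e n = cl s e m) (ha : aa B X s n = aa B X s m) : (Q : ℤ) ∣ ww s e n - ww s e m := by
  have h1 := P.cong s h
  rw [ha] at h1
  have h2 : (aa B X s m - B * ww s e n) - (aa B X s m - B * ww s e m)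
      = -(B * (ww s e n - ww s e m)) := by ring
  rw [h2, dvd_neg, P.hB] at h1
  push_cast at h1
  rw [mul_assoc] at h1
  have hq : (q : ℤ) ≠ 0 := by
    have := P.q3
    positivity
  have h3 := Int.dvd_of_mul_dvd_mul_left hq h1
  have hc : IsCoprime (Q : ℤ) (r : ℤ) := by
    exact_mod_cast Nat.isCoprime_iff_coprime.2 P.hr
  exact hc.dvd_of_dvd_mul_left h3

lemma Pl.sec_w (P : Pl B X q Q r e u) (s : ℤ → Bool) {n m : ℤ}
    (h : cl s e n = cl s e m) (ha : aa B X s n = aa B X s m) :
    ((q * Q : ℕ) : ℤ) ∣ 2 * (sg (e m) * X m - B * D e m)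
      * (sg (s n) * sg (e n) * (ww s e n - ww s e m)) + B * (hh e n - hh e m) := by
  have h1 := aa_sub_ww (B := B) (X := X) (e := e) s n
  have h2 := aa_sub_ww (B := B) (X := X) (e := e) s m
  have hk := cl_sg h
  have hkk : (sg (s n) * sg (e n)) * (sg (s n) * sg (e n)) = 1 := by
    rw [← sg_xor]; exact sg_sq _
  rw [← hk] at h2
  have h3 := P.sec n m (-(sg (s n) * sg (e n) * (ww s e n - ww s e m))) (by
    have h4 : sg (s n) * sg (e n) * ((sg (e n) * X n - B * D e n) - (sg (e m) * X m - B * D e m))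
        = -(B * (ww s e n - ww s e m)) := by
      rw [mul_sub, ← h1, ← h2, ha]; ring
    linear_combination (sg (s n) * sg (e n)) * h4
      - ((sg (e n) * X n - B * D e n) - (sg (e m) * X m - B * D e m)) * hkk)
  rw [← dvd_neg] at h3
  have h5 : 2 * (sg (e m) * X m - B * D e m)
      * (sg (s n) * sg (e n) * (ww s e n - ww s e m)) + B * (hh e n - hh e m)
      = -(2 * (sg (e m) * X m - B * D e m) * -(sg (s n) * sg (e n) * (ww s e n - ww s e m))
        - B * (hh e n - hh e m)) := by ring
  rw [h5]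
  exact h3

/-- strong places: everything is exact -/
lemma Pl.strong (P : Pl B X q Q r e u) (hB : 0 < B) (hQ : 5 ≤ Q) (s : ℤ → Bool) {n m : ℤ}
    (h : cl s e n = cl s e m) (ha : aa B X s n = aa B X s m) :
    ww s e n = ww s e m ∧ hh e n = hh e m := by
  have w : ww s e n = ww s e m := by
    have h1 := P.w_dvd hB s h ha
    have b1 := ww_bd' s e n
    have b2 := ww_bd' s e m
    have : ww s e n - ww s e m = 0 := by
      apply Int.eq_zero_of_abs_lt_dvd h1
      rw [abs_lt]
      constructor <;> omega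
    omega
  refine ⟨w, ?_⟩
  have h1 := P.sec_w s h ha
  rw [w, sub_self, mul_zero, mul_zero, zero_add, P.hB] at h1
  push_cast at h1
  rw [mul_assoc] at h1
  have hq : (q : ℤ) ≠ 0 := by
    have := P.q3
    positivity
  have h3 := Int.dvd_of_mul_dvd_mul_left hq h1
  have hc : IsCoprime (Q : ℤ) (r : ℤ) := by
    exact_mod_cast Nat.isCoprime_iff_coprime.2 P.hr
  have h4 := hc.dvd_of_dvd_mul_left h3
  have b1 := hh_bd e n
  have b2 := hh_bd e m
  have : hh e n - hh e m = 0 := by
    apply Int.eq_zero_of_abs_lt_dvd h4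
    rw [abs_lt]
    constructor <;> omega
  omega

/-- weak places: the second order congruence -/
lemma Pl.weak (P : Pl B X q Q r e u) (hB : 0 < B) (hQ : 2 ≤ Q) (s : ℤ → Bool) :
    ∃ ω : ℕ, ω < Q ∧ Nat.Coprime Q ω ∧ ∀ n m : ℤ, cl s e n = cl s e m →
      aa B X s n = aa B X s m →
      ((Q : ℤ) * Q) ∣ (sg (s n) * sg (e n) * ww s e n + (Q * ω : ℕ) * hh e n)
        - (sg (s m) * sg (e m) * ww s e m + (Q * ω : ℕ) * hh e m) := by
  have hq0 : (q : ℤ) ≠ 0 := by
    have := P.q3
    positivity
  have hQ0 : (Q : ℤ) ≠ 0 := by positivity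
  have hcr : IsCoprime (Q : ℤ) (r : ℤ) := by
    exact_mod_cast Nat.isCoprime_iff_coprime.2 P.hr
  have hcuQ : IsCoprime (Q : ℤ) u := by
    rcases P.par with ⟨_, h1⟩ | ⟨_, h1⟩
    · have := P.cu; rwa [h1] at this
    · have := P.cu
      rw [h1] at this
      push_cast at this
      exact this.of_mul_left_right
  -- the unit `v` and the relation `Q ∣ v * t`
  obtain ⟨v, hv, hrel⟩ : ∃ v : ℤ, IsCoprime (Q : ℤ) v ∧ ∀ n m : ℤ, cl s e n = cl s e m →
      aa B X s n = aa B X s m → ∀ j : ℤ, ww s e n - ww s e m = Q * j →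
      (Q : ℤ) ∣ v * (sg (s n) * sg (e n) * j) + r * (hh e n - hh e m) := by
    rcases P.par with ⟨hodd, h1⟩ | ⟨heven, h1⟩
    · refine ⟨2 * u, ?_, ?_⟩
      · refine IsCoprime.mul_right ?_ hcuQ
        have : Nat.Coprime Q 2 := by
          rw [Nat.coprime_two_right, Nat.odd_iff]
          exact hodd
        exact_mod_cast Nat.isCoprime_iff_coprime.2 this
      · intro n m h ha j hj
        have h2 := P.sec_w s h ha
        have hy : ((q : ℤ)) ∣ (sg (e m) * X m - B * D e m) - u := by
          have e1 : (sg (e m) * X m - B * D e m) - u = sg (e m) * (X m - sg (e m) * u)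
              - B * D e m := by linear_combination u * sg_sq (e m)
          rw [e1]
          exact dvd_sub ((P.res m).mul_left _) (P.q_dvd_B.mul_right _)
        generalize sg (e m) * X m - B * D e m = y at h2 hy
        rw [hj, h1, P.hB, h1] at h2
        push_cast at h2
        have h3 : (Q : ℤ) * Q ∣ Q * (2 * y * (sg (s n) * sg (e n) * j) + r * (hh e n - hh e m)) := by
          convert h2 using 1; ring
        have h4 := Int.dvd_of_mul_dvd_mul_left hQ0 h3
        rw [h1] at hy
        have h5 : 2 * u * (sg (s n) * sg (e n) * j) + r * (hh e n - hh e m)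
            = (2 * y * (sg (s n) * sg (e n) * j) + r * (hh e n - hh e m))
              - (y - u) * (2 * (sg (s n) * sg (e n) * j)) := by ring
        rw [h5]
        exact dvd_sub h4 (hy.mul_right _)
    · refine ⟨u, hcuQ, ?_⟩
      intro n m h ha j hj
      have h2 := P.sec_w s h ha
      have hy : ((q : ℤ)) ∣ (sg (e m) * X m - B * D e m) - u := by
        have e1 : (sg (e m) * X m - B * D e m) - u = sg (e m) * (X m - sg (e m) * u)
            - B * D e m := by linear_combination u * sg_sq (e m)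
        rw [e1]
        exact dvd_sub ((P.res m).mul_left _) (P.q_dvd_B.mul_right _)
      generalize sg (e m) * X m - B * D e m = y at h2 hy
      rw [hj, P.hB, h1] at h2
      push_cast at h2
      have h3 : (2 * (Q : ℤ)) * Q ∣ (2 * Q) * (y * (sg (s n) * sg (e n) * j)
          + r * (hh e n - hh e m)) := by
        convert h2 using 1; ring
      have h4 := Int.dvd_of_mul_dvd_mul_left (by positivity) h3
      have hy' : (Q : ℤ) ∣ y - u := by
        refine dvd_trans ?_ hy
        rw [h1]; push_cast; exact dvd_mul_left _ _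
      have h5 : u * (sg (s n) * sg (e n) * j) + r * (hh e n - hh e m)
          = (y * (sg (s n) * sg (e n) * j) + r * (hh e n - hh e m))
            - (y - u) * (sg (s n) * sg (e n) * j) := by ring
      rw [h5]
      exact dvd_sub h4 (hy'.mul_right _)
  -- the unit `ω`
  obtain ⟨a, b, hab⟩ := hv
  have hω0 : 0 ≤ (b * r) % (Q : ℤ) := Int.emod_nonneg _ hQ0
  have hω1 : (b * r) % (Q : ℤ) < Q := Int.emod_lt_of_pos _ (by positivity)
  refine ⟨((b * r) % (Q : ℤ)).toNat, ?_, ?_, ?_⟩
  · omega
  · rw [← Nat.isCoprime_iff_coprime, Int.toNat_of_nonneg hω0]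
    have hb : IsCoprime (Q : ℤ) b := ⟨a, v, by linarith⟩
    have h1 : IsCoprime (Q : ℤ) (b * r) := hb.mul_right hcr
    have h2 := Int.emod_add_mul_ediv (b * r) Q
    have h3 : b * r % (Q : ℤ) = b * r + Q * (-(b * r / Q)) := by linarith
    rw [h3]
    exact h1.add_mul_left_right _
  · intro n m h ha
    obtain ⟨j, hj⟩ := P.w_dvd hB s h ha
    have h1 := hrel n m h ha j hj
    have hk := cl_sg h
    have e1 : (sg (s n) * sg (e n) * ww s e n + ((Q * ((b * r) % (Q : ℤ)).toNat : ℕ) : ℤ) * hh e n)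
        - (sg (s m) * sg (e m) * ww s e m + ((Q * ((b * r) % (Q : ℤ)).toNat : ℕ) : ℤ) * hh e m)
        = Q * (sg (s n) * sg (e n) * j + ((b * r) % (Q : ℤ)) * (hh e n - hh e m)) := by
      push_cast
      rw [Int.toNat_of_nonneg hω0, ← hk]
      linear_combination (sg (s n) * sg (e n)) * hj
    rw [e1]
    apply mul_dvd_mul_left
    have h2 := Int.emod_add_mul_ediv (b * r) Q
    have e2 : sg (s n) * sg (e n) * j + ((b * r) % (Q : ℤ)) * (hh e n - hh e m)
        = b * (v * (sg (s n) * sg (e n) * j) + r * (hh e n - hh e m))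
          + Q * (a * (sg (s n) * sg (e n) * j) - (b * r / Q) * (hh e n - hh e m)) := by
      linear_combination (hh e n - hh e m) * h2 - (sg (s n) * sg (e n) * j) * hab
    rw [e2]
    exact dvd_add (h1.mul_left _) (dvd_mul_right _ _)

end Pool.Agent.Henon88
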