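import Pool.Agent.Henon88.CaseA
import Pool.Agent.Henon88.BruteS
import Pool.Agent.Henon88.BruteA
import Pool.Agent.Henon88.BruteB
import Pool.Agent.Henon88.BruteC
import Pool.Agent.Henon88.BruteD
import Pool.Agent.Henon88.BruteE

/-!
The case `-12 < c < 0`.
-/

namespace Pool.Agent.Henon88

variable {B : ℕ} {X : ℤ → ℤ} {S : ℤ} {c : ℚ} {x : ℤ → ℚ}

/-- the bound on the orbit -/
lemma small_bd (h : IsOrb c x) (hc : -12 < c) (n : ℤ) : 2 * |x n| < 9 := by
  obtain ⟨m, hm⟩ := h.exists_max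
  have key : ∀ M u : ℚ, 0 ≤ M → 0 ≤ u → u ^ 2 < 12 → M ^ 2 < 12 + M + u → 2 * M < 9 := by
    intro M u hM hu h1 h2
    have h3 : u < 3.47 := by
      by_contra hcon
      rw [not_lt] at hcon
      nlinarith
    by_contra hcon
    rw [not_lt] at hcon
    nlinarith
  have h1 := h.step m
  have hM := abs_nonneg (x m)
  have e : |x m| ^ 2 = x m ^ 2 := sq_abs _
  have goal : 2 * |x m| < 9 := by
    rcases le_total 0 (x m) with h0 | h0
    · have h2 := h.step (m + 1)
      rw [add_sub_cancel_right] at h2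
      have h3 := (abs_le.1 (hm (m + 1 + 1))).2
      rw [abs_of_nonneg h0] at h3
      have h4 := (abs_le.1 (hm (m - 1))).1
      refine key |x m| |x (m + 1)| hM (abs_nonneg _) ?_ ?_
      · rw [sq_abs]; linarith
      · rw [e]
        have := le_abs_self (x (m + 1))
        linarith
    · have h2 := h.step (m - 1)
      rw [sub_add_cancel] at h2
      have h3 := (abs_le.1 (hm (m - 1 - 1))).1
      have h4 := (abs_le.1 (hm (m + 1))).2
      rw [abs_of_nonpos h0] at h3
      refine key |x m| |x (m - 1)| hM (abs_nonneg _) ?_ ?_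
      · rw [sq_abs]; linarith
      · rw [e]
        have := neg_abs_le (x (m - 1))
        linarith
  have := hm n
  linarith

lemma small_bdX (h : IsOrb c x) (hI : IOrb B S X) (hx : ∀ n, x n = X n / B) (hc : -12 < c)
    (n : ℤ) : 2 * |X n| < 9 * B := by
  have h1 := small_bd h hc n
  have hB : (0 : ℚ) < B := by exact_mod_cast hI.pos
  rw [hx n, abs_div, abs_of_pos hB, ← mul_div_assoc, div_lt_iff₀ hB] at h1
  have : ((2 * |X n| : ℤ) : ℚ) < ((9 * B : ℤ) : ℚ) := by
    push_cast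
    exact h1
  exact_mod_cast this

lemma D_bd (s : ℤ → Bool) (n : ℤ) : |D s n| ≤ 1 := by
  unfold D
  cases s (n - 1) <;> cases s (n + 1) <;> simp [bt]

/-- exactness with a large place as base -/
lemma big_exact (h : IsOrb c x) (hI : IOrb B S X) (hx : ∀ n, x n = X n / B) (hc : -12 < c)
    {q1 q2 Q1 : ℕ} {e1 : ℤ → Bool} {u1 : ℤ} (P1 : Pl B X q1 Q1 q2 e1 u1) (hQ : 11 ≤ Q1)
    {n m : ℤ} (hd : (q2 : ℤ) ∣ aa B X e1 n - aa B X e1 m) (hco : Nat.Coprime q1 q2) :
    aa B X e1 n = aa B X e1 m := by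
  have hB : (0 : ℤ) < B := by exact_mod_cast hI.pos
  have hBz : (B : ℤ) = q1 * q2 := by rw [P1.hB]; push_cast; ring
  have hcc : cl e1 e1 n = cl e1 e1 m := by rw [cl_self, cl_self]
  have h1 : (B : ℤ) ∣ aa B X e1 n - aa B X e1 m := by
    rw [hBz]
    exact IsCoprime.mul_dvd (Nat.isCoprime_iff_coprime.2 hco) (P1.cong_q e1 hcc) hd
  obtain ⟨t, ht⟩ := h1
  have h2 := P1.cong e1 hcc
  rw [ww_self, ww_self, mul_zero, sub_zero, sub_zero, ht, hBz] at h2
  push_cast at h2
  rw [mul_assoc] at h2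
  have hq : (q1 : ℤ) ≠ 0 := by
    have := P1.q3
    positivity
  have h3 := Int.dvd_of_mul_dvd_mul_left hq h2
  have hc3 : IsCoprime (Q1 : ℤ) (q2 : ℤ) := Nat.isCoprime_iff_coprime.2 P1.hr
  have h4 := hc3.dvd_of_dvd_mul_left h3
  have h5 : |t| < Q1 := by
    have a1 := small_bdX h hI hx hc n
    have a2 := small_bdX h hI hx hc m
    have d1 := D_bd e1 n
    have d2 := D_bd e1 m
    have hs : ∀ b, |sg b| = 1 := by intro b; cases b <;> simp [sg]
    have h6 : |aa B X e1 n - aa B X e1 m| ≤ |X n| + |X m| + B * (|D e1 n| + |D e1 m|) := by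
      have e : aa B X e1 n - aa B X e1 m = (sg (e1 n) * X n - sg (e1 m) * X m)
          - (B * D e1 n - B * D e1 m) := by unfold aa; ring
      rw [e]
      have b1 := abs_sub (sg (e1 n) * X n - sg (e1 m) * X m) (B * D e1 n - B * D e1 m)
      have b2 := abs_sub (sg (e1 n) * X n) (sg (e1 m) * X m)
      have b3 := abs_sub ((B : ℤ) * D e1 n) (B * D e1 m)
      rw [abs_mul, abs_mul, hs, hs, one_mul, one_mul] at b2
      rw [abs_mul, abs_mul, abs_of_pos hB] at b3
      linarith
    rw [ht, abs_mul, abs_of_pos hB] at h6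
    have h7 : (B : ℤ) * (|D e1 n| + |D e1 m|) ≤ B * 2 :=
      mul_le_mul_of_nonneg_left (by linarith) hB.le
    have h8 : (B : ℤ) * |t| < B * 11 := by linarith
    have h9 := lt_of_mul_lt_mul_left h8 hB.le
    have : (11 : ℤ) ≤ Q1 := by exact_mod_cast hQ
    linarith
  have h6 := Int.eq_zero_of_abs_lt_dvd h4 h5
  rw [h6, mul_zero] at ht
  linarith

theorem caseBigT (h : IsOrb c x) (hI : IOrb B S X) (hx : ∀ n, x n = X n / B) (hc : -12 < c)
    {q1 q2 Q1 : ℕ} {e1 : ℤ → Bool} {u1 : ℤ} (P1 : Pl B X q1 Q1 q2 e1 u1) (hQ : 11 ≤ Q1)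
    (hco : Nat.Coprime q1 q2) (hq2 : q2 = 1 ∨ q2 = 2) : Good x := by
  have ha : ∀ n m, cl e1 e1 n = cl e1 e1 m → aa B X e1 n = aa B X e1 m :=
    fun n m _ => big_exact h hI hx hc P1 hQ
      (hI.triv hq2 ⟨q1, by rw [P1.hB, mul_comm]⟩ e1 n m) hco
  refine good_of_semT h hx ha ⟨P1.start, P1.start, fun n m _ => by rw [ww_self, ww_self], ?_⟩
  exact fun n m hcl => (P1.strong hI.pos (by omega) e1 hcl (ha n m hcl)).2

theorem caseBigP (h : IsOrb c x) (hI : IOrb B S X) (hx : ∀ n, x n = X n / B) (hc : -12 < c)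
    {q1 q2 Q1 Q2 : ℕ} {e1 e2 : ℤ → Bool} {u1 u2 : ℤ} (P1 : Pl B X q1 Q1 q2 e1 u1) (hQ : 11 ≤ Q1)
    (hco : Nat.Coprime q1 q2) (P2 : Pl B X q2 Q2 q1 e2 u2) : Good x := by
  have ha : ∀ n m, cl e1 e2 n = cl e1 e2 m → aa B X e1 n = aa B X e1 m :=
    fun n m hcl => big_exact h hI hx hc P1 hQ (P2.cong_q e1 hcl) hco
  have hh1 : ∀ n m, cl e1 e2 n = cl e1 e2 m → hh e1 n = hh e1 m := fun n m hcl =>
    (P1.strong hI.pos (by omega) e1 (by rw [cl_self, cl_self]) (ha n m hcl)).2
  have hd : ∀ n m, cl e1 e2 n ≠ cl e1 e2 m → aa B X e1 n ≠ aa B X e1 m := by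
    intro n m hne heq
    apply P2.distinct e1 hne
    rw [heq, sub_self]
    exact dvd_zero _
  refine good_of_semT h hx ha ⟨P1.start, P2.start, ?_, hh1⟩
  exact fun n m hcl => ww_of_hh hI P1.start P2.start ha hd hh1 n m hcl

def blAll : List (ℕ × List ℕ) := bla ++ (blb ++ (blc ++ (bld ++ ble)))

theorem blAll_ok : blAll.all chkB = true := by
  unfold blAll
  rw [List.all_append, List.all_append, List.all_append, List.all_append, bla_ok, blb_ok, blc_ok,
    bld_ok, ble_ok]
  rfl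

/-- the finite check for the denominators in the list -/
theorem caseBrute (h : IsOrb c x) (hI : IOrb B S X) (hx : ∀ n, x n = X n / B)
    (hcS : c = -(S : ℚ) / B ^ 2) (hc : -12 < c) (hmax : ∀ n, |x n| ≤ x 0) {Rs : List ℕ}
    (hmem : (B, Rs) ∈ blAll) : Good x := by
  have hBz : (0 : ℤ) < B := by exact_mod_cast hI.pos
  have hBq : (0 : ℚ) < B := by exact_mod_cast hI.pos
  have hX0 : 0 ≤ X 0 := by
    have h0 : 0 ≤ x 0 := (abs_nonneg _).trans (hmax 0)
    rw [hx 0] at h0
    have : (0 : ℚ) ≤ X 0 := by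
      by_contra hcon
      rw [not_le] at hcon
      exact absurd (div_neg_of_neg_of_pos hcon hBq) (not_lt.2 h0)
    exact_mod_cast this
  obtain ⟨a, ha⟩ := Int.eq_ofNat_of_zero_le hX0
  have hbd : ∀ n, |X n| ≤ a := by
    intro n
    have h1 := hmax n
    rw [hx n, hx 0, abs_div, abs_of_pos hBq, div_le_div_iff_of_pos_right hBq, ha] at h1
    exact_mod_cast h1
  by_cases hle : S ≤ (a : ℤ) ^ 2
  · have hBO : BO B S X a := by
      refine ⟨hI.pos, hI.eq, hbd, ha, ?_, ?_, ?_, hle, ?_⟩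
      · have := hI.cop 0
        rw [ha] at this
        exact Nat.isCoprime_iff_coprime.1 this
      · have h1 : (S : ℚ) < 12 * B ^ 2 := by
          rw [hcS, neg_div, neg_lt_neg_iff, div_lt_iff₀ (by positivity)] at hc
          exact hc
        exact_mod_cast h1
      · have h1 := small_bdX h hI hx hc 0
        rw [ha, abs_of_nonneg (by positivity)] at h1
        omega
      · intro n
        have e1 := hI.eq n
        have e2 := hI.eq 0
        have e3 : X n ^ 2 - (a : ℤ) ^ 2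
            = B * ((X (n + 1) - X (n - 1)) - (X (0 + 1) - X (0 - 1))) := by
          rw [← ha]; linear_combination e2 - e1
        rw [e3, show mB B = B * (2 - B % 2) from rfl, Nat.cast_mul]
        apply mul_dvd_mul_left
        rcases Nat.mod_two_eq_zero_or_one B with h0 | h0
        · rw [h0]
          have h2 : 2 ∣ B := Nat.dvd_of_mod_eq_zero h0
          have a1 := hI.odd h2 (n + 1)
          have a2 := hI.odd h2 (n - 1)
          have a3 := hI.odd h2 (0 + 1)
          have a4 := hI.odd h2 (0 - 1)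
          have a5 : (2 : ℤ) ∣ (X (n + 1) - X (n - 1)) - (X (0 + 1) - X (0 - 1)) := by
            generalize X (n + 1) = v1 at *
            generalize X (n - 1) = v2 at *
            generalize X (0 + 1) = v3 at *
            generalize X (0 - 1) = v4 at *
            omega
          exact a5
        · rw [h0]; simp
    obtain ⟨P, hP, h1, h2⟩ := hBO.brute_sound (List.all_eq_true.1 blAll_ok _ hmem)
    refine good_of_two h.step hP (i := -1) ?_ ?_
    · rw [hx, hx, show (-1 : ℤ) + P = P - 1 by ring, h1]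
    · rw [hx, hx, show (-1 : ℤ) + P + 1 = P by ring, show (-1 : ℤ) + 1 = 0 by ring, h2]
  · rw [not_le] at hle
    obtain ⟨N, hN, hper⟩ := h.per
    refine good_of_anti hN hper ?_
    intro n
    have h1 : X n ^ 2 < S := by
      have := hbd n
      have h2 : X n ^ 2 ≤ (a : ℤ) ^ 2 := by
        rw [← sq_abs]
        exact pow_le_pow_left₀ (abs_nonneg _) this 2
      linarith
    have e1 := hI.eq n
    have h3 : X (n + 1) < X (n - 1) := by
      by_contra hcon
      rw [not_lt] at hcon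
      have : 0 ≤ (B : ℤ) * (X (n + 1) - X (n - 1)) := mul_nonneg hBz.le (by linarith)
      linarith
    rw [hx, hx, div_le_div_iff_of_pos_right hBq]
    exact_mod_cast h3.le

end Pool.Agent.Henon88
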