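import Pool.Agent.Henon88.CaseB
import Pool.Agent.Henon88.Small

/-!
Assembly of the cases.
-/

namespace Pool.Agent.Henon88

variable {B : ℕ} {X : ℤ → ℤ} {S : ℤ} {c : ℚ} {x : ℤ → ℚ}

/-- factorisation with at most two prime power factors -/
lemma two_factors {B : ℕ} (hB : 0 < B) (h : B.primeFactors.card ≤ 2) :
    ∃ p1 k1 p2 k2 : ℕ, p1.Prime ∧ p2.Prime ∧ B = p1 ^ k1 * p2 ^ k2 ∧
      Nat.Coprime (p1 ^ k1) (p2 ^ k2) := by
  by_cases h1 : B = 1
  · exact ⟨2, 0, 2, 0, Nat.prime_two, Nat.prime_two, by simp [h1], by simp⟩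
  · set p := B.minFac with hp
    have pp : p.Prime := Nat.minFac_prime h1
    set e := B.factorization p with he
    set r := B / p ^ e with hr
    have hBr : p ^ e * r = B := Nat.ordProj_mul_ordCompl_eq_self B p
    have hcop : Nat.Coprime (p ^ e) r :=
      Nat.Coprime.pow_left e (Nat.coprime_ordCompl pp hB.ne')
    have he0 : e ≠ 0 := by
      have := pp.factorization_pos_of_dvd hB.ne' (Nat.minFac_dvd B)
      omega
    have hr0 : r ≠ 0 := by
      intro h0
      rw [h0, mul_zero] at hBr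
      omega
    have hcard : (p ^ e * r).primeFactors.card = 1 + r.primeFactors.card := by
      rw [Nat.Coprime.primeFactors_mul hcop, Finset.card_union_of_disjoint
        hcop.disjoint_primeFactors, Nat.primeFactors_prime_pow he0 pp, Finset.card_singleton]
    rw [hBr] at hcard
    have hr1 : r.primeFactors.card = 0 ∨ r.primeFactors.card = 1 := by omega
    rcases hr1 with hr1 | hr1
    · rw [Finset.card_eq_zero, Nat.primeFactors_eq_empty] at hr1
      have hr1' : r = 1 := hr1.resolve_left hr0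
      exact ⟨p, e, 2, 0, pp, Nat.prime_two, by rw [← hBr, hr1']; simp, by simp⟩
    · have h2 : IsPrimePow r := isPrimePow_iff_card_primeFactors_eq_one.2 hr1
      obtain ⟨p2, k2, hp2, _, hk⟩ := (isPrimePow_nat_iff r).1 h2
      exact ⟨p, e, p2, k2, pp, hp2, by rw [hk, hBr], by rw [hk]; exact hcop⟩

/-- type of a component -/
def Comp (B : ℕ) (X : ℤ → ℤ) (q r : ℕ) : Prop :=
  (q = 1 ∨ q = 2) ∨ ∃ Q e u, Pl B X q Q r e u ∧ (q % 2 = 0 → ∃ j, q = 2 ^ j)

lemma comp_of (hI : IOrb B S X) {p k r : ℕ} (hp : p.Prime) (hB : B = p ^ k * r)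
    (hco : Nat.Coprime (p ^ k) r) : Comp B X (p ^ k) r := by
  by_cases h2 : p = 2
  · subst h2
    rcases k with _ | _ | k
    · left; left; rfl
    · left; right; rfl
    · right
      obtain ⟨e, u, P⟩ := exists_pl_two hI hB (Nat.Coprime.coprime_dvd_left
        (pow_dvd_pow 2 (by omega)) hco)
      exact ⟨_, e, u, P, fun _ => ⟨k + 2, rfl⟩⟩
  · by_cases hk : k = 0
    · left; left; rw [hk, pow_zero]
    · right
      obtain ⟨e, u, P⟩ := exists_pl_odd hI hp h2 hk hB hco
      refine ⟨_, e, u, P, fun h => ?_⟩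
      have hodd : p % 2 = 1 := (hp.eq_two_or_odd).resolve_left h2
      rw [Nat.pow_mod, hodd] at h
      simp at h

/-- strong or weak -/
lemma Pl.cases {q Q r : ℕ} {e : ℤ → Bool} {u : ℤ} (P : Pl B X q Q r e u) :
    5 ≤ Q ∨ ((q = 4 ∧ Q = 2) ∨ (q = 3 ∧ Q = 3) ∨ (q = 8 ∧ Q = 4)) := by
  have := P.q3
  rcases P.par with ⟨a, b⟩ | ⟨a, b⟩ <;> omega

lemma mul_comm' {q1 q2 : ℕ} (h : B = q1 * q2) : B = q2 * q1 := by rw [h, mul_comm]

/-- the case `c ≤ -12` -/
theorem case_low (h : IsOrb c x) (hI : IOrb B S X) (hx : ∀ n, x n = X n / B) (hc : c ≤ -12)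
    (h0 : 0 < x 0) {q1 q2 : ℕ} (hB : B = q1 * q2) (hco : Nat.Coprime q1 q2)
    (C1 : Comp B X q1 q2) (C2 : Comp B X q2 q1) : Good x := by
  have W := real_place h hI hx hc h0
  rcases C1 with t1 | ⟨Q1, e1, u1, P1, -⟩
  · rcases C2 with t2 | ⟨Q2, e2, u2, P2, -⟩
    · refine caseTT h hI hx W ?_
      rcases t1 with rfl | rfl <;> rcases t2 with rfl | rfl
      · left; exact hB
      · right; exact hB
      · right; exact hB
      · exact absurd hco (by decide)
    · rcases P2.cases with s2 | w2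
      · exact caseTS h hI hx W hB t1 hco P2 s2
      · exact caseTW h hI hx W hB t1 hco P2 w2
  · rcases C2 with t2 | ⟨Q2, e2, u2, P2, -⟩
    · rcases P1.cases with s1 | w1
      · exact caseTS h hI hx W (mul_comm' hB) t2 hco.symm P1 s1
      · exact caseTW h hI hx W (mul_comm' hB) t2 hco.symm P1 w1
    · rcases P1.cases with s1 | w1
      · rcases P2.cases with s2 | w2
        · exact caseSS h hI hx W hB hco P1 P2 s1 s2
        · exact caseSW h hI hx W hB hco P1 P2 s1 w2
      · rcases P2.cases with s2 | w2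
        · exact caseSW h hI hx W (mul_comm' hB) hco.symm P2 P1 s2 w1
        · rcases w1 with ⟨a1, b1⟩ | ⟨a1, b1⟩ | ⟨a1, b1⟩
          · rcases w2 with ⟨a2, b2⟩ | ⟨a2, b2⟩ | ⟨a2, b2⟩
            · subst a1 a2; exact absurd hco (by decide)
            · subst a2 b2
              exact caseWW h hI hx W (mul_comm' hB) hco.symm P2 P1 (Or.inl ⟨a1, b1⟩)
            · subst a1 a2; exact absurd hco (by decide)
          · subst a1 b1
            rcases w2 with ⟨a2, b2⟩ | ⟨a2, b2⟩ | ⟨a2, b2⟩
            · exact caseWW h hI hx W hB hco P1 P2 (Or.inl ⟨a2, b2⟩)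
            · subst a2; exact absurd hco (by decide)
            · exact caseWW h hI hx W hB hco P1 P2 (Or.inr ⟨a2, b2⟩)
          · rcases w2 with ⟨a2, b2⟩ | ⟨a2, b2⟩ | ⟨a2, b2⟩
            · subst a1 a2; exact absurd hco (by decide)
            · subst a2 b2
              exact caseWW h hI hx W (mul_comm' hB) hco.symm P2 P1 (Or.inr ⟨a1, b1⟩)
            · subst a1 a2; exact absurd hco (by decide)

/-- the small components -/
def smallQ : List ℕ := [1, 2, 3, 4, 5, 7, 8, 9, 16]

lemma comp_small {q r : ℕ} (C : Comp B X q r) :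
    (∃ Q e u, Pl B X q Q r e u ∧ 11 ≤ Q) ∨ q ∈ smallQ := by
  rcases C with t | ⟨Q, e, u, P, hj⟩
  · right
    rcases t with rfl | rfl <;> decide
  · by_cases hQ : 11 ≤ Q
    · left; exact ⟨Q, e, u, P, hQ⟩
    · right
      have h3 := P.q3
      rcases P.par with ⟨a, b⟩ | ⟨a, b⟩
      · have : q = 3 ∨ q = 5 ∨ q = 7 ∨ q = 9 := by omega
        rcases this with rfl | rfl | rfl | rfl <;> decide
      · obtain ⟨j, hj⟩ := hj (by omega)
        have hlt : q < 2 ^ 5 := by omega
        have hj5 : j < 5 := by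
          rw [hj] at hlt
          exact (Nat.pow_lt_pow_iff_right (by norm_num)).1 hlt
        interval_cases j
        · omega
        · omega
        · rw [hj]; decide
        · rw [hj]; decide
        · rw [hj]; decide

lemma mem_bl : ∀ q1 ∈ smallQ, ∀ q2 ∈ smallQ, Nat.Coprime q1 q2 →
    q1 * q2 ∈ blAll.map Prod.fst := by decide

/-- the case `-12 < c < 0` -/
theorem case_high (h : IsOrb c x) (hI : IOrb B S X) (hx : ∀ n, x n = X n / B)
    (hcS : c = -(S : ℚ) / B ^ 2) (hc : -12 < c) (hmax : ∀ n, |x n| ≤ x 0) {q1 q2 : ℕ}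
    (hB : B = q1 * q2) (hco : Nat.Coprime q1 q2)
    (C1 : Comp B X q1 q2) (C2 : Comp B X q2 q1) : Good x := by
  rcases comp_small C1 with ⟨Q1, e1, u1, P1, hQ1⟩ | s1
  · rcases C2 with t2 | ⟨Q2, e2, u2, P2, -⟩
    · exact caseBigT h hI hx hc P1 hQ1 hco t2
    · exact caseBigP h hI hx hc P1 hQ1 hco P2
  · rcases comp_small C2 with ⟨Q2, e2, u2, P2, hQ2⟩ | s2
    · rcases C1 with t1 | ⟨Q1, e1, u1, P1, -⟩
      · exact caseBigT h hI hx hc P2 hQ2 hco.symm t1
      · exact caseBigP h hI hx hc P2 hQ2 hco.symm P1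
    · have hm := mem_bl q1 s1 q2 s2 hco
      rw [← hB, List.mem_map] at hm
      obtain ⟨⟨B', Rs⟩, hm, rfl⟩ := hm
      exact caseBrute h hI hx hcS hc hmax hm

/-- normalised orbits -/
theorem core (h : IsOrb c x) (hω : c.den.primeFactors.card ≤ 2) (h0 : 0 < x 0)
    (hmax : ∀ n, |x n| ≤ x 0) : Good x := by
  obtain ⟨B, S, X, hI, hx, hcS, hden⟩ := h.exists_int
  rw [hden, Nat.primeFactors_pow B (by norm_num)] at hω
  obtain ⟨p1, k1, p2, k2, hp1, hp2, hB, hco⟩ := two_factors hI.pos hω
  have C1 : Comp B X (p1 ^ k1) (p2 ^ k2) := comp_of hI hp1 hB hco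
  have C2 : Comp B X (p2 ^ k2) (p1 ^ k1) := comp_of hI hp2 (mul_comm' hB) hco.symm
  by_cases hc : c ≤ -12
  · exact case_low h hI hx hc h0 hB hco C1 C2
  · exact case_high h hI hx hcS (not_le.1 hc) hmax hB hco C1 C2

theorem orb_good (h : IsOrb c x) (hω : c.den.primeFactors.card ≤ 2) : Good x := by
  obtain ⟨N, hN, hper⟩ := h.per
  by_cases hc : 0 ≤ c
  · refine good_of_mono hN hper fun n => ?_
    have := h.step n
    have := sq_nonneg (x n)
    linarith
  · obtain ⟨m, hm⟩ := h.exists_max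
    have hm0 : x m ≠ 0 := by
      intro h0
      apply hc
      have hz : ∀ n, x n = 0 := by
        intro n
        have := hm n
        rw [h0, abs_zero] at this
        exact abs_nonpos_iff.1 this
      have := h.step 0
      rw [hz, hz, hz] at this
      linarith
    have h' := h.shift m
    apply Good.shift (m := m)
    rcases lt_or_gt_of_ne hm0 with hneg | hpos
    · apply Good.rev
      apply core h'.rev hω
      · show 0 < -x (-0 + m)
        rw [neg_zero, zero_add]
        linarith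
      · intro n
        show |-x (-n + m)| ≤ -x (-0 + m)
        rw [neg_zero, zero_add, abs_neg, ← abs_of_neg hneg]
        exact hm _
    · apply core h' hω
      · show 0 < x (0 + m)
        rw [zero_add]; exact hpos
      · intro n
        show |x (n + m)| ≤ x (0 + m)
        rw [zero_add, ← abs_of_pos hpos]
        exact hm _

end Pool.Agent.Henon88
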