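import Mathlib

/-!
The first theorem of Mertens, with an unspecified constant.
-/

namespace Pool.Agent.Henon88

open Finset

/-- the sum of `log p / p` over the primes `p ≤ n` -/
noncomputable def SP (n : ℕ) : ℝ := ∑ p ∈ Nat.primesLE n, Real.log p / p

lemma log_fact_eq (n : ℕ) : Real.log (n.factorial : ℕ)
    = ∑ p ∈ Nat.primesLE n, ((n.factorial.factorization p : ℕ) : ℝ) * Real.log p := by
  rw [Real.log_nat_eq_sum_factorization, Finsupp.sum_of_support_subset (s := Nat.primesLE n)]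
  · intro p hp
    rw [Nat.support_factorization, Nat.mem_primeFactors] at hp
    rw [Nat.mem_primesLE]
    exact ⟨(hp.1.dvd_factorial).1 hp.2.1, hp.1⟩
  · intro p _
    simp

lemma fact_val_lower {n p : ℕ} (hp : p ∈ Nat.primesLE n) :
    n / p ≤ n.factorial.factorization p := by
  rw [Nat.mem_primesLE] at hp
  rw [Nat.factorization_factorial hp.2 (Nat.lt_add_one (Nat.log p n))]
  have h1 : 1 ∈ Finset.Ico 1 (Nat.log p n + 1) := by
    rw [Finset.mem_Ico]
    refine ⟨le_rfl, ?_⟩
    have := Nat.log_pos hp.2.one_lt hp.1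
    omega
  have := Finset.single_le_sum (f := fun i => n / p ^ i) (fun i _ => Nat.zero_le _) h1
  simpa using this

lemma log_fact_le (n : ℕ) : Real.log (n.factorial : ℕ) ≤ n * Real.log n := by
  have h : (n.factorial : ℝ) ≤ (n : ℝ) ^ n := by exact_mod_cast Nat.factorial_le_pow n
  have h0 : (0 : ℝ) < n.factorial := by exact_mod_cast n.factorial_pos
  have := Real.log_le_log h0 h
  rwa [Real.log_pow] at this

lemma le_log_fact {n : ℕ} (hn : 0 < n) :
    n * Real.log n - n ≤ Real.log (n.factorial : ℕ) := by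
  have hn' : (0 : ℝ) < n := by exact_mod_cast hn
  have h := Real.pow_div_factorial_le_exp (x := (n : ℝ)) hn'.le n
  have h0 : (0 : ℝ) < n.factorial := by exact_mod_cast n.factorial_pos
  have h1 : 0 < (n : ℝ) ^ n / n.factorial := by positivity
  have h2 := Real.log_le_log h1 h
  rw [Real.log_exp, Real.log_div (by positivity) h0.ne', Real.log_pow] at h2
  linarith

lemma theta_bd (n : ℕ) : ∑ p ∈ Nat.primesLE n, Real.log p ≤ Real.log 4 * n := by
  rw [← Chebyshev.theta_eq_sum_primesLE_log]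
  exact Chebyshev.theta_le_log4_mul_x (Nat.cast_nonneg n)

lemma logp_nonneg (p : ℕ) : 0 ≤ Real.log p := Real.log_natCast_nonneg p

lemma floor_gt (n : ℕ) {p : ℕ} (hp : 0 < p) : (n : ℝ) / p - 1 ≤ ((n / p : ℕ) : ℝ) := by
  have hp' : (0 : ℝ) < p := by exact_mod_cast hp
  have h1 : n < p * (n / p + 1) := by
    have := Nat.lt_mul_div_succ n hp
    exact this
  have h2 : (n : ℝ) < p * ((n / p : ℕ) + 1) := by exact_mod_cast h1
  rw [sub_le_iff_le_add, div_le_iff₀ hp']
  linarith

lemma mertens_upper {n : ℕ} (hn : 0 < n) : SP n ≤ Real.log n + Real.log 4 := by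
  have hn' : (0 : ℝ) < n := by exact_mod_cast hn
  have h1 : n * SP n - Real.log 4 * n ≤ n * Real.log n := by
    refine le_trans ?_ (log_fact_le n)
    rw [log_fact_eq]
    refine le_trans (sub_le_sub_left (theta_bd n) _) ?_
    unfold SP
    rw [Finset.mul_sum, ← Finset.sum_sub_distrib]
    refine Finset.sum_le_sum fun p hp => ?_
    have hp0 : 0 < p := (Nat.prime_of_mem_primesLE hp).pos
    have h2 := floor_gt n hp0
    have h3 : ((n / p : ℕ) : ℝ) ≤ ((n.factorial.factorization p : ℕ) : ℝ) := by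
      exact_mod_cast fact_val_lower hp
    have h4 := mul_le_mul_of_nonneg_right (h2.trans h3) (logp_nonneg p)
    calc (n : ℝ) * (Real.log p / p) - Real.log p = (n / p - 1) * Real.log p := by ring
      _ ≤ _ := h4
  have h2 : n * SP n ≤ n * (Real.log n + Real.log 4) := by linarith
  exact le_of_mul_le_mul_left h2 hn'

lemma tail_bd : ∃ C : ℝ, 0 ≤ C ∧ ∀ n : ℕ,
    ∑ p ∈ Nat.primesLE n, Real.log p / (p * (p - 1)) ≤ C := by
  have hs : Summable fun k : ℕ => 1 / (k : ℝ) ^ (3 / 2 : ℝ) :=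
    Real.summable_one_div_nat_rpow.2 (by norm_num)
  refine ⟨4 * ∑' k : ℕ, 1 / (k : ℝ) ^ (3 / 2 : ℝ), ?_, fun n => ?_⟩
  · refine mul_nonneg (by norm_num) (tsum_nonneg fun k => by positivity)
  · have h1 : ∑ p ∈ Nat.primesLE n, Real.log p / (p * (p - 1))
        ≤ ∑ p ∈ Nat.primesLE n, 4 * (1 / (p : ℝ) ^ (3 / 2 : ℝ)) := by
      refine Finset.sum_le_sum fun p hp => ?_
      have hp2 : 2 ≤ p := (Nat.prime_of_mem_primesLE hp).two_le
      have hp2' : (2 : ℝ) ≤ p := by exact_mod_cast hp2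
      have hpos : (0 : ℝ) < p := by linarith
      have hlog : Real.log p ≤ 2 * (p : ℝ) ^ (1 / 2 : ℝ) := by
        have h := Real.log_le_rpow_div hpos.le (show (0 : ℝ) < 1 / 2 by norm_num)
        linarith
      have hsplit : (p : ℝ) ^ (3 / 2 : ℝ) * (p : ℝ) ^ (1 / 2 : ℝ) = p ^ 2 := by
        rw [← Real.rpow_add hpos]
        norm_num
      have hr : (0 : ℝ) < (p : ℝ) ^ (3 / 2 : ℝ) := Real.rpow_pos_of_pos hpos _
      have hr2 : (0 : ℝ) < (p : ℝ) ^ (1 / 2 : ℝ) := Real.rpow_pos_of_pos hpos _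
      rw [mul_one_div, div_le_div_iff₀ (by nlinarith) hr]
      have h3 : Real.log p * (p : ℝ) ^ (3 / 2 : ℝ)
          ≤ 2 * (p : ℝ) ^ (1 / 2 : ℝ) * (p : ℝ) ^ (3 / 2 : ℝ) :=
        mul_le_mul_of_nonneg_right hlog hr.le
      have h4 : 2 * (p : ℝ) ^ (1 / 2 : ℝ) * (p : ℝ) ^ (3 / 2 : ℝ) = 2 * p ^ 2 := by
        rw [← hsplit]; ring
      rw [h4] at h3
      nlinarith
    refine h1.trans ?_
    rw [← Finset.mul_sum]
    exact mul_le_mul_of_nonneg_left (hs.sum_le_tsum _ fun k _ => by positivity) (by norm_num)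

lemma mertens : ∃ C : ℝ, 0 ≤ C ∧ ∀ n : ℕ, 0 < n →
    Real.log n - C ≤ SP n ∧ SP n ≤ Real.log n + C := by
  obtain ⟨C, hC, hb⟩ := tail_bd
  have h4 : 0 ≤ Real.log 4 := Real.log_nonneg (by norm_num)
  refine ⟨C + 1 + Real.log 4, by positivity, fun n hn => ⟨?_, ?_⟩⟩
  · have hn' : (0 : ℝ) < n := by exact_mod_cast hn
    have h1 : n * Real.log n - n ≤ n * SP n + n * C := by
      refine (le_log_fact hn).trans ?_
      rw [log_fact_eq]
      refine le_trans ?_ (add_le_add_right (mul_le_mul_of_nonneg_left (hb n) hn'.le) _)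
      unfold SP
      rw [Finset.mul_sum, Finset.mul_sum, ← Finset.sum_add_distrib]
      refine Finset.sum_le_sum fun p hp => ?_
      have hpp := Nat.prime_of_mem_primesLE hp
      have hp2 : 2 ≤ p := hpp.two_le
      have hp2' : (2 : ℝ) ≤ p := by exact_mod_cast hp2
      have h2 : ((n.factorial.factorization p : ℕ) : ℝ) ≤ n / (p - 1) := by
        have h3 : ((n.factorial.factorization p : ℕ) : ℝ) ≤ ((n / (p - 1) : ℕ) : ℝ) := by
          exact_mod_cast Nat.factorization_factorial_le_div_pred hpp n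
        refine h3.trans ?_
        have h5 := Nat.cast_div_le (α := ℝ) (m := n) (n := p - 1)
        rwa [Nat.cast_sub (by omega), Nat.cast_one] at h5
      have h5 := mul_le_mul_of_nonneg_right h2 (logp_nonneg p)
      refine h5.trans (le_of_eq ?_)
      have e1 : (p : ℝ) ≠ 0 := by linarith
      have e2 : (p : ℝ) - 1 ≠ 0 := by linarith
      field_simp
      ring
    have h2 : n * (Real.log n - (C + 1)) ≤ n * SP n := by linarith
    have h3 := le_of_mul_le_mul_left h2 hn'
    linarith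
  · have := mertens_upper hn
    linarith

end Pool.Agent.Henon88
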