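import Pool.Agent.Henon88.Place

/-!
Odd denominators: the twelfth iterate fixes all periodic points.
-/

namespace Pool.Agent.Henon88

/-- the map modulo `4` -/
def F4 (β γ : ZMod 4) (q : ZMod 4 × ZMod 4) : ZMod 4 × ZMod 4 := (q.2, β * q.2 ^ 2 + γ + q.1)

lemma F4_iter : ∀ β γ : ZMod 4, (β = 1 ∨ β = 3) → ∀ q : ZMod 4 × ZMod 4, (F4 β γ)^[12] q = q := by
  decide +kernel

/-- the map modulo `2` -/
def F2 (γ : ZMod 2) (q : ZMod 2 × ZMod 2) : ZMod 2 × ZMod 2 := (q.2, q.2 ^ 2 + γ + q.1)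

lemma F2_iter : ∀ γ : ZMod 2, ∀ q : ZMod 2 × ZMod 2, (F2 γ)^[3] q = q := by
  decide +kernel

/-- the linear map modulo `4` -/
def G4 (t : ZMod 4) (q : ZMod 4 × ZMod 4) : ZMod 4 × ZMod 4 := (q.2, q.1 + t * q.2)

lemma G4_iter : ∀ t1 t2 t3 : ZMod 4, (t1 = 0 ∨ t1 = 2) → (t2 = 0 ∨ t2 = 2) → (t3 = 0 ∨ t3 = 2) →
    ∀ q : ZMod 4 × ZMod 4,
    G4 t3 (G4 t2 (G4 t1 (G4 t3 (G4 t2 (G4 t1 (G4 t3 (G4 t2 (G4 t1 (G4 t3 (G4 t2 (G4 t1 q)))))))))))
      = q := by
  decide +kernel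

variable {B : ℕ} {X : ℤ → ℤ} {S : ℤ}

lemma IOrb.step4 (hI : IOrb B S X) (hB : Odd B) (n : ℤ) :
    (X (n + 1) : ZMod 4) = (B : ZMod 4) * (X n : ZMod 4) ^ 2 + (-(B * S : ℤ) : ZMod 4)
      + X (n - 1) := by
  have h1 := hI.eq n
  have h2 : ((B : ZMod 4) * (B : ZMod 4)) = 1 := by
    have : ∀ b : ZMod 4, (b = 1 ∨ b = 3) → b * b = 1 := by decide
    apply this
    have h3 : B % 4 = 1 ∨ B % 4 = 3 := by
      obtain ⟨k, hk⟩ := hB
      omega
    rcases h3 with h3 | h3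
    · left
      rw [← ZMod.natCast_mod B 4, h3]; rfl
    · right
      rw [← ZMod.natCast_mod B 4, h3]; rfl
  have h3 := congrArg (fun z : ℤ => (z : ZMod 4)) h1
  push_cast at h3 ⊢
  have h4 : (X (n + 1) : ZMod 4) - X (n - 1)
      = (B : ZMod 4) * ((X n : ZMod 4) ^ 2 - S) := by
    rw [← h3, ← mul_assoc, h2, one_mul]
  linear_combination h4

lemma IOrb.mod4 (hI : IOrb B S X) (hB : Odd B) (n : ℤ) : (4 : ℤ) ∣ X (n + 12) - X n := by
  set β : ZMod 4 := (B : ZMod 4) with hβ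
  set γ : ZMod 4 := (-(B * S : ℤ) : ZMod 4) with hγ
  have hβ' : β = 1 ∨ β = 3 := by
    have h3 : B % 4 = 1 ∨ B % 4 = 3 := by
      obtain ⟨k, hk⟩ := hB
      omega
    rcases h3 with h3 | h3
    · left
      rw [hβ, ← ZMod.natCast_mod B 4, h3]; rfl
    · right
      rw [hβ, ← ZMod.natCast_mod B 4, h3]; rfl
  have hs : ∀ n, F4 β γ ((X n : ZMod 4), (X (n + 1) : ZMod 4))
      = ((X (n + 1) : ZMod 4), (X (n + 1 + 1) : ZMod 4)) := by
    intro n
    have h := hI.step4 hB (n + 1)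
    rw [add_sub_cancel_right] at h
    unfold F4
    rw [h]
  have hit : ∀ k : ℕ, (F4 β γ)^[k] ((X n : ZMod 4), (X (n + 1) : ZMod 4))
      = ((X (n + k) : ZMod 4), (X (n + k + 1) : ZMod 4)) := by
    intro k
    induction k with
    | zero => simp
    | succ k ih =>
      rw [Function.iterate_succ_apply', ih, hs]
      push_cast
      rw [add_assoc n k 1]
  have h12 := F4_iter β γ hβ' ((X n : ZMod 4), (X (n + 1) : ZMod 4))
  rw [hit 12] at h12
  have h13 := congrArg Prod.fst h12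
  simp only at h13
  have h14 : ((X (n + 12) - X n : ℤ) : ZMod 4) = 0 := by
    push_cast at h13 ⊢
    rw [h13, sub_self]
  exact (ZMod.intCast_zmod_eq_zero_iff_dvd _ 4).1 h14

lemma IOrb.mod2 (hI : IOrb B S X) (hB : Odd B) (n : ℤ) : (2 : ℤ) ∣ X (n + 3) - X n := by
  have hB1 : (B : ZMod 2) = 1 := by
    obtain ⟨k, hk⟩ := hB
    have h3 : B % 2 = 1 := by omega
    rw [← ZMod.natCast_mod B 2, h3]; rfl
  set γ : ZMod 2 := (-(S : ℤ) : ZMod 2) with hγ
  have hs : ∀ n, F2 γ ((X n : ZMod 2), (X (n + 1) : ZMod 2))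
      = ((X (n + 1) : ZMod 2), (X (n + 1 + 1) : ZMod 2)) := by
    intro n
    have h1 := hI.eq (n + 1)
    rw [add_sub_cancel_right] at h1
    have h3 := congrArg (fun z : ℤ => (z : ZMod 2)) h1
    push_cast at h3
    rw [hB1, one_mul] at h3
    unfold F2
    have h4 : (X (n + 1 + 1) : ZMod 2) = (X (n + 1) : ZMod 2) ^ 2 + γ + X n := by
      rw [hγ]
      linear_combination h3
    rw [h4]
  have hit : ∀ k : ℕ, (F2 γ)^[k] ((X n : ZMod 2), (X (n + 1) : ZMod 2))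
      = ((X (n + k) : ZMod 2), (X (n + k + 1) : ZMod 2)) := by
    intro k
    induction k with
    | zero => simp
    | succ k ih =>
      rw [Function.iterate_succ_apply', ih, hs]
      push_cast
      rw [add_assoc n k 1]
  have h12 := F2_iter γ ((X n : ZMod 2), (X (n + 1) : ZMod 2))
  rw [hit 3] at h12
  have h13 := congrArg Prod.fst h12
  simp only at h13
  have h14 : ((X (n + 3) - X n : ℤ) : ZMod 2) = 0 := by
    push_cast at h13 ⊢
    rw [h13, sub_self]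
  exact (ZMod.intCast_zmod_eq_zero_iff_dvd _ 2).1 h14

/-- the differences modulo `4` times their common power of two -/
lemma IOrb.lin (hI : IOrb B S X) (hB : Odd B) {M J : ℕ} (hJ : 2 ≤ J)
    (h : ∀ n, (2 : ℤ) ^ J ∣ X (n + M) - X n) (n : ℤ) :
    (2 : ℤ) ^ (J + 2) ∣ (X (n + 12 + M) - X (n + 12)) - (X (n + M) - X n) := by
  choose w hw using h
  have h2J : (2 : ℤ) ^ J ≠ 0 := by positivity
  have hB4 : ((B : ZMod 4) * 2) = 2 := by
    have : ∀ b : ZMod 4, (b = 1 ∨ b = 3) → b * 2 = 2 := by decide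
    apply this
    have h3 : B % 4 = 1 ∨ B % 4 = 3 := by
      obtain ⟨k, hk⟩ := hB
      omega
    rcases h3 with h3 | h3
    · left
      rw [← ZMod.natCast_mod B 4, h3]; rfl
    · right
      rw [← ZMod.natCast_mod B 4, h3]; rfl
  have hBB : ((B : ZMod 4) * (B : ZMod 4)) = 1 := by
    have : ∀ b : ZMod 4, (b = 1 ∨ b = 3) → b * b = 1 := by decide
    apply this
    have h3 : B % 4 = 1 ∨ B % 4 = 3 := by
      obtain ⟨k, hk⟩ := hB
      omega
    rcases h3 with h3 | h3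
    · left
      rw [← ZMod.natCast_mod B 4, h3]; rfl
    · right
      rw [← ZMod.natCast_mod B 4, h3]; rfl
  -- the recursion of `w`
  have hrec : ∀ n, (B : ℤ) * (w (n + 1) - w (n - 1)) = w n * (2 * X n + 2 ^ J * w n) := by
    intro n
    have e1 := hI.eq n
    have e2 := hI.eq (n + M)
    have a1 := hw (n + 1)
    have a2 := hw (n - 1)
    have a3 := hw n
    rw [show n + 1 + (M : ℤ) = n + M + 1 by ring] at a1
    rw [show n - 1 + (M : ℤ) = n + M - 1 by ring] at a2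
    apply mul_left_cancel₀ h2J
    have e3 : (2 : ℤ) ^ J * (B * (w (n + 1) - w (n - 1)))
        = B * ((X (n + M + 1) - X (n + 1)) - (X (n + M - 1) - X (n - 1))) := by
      rw [a1, a2]; ring
    have e4 : (2 : ℤ) ^ J * (w n * (2 * X n + 2 ^ J * w n))
        = (X (n + M) - X n) * (2 * X n + (X (n + M) - X n)) := by
      rw [a3]; ring
    rw [e3, e4]
    linear_combination e2 - e1
  have hrec4 : ∀ n, (w (n + 1) : ZMod 4) = w (n - 1) + (2 * X n : ZMod 4) * w n := by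
    intro n
    have h1 := congrArg (fun z : ℤ => (z : ZMod 4)) (hrec n)
    push_cast at h1
    have h4 : (2 : ZMod 4) ^ J = 0 := by
      obtain ⟨k, rfl⟩ : ∃ k, J = k + 2 := ⟨J - 2, by omega⟩
      rw [pow_add]
      have : (2 : ZMod 4) ^ 2 = 0 := by decide
      rw [this, mul_zero]
    rw [h4, zero_mul, add_zero] at h1
    have h5 : (w (n + 1) : ZMod 4) - w (n - 1) = (B : ZMod 4) * ((w n : ZMod 4) * (2 * X n)) := by
      rw [← h1, ← mul_assoc, hBB, one_mul]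
    linear_combination h5 + (w n : ZMod 4) * X n * hB4
  -- the coefficients
  set t : ℤ → ZMod 4 := fun n => 2 * (X n : ZMod 4) with ht
  have ht02 : ∀ n, t n = 0 ∨ t n = 2 := by
    intro n
    have : ∀ z : ZMod 4, 2 * z = 0 ∨ 2 * z = 2 := by decide
    exact this _
  have ht3 : ∀ n, t (n + 3) = t n := by
    intro n
    obtain ⟨z, hz⟩ := hI.mod2 hB n
    have h1 := congrArg (fun z : ℤ => (z : ZMod 4)) hz
    push_cast at h1
    show 2 * (X (n + 3) : ZMod 4) = 2 * (X n : ZMod 4)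
    have h4 : (2 : ZMod 4) * 2 = 0 := by decide
    linear_combination 2 * h1 + (z : ZMod 4) * h4
  have hG : ∀ n, G4 (t (n + 1)) ((w n : ZMod 4), (w (n + 1) : ZMod 4))
      = ((w (n + 1) : ZMod 4), (w (n + 1 + 1) : ZMod 4)) := by
    intro n
    have h1 := hrec4 (n + 1)
    rw [add_sub_cancel_right] at h1
    unfold G4
    rw [h1]
  have t3k : ∀ (k : ℕ) (a : ℤ), t (a + 3 * k) = t a := by
    intro k
    induction k with
    | zero => intro a; simp
    | succ k ih =>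
      intro a
      rw [← ih a, ← ht3 (a + 3 * k)]
      congr 1
      push_cast
      ring
  have hH : ∀ k : ℕ, G4 (t (n + 3)) (G4 (t (n + 2)) (G4 (t (n + 1))
      ((w (n + 3 * k) : ZMod 4), (w (n + 3 * k + 1) : ZMod 4))))
      = ((w (n + 3 * (k + 1 : ℕ)) : ZMod 4), (w (n + 3 * (k + 1 : ℕ) + 1) : ZMod 4)) := by
    intro k
    have g1 := hG (n + 3 * k)
    have g2 := hG (n + 3 * k + 1)
    have g3 := hG (n + 3 * k + 1 + 1)
    rw [show n + 3 * (k : ℤ) + 1 = n + 1 + 3 * k by ring, t3k] at g1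
    rw [show n + 3 * (k : ℤ) + 1 + 1 = n + 2 + 3 * k by ring, t3k,
      show n + 3 * (k : ℤ) + 1 = n + 1 + 3 * k by ring] at g2
    rw [show n + 3 * (k : ℤ) + 1 + 1 + 1 = n + 3 + 3 * k by ring, t3k,
      show n + 3 * (k : ℤ) + 1 + 1 = n + 2 + 3 * k by ring] at g3
    rw [show n + 3 * (k : ℤ) + 1 = n + 1 + 3 * k by ring, g1,
      show n + 1 + 3 * (k : ℤ) + 1 = n + 2 + 3 * k by ring, g2,
      show n + 2 + 3 * (k : ℤ) + 1 = n + 3 + 3 * k by ring, g3,
      show n + 3 * ((k + 1 : ℕ) : ℤ) = n + 3 + 3 * k by push_cast; ring]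
  have key := G4_iter (t (n + 1)) (t (n + 2)) (t (n + 3)) (ht02 _) (ht02 _) (ht02 _)
    ((w (n + 3 * (0 : ℕ)) : ZMod 4), (w (n + 3 * (0 : ℕ) + 1) : ZMod 4))
  rw [hH 0, hH (0 + 1), hH (0 + 1 + 1), hH (0 + 1 + 1 + 1)] at key
  have key1 := congrArg Prod.fst key
  simp only at key1
  have k1 : n + 3 * (((0 : ℕ) + 1 + 1 + 1 + 1 : ℕ) : ℤ) = n + 12 := by norm_num
  have k2 : n + 3 * ((0 : ℕ) : ℤ) = n := by norm_num
  rw [k1, k2] at key1
  have h14 : ((w (n + 12) - w n : ℤ) : ZMod 4) = 0 := by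
    push_cast
    rw [key1, sub_self]
  obtain ⟨z, hz⟩ := (ZMod.intCast_zmod_eq_zero_iff_dvd _ 4).1 h14
  have a1 := hw (n + 12)
  have a2 := hw n
  rw [a1, a2, ← mul_sub, hz, pow_add]
  exact ⟨z, by push_cast; ring⟩

/-- exact common power of two of the differences -/
def Ex (X : ℤ → ℤ) (M J : ℕ) : Prop :=
  2 ≤ J ∧ 12 ∣ M ∧ (∀ n, (2 : ℤ) ^ J ∣ X (n + M) - X n) ∧ ∃ n, ¬ (2 : ℤ) ^ (J + 1) ∣ X (n + M) - X n

lemma IOrb.lin' (hI : IOrb B S X) (hB : Odd B) {M J : ℕ} (hJ : 2 ≤ J)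
    (h : ∀ n, (2 : ℤ) ^ J ∣ X (n + M) - X n) (k : ℕ) (n : ℤ) :
    (2 : ℤ) ^ (J + 2) ∣ (X (n + 12 * k + M) - X (n + 12 * k)) - (X (n + M) - X n) := by
  induction k with
  | zero => simp
  | succ k ih =>
    have h1 := hI.lin hB hJ h (n + 12 * k)
    rw [show n + 12 * ((k + 1 : ℕ) : ℤ) + M = n + 12 * k + 12 + M by push_cast; ring,
      show n + 12 * ((k + 1 : ℕ) : ℤ) = n + 12 * k + 12 by push_cast; ring]
    have := dvd_add h1 ih
    rwa [sub_add_sub_cancel] at this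

lemma Ex.mul (hI : IOrb B S X) (hB : Odd B) {M J : ℕ} (h : Ex X M J) (i : ℕ) (n : ℤ) :
    (2 : ℤ) ^ (J + 2) ∣ (X (n + i * M) - X n) - i * (X (n + M) - X n) := by
  obtain ⟨hJ, ⟨K, hK⟩, hd, -⟩ := h
  induction i with
  | zero => simp
  | succ i ih =>
    have h1 := hI.lin' hB hJ hd (i * K) n
    have e : n + 12 * ((i * K : ℕ) : ℤ) = n + i * M := by rw [hK]; push_cast; ring
    rw [e] at h1
    have h2 := dvd_add h1 ih
    refine h2.trans (dvd_of_eq ?_)
    rw [show n + ((i + 1 : ℕ) : ℤ) * M = n + i * M + M by push_cast; ring]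
    push_cast
    ring

lemma Ex.two (hI : IOrb B S X) (hB : Odd B) {M J : ℕ} (h : Ex X M J) : Ex X (2 * M) (J + 1) := by
  have hm := fun n => h.mul hI hB 2 n
  obtain ⟨hJ, hM, hd, n, hn⟩ := h
  refine ⟨by omega, hM.mul_left 2, fun n => ?_, n, fun hcon => hn ?_⟩
  · obtain ⟨z, hz⟩ := hm n
    obtain ⟨y, hy⟩ := hd n
    rw [hy] at hz
    refine ⟨2 * z + y, ?_⟩
    push_cast at hz ⊢
    linear_combination hz
  · obtain ⟨z, hz⟩ := hm n
    obtain ⟨y, hy⟩ := hcon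
    push_cast at hz hy
    rw [hy] at hz
    have h2 : (2 : ℤ) * (X (n + M) - X n) = 2 * (2 ^ (J + 1) * (y - z)) := by
      linear_combination -hz
    exact ⟨y - z, mul_left_cancel₀ two_ne_zero h2⟩

lemma Ex.odd (hI : IOrb B S X) (hB : Odd B) {M J : ℕ} (h : Ex X M J) {i : ℕ} (hi : Odd i) :
    Ex X (i * M) J := by
  have hm := fun n => h.mul hI hB i n
  obtain ⟨hJ, hM, hd, n, hn⟩ := h
  refine ⟨hJ, hM.mul_left i, fun n => ?_, n, fun hcon => hn ?_⟩
  · obtain ⟨z, hz⟩ := hm n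
    obtain ⟨y, hy⟩ := hd n
    rw [hy] at hz
    refine ⟨4 * z + i * y, ?_⟩
    push_cast at hz ⊢
    linear_combination hz
  · obtain ⟨z, hz⟩ := hm n
    obtain ⟨y, hy⟩ := hcon
    push_cast at hz hy
    rw [hy] at hz
    have h2 : (2 : ℤ) ^ (J + 1) ∣ (i : ℤ) * (X (n + M) - X n) :=
      ⟨y - 2 * z, by linear_combination -hz⟩
    have hco : IsCoprime ((2 : ℤ) ^ (J + 1)) (i : ℤ) := by
      apply IsCoprime.pow_left
      rw [Int.isCoprime_iff_gcd_eq_one]
      have : Nat.Coprime 2 i := (Nat.coprime_two_left).2 hi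
      exact_mod_cast this
    exact hco.dvd_of_dvd_mul_left h2

/-- odd denominators: all periods divide `12` -/
theorem IOrb.odd_twelve (hI : IOrb B S X) (hB : Odd B) {N : ℕ} (hN : 0 < N)
    (hper : ∀ n, X (n + N) = X n) (n : ℤ) : X (n + 12) = X n := by
  by_contra hne
  have hex : ∃ J : ℕ, ¬ ∀ n, (2 : ℤ) ^ (J + 1) ∣ X (n + (12 : ℕ)) - X n := by
    obtain ⟨J, hJ⟩ : ∃ J : ℕ, (X (n + 12) - X n).natAbs < 2 ^ J := ⟨_, Nat.lt_two_pow_self⟩
    refine ⟨J, fun hall => hne ?_⟩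
    have h1 := hall n
    have h2 : |X (n + 12) - X n| < (2 : ℤ) ^ (J + 1) := by
      rw [Int.abs_eq_natAbs]
      have : (X (n + 12) - X n).natAbs < 2 ^ (J + 1) :=
        hJ.trans (Nat.pow_lt_pow_right (by norm_num) (Nat.lt_succ_self J))
      exact_mod_cast this
    have h3 := Int.eq_zero_of_abs_lt_dvd (by exact_mod_cast h1) h2
    linarith
  classical
  set J := Nat.find hex with hJdef
  have hJ1 : ¬ ∀ n, (2 : ℤ) ^ (J + 1) ∣ X (n + (12 : ℕ)) - X n := Nat.find_spec hex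
  have hJ2 : ∀ n, (2 : ℤ) ^ J ∣ X (n + (12 : ℕ)) - X n := by
    rcases Nat.eq_zero_or_pos J with h0 | h0
    · rw [h0]; intro n; simp
    · have := Nat.find_min hex (show J - 1 < J by omega)
      rw [not_not, Nat.sub_add_cancel h0] at this
      exact this
  have hJ3 : 2 ≤ J := by
    by_contra hlt
    apply hJ1
    intro n
    have h4 : (4 : ℤ) ∣ X (n + 12) - X n := hI.mod4 hB n
    have h5 : (2 : ℤ) ^ (J + 1) ∣ 4 := by
      have : J = 0 ∨ J = 1 := by omega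
      rcases this with h | h <;> rw [h] <;> norm_num
    exact h5.trans (by exact_mod_cast h4)
  push Not at hJ1
  have hE : Ex X 12 J := ⟨hJ3, dvd_refl _, hJ2, hJ1⟩
  obtain ⟨a, i, hi, hNai⟩ := Nat.exists_eq_two_pow_mul_odd hN.ne'
  have hE1 : ∀ a : ℕ, ∃ J', Ex X (2 ^ a * (i * 12)) J' := by
    intro a
    induction a with
    | zero => exact ⟨J, by simpa using hE.odd hI hB hi⟩
    | succ a ih =>
      obtain ⟨J', h⟩ := ih
      refine ⟨J' + 1, ?_⟩
      have := h.two hI hB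
      rwa [← mul_assoc, ← pow_succ'] at this
  obtain ⟨J', -, -, -, n', hn'⟩ := hE1 a
  apply hn'
  have hz : X (n' + ((2 ^ a * (i * 12) : ℕ) : ℤ)) = X n' := by
    have hk : ∀ k : ℕ, X (n' + k * N) = X n' := by
      intro k
      induction k with
      | zero => simp
      | succ k ih =>
        rw [show n' + ((k + 1 : ℕ) : ℤ) * N = n' + k * N + N by push_cast; ring, hper, ih]
    have := hk 12
    rw [← this]
    congr 2
    rw [hNai]
    push_cast
    ring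
  rw [hz, sub_self]
  exact dvd_zero _

/-- a common period of all orbits is a multiple of all minimal periods -/
theorem period_dvd_of {c : ℚ} {P : ℕ} (H : ∀ x : ℤ → ℚ, IsOrb c x → ∀ n, x (n + P) = x n)
    (p : ℚ × ℚ)
    (hp : 0 < Function.minimalPeriod (fun q : ℚ × ℚ => (q.2, q.2 ^ 2 + c + q.1)) p) :
    Function.minimalPeriod (fun q : ℚ × ℚ => (q.2, q.2 ^ 2 + c + q.1)) p ∣ P := by
  let f : ℚ × ℚ → ℚ × ℚ := fun q => (q.2, q.2 ^ 2 + c + q.1)
  let e : Equiv.Perm (ℚ × ℚ) :=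
    { toFun := f
      invFun := fun q => (q.2 - q.1 ^ 2 - c, q.1)
      left_inv := fun q => by ext <;> simp [f] <;> ring
      right_inv := fun q => by ext <;> simp [f] <;> ring }
  have he : ∀ q, e q = (q.2, q.2 ^ 2 + c + q.1) := fun q => rfl
  have hit : ∀ n : ℕ, ∀ q, (e ^ n) q = f^[n] q := by
    intro n q
    have h0 : f = ⇑e := rfl
    rw [h0, Equiv.Perm.iterate_eq_pow]
  set x : ℤ → ℚ := fun n => ((e ^ n) p).1 with hx
  have h1 : ∀ n : ℤ, (e ^ (n + 1)) p = e ((e ^ n) p) := by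
    intro n
    rw [add_comm, zpow_add, zpow_one]; rfl
  have h2 : ∀ n : ℤ, x (n + 1) = ((e ^ n) p).2 := by
    intro n
    simp only [hx]
    rw [h1, he]
  have h3 : ∀ n : ℤ, x (n + 1) - x (n - 1) = x n ^ 2 + c := by
    intro n
    have e1 := h2 n
    have e2 : (e ^ n) p = e ((e ^ (n - 1)) p) := by
      have := h1 (n - 1)
      rwa [sub_add_cancel] at this
    rw [e1, e2, he]
    simp only
    have e3 := h2 (n - 1)
    rw [sub_add_cancel] at e3
    rw [e3]
    simp only [hx]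
    ring
  set N := Function.minimalPeriod f p with hNdef
  have hN : 0 < N := hp
  have hfix : (e ^ (N : ℤ)) p = p := by
    rw [zpow_natCast, hit]
    exact Function.iterate_minimalPeriod
  have h4 : ∀ n : ℤ, x (n + N) = x n := by
    intro n
    simp only [hx]
    rw [zpow_add]
    show ((e ^ n) ((e ^ (N : ℤ)) p)).1 = _
    rw [hfix]
  have h5 := H x ⟨h3, N, hN, h4⟩
  have h6 : f^[P] p = p := by
    rw [← hit]
    have a1 := h5 0
    have a2 := h5 1
    rw [zero_add] at a1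
    rw [add_comm, h2 P] at a2
    have a3 := h2 0
    rw [zero_add] at a3
    rw [a3] at a2
    have b1 : ((e ^ (P : ℤ)) p).1 = p.1 := by
      have : x P = x 0 := a1
      simpa [hx] using this
    have b2 : ((e ^ (P : ℤ)) p).2 = p.2 := by simpa using a2
    rw [← zpow_natCast]
    exact Prod.ext b1 b2
  exact Function.IsPeriodicPt.minimalPeriod_dvd h6

theorem odd_period {c : ℚ} (hc : Odd c.den) (p : ℚ × ℚ)
    (hp : 0 < Function.minimalPeriod (fun q : ℚ × ℚ => (q.2, q.2 ^ 2 + c + q.1)) p) :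
    Function.minimalPeriod (fun q : ℚ × ℚ => (q.2, q.2 ^ 2 + c + q.1)) p ∣ 12 := by
  refine period_dvd_of (P := 12) (fun x hx => ?_) p hp
  obtain ⟨N, hN, hper⟩ := hx.per
  obtain ⟨B, S, X, hI, hxX, -, hd⟩ := hx.exists_int
  have hB : Odd B := by
    rw [hd] at hc
    exact Nat.odd_pow_iff (by norm_num) |>.1 hc
  have hBq : (B : ℚ) ≠ 0 := by exact_mod_cast hI.pos.ne'
  have hperX : ∀ n, X (n + N) = X n := by
    intro n
    have := hper n
    rw [hxX, hxX] at this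
    field_simp at this
    exact_mod_cast this
  intro n
  rw [hxX, hxX]
  have := hI.odd_twelve hB hN hperX n
  push_cast
  rw [this]

end Pool.Agent.Henon88
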