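import Pool.Agent.Henon88.Local

/-!
The real place: for `c ≤ -12` the numbers `|x n| - D n` lie in an interval of length `< 1`.
-/

namespace Pool.Agent.Henon88

lemma lo_of_sq {t y : ℝ} (ht : 0 ≤ t) (h : t ^ 2 ≤ y ^ 2) : t ≤ |y| := by
  have := sq_le_sq.1 h
  rwa [abs_of_nonneg ht] at this

lemma hi_of_sq {t y : ℝ} (ht : 0 ≤ t) (h : y ^ 2 ≤ t ^ 2) : |y| ≤ t := by
  have := sq_le_sq.1 h
  rwa [abs_of_nonneg ht] at this

section

variable {y : ℤ → ℝ} {r : ℝ}

/-- hypotheses -/
structure RO (y : ℤ → ℝ) (r : ℝ) : Prop where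
  r0 : 0 ≤ r
  r13 : 13 ≤ r ^ 2
  eq : ∀ n, y (n + 1) - y (n - 1) = y n ^ 2 - (r ^ 2 - 1)
  bd : ∃ m, ∀ n, |y n| ≤ |y m|

lemma RO.r_ge (h : RO y r) : 3.605 ≤ r := by
  have h1 := h.r13
  have h0 := h.r0
  by_contra hc
  rw [not_le] at hc
  nlinarith

lemma RO.le_add_one (h : RO y r) (n : ℤ) : |y n| ≤ r + 1 := by
  obtain ⟨m, hm⟩ := h.bd
  refine (hm n).trans ?_
  have h1 := h.eq m
  have h2 := le_abs_self (y (m + 1))
  have h3 := neg_abs_le (y (m - 1))
  have h4 := hm (m + 1)
  have h5 := hm (m - 1)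
  have h6 := sq_abs (y m)
  have h0 := h.r0
  by_contra hc
  rw [not_le] at hc
  nlinarith

lemma RO.ge (h : RO y r) (n : ℤ) : r - 1.94 ≤ |y n| := by
  have hr := h.r_ge
  apply lo_of_sq (by linarith)
  have h1 := h.eq n
  have h2 := neg_abs_le (y (n + 1))
  have h3 := le_abs_self (y (n - 1))
  have h4 := h.le_add_one (n + 1)
  have h5 := h.le_add_one (n - 1)
  nlinarith

lemma RO.ne (h : RO y r) (n : ℤ) : y n ≠ 0 := by
  intro h0
  have h1 := h.ge n
  rw [h0, abs_zero] at h1
  have := h.r_ge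
  linarith

/-- first step, neighbours of the same sign -/
lemma RO.one0 (h : RO y r) {n : ℤ} (hs : 0 < y (n + 1) * y (n - 1)) :
    r - 0.6 ≤ |y n| ∧ |y n| ≤ r + 0.261 := by
  have hr := h.r_ge
  have h1 := h.eq n
  have h4 := h.le_add_one (n + 1)
  have h5 := h.le_add_one (n - 1)
  have h6 := h.ge (n + 1)
  have h7 := h.ge (n - 1)
  have hd : -2.94 ≤ y (n + 1) - y (n - 1) ∧ y (n + 1) - y (n - 1) ≤ 2.94 := by
    rcases lt_or_gt_of_ne (h.ne (n + 1)) with a | a
    · have b : y (n - 1) < 0 := by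
        by_contra hb
        rw [not_lt] at hb
        have := mul_nonpos_of_nonpos_of_nonneg a.le hb
        linarith
      rw [abs_of_neg a] at h4 h6
      rw [abs_of_neg b] at h5 h7
      constructor <;> linarith
    · have b : 0 < y (n - 1) := by
        by_contra hb
        rw [not_lt] at hb
        have := mul_nonpos_of_nonneg_of_nonpos a.le hb
        linarith
      rw [abs_of_pos a] at h4 h6
      rw [abs_of_pos b] at h5 h7
      constructor <;> linarith
  constructor
  · apply lo_of_sq (by linarith)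
    nlinarith [hd.1]
  · apply hi_of_sq (by linarith)
    nlinarith [hd.2]

lemma RO.one1 (h : RO y r) {n : ℤ} (hp : 0 < y (n + 1)) (hm : y (n - 1) < 0) :
    r + 0.3 ≤ |y n| ∧ |y n| ≤ r + 1 := by
  have hr := h.r_ge
  have h1 := h.eq n
  have h6 := h.ge (n + 1)
  have h7 := h.ge (n - 1)
  rw [abs_of_pos hp] at h6
  rw [abs_of_neg hm] at h7
  refine ⟨?_, h.le_add_one n⟩
  apply lo_of_sq (by linarith)
  nlinarith

lemma RO.onem (h : RO y r) {n : ℤ} (hp : y (n + 1) < 0) (hm : 0 < y (n - 1)) :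
    r - 1.94 ≤ |y n| ∧ |y n| ≤ r - 0.66 := by
  have hr := h.r_ge
  have h1 := h.eq n
  have h6 := h.ge (n + 1)
  have h7 := h.ge (n - 1)
  rw [abs_of_neg hp] at h6
  rw [abs_of_pos hm] at h7
  refine ⟨h.ge n, ?_⟩
  apply hi_of_sq (by linarith)
  nlinarith

/-- index whose earlier neighbour is positive -/
lemma RO.prev_pos (h : RO y r) {n : ℤ} (hp : 0 < y (n - 1)) : |y n| ≤ r + 0.261 := by
  rcases lt_or_gt_of_ne (h.ne (n + 1)) with a | a
  · have := (h.onem a hp).2
    linarith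
  · exact (h.one0 (mul_pos a hp)).2

lemma RO.prev_neg (h : RO y r) {n : ℤ} (hp : y (n - 1) < 0) : r - 0.6 ≤ |y n| := by
  rcases lt_or_gt_of_ne (h.ne (n + 1)) with a | a
  · exact (h.one0 (mul_pos_of_neg_of_neg a hp)).1
  · have := (h.one1 a hp).1
    linarith

lemma RO.next_pos (h : RO y r) {n : ℤ} (hp : 0 < y (n + 1)) : r - 0.6 ≤ |y n| := by
  rcases lt_or_gt_of_ne (h.ne (n - 1)) with a | a
  · have := (h.one1 hp a).1
    linarith
  · exact (h.one0 (mul_pos hp a)).1

lemma RO.next_neg (h : RO y r) {n : ℤ} (hp : y (n + 1) < 0) : |y n| ≤ r + 0.261 := by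
  rcases lt_or_gt_of_ne (h.ne (n - 1)) with a | a
  · exact (h.one0 (mul_pos_of_neg_of_neg hp a)).2
  · have := (h.onem hp a).2
    linarith

/-- the sum of the neighbours -/
lemma RO.sum (h : RO y r) (n : ℤ) :
    2 * r - 2.54 ≤ |y (n + 1)| + |y (n - 1)| ∧ |y (n + 1)| + |y (n - 1)| ≤ 2 * r + 1.261 := by
  have e1 : n + 1 - 1 = n := by ring
  have e2 : n - 1 + 1 = n := by ring
  have a1 := h.le_add_one (n + 1)
  have a2 := h.le_add_one (n - 1)
  have a3 := h.ge (n + 1)
  have a4 := h.ge (n - 1)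
  rcases lt_or_gt_of_ne (h.ne n) with a | a
  · have b1 := h.prev_neg (n := n + 1) (by rw [e1]; exact a)
    have b2 := h.next_neg (n := n - 1) (by rw [e2]; exact a)
    constructor <;> linarith
  · have b1 := h.prev_pos (n := n + 1) (by rw [e1]; exact a)
    have b2 := h.next_pos (n := n - 1) (by rw [e2]; exact a)
    constructor <;> linarith

lemma RO.two1 (h : RO y r) {n : ℤ} (hp : 0 < y (n + 1)) (hm : y (n - 1) < 0) :
    r + 0.47 ≤ |y n| ∧ |y n| ≤ r + 1 := by
  have hr := h.r_ge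
  have h1 := h.eq n
  have h6 := (h.sum n).1
  rw [abs_of_pos hp, abs_of_neg hm] at h6
  refine ⟨?_, h.le_add_one n⟩
  apply lo_of_sq (by linarith)
  nlinarith

lemma RO.twom (h : RO y r) {n : ℤ} (hp : y (n + 1) < 0) (hm : 0 < y (n - 1)) :
    r - 1.728 ≤ |y n| ∧ |y n| ≤ r - 0.898 := by
  have hr := h.r_ge
  have h1 := h.eq n
  have h6 := h.sum n
  rw [abs_of_neg hp, abs_of_pos hm] at h6
  obtain ⟨h6, h7⟩ := h6
  constructor
  · apply lo_of_sq (by linarith)
    nlinarith
  · apply hi_of_sq (by linarith)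
    nlinarith

/-- the window -/
lemma RO.window (h : RO y r) (n : ℤ) :
    r - 0.728 ≤ |y n| - D (fun k => decide (y k < 0)) n ∧
      |y n| - D (fun k => decide (y k < 0)) n ≤ r + 0.261 := by
  unfold D
  rcases lt_or_gt_of_ne (h.ne (n + 1)) with a | a <;>
    rcases lt_or_gt_of_ne (h.ne (n - 1)) with b | b
  · have w := h.one0 (mul_pos_of_neg_of_neg a b)
    simp only [a, b, decide_true, bt, if_true, sub_self, Int.cast_zero, sub_zero]
    constructor <;> linarith [w.1, w.2]
  · have w := h.twom a b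
    have b' : ¬ y (n - 1) < 0 := not_lt.2 b.le
    simp only [a, b', decide_true, decide_false, bt, if_true, Bool.false_eq_true, if_false]
    norm_num
    constructor <;> linarith [w.1, w.2]
  · have w := h.two1 a b
    have a' : ¬ y (n + 1) < 0 := not_lt.2 a.le
    simp only [a', b, decide_true, decide_false, bt, if_true, Bool.false_eq_true, if_false]
    norm_num
    constructor <;> linarith [w.1, w.2]
  · have w := h.one0 (mul_pos a b)
    have a' : ¬ y (n + 1) < 0 := not_lt.2 a.le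
    have b' : ¬ y (n - 1) < 0 := not_lt.2 b.le
    simp only [a', b', decide_false, bt, Bool.false_eq_true, if_false, sub_self, Int.cast_zero,
      sub_zero]
    constructor <;> linarith [w.1, w.2]

end

end Pool.Agent.Henon88
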