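import Pool.Agent.Henon88.EntA

/-!
The search for three sign places (first type) and the meaning of its success.
-/

namespace Pool.Agent.Henon88

def kA (e : ℕ) : ℕ := fl e 2 4

def gA (u v : ℕ) : Bool := Nat.beq (fl u 4194304 64) (fl v 4194304 64)

def ad (a b : ℕ) : ℕ := Nat.add (Nat.sub a b) (Nat.sub b a)

def pA (WM : ℕ) (u v : ℕ) : Bool := Nat.ble WM (ad (fl u 4194304 8) (fl v 4194304 8))

def c3A (WM : ℕ) (L : ℕ → ℕ) (e : ℕ) : Bool :=
  Bool.rec false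
    (Bool.rec (chk L (Nat.mod (Nat.add (kA e) 2) 4) e (pA WM)) true (Nat.beq WM 0))
    (chk L (kA e) e gA)

def hv (em e ep s t : ℕ) : ℕ :=
  Nat.sub (Nat.add (fl ep s 4) 3) (Nat.add (fl em s 4) (fl e t 2))

def smA (zf : ℕ → ℕ → ℕ) (em e ep : ℕ) : ℕ :=
  Nat.add (Nat.add 1 (Nat.mul 2 (kA e))) (Nat.add (Nat.mul 8 (hv em e ep 8 512))
   (Nat.add (Nat.mul 64 (zf (fl e 4096 16) (hv em e ep 32 1024)))
    (Nat.add (Nat.mul 1024 (hv em e ep 128 2048)) (Nat.add (Nat.mul 8192 (fl e 65536 8))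
      (Nat.mul 65536 (fl e 524288 8))))))

def g5A (u v : ℕ) : Bool :=
  Bool.rec false
    (Bool.rec true
      (Bool.rec
        (Nat.ble (Nat.succ (ad (fl u 1024 8) (fl v 1024 8))) (ad (fl u 65536 8) (fl v 65536 8)))
        true (Nat.beq (fl u 1024 8) (fl v 1024 8)))
      (Nat.beq (fl u 8192 8) (fl v 8192 8)))
    (Nat.beq (fl u 8 128) (fl v 8 128))

def c5A (L : ℕ → ℕ) (d : ℕ) : Bool := chk L (kA d) d g5A

/-- the search -/
def runA (T : ℕ) (zf : ℕ → ℕ → ℕ) (WM : ℕ) : Bool :=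
  start 8 (rd T) kA (c3A WM) (smA zf) kA c5A 20

/-- the part of the search with given second letter -/
def runA1 (T : ℕ) (zf : ℕ → ℕ → ℕ) (WM b : ℕ) : Bool :=
  start1 8 (rd T) kA (c3A WM) (smA zf) kA c5A 20 b

lemma runA_of {T : ℕ} {zf : ℕ → ℕ → ℕ} {WM : ℕ} (h0 : runA1 T zf WM 0 = true)
    (h1 : runA1 T zf WM 1 = true) (h2 : runA1 T zf WM 2 = true) (h3 : runA1 T zf WM 3 = true)
    (h4 : runA1 T zf WM 4 = true) (h5 : runA1 T zf WM 5 = true) (h6 : runA1 T zf WM 6 = true)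
    (h7 : runA1 T zf WM 7 = true) : runA T zf WM = true := by
  have h : all (fun b => runA1 T zf WM b) 8 = true := by
    refine all_of fun b hb => ?_
    have hb' : b = 0 ∨ b = 1 ∨ b = 2 ∨ b = 3 ∨ b = 4 ∨ b = 5 ∨ b = 6 ∨ b = 7 := by omega
    rcases hb' with rfl | rfl | rfl | rfl | rfl | rfl | rfl | rfl
    exacts [h0, h1, h2, h3, h4, h5, h6, h7]
  exact h

/-- strong third place -/
def zf0 (_ h : ℕ) : ℕ := h

/-- weak third place -/
def zfw (l m : ℕ) (z h : ℕ) : ℕ := Nat.mod (Nat.add z (Nat.mul l h)) m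

end Pool.Agent.Henon88
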