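import Pool.Agent.Henon88.SemA

/-!
The search for three sign places (second type: both prime places weak) and the meaning of its
success.
-/

namespace Pool.Agent.Henon88

def ind (k : ℕ) (a b : Bool) : ℤ :=
  match k with
  | 0 => (1 - bt a) * (1 - bt b)
  | 1 => bt a * (1 - bt b)
  | 2 => (1 - bt a) * bt b
  | _ => bt a * bt b

/-- coefficient of the class `k` -/
def ph (k : ℕ) (a0 a1 a2 s0 s1 s2 b0 b1 b2 : Bool) : ℤ :=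
  sg b0 * ind k (xor b0 b1) (xor b0 b2) - sg a0 * ind k (xor a0 a1) (xor a0 a2)
    - 2 * dd a0 b0 * ind k (xor s0 s1) (xor s0 s2)

/-- the base entry -/
def FB (a0 a1 a2 s0 s1 s2 b0 b1 b2 : Bool) : ℕ :=
  (1 + 2 * bt (xor s0 s1) + 4 * bt (xor s0 s2)
    + 8 * (sg s0 * sg s1 * dd a1 b1 - dd a0 b0 + 2)
    + 64 * (sg s0 * sg s2 * dd a2 b2 - dd a0 b0 + 2)
    + 512 * (sg s0 * dd a0 b0 + 1) + 2048 * (dd a0 b0) ^ 2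
    + 4096 * (ph 0 a0 a1 a2 s0 s1 s2 b0 b1 b2 + 3)
    + 32768 * (ph 1 a0 a1 a2 s0 s1 s2 b0 b1 b2 + 3)
    + 262144 * (ph 2 a0 a1 a2 s0 s1 s2 b0 b1 b2 + 3)
    + 2097152 * (ph 3 a0 a1 a2 s0 s1 s2 b0 b1 b2 + 3)).toNat

set_option maxRecDepth 100000 in
lemma decB : ∀ a0 a1 a2 s0 s1 s2 b0 b1 b2 : Bool,
    let e := FB a0 a1 a2 s0 s1 s2 b0 b1 b2
    e < 4294967296 ∧
    (fl e 2 4 : ℤ) = bt (xor s0 s1) + 2 * bt (xor s0 s2) ∧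
    (fl e 8 8 : ℤ) = sg s0 * sg s1 * dd a1 b1 - dd a0 b0 + 2 ∧
    (fl e 64 8 : ℤ) = sg s0 * sg s2 * dd a2 b2 - dd a0 b0 + 2 ∧
    (fl e 512 4 : ℤ) = sg s0 * dd a0 b0 + 1 ∧
    (fl e 2048 2 : ℤ) = (dd a0 b0) ^ 2 ∧
    (fl e 4096 8 : ℤ) = ph 0 a0 a1 a2 s0 s1 s2 b0 b1 b2 + 3 ∧
    (fl e 32768 8 : ℤ) = ph 1 a0 a1 a2 s0 s1 s2 b0 b1 b2 + 3 ∧
    (fl e 262144 8 : ℤ) = ph 2 a0 a1 a2 s0 s1 s2 b0 b1 b2 + 3 ∧
    (fl e 2097152 8 : ℤ) = ph 3 a0 a1 a2 s0 s1 s2 b0 b1 b2 + 3 := by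
  decide +kernel

def sel (τ0 τ1 τ2 τ3 k : ℕ) : ℕ :=
  Nat.rec τ0 (fun k1 _ => Nat.rec τ1 (fun k2 _ => Nat.rec τ2 (fun _ _ => τ3) k2) k1) k

/-- the entry for given parameters -/
def gB (Q1 Q2 den τ0 τ1 τ2 τ3 : ℕ) (e : ℕ) : ℕ :=
  Nat.add (Nat.add 1 (Nat.mul 2 (fl e 2 4)))
  (Nat.add (Nat.mul 8 (Nat.mod (Nat.add (sel τ0 τ1 τ2 τ3 (fl e 2 4))
    (Nat.mul den (Nat.sub 4 (fl e 8 8)))) Q1))
  (Nat.add (Nat.mul 128 (Nat.mod (Nat.add (sel τ0 τ1 τ2 τ3 (fl e 2 4))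
    (Nat.mul den (Nat.sub 4 (fl e 64 8)))) Q2))
  (Nat.add (Nat.mul 2048 (fl e 512 4)) (Nat.add (Nat.mul 8192 (sel τ0 τ1 τ2 τ3 (fl e 2 4)))
  (Nat.mul 524288 (Nat.add (Nat.add (Nat.mul τ0 (fl e 4096 8)) (Nat.mul τ1 (fl e 32768 8)))
    (Nat.add (Nat.add (Nat.mul τ2 (fl e 262144 8)) (Nat.mul τ3 (fl e 2097152 8)))
      (Nat.mul den (Nat.sub 1 (fl e 2048 2))))))))))

def beqf (s m u v : ℕ) : Bool := Nat.beq (fl u s m) (fl v s m)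

def c3B (tie : Bool) (L : ℕ → ℕ) (e : ℕ) : Bool :=
  Bool.rec false
    (Bool.rec false
      (Bool.rec false
        (Bool.rec true (Nat.ble (kA e) 1) tie)
        (chk L (Nat.xor (kA e) 1) e (beqf 128 16)))
      (chk L (Nat.xor (kA e) 2) e (beqf 8 16)))
    (chk L (kA e) e (beqf 8 256))

def smB (den em e ep : ℕ) : ℕ :=
  Nat.add (Nat.add 1 (Nat.mul 2 (kA e))) (Nat.add (Nat.mul 8 (fl e 8192 64))
    (Nat.mul 512 (Nat.add (Nat.mul den (Nat.sub (Nat.add (fl ep 2048 4) 2) (fl em 2048 4)))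
      (fl e 524288 1024))))

def rB (u v : ℕ) : Bool :=
  Bool.rec false
    (Bool.rec true
      (Nat.ble (Nat.add (Nat.mul 57 (Nat.sub (fl v 8 64) (fl u 8 64))) (Nat.mul 10 (Nat.div u 512)))
        (Nat.mul 10 (Nat.div v 512)))
      (Nat.ble (fl u 8 64) (fl v 8 64)))
    (Bool.rec true
      (Nat.ble (Nat.add (Nat.mul 57 (Nat.sub (fl u 8 64) (fl v 8 64))) (Nat.mul 10 (Nat.div v 512)))
        (Nat.mul 10 (Nat.div u 512)))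
      (Nat.ble (fl v 8 64) (fl u 8 64)))

def c5B (L : ℕ → ℕ) (d : ℕ) : Bool := all (fun k => chk L k d rB) 4

/-- the search -/
def runB (T : ℕ) (tie : Bool) (den : ℕ) : Bool :=
  start 8 (rd T) kA (c3B tie) (smB den) kA c5B 20

/-- table for given parameters, from the base table -/
def tabB (Tb Q1 Q2 den τ1 τ2 τ3 : ℕ) : ℕ :=
  tab (fun c => gB Q1 Q2 den den τ1 τ2 τ3 (rd Tb c)) 512

def baseB : ℕ := tab (ofCode FB) 512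

def runBp (Q1 Q2 den : ℕ) (tie : Bool) (τ1 τ2 τ3 : ℕ) : Bool :=
  runB (tabB baseB Q1 Q2 den τ1 τ2 τ3) tie den

end Pool.Agent.Henon88
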