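import Pool.Agent.Henon88.BaseB

/-!
Meaning of the success of the second search.
-/

namespace Pool.Agent.Henon88

def tt (t1 t2 t3 : ℤ) (a b : Bool) : ℤ :=
  t1 * (bt a * (1 - bt b)) + t2 * ((1 - bt a) * bt b) + t3 * (bt a * bt b)

/-- class value along a sequence -/
def TV (t1 t2 t3 : ℤ) (s e1 e2 : ℤ → Bool) (n : ℤ) : ℤ := tt t1 t2 t3 (cl s e1 n) (cl s e2 n)

def EV (den : ℤ) (t1 t2 t3 : ℤ) (s e1 e2 : ℤ → Bool) (n : ℤ) : ℤ :=
  den * hh s n + (sg (s (n + 1)) * TV t1 t2 t3 s e1 e2 (n + 1)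
    - sg (s (n - 1)) * TV t1 t2 t3 s e1 e2 (n - 1) - 2 * D s n * TV t1 t2 t3 s e1 e2 n)

/-- the relations used by the search -/
structure SemB (Q1 Q2 den : ℕ) (t1 t2 t3 : ℤ) (tie : Bool) (s e1 e2 : ℤ → Bool) : Prop where
  s0 : s 0 = false
  e10 : e1 0 = false
  e20 : e2 0 = false
  c1 : ∀ n m, cl s e1 n = cl s e1 m → (Q1 : ℤ) ∣ (TV t1 t2 t3 s e1 e2 n - den * ww s e1 n)
    - (TV t1 t2 t3 s e1 e2 m - den * ww s e1 m)
  c2 : ∀ n m, cl s e2 n = cl s e2 m → (Q2 : ℤ) ∣ (TV t1 t2 t3 s e1 e2 n - den * ww s e2 n)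
    - (TV t1 t2 t3 s e1 e2 m - den * ww s e2 m)
  R : ∀ n m, TV t1 t2 t3 s e1 e2 m ≤ TV t1 t2 t3 s e1 e2 n →
    57 * (TV t1 t2 t3 s e1 e2 n - TV t1 t2 t3 s e1 e2 m)
      ≤ 10 * (EV den t1 t2 t3 s e1 e2 n - EV den t1 t2 t3 s e1 e2 m)
  tie : tie = true → ∀ n, cl s e2 n = false

/-- the parameters -/
structure ParB (Q1 Q2 den τ1 τ2 τ3 : ℕ) (t1 t2 t3 : ℤ) : Prop where
  q1 : 0 < Q1 ∧ Q1 ≤ 16
  q2 : 0 < Q2 ∧ Q2 ≤ 16
  dn : den ≤ 12
  a1 : (τ1 : ℤ) = t1 + den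
  a2 : (τ2 : ℤ) = t2 + den
  a3 : (τ3 : ℤ) = t3 + den
  b1 : τ1 ≤ 2 * den
  b2 : τ2 ≤ 2 * den
  b3 : τ3 ≤ 2 * den

/-- the fields of a base entry -/
structure FldB0 (s e1 e2 : ℤ → Bool) (n : ℤ) (e : ℕ) : Prop where
  k : (fl e 2 4 : ℤ) = bt (cl s e1 n) + 2 * bt (cl s e2 n)
  w1 : (fl e 8 8 : ℤ) = ww s e1 n + 2
  w2 : (fl e 64 8 : ℤ) = ww s e2 n + 2
  p0 : (fl e 512 4 : ℤ) = sg (s n) * D s n + 1
  r0 : (fl e 2048 2 : ℤ) = (D s n) ^ 2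
  f0 : (fl e 4096 8 : ℤ) = sg (s (n + 1)) * ind 0 (cl s e1 (n + 1)) (cl s e2 (n + 1))
    - sg (s (n - 1)) * ind 0 (cl s e1 (n - 1)) (cl s e2 (n - 1))
    - 2 * D s n * ind 0 (cl s e1 n) (cl s e2 n) + 3
  f1 : (fl e 32768 8 : ℤ) = sg (s (n + 1)) * ind 1 (cl s e1 (n + 1)) (cl s e2 (n + 1))
    - sg (s (n - 1)) * ind 1 (cl s e1 (n - 1)) (cl s e2 (n - 1))
    - 2 * D s n * ind 1 (cl s e1 n) (cl s e2 n) + 3
  f2 : (fl e 262144 8 : ℤ) = sg (s (n + 1)) * ind 2 (cl s e1 (n + 1)) (cl s e2 (n + 1))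
    - sg (s (n - 1)) * ind 2 (cl s e1 (n - 1)) (cl s e2 (n - 1))
    - 2 * D s n * ind 2 (cl s e1 n) (cl s e2 n) + 3
  f3 : (fl e 2097152 8 : ℤ) = sg (s (n + 1)) * ind 3 (cl s e1 (n + 1)) (cl s e2 (n + 1))
    - sg (s (n - 1)) * ind 3 (cl s e1 (n - 1)) (cl s e2 (n - 1))
    - 2 * D s n * ind 3 (cl s e1 n) (cl s e2 n) + 3

lemma ww_bd (s e : ℤ → Bool) (n : ℤ) : -2 ≤ ww s e n ∧ ww s e n ≤ 2 := by
  unfold ww D
  generalize s n = a
  generalize e n = b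
  generalize s (n - 1) = c
  generalize s (n + 1) = d
  generalize e (n - 1) = f
  generalize e (n + 1) = g
  revert a b c d f g
  decide

/-- the fields of an entry (the constants `K`, `C1`, `C2` do not depend on `n`) -/
structure FldB (Q1 Q2 den : ℕ) (K : ℤ) (t1 t2 t3 : ℤ) (s e1 e2 : ℤ → Bool) (n : ℤ) (e : ℕ) :
    Prop where
  k : (kA e : ℤ) = bt (cl s e1 n) + 2 * bt (cl s e2 n)
  c1 : (fl e 8 16 : ℤ) = (TV t1 t2 t3 s e1 e2 n - den * ww s e1 n + 3 * den) % Q1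
  c2 : (fl e 128 16 : ℤ) = (TV t1 t2 t3 s e1 e2 n - den * ww s e2 n + 3 * den) % Q2
  c12 : (fl e 8 256 : ℤ) = (TV t1 t2 t3 s e1 e2 n - den * ww s e1 n + 3 * den) % Q1
    + 16 * ((TV t1 t2 t3 s e1 e2 n - den * ww s e2 n + 3 * den) % Q2)
  p0 : (fl e 2048 4 : ℤ) = sg (s n) * D s n + 1
  t : (fl e 8192 64 : ℤ) = TV t1 t2 t3 s e1 e2 n + den
  v : (fl e 524288 1024 : ℤ) = sg (s (n + 1)) * TV t1 t2 t3 s e1 e2 (n + 1)
    - sg (s (n - 1)) * TV t1 t2 t3 s e1 e2 (n - 1) - 2 * D s n * TV t1 t2 t3 s e1 e2 n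
    - den * D s n ^ 2 + K

lemma gB_dec {k c1 c2 p0 τ v : ℕ} (hk : k < 4) (h1 : c1 < 16) (h2 : c2 < 16) (hp : p0 < 4)
    (ht : τ < 64) (hv : v < 1024) (E : ℕ)
    (hE : E = (1 + 2 * k) + (8 * c1 + (128 * c2 + (2048 * p0 + (8192 * τ + 524288 * v))))) :
    E / 2 % 4 = k ∧ E / 8 % 16 = c1 ∧ E / 128 % 16 = c2 ∧ E / 8 % 256 = c1 + 16 * c2 ∧
      E / 2048 % 4 = p0 ∧ E / 8192 % 64 = τ ∧ E / 524288 % 1024 = v ∧ E < 4294967296 := by
  subst hE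
  refine ⟨?_, ?_, ?_, ?_, ?_, ?_, ?_, ?_⟩ <;> omega

lemma sel_eq {den τ1 τ2 τ3 : ℕ} {t1 t2 t3 : ℤ} {k : ℕ} {a b : Bool} (h1 : (τ1 : ℤ) = t1 + den)
    (h2 : (τ2 : ℤ) = t2 + den) (h3 : (τ3 : ℤ) = t3 + den) (hk : (k : ℤ) = bt a + 2 * bt b) :
    (sel den τ1 τ2 τ3 k : ℤ) = tt t1 t2 t3 a b + den := by
  have hk' : k = a.toNat + 2 * b.toNat := by
    cases a <;> cases b <;> simp [bt] at hk ⊢ <;> omega
  subst hk'
  cases a <;> cases b
  · show (den : ℤ) = _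
    simp [tt, bt]
  · show (τ2 : ℤ) = _
    rw [h2]; simp [tt, bt]
  · show (τ1 : ℤ) = _
    rw [h1]; simp [tt, bt]
  · show (τ3 : ℤ) = _
    rw [h3]; simp [tt, bt]

lemma tt_ind (t1 t2 t3 : ℤ) (a b : Bool) :
    tt t1 t2 t3 a b = t1 * ind 1 a b + t2 * ind 2 a b + t3 * ind 3 a b := by
  simp only [tt, ind]

lemma ind_sum (a b : Bool) : ind 0 a b + ind 1 a b + ind 2 a b + ind 3 a b = 1 := by
  simp only [ind]; ring

lemma sel_le {den τ1 τ2 τ3 : ℕ} (b1 : τ1 ≤ 2 * den) (b2 : τ2 ≤ 2 * den) (b3 : τ3 ≤ 2 * den)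
    (k : ℕ) : sel den τ1 τ2 τ3 k ≤ 2 * den := by
  rcases k with _ | _ | _ | k
  · show den ≤ _; omega
  · exact b1
  · exact b2
  · exact b3

lemma fldB_of {Q1 Q2 den τ1 τ2 τ3 : ℕ} {t1 t2 t3 : ℤ} (P : ParB Q1 Q2 den τ1 τ2 τ3 t1 t2 t3)
    {s e1 e2 : ℤ → Bool} {n : ℤ} {e : ℕ} (h : FldB0 s e1 e2 n e) :
    FldB Q1 Q2 den (3 * (den + τ1 + τ2 + τ3) + den) t1 t2 t3 s e1 e2 n
      (gB Q1 Q2 den den τ1 τ2 τ3 e) := by
  have hs := sel_eq P.a1 P.a2 P.a3 h.k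
  have hsl := sel_le P.b1 P.b2 P.b3 (fl e 2 4)
  have hden := P.dn
  have k4 : fl e 2 4 < 4 := Nat.mod_lt _ (by norm_num)
  have p4 : fl e 512 4 < 4 := Nat.mod_lt _ (by norm_num)
  have f0 : fl e 4096 8 < 8 := Nat.mod_lt _ (by norm_num)
  have f1 : fl e 32768 8 < 8 := Nat.mod_lt _ (by norm_num)
  have f2 : fl e 262144 8 < 8 := Nat.mod_lt _ (by norm_num)
  have f3 : fl e 2097152 8 < 8 := Nat.mod_lt _ (by norm_num)
  have r2 : fl e 2048 2 < 2 := Nat.mod_lt _ (by norm_num)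
  have wb1 := ww_bd s e1 n
  have wb2 := ww_bd s e2 n
  have hv : (den * fl e 4096 8 + τ1 * fl e 32768 8)
      + ((τ2 * fl e 262144 8 + τ3 * fl e 2097152 8) + den * (1 - fl e 2048 2)) < 1024 := by
    have a0 : den * fl e 4096 8 ≤ 12 * 7 := Nat.mul_le_mul (by omega) (by omega)
    have a1 : τ1 * fl e 32768 8 ≤ 24 * 7 := Nat.mul_le_mul (by have := P.b1; omega) (by omega)
    have a2 : τ2 * fl e 262144 8 ≤ 24 * 7 := Nat.mul_le_mul (by have := P.b2; omega) (by omega)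
    have a3 : τ3 * fl e 2097152 8 ≤ 24 * 7 := Nat.mul_le_mul (by have := P.b3; omega) (by omega)
    have a4 : den * (1 - fl e 2048 2) ≤ 12 * 1 := Nat.mul_le_mul (by omega) (by omega)
    omega
  obtain ⟨d1, d2, d3, d4, d5, d6, d7, -⟩ := gB_dec (c1 := (sel den τ1 τ2 τ3 (fl e 2 4)
      + den * (4 - fl e 8 8)) % Q1) (c2 := (sel den τ1 τ2 τ3 (fl e 2 4)
      + den * (4 - fl e 64 8)) % Q2) k4 ((Nat.mod_lt _ P.q1.1).trans_le P.q1.2)
      ((Nat.mod_lt _ P.q2.1).trans_le P.q2.2) p4 (τ := sel den τ1 τ2 τ3 (fl e 2 4)) (by omega) hv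
      (gB Q1 Q2 den den τ1 τ2 τ3 e) rfl
  have m1 : (((sel den τ1 τ2 τ3 (fl e 2 4) + den * (4 - fl e 8 8)) % Q1 : ℕ) : ℤ)
      = (TV t1 t2 t3 s e1 e2 n - den * ww s e1 n + 3 * den) % Q1 := by
    have : ((4 - fl e 8 8 : ℕ) : ℤ) = 2 - ww s e1 n := by
      have := h.w1
      omega
    push_cast
    rw [this, hs]
    congr 1
    unfold TV
    ring
  have m2 : (((sel den τ1 τ2 τ3 (fl e 2 4) + den * (4 - fl e 64 8)) % Q2 : ℕ) : ℤ)
      = (TV t1 t2 t3 s e1 e2 n - den * ww s e2 n + 3 * den) % Q2 := by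
    have : ((4 - fl e 64 8 : ℕ) : ℤ) = 2 - ww s e2 n := by
      have := h.w2
      omega
    push_cast
    rw [this, hs]
    congr 1
    unfold TV
    ring
  refine ⟨?_, ?_, ?_, ?_, ?_, ?_, ?_⟩
  · have : kA (gB Q1 Q2 den den τ1 τ2 τ3 e) = fl e 2 4 := d1
    rw [this]; exact h.k
  · rw [← m1]; exact_mod_cast d2
  · rw [← m2]; exact_mod_cast d3
  · rw [← m1, ← m2]; exact_mod_cast d4
  · have : fl (gB Q1 Q2 den den τ1 τ2 τ3 e) 2048 4 = fl e 512 4 := d5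
    rw [this]; exact h.p0
  · have : fl (gB Q1 Q2 den den τ1 τ2 τ3 e) 8192 64 = sel den τ1 τ2 τ3 (fl e 2 4) := d6
    rw [this]; exact hs
  · have e7 : fl (gB Q1 Q2 den den τ1 τ2 τ3 e) 524288 1024
      = (den * fl e 4096 8 + τ1 * fl e 32768 8)
      + ((τ2 * fl e 262144 8 + τ3 * fl e 2097152 8) + den * (1 - fl e 2048 2)) := d7
    rw [e7]
    have r : ((1 - fl e 2048 2 : ℕ) : ℤ) = 1 - D s n ^ 2 := by
      have := h.r0
      omega
    push_cast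
    rw [r, h.f0, h.f1, h.f2, h.f3, P.a1, P.a2, P.a3]
    unfold TV
    rw [tt_ind, tt_ind, tt_ind]
    have i1 := ind_sum (cl s e1 (n + 1)) (cl s e2 (n + 1))
    have i2 := ind_sum (cl s e1 (n - 1)) (cl s e2 (n - 1))
    have i3 := ind_sum (cl s e1 n) (cl s e2 n)
    have i4 := two_D s n
    linear_combination (den : ℤ) * sg (s (n + 1)) * i1 - (den : ℤ) * sg (s (n - 1)) * i2
      - 2 * (den : ℤ) * D s n * i3 - (den : ℤ) * i4

/-- `T` is the table of the base entries -/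
def IsTabB (T : ℕ) : Prop := ∀ c < 512, rd T c = ofCode FB c

lemma isTabB_tab : IsTabB (tab (ofCode FB) 512) := by
  intro c hc
  exact rd_tab (fun c _ =>
    (decB (tb c 0) (tb c 1) (tb c 2) (tb c 3) (tb c 4) (tb c 5) (tb c 6) (tb c 7) (tb c 8)).1) hc

lemma isTabB_baseL : IsTabB baseL := by
  rw [← Nat.eq_of_beq_eq_true baseL_eq]
  exact isTabB_tab

lemma W3_lt (s e1 e2 : ℤ → Bool) (i : ℕ) : W3 (lts s e1 e2) i < 512 := by
  unfold W3 lts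
  have := lt_lt (s i) (e1 i) (e2 i)
  have := lt_lt (s (i + 1 : ℕ)) (e1 (i + 1 : ℕ)) (e2 (i + 1 : ℕ))
  have := lt_lt (s (i + 2 : ℕ)) (e1 (i + 2 : ℕ)) (e2 (i + 2 : ℕ))
  omega

lemma fldB0 {T : ℕ} (hT : IsTabB T) (s e1 e2 : ℤ → Bool) (i : ℕ) :
    FldB0 s e1 e2 (i + 1) (rd T (W3 (lts s e1 e2) i)) := by
  rw [hT _ (W3_lt s e1 e2 i)]
  unfold W3 lts
  rw [ofCode_code]
  have c1 : ((i + 1 : ℕ) : ℤ) = (i : ℤ) + 1 := by push_cast; ring
  have c2 : ((i + 2 : ℕ) : ℤ) = (i : ℤ) + 2 := by push_cast; ring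
  rw [c1, c2]
  obtain ⟨-, h1, h2, h3, h4, h5, h6, h7, h8, h9⟩ :=
    decB (s i) (e1 i) (e2 i) (s (i + 1)) (e1 (i + 1)) (e2 (i + 1)) (s (i + 2)) (e1 (i + 2)) (e2 (i + 2))
  have u1 : (i : ℤ) + 1 + 1 = i + 2 := by ring
  have u2 : (i : ℤ) + 1 - 1 = i := by ring
  simp only [dd_D] at h2 h3 h4 h5
  simp only [ph, dd_D] at h6 h7 h8 h9
  refine ⟨h1, h2, h3, h4, h5, ?_, ?_, ?_, ?_⟩
  · rw [u1, u2]; exact h6
  · rw [u1, u2]; exact h7
  · rw [u1, u2]; exact h8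
  · rw [u1, u2]; exact h9

lemma rd_tabB {T Q1 Q2 den τ1 τ2 τ3 : ℕ} {t1 t2 t3 : ℤ} (P : ParB Q1 Q2 den τ1 τ2 τ3 t1 t2 t3)
    (c : ℕ) (hc : c < 512) :
    rd (tabB T Q1 Q2 den τ1 τ2 τ3) c = gB Q1 Q2 den den τ1 τ2 τ3 (rd T c) := by
  refine rd_tab (f := fun c => gB Q1 Q2 den den τ1 τ2 τ3 (rd T c)) ?_ hc
  intro c _
  show gB Q1 Q2 den den τ1 τ2 τ3 (rd T c) < 4294967296
  generalize rd T c = e
  have hsl := sel_le P.b1 P.b2 P.b3 (fl e 2 4)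
  have hden := P.dn
  have k4 : fl e 2 4 < 4 := Nat.mod_lt _ (by norm_num)
  have p4 : fl e 512 4 < 4 := Nat.mod_lt _ (by norm_num)
  have f0 : fl e 4096 8 < 8 := Nat.mod_lt _ (by norm_num)
  have f1 : fl e 32768 8 < 8 := Nat.mod_lt _ (by norm_num)
  have f2 : fl e 262144 8 < 8 := Nat.mod_lt _ (by norm_num)
  have f3 : fl e 2097152 8 < 8 := Nat.mod_lt _ (by norm_num)
  have r2 : fl e 2048 2 < 2 := Nat.mod_lt _ (by norm_num)
  have hv : (den * fl e 4096 8 + τ1 * fl e 32768 8)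
      + ((τ2 * fl e 262144 8 + τ3 * fl e 2097152 8) + den * (1 - fl e 2048 2)) < 1024 := by
    have a0 : den * fl e 4096 8 ≤ 12 * 7 := Nat.mul_le_mul (by omega) (by omega)
    have a1 : τ1 * fl e 32768 8 ≤ 24 * 7 := Nat.mul_le_mul (by have := P.b1; omega) (by omega)
    have a2 : τ2 * fl e 262144 8 ≤ 24 * 7 := Nat.mul_le_mul (by have := P.b2; omega) (by omega)
    have a3 : τ3 * fl e 2097152 8 ≤ 24 * 7 := Nat.mul_le_mul (by have := P.b3; omega) (by omega)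
    have a4 : den * (1 - fl e 2048 2) ≤ 12 * 1 := Nat.mul_le_mul (by omega) (by omega)
    omega
  exact (gB_dec (c1 := (sel den τ1 τ2 τ3 (fl e 2 4)
      + den * (4 - fl e 8 8)) % Q1) (c2 := (sel den τ1 τ2 τ3 (fl e 2 4)
      + den * (4 - fl e 64 8)) % Q2) k4 ((Nat.mod_lt _ P.q1.1).trans_le P.q1.2)
      ((Nat.mod_lt _ P.q2.1).trans_le P.q2.2) p4 (τ := sel den τ1 τ2 τ3 (fl e 2 4)) (by omega) hv
      (gB Q1 Q2 den den τ1 τ2 τ3 e) rfl).2.2.2.2.2.2.2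

/-- the fields of a summary -/
structure SmFB (den : ℕ) (K : ℤ) (t1 t2 t3 : ℤ) (s e1 e2 : ℤ → Bool) (n : ℤ) (S : ℕ) : Prop where
  t : (fl S 8 64 : ℤ) = TV t1 t2 t3 s e1 e2 n + den
  v : ((Nat.div S 512 : ℕ) : ℤ) = EV den t1 t2 t3 s e1 e2 n + K

lemma smB_dec {k τ E : ℕ} (hk : k < 4) (ht : τ < 64) (S : ℕ)
    (hS : S = (1 + 2 * k) + (8 * τ + 512 * E)) : S / 8 % 64 = τ ∧ S / 512 = E := by
  subst hS
  refine ⟨?_, ?_⟩ <;> omega

lemma smB_fields {Q1 Q2 den : ℕ} {K : ℤ} {t1 t2 t3 : ℤ} {s e1 e2 : ℤ → Bool} {n : ℤ}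
    {em e ep : ℕ} (hm : FldB Q1 Q2 den K t1 t2 t3 s e1 e2 (n - 1) em)
    (h : FldB Q1 Q2 den K t1 t2 t3 s e1 e2 n e)
    (hp : FldB Q1 Q2 den K t1 t2 t3 s e1 e2 (n + 1) ep) :
    SmFB den (K + 2 * den) t1 t2 t3 s e1 e2 n (smB den em e ep) := by
  have k4 : kA e < 4 := Nat.mod_lt _ (by norm_num)
  have t64 : fl e 8192 64 < 64 := Nat.mod_lt _ (by norm_num)
  obtain ⟨d1, d2⟩ := smB_dec (E := den * ((fl ep 2048 4 + 2) - fl em 2048 4) + fl e 524288 1024)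
    k4 t64 (smB den em e ep) rfl
  refine ⟨?_, ?_⟩
  · have : fl (smB den em e ep) 8 64 = fl e 8192 64 := d1
    rw [this]; exact h.t
  · have : Nat.div (smB den em e ep) 512
      = den * ((fl ep 2048 4 + 2) - fl em 2048 4) + fl e 524288 1024 := d2
    rw [this]
    have b : (((fl ep 2048 4 + 2) - fl em 2048 4 : ℕ) : ℤ)
        = sg (s (n + 1)) * D s (n + 1) - sg (s (n - 1)) * D s (n - 1) + 2 := by
      have a1 := hm.p0
      have a2 := hp.p0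
      have b1 : -1 ≤ sg (s (n + 1)) * D s (n + 1) := by
        unfold D sg bt
        cases s (n + 1) <;> cases s (n + 1 + 1) <;> cases s (n + 1 - 1) <;> simp
      have b2 : sg (s (n - 1)) * D s (n - 1) ≤ 1 := by
        unfold D sg bt
        cases s (n - 1) <;> cases s (n - 1 + 1) <;> cases s (n - 1 - 1) <;> simp
      omega
    push_cast [b]
    rw [h.v]
    unfold EV hh
    ring

lemma xor2 : ∀ a b c d : Bool, ∀ k k' : Fin 4, (k' : ℤ) = bt a + 2 * bt b →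
    (k : ℤ) = bt c + 2 * bt d → (k' : ℕ) = Nat.xor k 2 → a = c := by decide

lemma xor1 : ∀ a b c d : Bool, ∀ k k' : Fin 4, (k' : ℤ) = bt a + 2 * bt b →
    (k : ℤ) = bt c + 2 * bt d → (k' : ℕ) = Nat.xor k 1 → b = d := by decide

lemma kA_lt (e : ℕ) : kA e < 4 := Nat.mod_lt _ (by norm_num)

lemma emod_eq_of {a b d K : ℤ} (h : d ∣ a - b) : (a + K) % d = (b + K) % d := by
  rw [Int.emod_eq_emod_iff_emod_sub_eq_zero]
  apply Int.emod_eq_zero_of_dvd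
  rwa [add_sub_add_right_eq_sub]

lemma SemB.c3_ok {Q1 Q2 den : ℕ} {K : ℤ} {t1 t2 t3 : ℤ} {tie : Bool} {s e1 e2 : ℤ → Bool}
    (h : SemB Q1 Q2 den t1 t2 t3 tie s e1 e2) {F : ℕ → ℕ}
    (hF : ∀ i : ℕ, FldB Q1 Q2 den K t1 t2 t3 s e1 e2 (i + 1) (F i)) (L : ℕ → ℕ) (i : ℕ)
    (hL : Inv F kA L) : c3B tie L (F i) = true := by
  have hc : chk L (kA (F i)) (F i) (beqf 8 256) = true := by
    refine chk_true hL ?_
    intro j hj
    have k1 := (hF j).k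
    have k2 := (hF i).k
    rw [hj, k2] at k1
    obtain ⟨q1, q2⟩ := cls_inj k1
    have a1 := emod_eq_of (K := 3 * den) (h.c1 _ _ q1)
    have a2 := emod_eq_of (K := 3 * den) (h.c2 _ _ q2)
    have v1 := (hF j).c12
    have v2 := (hF i).c12
    have : (fl (F j) 8 256 : ℤ) = fl (F i) 8 256 := by rw [v1, v2, a1, a2]
    have e : fl (F j) 8 256 = fl (F i) 8 256 := by exact_mod_cast this
    show Nat.beq _ _ = true
    rw [e]; exact Nat.beq_refl _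
  have hc2 : chk L (Nat.xor (kA (F i)) 2) (F i) (beqf 8 16) = true := by
    refine chk_true hL ?_
    intro j hj
    have q := xor2 _ _ _ _ ⟨kA (F i), kA_lt _⟩ ⟨kA (F j), kA_lt _⟩ (hF j).k (hF i).k hj
    have a1 := emod_eq_of (K := 3 * den) (h.c1 _ _ q)
    have v1 := (hF j).c1
    have v2 := (hF i).c1
    have : (fl (F j) 8 16 : ℤ) = fl (F i) 8 16 := by rw [v1, v2, a1]
    have e : fl (F j) 8 16 = fl (F i) 8 16 := by exact_mod_cast this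
    show Nat.beq _ _ = true
    rw [e]; exact Nat.beq_refl _
  have hc1 : chk L (Nat.xor (kA (F i)) 1) (F i) (beqf 128 16) = true := by
    refine chk_true hL ?_
    intro j hj
    have q := xor1 _ _ _ _ ⟨kA (F i), kA_lt _⟩ ⟨kA (F j), kA_lt _⟩ (hF j).k (hF i).k hj
    have a1 := emod_eq_of (K := 3 * den) (h.c2 _ _ q)
    have v1 := (hF j).c2
    have v2 := (hF i).c2
    have : (fl (F j) 128 16 : ℤ) = fl (F i) 128 16 := by rw [v1, v2, a1]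
    have e : fl (F j) 128 16 = fl (F i) 128 16 := by exact_mod_cast this
    show Nat.beq _ _ = true
    rw [e]; exact Nat.beq_refl _
  unfold c3B
  rw [hc, hc2, hc1]
  show (Bool.rec true (Nat.ble (kA (F i)) 1) tie : Bool) = true
  rcases ht : tie with _ | _
  · rfl
  · show Nat.ble (kA (F i)) 1 = true
    rw [Nat.ble_eq]
    have k2 := (hF i).k
    rw [h.tie ht (i + 1)] at k2
    have : bt (cl s e1 (i + 1)) ≤ 1 := by
      cases cl s e1 (i + 1) <;> simp [bt]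
    have e0 : bt false = 0 := rfl
    rw [e0] at k2
    omega

lemma all_true {f : ℕ → Bool} (n : ℕ) (h : ∀ k < n, f k = true) : all f n = true := by
  induction n with
  | zero => rfl
  | succ n ih =>
    show (Bool.rec false (all f n) (f n) : Bool) = true
    rw [h n (by omega)]
    exact ih fun k hk => h k (by omega)

lemma SemB.c5_ok {Q1 Q2 den : ℕ} {K : ℤ} {t1 t2 t3 : ℤ} {tie : Bool} {s e1 e2 : ℤ → Bool}
    (h : SemB Q1 Q2 den t1 t2 t3 tie s e1 e2) {F : ℕ → ℕ}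
    (hF : ∀ i : ℕ, SmFB den K t1 t2 t3 s e1 e2 (i + 2) (F i)) (L : ℕ → ℕ) (i : ℕ)
    (hL : Inv F kA L) : c5B L (F i) = true := by
  refine all_true _ ?_
  intro k _
  refine chk_true hL ?_
  intro j _
  have tj := (hF j).t
  have ti := (hF i).t
  have vj := (hF j).v
  have vi := (hF i).v
  have R1 := h.R (i + 2) (j + 2)
  have R2 := h.R (j + 2) (i + 2)
  unfold rB
  have A : (Bool.rec true
      (Nat.ble (Nat.add (Nat.mul 57 (Nat.sub (fl (F j) 8 64) (fl (F i) 8 64)))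
        (Nat.mul 10 (Nat.div (F i) 512))) (Nat.mul 10 (Nat.div (F j) 512)))
      (Nat.ble (fl (F i) 8 64) (fl (F j) 8 64)) : Bool) = true := by
    rcases hb : Nat.ble (fl (F i) 8 64) (fl (F j) 8 64) with _ | _
    · rfl
    · show Nat.ble _ _ = true
      rw [Nat.ble_eq] at hb ⊢
      show 57 * (fl (F j) 8 64 - fl (F i) 8 64) + 10 * Nat.div (F i) 512 ≤ 10 * Nat.div (F j) 512
      have := R2 (by omega)
      omega
  have B : (Bool.rec true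
      (Nat.ble (Nat.add (Nat.mul 57 (Nat.sub (fl (F i) 8 64) (fl (F j) 8 64)))
        (Nat.mul 10 (Nat.div (F j) 512))) (Nat.mul 10 (Nat.div (F i) 512)))
      (Nat.ble (fl (F j) 8 64) (fl (F i) 8 64)) : Bool) = true := by
    rcases hb : Nat.ble (fl (F j) 8 64) (fl (F i) 8 64) with _ | _
    · rfl
    · show Nat.ble _ _ = true
      rw [Nat.ble_eq] at hb ⊢
      show 57 * (fl (F i) 8 64 - fl (F j) 8 64) + 10 * Nat.div (F j) 512 ≤ 10 * Nat.div (F i) 512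
      have := R1 (by omega)
      omega
  rw [A, B]

/-- success of the search gives a repetition of four consecutive letters at a good distance -/
theorem SemB.sound {Q1 Q2 den τ1 τ2 τ3 : ℕ} {t1 t2 t3 : ℤ} {tie : Bool} {s e1 e2 : ℤ → Bool}
    (h : SemB Q1 Q2 den t1 t2 t3 tie s e1 e2) (P : ParB Q1 Q2 den τ1 τ2 τ3 t1 t2 t3)
    {Tb T : ℕ} (hTb : IsTabB Tb)
    (hT : ∀ c < 512, rd T c = gB Q1 Q2 den den τ1 τ2 τ3 (rd Tb c))
    (hrun : start 8 (rd T) kA (c3B tie) (smB den) kA c5B 20 = true) :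
    ∃ a P : ℕ, P ∈ ({1, 2, 3, 4, 6, 8} : Finset ℕ) ∧
      ∀ t : ℕ, t < 4 → s (a + P + t) = s (a + t) ∧ e1 (a + P + t) = e1 (a + t) ∧
        e2 (a + P + t) = e2 (a + t) := by
  have hE : ∀ i : ℕ, FldB Q1 Q2 den (3 * (den + τ1 + τ2 + τ3) + den) t1 t2 t3 s e1 e2 (i + 1)
      (En (rd T) (lts s e1 e2) i) := by
    intro i
    have e : En (rd T) (lts s e1 e2) i
        = gB Q1 Q2 den den τ1 τ2 τ3 (rd Tb (W3 (lts s e1 e2) i)) := hT _ (W3_lt s e1 e2 i)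
    rw [e]
    exact fldB_of P (fldB0 hTb s e1 e2 i)
  have hS : ∀ i : ℕ, SmFB den (3 * (den + τ1 + τ2 + τ3) + den + 2 * den) t1 t2 t3 s e1 e2 (i + 2)
      (Sm (rd T) (smB den) (lts s e1 e2) i) := by
    intro i
    refine smB_fields (Q1 := Q1) (Q2 := Q2) ?_ ?_ ?_
    · have := hE i
      rwa [show (i : ℤ) + 2 - 1 = i + 1 by ring]
    · have := hE (i + 1)
      rwa [show ((i + 1 : ℕ) : ℤ) + 1 = i + 2 by push_cast; ring] at this
    · have := hE (i + 2)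
      rwa [show ((i + 2 : ℕ) : ℤ) + 1 = i + 2 + 1 by push_cast; ring] at this
  have h0 : lts s e1 e2 0 = 0 := by
    unfold lts
    rw [show ((0 : ℕ) : ℤ) = 0 from rfl, h.s0, h.e10, h.e20]; rfl
  obtain ⟨a, j, hj, hW⟩ := start_sound hrun (σ := lts s e1 e2) (fun i => lt_lt _ _ _) le_rfl h0
    (fun L i hL => h.c3_ok hE L i hL) (fun L i hL => h.c5_ok hS L i hL)
  refine ⟨a, j, good_spec hj, ?_⟩
  obtain ⟨w0, w1, w2, w3⟩ := W4_inj (σ := lts s e1 e2) (fun i => lt_lt _ _ _) hW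
  intro t ht
  have key : lts s e1 e2 (a + j + t) = lts s e1 e2 (a + t) := by
    interval_cases t
    · exact w0
    · exact w1
    · exact w2
    · exact w3
  have := lt_inj key
  push_cast at this
  exact this

end Pool.Agent.Henon88
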